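import Pool.Agent.H276R2.Gn.Spec

/-!
# Task AM (helper81): approximate solutions from the iterates
-/

set_option autoImplicit false

namespace Pool.Agent.H276R2.Gn

open Finset Real

/-- the matrix `Ψ = 2 J + P(G)` -/
noncomputable def am_Psi (p : ℝ) (D : ℕ) (c : ℕ → ℝ) (m n : ℕ) (σ : Cfg n) : Mat n :=
  (2 : ℝ) • Jn n + Polynomial.aeval (Gm p D c m n σ) (PP D c)

/-- the matrix `B` -/
noncomputable def am_B (p : ℝ) (D : ℕ) (c : ℕ → ℝ) (m n : ℕ) (σ : Cfg n) : Mat n :=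
  Matrix.of fun i j => if i = j then 1 else
    if σ s(i, j) = true then am_Psi p D c m n σ i j else 0

/-- the diagonal of `Ψ` -/
noncomputable def am_d (p : ℝ) (D : ℕ) (c : ℕ → ℝ) (m n : ℕ) (σ : Cfg n) : Mat n :=
  Matrix.diagonal fun i => am_Psi p D c m n σ i i

/-- the error matrix -/
noncomputable def am_Y (p : ℝ) (D : ℕ) (c : ℕ → ℝ) (R : Polynomial ℝ) (η : ℝ) (m n : ℕ)
    (σ : Cfg n) : Mat n :=
  (-1 : ℝ) • Polynomial.aeval (Gm p D c m n σ) R +
    (1 / 2 * √(1 - η ^ 2) * sP D c) • (Gm p D c (m + 1) n σ - Gm p D c m n σ) -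
    (1 / 2 * (1 - η)) • am_d p D c m n σ

theorem am_sP_pos (D : ℕ) (c : ℕ → ℝ) : 0 < sP D c := by
  unfold sP
  apply Real.sqrt_pos.mpr
  positivity

theorem am_step (p : ℝ) (D : ℕ) (c : ℕ → ℝ) (m n : ℕ) (σ : Cfg n) :
    sP D c • Gm p D c (m + 1) n σ = Tm p σ (am_Psi p D c m n σ) := by
  have hS := am_sP_pos D c
  show sP D c • Stp p D c 2 (sP D c) (Gm p D c m) n σ = _
  unfold Stp am_Psi
  rw [smul_smul, mul_one_div_cancel hS.ne', one_smul, Tm_add, Tm_smul, Tm_Jn]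

theorem am_ind (η : ℝ) (h0 : 0 < η) (h1 : η ≤ 1 / 4) {n : ℕ} (σ : Cfg n) (e : Sym2 (Fin n))
    (he : ¬ e.IsDiag) : (if σ e = true then (1 : ℝ) else 0) =
      1 / 2 * (1 - η) + 1 / 2 * √(1 - η ^ 2) * om ((1 - η) / 2) σ e := by
  have ha : (0 : ℝ) < 1 - η := by linarith
  have hb : (0 : ℝ) < 1 + η := by linarith
  have e1 : √(1 - η ^ 2) = √(1 - η) * √(1 + η) := by
    rw [← Real.sqrt_mul ha.le]; congr 1; ring
  have sa : √(1 - η) * √(1 - η) = 1 - η := Real.mul_self_sqrt ha.le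
  have sb : √(1 + η) * √(1 + η) = 1 + η := Real.mul_self_sqrt hb.le
  have sa0 : √(1 - η) ≠ 0 := (Real.sqrt_pos.mpr ha).ne'
  have sb0 : √(1 + η) ≠ 0 := (Real.sqrt_pos.mpr hb).ne'
  unfold om
  rw [if_neg he, e1]
  by_cases h : σ e = true
  · rw [if_pos h, if_pos h]
    have : (1 - (1 - η) / 2) / ((1 - η) / 2) = (1 + η) / (1 - η) := by
      field_simp; ring
    rw [this, Real.sqrt_div hb.le]
    field_simp
    nlinarith [sa, sb]
  · rw [if_neg h, if_neg h]
    have : (1 - η) / 2 / (1 - (1 - η) / 2) = (1 - η) / (1 + η) := by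
      rw [show 1 - (1 - η) / 2 = (1 + η) / 2 by ring]
      field_simp
    rw [this, Real.sqrt_div ha.le]
    field_simp
    nlinarith [sa, sb]

theorem am_B_eq (D : ℕ) (c : ℕ → ℝ) (η : ℝ) (h0 : 0 < η) (h1 : η ≤ 1 / 4) (m n : ℕ) (σ : Cfg n) :
    am_B ((1 - η) / 2) D c m n σ = 1 + (1 / 2 * (1 - η)) • am_Psi ((1 - η) / 2) D c m n σ -
      (1 / 2 * (1 - η)) • am_d ((1 - η) / 2) D c m n σ +
      (1 / 2 * √(1 - η ^ 2) * sP D c) • Gm ((1 - η) / 2) D c (m + 1) n σ := by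
  rw [mul_smul (1 / 2 * √(1 - η ^ 2)) (sP D c) (Gm ((1 - η) / 2) D c (m + 1) n σ), am_step]
  ext i j
  by_cases h : i = j
  · subst h
    have : Tm ((1 - η) / 2) σ (am_Psi ((1 - η) / 2) D c m n σ) i i = 0 := by
      simp [Tm, om_diag]
    simp [am_B, am_d, this]
  · have h2 := am_ind η h0 h1 σ s(i, j) (by simpa using h)
    have h3 : am_B ((1 - η) / 2) D c m n σ i j =
        (if σ s(i, j) = true then (1 : ℝ) else 0) * am_Psi ((1 - η) / 2) D c m n σ i j := by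
      simp only [am_B, Matrix.of_apply, if_neg h]
      split_ifs <;> simp
    rw [h3, h2]
    simp only [Matrix.add_apply, Matrix.sub_apply, Matrix.smul_apply, smul_eq_mul, am_d,
      Matrix.diagonal_apply_ne _ h, Matrix.one_apply_ne h, Tm, Matrix.of_apply]
    ring

theorem am_Psi_transpose (p : ℝ) (D : ℕ) (c : ℕ → ℝ) (m n : ℕ) (σ : Cfg n)
    (hG : (Gm p D c m n σ).transpose = Gm p D c m n σ) :
    (am_Psi p D c m n σ).transpose = am_Psi p D c m n σ := by
  unfold am_Psi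
  rw [Matrix.transpose_add, Matrix.transpose_smul, aeval_transpose _ hG]
  congr 1

/-- an error matrix of small Frobenius norm gives an approximate solution -/
theorem am_approx (D : ℕ) (c : ℕ → ℝ) (R : Polynomial ℝ) (η δ : ℝ) (h0 : 0 < η) (h1 : η ≤ 1 / 4)
    (m n : ℕ) (σ : Cfg n)
    (hG : (Gm ((1 - η) / 2) D c m n σ).transpose = Gm ((1 - η) / 2) D c m n σ)
    (hH : (Gm ((1 - η) / 2) D c (m + 1) n σ).transpose = Gm ((1 - η) / 2) D c (m + 1) n σ)
    (hx : ∀ x : ℝ, 0 ≤ 1 + 1 / 2 * ((1 - η) * (PP D c).eval x + √(1 - η ^ 2) * sP D c * x) +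
      3 * η + R.eval x)
    (hY : fro (am_Y ((1 - η) / 2) D c R η m n σ) ≤ δ * n) : ApproxM η δ n σ := by
  refine ⟨am_B ((1 - η) / 2) D c m n σ, am_Y ((1 - η) / 2) D c R η m n σ, ?_, ?_, ?_, ?_, hY, ?_⟩
  · have hP := am_Psi_transpose ((1 - η) / 2) D c m n σ hG
    ext i j
    simp only [Matrix.transpose_apply, am_B, Matrix.of_apply]
    have e1 : am_Psi ((1 - η) / 2) D c m n σ j i = am_Psi ((1 - η) / 2) D c m n σ i j := by
      conv_rhs => rw [← hP]
      rfl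
    rw [e1, Sym2.eq_swap]
    by_cases h : i = j
    · rw [if_pos h, if_pos h.symm]
    · rw [if_neg h, if_neg (Ne.symm h)]
  · unfold am_Y
    rw [Matrix.transpose_sub, Matrix.transpose_add, Matrix.transpose_smul, Matrix.transpose_smul,
      Matrix.transpose_smul, Matrix.transpose_sub, aeval_transpose _ hG, hG, hH]
    unfold am_d
    rw [Matrix.diagonal_transpose]
  · intro i
    simp [am_B]
  · intro i j hij hσ
    simp [am_B, hij, hσ]
  · have key : am_B ((1 - η) / 2) D c m n σ + (3 * η) • (1 : Mat n) - (1 - η) • Jn n -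
        am_Y ((1 - η) / 2) D c R η m n σ = Polynomial.aeval (Gm ((1 - η) / 2) D c m n σ)
          (Polynomial.C (1 + 3 * η) + Polynomial.C (1 / 2 * (1 - η)) * PP D c +
            Polynomial.C (1 / 2 * √(1 - η ^ 2) * sP D c) * Polynomial.X + R) := by
      rw [am_B_eq D c η h0 h1]
      simp only [map_add, map_mul, Polynomial.aeval_C, Polynomial.aeval_X, am_Y, am_Psi,
        Algebra.algebraMap_eq_smul_one, smul_mul_assoc, one_mul]
      module
    rw [key]
    apply psd_aeval _ hG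
    intro x
    have := hx x
    simp only [Polynomial.eval_add, Polynomial.eval_mul, Polynomial.eval_C, Polynomial.eval_X]
    linarith

theorem am_fro3 {n : ℕ} (a b d : ℝ) (X Y Z : Mat n) :
    fro (a • X + b • Y - d • Z) ≤ 3 * (a ^ 2 * fro X + b ^ 2 * fro Y + d ^ 2 * fro Z) := by
  unfold fro
  simp only [Finset.mul_sum, ← Finset.sum_add_distrib]
  refine Finset.sum_le_sum fun i _ => Finset.sum_le_sum fun j _ => ?_
  simp only [Matrix.add_apply, Matrix.sub_apply, Matrix.smul_apply, smul_eq_mul]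
  nlinarith [sq_nonneg (a * X i j - b * Y i j), sq_nonneg (a * X i j + d * Z i j),
    sq_nonneg (b * Y i j + d * Z i j)]

theorem am_fro_d (p : ℝ) (D : ℕ) (c : ℕ → ℝ) (m n : ℕ) (hn : 0 < n) (σ : Cfg n) :
    fro (am_d p D c m n σ) ≤
      8 + 2 * ∑ i, (Polynomial.aeval (Gm p D c m n σ) (PP D c) i i) ^ 2 := by
  have hn' : (0 : ℝ) < n := by exact_mod_cast hn
  have e : fro (am_d p D c m n σ) = ∑ i, (am_Psi p D c m n σ i i) ^ 2 := by
    unfold fro am_d
    refine Finset.sum_congr rfl fun i _ => ?_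
    rw [Finset.sum_eq_single i]
    · rw [Matrix.diagonal_apply_eq]
    · intro j _ hj
      rw [Matrix.diagonal_apply_ne _ (Ne.symm hj)]
      ring
    · simp
  rw [e]
  have h8 : (8 : ℝ) = ∑ _i : Fin n, 8 / (n : ℝ) := by
    rw [Finset.sum_const, Finset.card_univ, Fintype.card_fin, nsmul_eq_mul,
      mul_div_cancel₀ _ hn'.ne']
  rw [h8, Finset.mul_sum, ← Finset.sum_add_distrib]
  refine Finset.sum_le_sum fun i _ => ?_
  simp only [am_Psi, Matrix.add_apply, Matrix.smul_apply, smul_eq_mul, Jn, Matrix.of_apply]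
  have hs : √(n : ℝ) ^ 2 = n := Real.sq_sqrt hn'.le
  have hs0 : 0 < √(n : ℝ) := Real.sqrt_pos.mpr hn'
  have : 8 / (n : ℝ) = 2 * (2 * (1 / √(n : ℝ))) ^ 2 := by
    have h1 : (1 / √(n : ℝ)) ^ 2 = 1 / n := by rw [div_pow, one_pow, hs]
    rw [div_eq_mul_one_div 8 (n : ℝ), ← h1]
    ring
  rw [this]
  nlinarith [sq_nonneg (2 * (1 / √(n : ℝ)) - (Polynomial.aeval (Gm p D c m n σ) (PP D c) i i))]

/-- expectation of the Frobenius norm of the error -/
theorem am_exp (gl : S_GL) (w5 : S_W5) (D : ℕ) (c : ℕ → ℝ) (R : Polynomial ℝ) (η : ℝ) (m : ℕ)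
    (J : Type) [Fintype J] (tr : J → Chn) (α β : J → ℝ) (h0 : 0 < η) (h1 : η ≤ 1 / 4)
    (hc0 : c 0 = 0) (st : St ((1 - η) / 2) D c m tr α β) :
    ∃ K : ℝ, ∀ n : ℕ, 0 < n → Ep n ((1 - η) / 2) (fun σ => fro (am_Y ((1 - η) / 2) D c R η m n σ)) ≤
      (3 * scI (fun x => (R.eval x) ^ 2) + 3 / 2 * sP D c ^ 2 * (1 - rho D c m)) * n +
        K * √n := by
  have hp : 0 < (1 - η) / 2 := by linarith
  have hp1 : (1 - η) / 2 < 1 := by linarith
  set p := (1 - η) / 2 with hpdef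
  obtain ⟨g1, g2⟩ := gl p J tr α (Gm p D c m) hp hp1 st.aα st.nα
  obtain ⟨K1, hK1⟩ := g1 (R ^ 2)
  obtain ⟨K2, hK2⟩ := g2 D c hc0
  obtain ⟨L1, hL1⟩ := w5 p J tr α α (Gm p D c m) (Gm p D c m) hp hp1 st.aα st.aα
  obtain ⟨L2, hL2⟩ := w5 p J tr α β (Gm p D c m) (Gm p D c (m + 1)) hp hp1 st.aα st.aβ
  obtain ⟨L3, hL3⟩ := w5 p J tr β β (Gm p D c (m + 1)) (Gm p D c (m + 1)) hp hp1 st.aβ st.aβ
  set S := sP D c with hS
  have hS0 : 0 < S := am_sP_pos D c
  have hK1' : 0 ≤ K1 := by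
    have := hK1 1 one_pos
    have h3 := Ep_nonneg 1 p hp.le hp1.le _ (fun σ => sq_nonneg
      ((Polynomial.aeval (Gm p D c m 1 σ) (R ^ 2)).trace / (1 : ℕ) -
        scI (fun x => (R ^ 2).eval x)))
    simpa using h3.trans this
  refine ⟨3 * √K1 + 3 / 4 * S ^ 2 * (|L1| + 2 * |L2| + |L3|) + 3 * (8 + 2 * |K2|), ?_⟩
  intro n hn
  have hn' : (0 : ℝ) < n := by exact_mod_cast hn
  have hs : √(n : ℝ) ^ 2 = n := Real.sq_sqrt hn'.le
  have hs0 : 0 < √(n : ℝ) := Real.sqrt_pos.mpr hn'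
  have hs1 : 1 ≤ √(n : ℝ) := by
    rw [Real.one_le_sqrt]
    exact_mod_cast hn
  have hsym := st.aα.2.1
  have hsymH := st.aβ.2.1
  -- the three terms
  have t1 : Ep n p (fun σ => fro (Polynomial.aeval (Gm p D c m n σ) R)) ≤
      n * (scI (fun x => (R.eval x) ^ 2)) + √K1 * √n := by
    have e1 : (fun σ => fro (Polynomial.aeval (Gm p D c m n σ) R)) =
        fun σ => n * ((Polynomial.aeval (Gm p D c m n σ) (R ^ 2)).trace / n -
          scI (fun x => (R ^ 2).eval x)) + n * scI (fun x => (R ^ 2).eval x) := by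
      funext σ
      rw [fro_sym _ (aeval_transpose _ (hsym n σ) R), map_pow]
      field_simp
      ring
    rw [e1, Ep_add, Ep_mul, Ep_const]
    have e2 : (Ep n p (fun σ => (Polynomial.aeval (Gm p D c m n σ) (R ^ 2)).trace / n -
          scI (fun x => (R ^ 2).eval x))) ≤ √(K1 / n) := by
      apply Real.le_sqrt_of_sq_le
      exact (sq_Ep_le n p hp.le hp1.le _).trans (hK1 n hn)
    have e3 : (fun x => (R ^ 2).eval x) = fun x => (R.eval x) ^ 2 := by
      funext x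
      simp
    rw [e3] at e2 ⊢
    have e4 : (n : ℝ) * √(K1 / n) = √K1 * √n := by
      rw [Real.sqrt_div hK1']
      field_simp
      rw [hs]
      ring
    have e5 := mul_le_mul_of_nonneg_left e2 hn'.le
    rw [e4] at e5
    linarith
  have t2 : Ep n p (fun σ => fro (Gm p D c (m + 1) n σ - Gm p D c m n σ)) ≤
      2 * (1 - rho D c m) * n + (|L1| + 2 * |L2| + |L3|) * √n := by
    have e1 : (fun σ => fro (Gm p D c (m + 1) n σ - Gm p D c m n σ)) =
        fun σ => n * (((Gm p D c (m + 1) n σ * Gm p D c (m + 1) n σ).trace / n +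
          (Gm p D c m n σ * Gm p D c m n σ).trace / n) -
          2 * ((Gm p D c m n σ * Gm p D c (m + 1) n σ).trace / n)) := by
      funext σ
      have hsub : (Gm p D c (m + 1) n σ - Gm p D c m n σ).transpose =
          Gm p D c (m + 1) n σ - Gm p D c m n σ := by
        rw [Matrix.transpose_sub, hsymH, hsym]
      rw [fro_sym _ hsub, pow_two, Matrix.sub_mul, Matrix.mul_sub, Matrix.mul_sub,
        Matrix.trace_sub, Matrix.trace_sub, Matrix.trace_sub,
        Matrix.trace_mul_comm (Gm p D c (m + 1) n σ) (Gm p D c m n σ)]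
      field_simp
      ring
    rw [e1, Ep_mul, Ep_sub, Ep_add, Ep_mul]
    have a1 := (abs_le.mp (hL1 n hn)).2
    have a2 := (abs_le.mp (hL2 n hn)).1
    have a3 := (abs_le.mp (hL3 n hn)).2
    rw [st.nα] at a1
    rw [st.nβ] at a3
    rw [st.cov] at a2
    have b1 : n * (L1 / √n) ≤ |L1| * √n := by
      have : (n : ℝ) * (L1 / √n) = L1 * √n := by
        field_simp
        rw [hs]
        ring
      rw [this]
      exact mul_le_mul_of_nonneg_right (le_abs_self _) hs0.le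
    have b2 : n * (L2 / √n) ≤ |L2| * √n := by
      have : (n : ℝ) * (L2 / √n) = L2 * √n := by
        field_simp
        rw [hs]
        ring
      rw [this]
      exact mul_le_mul_of_nonneg_right (le_abs_self _) hs0.le
    have b3 : n * (L3 / √n) ≤ |L3| * √n := by
      have : (n : ℝ) * (L3 / √n) = L3 * √n := by
        field_simp
        rw [hs]
        ring
      rw [this]
      exact mul_le_mul_of_nonneg_right (le_abs_self _) hs0.le
    have c1 := mul_le_mul_of_nonneg_left a1 hn'.le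
    have c2 := mul_le_mul_of_nonneg_left a2 hn'.le
    have c3 := mul_le_mul_of_nonneg_left a3 hn'.le
    have hN : (n : ℝ) * -(L2 / √n) = -(n * (L2 / √n)) := by ring
    rw [hN] at c2
    linarith
  have t3 : Ep n p (fun σ => fro (am_d p D c m n σ)) ≤ 8 + 2 * |K2| := by
    calc Ep n p (fun σ => fro (am_d p D c m n σ)) ≤ Ep n p (fun σ => 8 + 2 *
          ∑ i, (Polynomial.aeval (Gm p D c m n σ) (PP D c) i i) ^ 2) :=
          Ep_mono n p hp.le hp1.le _ _ (fun σ => am_fro_d p D c m n hn σ)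
      _ = 8 + 2 * Ep n p (fun σ =>
          ∑ i, (Polynomial.aeval (Gm p D c m n σ) (PP D c) i i) ^ 2) := by
          rw [Ep_add, Ep_const, Ep_mul]
      _ ≤ 8 + 2 * |K2| := by
          have := (hK2 n hn).trans (le_abs_self K2)
          linarith
  have nn2 : 0 ≤ Ep n p (fun σ => fro (Gm p D c (m + 1) n σ - Gm p D c m n σ)) :=
    Ep_nonneg n p hp.le hp1.le _ (fun σ => fro_nonneg _)
  have nn3 : 0 ≤ Ep n p (fun σ => fro (am_d p D c m n σ)) :=
    Ep_nonneg n p hp.le hp1.le _ (fun σ => fro_nonneg _)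
  have tot : Ep n p (fun σ => fro (am_Y p D c R η m n σ)) ≤
      3 * (Ep n p (fun σ => fro (Polynomial.aeval (Gm p D c m n σ) R)) +
        (1 / 2 * √(1 - η ^ 2) * S) ^ 2 *
          Ep n p (fun σ => fro (Gm p D c (m + 1) n σ - Gm p D c m n σ)) +
        (1 / 2 * (1 - η)) ^ 2 * Ep n p (fun σ => fro (am_d p D c m n σ))) := by
    calc Ep n p (fun σ => fro (am_Y p D c R η m n σ)) ≤
        Ep n p (fun σ => 3 * (fro (Polynomial.aeval (Gm p D c m n σ) R) +
        (1 / 2 * √(1 - η ^ 2) * S) ^ 2 * fro (Gm p D c (m + 1) n σ - Gm p D c m n σ) +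
        (1 / 2 * (1 - η)) ^ 2 * fro (am_d p D c m n σ))) := by
          refine Ep_mono n p hp.le hp1.le _ _ (fun σ => ?_)
          have := am_fro3 (-1) (1 / 2 * √(1 - η ^ 2) * S) (1 / 2 * (1 - η))
            (Polynomial.aeval (Gm p D c m n σ) R) (Gm p D c (m + 1) n σ - Gm p D c m n σ)
            (am_d p D c m n σ)
          unfold am_Y
          refine this.trans (le_of_eq ?_)
          norm_num
      _ = _ := by
          rw [Ep_mul, Ep_add, Ep_add, Ep_mul, Ep_mul]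
  have q1 : (1 / 2 * √(1 - η ^ 2) * S) ^ 2 ≤ 1 / 4 * S ^ 2 := by
    have : √(1 - η ^ 2) ^ 2 = 1 - η ^ 2 := Real.sq_sqrt (by nlinarith)
    have e : (1 / 2 * √(1 - η ^ 2) * S) ^ 2 = 1 / 4 * (√(1 - η ^ 2) ^ 2 * S ^ 2) := by ring
    rw [e, this]
    nlinarith [mul_nonneg (sq_nonneg η) (sq_nonneg S)]
  have q2 : (1 / 2 * (1 - η)) ^ 2 ≤ 1 := by nlinarith
  have r2 : (1 / 2 * √(1 - η ^ 2) * S) ^ 2 *
      Ep n p (fun σ => fro (Gm p D c (m + 1) n σ - Gm p D c m n σ)) ≤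
      1 / 4 * S ^ 2 * (2 * (1 - rho D c m) * n + (|L1| + 2 * |L2| + |L3|) * √n) := by
    calc _ ≤ 1 / 4 * S ^ 2 *
        Ep n p (fun σ => fro (Gm p D c (m + 1) n σ - Gm p D c m n σ)) :=
          mul_le_mul_of_nonneg_right q1 nn2
      _ ≤ _ := mul_le_mul_of_nonneg_left t2 (by positivity)
  have r3 : (1 / 2 * (1 - η)) ^ 2 * Ep n p (fun σ => fro (am_d p D c m n σ)) ≤
      (8 + 2 * |K2|) * √n := by
    calc _ ≤ 1 * Ep n p (fun σ => fro (am_d p D c m n σ)) := mul_le_mul_of_nonneg_right q2 nn3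
      _ ≤ 8 + 2 * |K2| := by rw [one_mul]; exact t3
      _ ≤ (8 + 2 * |K2|) * √n := le_mul_of_one_le_right (by positivity) hs1
  calc _ ≤ _ := tot
    _ ≤ 3 * ((n * (scI (fun x => (R.eval x) ^ 2)) + √K1 * √n) +
        1 / 4 * S ^ 2 * (2 * (1 - rho D c m) * n + (|L1| + 2 * |L2| + |L3|) * √n) +
        (8 + 2 * |K2|) * √n) := by linarith
    _ = _ := by ring

theorem t_AM (gl : S_GL) (w5 : S_W5) : S_AM := by
  intro D c R η δ m J _ tr α β h0 h1 hδ hc0 hc1 st hx hsmall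
  have hp : 0 < (1 - η) / 2 := by linarith
  have hp1 : (1 - η) / 2 < 1 := by linarith
  obtain ⟨K, hK⟩ := am_exp gl w5 D c R η m J tr α β h0 h1 hc0 st
  obtain ⟨n0, hn0⟩ := exists_nat_gt ((2 * |K| / δ ^ 2) ^ 2)
  refine ⟨n0 + 1, fun n hn => ?_⟩
  have hnpos : 0 < n := by omega
  have hn' : (0 : ℝ) < n := by exact_mod_cast hnpos
  have hs : √(n : ℝ) ^ 2 = n := Real.sq_sqrt hn'.le
  have hs0 : 0 < √(n : ℝ) := Real.sqrt_pos.mpr hn'
  have hbig : 2 * |K| / δ ^ 2 ≤ √(n : ℝ) := by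
    apply Real.le_sqrt_of_sq_le
    have : (n0 : ℝ) ≤ n := by exact_mod_cast (by omega : n0 ≤ n)
    linarith
  have hKn : K * √n ≤ δ ^ 2 / 2 * n := by
    have h2 : |K| ≤ δ ^ 2 / 2 * √n := by
      rw [div_le_iff₀ (by positivity)] at hbig
      linarith
    calc K * √n ≤ |K| * √n := mul_le_mul_of_nonneg_right (le_abs_self _) hs0.le
      _ ≤ (δ ^ 2 / 2 * √n) * √n := mul_le_mul_of_nonneg_right h2 hs0.le
      _ = δ ^ 2 / 2 * n := by rw [mul_assoc, ← pow_two, hs]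
  have hE := hK n hnpos
  have hE2 : Ep n ((1 - η) / 2) (fun σ => fro (am_Y ((1 - η) / 2) D c R η m n σ)) ≤
      δ ^ 2 * n := by
    have := mul_le_mul_of_nonneg_right hsmall hn'.le
    linarith
  have hM := Pp_markov n ((1 - η) / 2) hp.le hp1.le
    (fun σ => fro (am_Y ((1 - η) / 2) D c R η m n σ)) (fun σ => fro_nonneg _) (δ * n)
    (by positivity)
  have hM2 : Pp n ((1 - η) / 2) (fun σ => δ * n < fro (am_Y ((1 - η) / 2) D c R η m n σ)) ≤ δ := by
    refine hM.trans ?_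
    rw [div_le_iff₀ (by positivity)]
    calc _ ≤ δ ^ 2 * n := hE2
      _ = δ * (δ * n) := by ring
  have hN := Pp_not n ((1 - η) / 2) (fun σ => δ * n < fro (am_Y ((1 - η) / 2) D c R η m n σ))
  calc 1 - δ ≤ Pp n ((1 - η) / 2)
        (fun σ => ¬ (δ * n < fro (am_Y ((1 - η) / 2) D c R η m n σ))) := by
          rw [hN]; linarith
    _ ≤ Pp n ((1 - η) / 2) (ApproxM η δ n) := by
        refine Pp_mono n _ hp.le hp1.le _ _ (fun σ hσ => ?_)
        exact am_approx D c R η δ h0 h1 m n σ (st.aα.2.1 n σ) (st.aβ.2.1 n σ) hx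
          (not_lt.mp hσ)

end Pool.Agent.H276R2.Gn
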