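import Pool.Agent.H276R2.Gn.Spec

/-!
# Task BM: second moments of shape sums
-/

set_option autoImplicit false

namespace Pool.Agent.H276R2.Gn

open Finset Real

theorem bm_delta {n : ℕ} (A A' : Prop) [Decidable A] [Decidable A'] (a b a' b' : Fin n)
    (x y : ℝ) :
    ∑ i, ∑ j, (if A ∧ a = i ∧ b = j then x else 0) * (if A' ∧ a' = i ∧ b' = j then y else 0) =
      if A ∧ A' ∧ a = a' ∧ b = b' then x * y else 0 := by
  by_cases hA : A
  · by_cases hA' : A'
    · have h1 : ∀ i j, (if A ∧ a = i ∧ b = j then x else 0) *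
          (if A' ∧ a' = i ∧ b' = j then y else 0) =
          if a = i then (if b = j then (x * (if a' = i ∧ b' = j then y else 0)) else 0) else 0 := by
        intro i j
        by_cases h1 : a = i <;> by_cases h2 : b = j <;> simp [hA, hA', h1, h2]
      simp only [h1]
      rw [Finset.sum_comm]
      simp only [Finset.sum_ite_eq, Finset.mem_univ, if_true, hA, hA', true_and]
      by_cases h1 : a = a'
      · by_cases h2 : b = b'
        · simp [h1, h2]
        · have h3 : ¬ b' = b := fun h => h2 h.symm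
          simp [h2, h3]
      · have h3 : ¬ a' = a := fun h => h1 h.symm
        simp [h1, h3]
    · simp [hA']
  · simp [hA]

open Classical in
theorem bm_expand (p : ℝ) (H H' : Shp) (q q' n : ℕ) (σ : Cfg n) :
    ∑ i, ∑ j, Sh p H q n σ i j * Sh p H' q' n σ i j =
      (∑ v : H.X → Fin n, ∑ v' : H'.X → Fin n,
        if Function.Injective v ∧ Function.Injective v' ∧ v H.s = v' H'.s ∧ v H.t = v' H'.t then
          (∏ e ∈ H.E, om p σ (e.map v)) * ∏ e ∈ H'.E, om p σ (e.map v') else 0) /
        √n ^ (q + q') := by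
  have h1 : ∀ i j, Sh p H q n σ i j * Sh p H' q' n σ i j =
      (∑ v : H.X → Fin n, ∑ v' : H'.X → Fin n,
        (if Function.Injective v ∧ v H.s = i ∧ v H.t = j then
          ∏ e ∈ H.E, om p σ (e.map v) else 0) *
        (if Function.Injective v' ∧ v' H'.s = i ∧ v' H'.t = j then
          ∏ e ∈ H'.E, om p σ (e.map v') else 0)) / √n ^ (q + q') := by
    intro i j
    unfold Sh
    rw [Matrix.of_apply, Matrix.of_apply, div_mul_div_comm, ← pow_add, Finset.sum_mul_sum]
  simp only [h1, ← Finset.sum_div]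
  congr 1
  rw [Finset.sum_congr rfl (fun i _ => Finset.sum_comm)]
  rw [Finset.sum_comm]
  apply Finset.sum_congr rfl
  intro v _
  rw [Finset.sum_congr rfl (fun i _ => Finset.sum_comm)]
  rw [Finset.sum_comm]
  apply Finset.sum_congr rfl
  intro v' _
  exact bm_delta _ _ _ _ _ _ _ _

open Classical in
theorem bm_pair (p : ℝ) (hp : 0 < p) (hp1 : p < 1) (H H' : Shp) (n : ℕ) (v : H.X → Fin n)
    (v' : H'.X → Fin n) (hv : Function.Injective v) (hv' : Function.Injective v') :
    Ep n p (fun σ => (∏ e ∈ H.E, om p σ (e.map v)) * ∏ e ∈ H'.E, om p σ (e.map v')) =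
      if H.E.image (Sym2.map v) = H'.E.image (Sym2.map v') then 1 else 0 := by
  have hd : ∀ (X : Type) (E : Finset (Sym2 X)) (u : X → Fin n), Function.Injective u →
      (∀ e ∈ E, ¬ e.IsDiag) → ∀ e ∈ E.image (Sym2.map u), ¬ e.IsDiag := by
    intro X E u hu hE e he
    rw [Finset.mem_image] at he
    obtain ⟨f, hf, rfl⟩ := he
    rw [Sym2.isDiag_map hu]
    exact hE f hf
  rw [← Ep_om n p hp hp1 _ _ (hd _ _ v hv H.loopless) (hd _ _ v' hv' H'.loopless)]
  congr 1
  funext σ
  rw [Finset.prod_image (fun a _ b _ h => Sym2.map.injective hv h),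
    Finset.prod_image (fun a _ b _ h => Sym2.map.injective hv' h)]

theorem t_BM : S_BM := by
  classical
  intro p H H' q q' n hp hp1 hn
  have h1 : Ep n p (fun σ => ∑ i, ∑ j, Sh p H q n σ i j * Sh p H' q' n σ i j) =
      Ep n p (fun σ => (∑ v : H.X → Fin n, ∑ v' : H'.X → Fin n,
        if Function.Injective v ∧ Function.Injective v' ∧ v H.s = v' H'.s ∧ v H.t = v' H'.t then
          (∏ e ∈ H.E, om p σ (e.map v)) * ∏ e ∈ H'.E, om p σ (e.map v') else 0) /
        √n ^ (q + q')) := by
    congr 1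
    funext σ
    rw [bm_expand]
  rw [h1, Ep_div, Ep_sum]
  congr 1
  have h2 : ∀ v : H.X → Fin n, Ep n p (fun σ => ∑ v' : H'.X → Fin n,
        if Function.Injective v ∧ Function.Injective v' ∧ v H.s = v' H'.s ∧ v H.t = v' H'.t then
          (∏ e ∈ H.E, om p σ (e.map v)) * ∏ e ∈ H'.E, om p σ (e.map v') else 0) =
      ∑ v' : H'.X → Fin n, if Function.Injective v ∧ Function.Injective v' ∧ v H.s = v' H'.s ∧
        v H.t = v' H'.t ∧ H.E.image (Sym2.map v) = H'.E.image (Sym2.map v') then (1 : ℝ) else 0 := by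
    intro v
    rw [Ep_sum]
    apply Finset.sum_congr rfl
    intro v' _
    by_cases hc : Function.Injective v ∧ Function.Injective v' ∧ v H.s = v' H'.s ∧
        v H.t = v' H'.t
    · simp only [if_pos hc]
      rw [bm_pair p hp hp1 H H' n v v' hc.1 hc.2.1]
      obtain ⟨c1, c2, c3, c4⟩ := hc
      simp only [c1, c2, c3, c4, true_and]
    · simp only [if_neg hc]
      rw [Ep_const, if_neg]
      rintro ⟨c1, c2, c3, c4, _⟩
      exact hc ⟨c1, c2, c3, c4⟩
  rw [Finset.sum_congr rfl (fun v _ => h2 v), ← Fintype.sum_prod_type', Finset.card_filter]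
  push_cast
  apply Finset.sum_congr rfl
  intro x _
  congr 1

end Pool.Agent.H276R2.Gn
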