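import Pool.Agent.H276R2.Gn.Spec
set_option autoImplicit false
namespace Pool.Agent.H276R2.Gn
open Finset Real

theorem t_BN (sm : S_SM) : S_BN := by
  intro p hp hp1
  refine ⟨?_, ?_⟩
  · rintro f ⟨K, _, H, q, c, C, hc, hq, hf⟩
    choose D hD using fun k : K => sm p (H k) (q k) hp hp1
    refine ⟨(Fintype.card K : ℝ) * ∑ k, C ^ 2 * |D k|, fun n hn => ?_⟩
    have hn0 : (0 : ℝ) < (n : ℝ) := by exact_mod_cast hn
    have hn1 : (1 : ℝ) ≤ (n : ℝ) := by exact_mod_cast hn
    have h1 : ∀ k, Ep n p (fun σ => fro (Sh p (H k) (q k) n σ)) ≤ |D k| := by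
      intro k
      have h2 := hD k n hn
      have h3 : (n : ℝ) ^ (Fintype.card (H k).X + (H k).iso) ≤ (n : ℝ) ^ q k :=
        pow_le_pow_right₀ hn1 (hq k)
      have h4 : D k * (n : ℝ) ^ (Fintype.card (H k).X + (H k).iso) ≤ |D k| * (n : ℝ) ^ q k :=
        mul_le_mul (le_abs_self _) h3 (by positivity) (abs_nonneg _)
      exact le_of_mul_le_mul_right (h2.trans h4) (by positivity)
    have h2 : Ep n p (fun σ => fro (f n σ)) ≤
        Ep n p (fun σ => (Fintype.card K : ℝ) * ∑ k, C ^ 2 * fro (Sh p (H k) (q k) n σ)) := by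
      apply Ep_mono n p hp.le hp1.le
      intro σ
      rw [hf n hn σ]
      refine (fro_sum_le _ _).trans ?_
      rw [Finset.card_univ]
      apply mul_le_mul_of_nonneg_left _ (by positivity)
      apply Finset.sum_le_sum
      intro k _
      rw [fro_smul]
      apply mul_le_mul_of_nonneg_right _ (fro_nonneg _)
      have h5 := pow_le_pow_left₀ (abs_nonneg _) (hc k n) 2
      rwa [sq_abs] at h5
    refine h2.trans ?_
    rw [Ep_mul, Ep_sum]
    apply mul_le_mul_of_nonneg_left _ (by positivity)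
    apply Finset.sum_le_sum
    intro k _
    rw [Ep_mul]
    exact mul_le_mul_of_nonneg_left (h1 k) (by positivity)
  · intro B
    obtain ⟨C, hC⟩ := sm p B.shp B.L hp hp1
    refine ⟨C, fun n hn => ?_⟩
    have hn0 : (0 : ℝ) < (n : ℝ) := by exact_mod_cast hn
    have h1 := hC n hn
    rw [shp_card, shp_iso] at h1
    have h2 : Ep n p (fun σ => fro (Fc p B n σ)) = Ep n p (fun σ => fro (Sh p B.shp B.L n σ)) := by
      congr 1
      funext σ
      rw [Fc_eq_Sh]
    rw [h2]
    have h3 : C * (n : ℝ) ^ (B.L + 1 + 0) = C * n * (n : ℝ) ^ B.L := by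
      rw [Nat.add_zero, pow_succ]
      ring
    rw [h3] at h1
    exact le_of_mul_le_mul_right h1 (by positivity)

end Pool.Agent.H276R2.Gn
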