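import Pool.Agent.H276R2.Gn.Spec
set_option autoImplicit false

/-!
# Task CL: negligible families are closed under products
-/

namespace Pool.Agent.H276R2.Gn
open Finset Real

/-- A product of two shape sums is negligible if the exponents of all product shapes are small. -/
theorem cl_pair (pl : S_PL) (p : ℝ) (hp : 0 < p) (hp1 : p < 1) (H₁ H₂ : Shp) (q₁ q₂ : ℕ)
    (h : ∀ (ξ : SPat H₁ H₂) (R : Finset (Sym2 ξ.V)), ξ.OK →
      Fintype.card (prodShp H₁ H₂ ξ R).X + (prodShp H₁ H₂ ξ R).iso ≤ q₁ + q₂) :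
    BadF p (fun n σ => Sh p H₁ q₁ n σ * Sh p H₂ q₂ n σ) := by
  have key := fun (n : ℕ) (_ : 0 < n) (σ : Cfg n) => pl p H₁ H₂ q₁ q₂ n σ hp hp1
  refine BadF_congr ?_ key
  refine BadF_sum _ _ (fun ξ _ => ?_)
  by_cases hξ : ξ.OK
  · simp only [hξ, if_true]
    refine BadF_sum _ _ (fun R _ => ?_)
    exact BadF_smul _ (BadF_Sh _ _ (h ξ R hξ))
  · simp only [hξ, if_false]
    exact BadF_zero

theorem t_CL (pl : S_PL) (xl : S_XL) : S_CL := by
  intro p hp hp1 f g hf hg
  obtain ⟨K, iK, H, q, c, C, hc, hq, hfe⟩ := hf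
  obtain ⟨K', iK', H', q', c', C', hc', hq', hge⟩ := hg
  refine ⟨?_, fun B => ⟨?_, ?_⟩⟩
  · have key : BadF p (fun n σ => ∑ k ∈ (univ : Finset K), ∑ l ∈ (univ : Finset K'),
        (c k n * c' l n) • (Sh p (H k) (q k) n σ * Sh p (H' l) (q' l) n σ)) := by
      refine BadF_sum _ _ (fun k _ => BadF_sum _ _ (fun l _ => ?_))
      refine BadF_smul' (fun n => c k n * c' l n) (C * C') (fun n => ?_) ?_
      · rw [abs_mul]
        exact mul_le_mul (hc k n) (hc' l n) (abs_nonneg _) (le_trans (abs_nonneg _) (hc k n))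
      · refine cl_pair pl p hp hp1 _ _ _ _ (fun ξ R hξ => ?_)
        have h1 := (xl _ _ ξ R hξ).1
        have h2 := hq k
        have h3 := hq' l
        omega
    refine BadF_congr key (fun n hn σ => ?_)
    rw [hfe n hn σ, hge n hn σ, Finset.sum_mul]
    refine Finset.sum_congr rfl (fun k _ => ?_)
    rw [Finset.mul_sum]
    refine Finset.sum_congr rfl (fun l _ => ?_)
    rw [smul_mul_smul_comm]
  · have key : BadF p (fun n σ => ∑ k ∈ (univ : Finset K),
        (c k n) • (Sh p (H k) (q k) n σ * Sh p B.shp B.L n σ)) := by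
      refine BadF_sum _ _ (fun k _ => ?_)
      refine BadF_smul' (fun n => c k n) C (fun n => hc k n) ?_
      refine cl_pair pl p hp hp1 _ _ _ _ (fun ξ R hξ => ?_)
      have h1 := (xl _ _ ξ R hξ).2 (Or.inr (shp_linked B))
      have h2 := hq k
      have h3 := shp_card B
      have h4 := shp_iso B
      omega
    refine BadF_congr key (fun n hn σ => ?_)
    rw [hfe n hn σ, Fc_eq_Sh, Finset.sum_mul]
    refine Finset.sum_congr rfl (fun k _ => ?_)
    rw [smul_mul_assoc]
  · have key : BadF p (fun n σ => ∑ k ∈ (univ : Finset K),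
        (c k n) • (Sh p B.shp B.L n σ * Sh p (H k) (q k) n σ)) := by
      refine BadF_sum _ _ (fun k _ => ?_)
      refine BadF_smul' (fun n => c k n) C (fun n => hc k n) ?_
      refine cl_pair pl p hp hp1 _ _ _ _ (fun ξ R hξ => ?_)
      have h1 := (xl _ _ ξ R hξ).2 (Or.inl (shp_linked B))
      have h2 := hq k
      have h3 := shp_card B
      have h4 := shp_iso B
      omega
    refine BadF_congr key (fun n hn σ => ?_)
    rw [hfe n hn σ, Fc_eq_Sh, Finset.mul_sum]
    refine Finset.sum_congr rfl (fun k _ => ?_)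
    rw [mul_smul_comm]

end Pool.Agent.H276R2.Gn
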