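import Pool.Agent.H276R2.Gn.Spec

/-!
Task D: the profile polynomial.
-/

set_option autoImplicit false

namespace Pool.Agent.H276R2.Gn

open Finset Real

/-- the Chebyshev coefficients of the profile -/
noncomputable def d_c (d : ℕ) : ℝ :=
  if d % 2 = 0 ∧ 2 ≤ d then 6 * (-1 : ℝ) ^ (d / 2 + 1) / (((d : ℝ) - 1) * ((d : ℝ) + 3)) else 0

lemma d_c_zero : d_c 0 = 0 := by
  unfold d_c
  rw [if_neg (by omega)]

lemma d_c_odd (k : ℕ) : d_c (2 * k + 1) = 0 := by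
  unfold d_c
  rw [if_neg (by omega)]

lemma d_c_even (k : ℕ) :
    d_c (2 * k + 2) = 6 * (-1 : ℝ) ^ k / ((2 * (k : ℝ) + 1) * (2 * (k : ℝ) + 5)) := by
  unfold d_c
  rw [if_pos ⟨by omega, by omega⟩]
  have h1 : (2 * k + 2) / 2 + 1 = k + 2 := by omega
  rw [h1, pow_add]
  push_cast
  rw [show (2 * (k : ℝ) + 2 - 1) = 2 * (k : ℝ) + 1 by ring,
    show (2 * (k : ℝ) + 2 + 3) = 2 * (k : ℝ) + 5 by ring]
  norm_num

lemma d_PP_zero : PP 0 d_c = 0 := by
  unfold PP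
  simp [d_c_zero]

lemma d_PP_succ (K : ℕ) : PP (2 * (K + 1)) d_c =
    PP (2 * K) d_c + Polynomial.C (d_c (2 * K + 2)) * Uc (2 * K + 2) := by
  unfold PP
  rw [show 2 * (K + 1) + 1 = (2 * K + 1) + 1 + 1 by ring, sum_range_succ, sum_range_succ,
    d_c_odd]
  simp

lemma d_sum_succ (f : ℕ → ℝ) (K : ℕ) : ∑ d ∈ range (2 * (K + 1) + 1), f d =
    ∑ d ∈ range (2 * K + 1), f d + f (2 * K + 1) + f (2 * K + 2) := by
  rw [show 2 * (K + 1) + 1 = (2 * K + 1) + 1 + 1 by ring, sum_range_succ, sum_range_succ]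

lemma d_Uc_succ (d : ℕ) (x : ℝ) : (Uc (d + 2)).eval x = x * (Uc (d + 1)).eval x - (Uc d).eval x := by
  rw [Uc]
  simp

lemma d_U (t : ℝ) (d : ℕ) : (Uc (d + 2)).eval (2 * cos t) - (Uc d).eval (2 * cos t) =
    2 * cos (((d : ℝ) + 2) * t) := by
  induction d using Nat.twoStepInduction with
  | zero =>
    rw [d_Uc_succ]
    simp only [Uc, Polynomial.eval_X, Polynomial.eval_one, Nat.cast_zero, zero_add]
    rw [Real.cos_two_mul]
    ring
  | one =>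
    rw [d_Uc_succ, d_Uc_succ]
    simp only [Uc, Polynomial.eval_X, Polynomial.eval_one, Nat.cast_one]
    rw [show ((1 : ℝ) + 2) * t = 3 * t by ring, Real.cos_three_mul]
    ring
  | more d ih1 ih2 =>
    rw [d_Uc_succ (d + 2), d_Uc_succ d]
    rw [d_Uc_succ d] at ih1
    rw [show d + 1 + 2 = d + 2 + 1 by ring] at ih2
    have h1 : cos (((d : ℝ) + 4) * t) = 2 * cos t * cos (((d : ℝ) + 3) * t) -
        cos (((d : ℝ) + 2) * t) := by
      have h2 := Real.cos_add (((d : ℝ) + 3) * t) t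
      have h3 := Real.cos_sub (((d : ℝ) + 3) * t) t
      rw [show ((d : ℝ) + 3) * t + t = ((d : ℝ) + 4) * t by ring] at h2
      rw [show ((d : ℝ) + 3) * t - t = ((d : ℝ) + 2) * t by ring] at h3
      linarith
    push_cast at ih2 ⊢
    rw [show ((d : ℝ) + 2 + 2) * t = ((d : ℝ) + 4) * t by ring, h1]
    rw [show ((d : ℝ) + 1 + 2) * t = ((d : ℝ) + 3) * t by ring] at ih2
    have h5 : (Uc (d + 2 + 1)).eval (2 * cos t) =
        (Uc (d + 1)).eval (2 * cos t) + 2 * cos (((d : ℝ) + 3) * t) := by linarith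
    rw [h5]
    linear_combination (-1 : ℝ) * ih1

lemma d_Ubd (t : ℝ) (d : ℕ) : |(Uc d).eval (2 * cos t)| ≤ (d : ℝ) + 1 := by
  induction d using Nat.twoStepInduction with
  | zero => simp [Uc]
  | one =>
    simp only [Uc, Polynomial.eval_X, Nat.cast_one]
    rw [abs_mul, abs_of_pos (by norm_num : (0 : ℝ) < 2)]
    have := Real.abs_cos_le_one t
    linarith
  | more d ih1 ih2 =>
    have h1 := d_U t d
    have h2 := Real.abs_cos_le_one (((d : ℝ) + 2) * t)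
    have h3 : (Uc (d + 2)).eval (2 * cos t) = (Uc d).eval (2 * cos t) +
        2 * cos (((d : ℝ) + 2) * t) := by linarith
    rw [h3]
    refine (abs_add_le _ _).trans ?_
    rw [abs_mul, abs_of_pos (by norm_num : (0 : ℝ) < 2)]
    push_cast
    linarith

lemma d_A (t : ℝ) (K : ℕ) :
    1 + 6 * ∑ k ∈ Icc 1 (K + 1), (-1 : ℝ) ^ (k + 1) * cos (2 * k * t) / (4 * (k : ℝ) ^ 2 - 1) =
      (PP (2 * K) d_c).eval (2 * cos t) +
        3 * (-1 : ℝ) ^ K / ((2 * (K : ℝ) + 1) * (2 * (K : ℝ) + 3)) *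
          (Uc (2 * K + 2)).eval (2 * cos t) := by
  induction K with
  | zero =>
    have h1 := d_U t 0
    have h1' : (Uc 0).eval (2 * cos t) = 1 := by simp [Uc]
    rw [h1'] at h1
    simp only [Nat.cast_zero, zero_add] at h1
    rw [Nat.mul_zero, d_PP_zero, zero_add, zero_add, Icc_self, sum_singleton]
    have h2 : (Uc 2).eval (2 * cos t) = 1 + 2 * cos (2 * t) := by
      linarith
    rw [h2, Polynomial.eval_zero]
    push_cast
    rw [show (2 * 1 * t : ℝ) = 2 * t by ring]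
    norm_num
    ring
  | succ K ih =>
    rw [Finset.sum_Icc_succ_top (by omega), mul_add, ← add_assoc, ih, d_PP_succ,
      Polynomial.eval_add, Polynomial.eval_mul, Polynomial.eval_C, d_c_even]
    have h1 := d_U t (2 * K + 2)
    have h2 : (Uc (2 * (K + 1) + 2)).eval (2 * cos t) = (Uc (2 * K + 2)).eval (2 * cos t) +
        2 * cos (2 * ((K + 1 + 1 : ℕ) : ℝ) * t) := by
      rw [show 2 * (K + 1) + 2 = 2 * K + 2 + 2 by ring]
      push_cast at h1 ⊢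
      rw [show (2 * ((K : ℝ) + 1 + 1) * t) = (2 * (K : ℝ) + 2 + 2) * t by ring]
      linarith
    rw [h2]
    generalize (Uc (2 * K + 2)).eval (2 * cos t) = u
    generalize cos (2 * ((K + 1 + 1 : ℕ) : ℝ) * t) = v
    generalize (PP (2 * K) d_c).eval (2 * cos t) = w
    push_cast
    have e1 : (-1 : ℝ) ^ (K + 1 + 1 + 1) = -(-1 : ℝ) ^ K := by
      rw [pow_succ, pow_succ, pow_succ]; ring
    have e2 : (-1 : ℝ) ^ (K + 1) = -(-1 : ℝ) ^ K := by
      rw [pow_succ]; ring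
    rw [e1, e2]
    generalize (-1 : ℝ) ^ K = m
    have hK : (0 : ℝ) ≤ K := Nat.cast_nonneg K
    generalize (K : ℝ) = k at hK
    have n1 : (4 * (k + 1 + 1) ^ 2 - 1 : ℝ) = (2 * k + 3) * (2 * k + 5) := by ring
    have n2 : (2 * (k + 1) + 1 : ℝ) = 2 * k + 3 := by ring
    have n3 : (2 * (k + 1) + 3 : ℝ) = 2 * k + 5 := by ring
    rw [n1, n2, n3]
    have p1 : (2 * k + 1 : ℝ) ≠ 0 := by positivity
    have p2 : (2 * k + 3 : ℝ) ≠ 0 := by positivity
    have p3 : (2 * k + 5 : ℝ) ≠ 0 := by positivity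
    field_simp
    ring

lemma d_near (d2 : S_D2) (t : ℝ) (K : ℕ) :
    |(PP (2 * K) d_c).eval (2 * cos t) - (3 * π / 4 * |2 * cos t| - 2)| ≤ 6 / (2 * (K : ℝ) + 1) := by
  have h1 := d2 (K + 1) t
  have h2 := d_A t K
  have h3 := d_Ubd t (2 * K + 2)
  have hK : (0 : ℝ) ≤ K := Nat.cast_nonneg K
  have hpi := Real.pi_pos
  set S := ∑ k ∈ Icc 1 (K + 1), (-1 : ℝ) ^ (k + 1) * cos (2 * k * t) / (4 * (k : ℝ) ^ 2 - 1)
    with hS
  have h4 : |3 * π / 2 * |cos t| - (3 + 6 * S)| ≤ 3 / (2 * (K : ℝ) + 3) := by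
    have e1 : 3 * π / 2 * |cos t| - (3 + 6 * S) =
        (3 * π / 2) * (|cos t| - (2 / π + 4 / π * S)) := by
      field_simp
      ring
    rw [e1, abs_mul, abs_of_pos (by positivity : (0 : ℝ) < 3 * π / 2)]
    calc 3 * π / 2 * |(|cos t| - (2 / π + 4 / π * S))|
        ≤ 3 * π / 2 * (2 / (π * (2 * ((K + 1 : ℕ) : ℝ) + 1))) :=
          mul_le_mul_of_nonneg_left h1 (by positivity)
      _ = 3 / (2 * (K : ℝ) + 3) := by
          push_cast
          have : (2 * ((K : ℝ) + 1) + 1) = 2 * (K : ℝ) + 3 := by ring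
          rw [this]
          field_simp
  have h5 : |3 * (-1 : ℝ) ^ K / ((2 * (K : ℝ) + 1) * (2 * (K : ℝ) + 3)) *
          (Uc (2 * K + 2)).eval (2 * cos t)| ≤ 3 / (2 * (K : ℝ) + 1) := by
    rw [abs_mul, abs_div, abs_mul, abs_pow, abs_neg, abs_one, one_pow, mul_one,
      abs_of_pos (by norm_num : (0 : ℝ) < 3),
      abs_of_pos (by positivity : (0 : ℝ) < (2 * (K : ℝ) + 1) * (2 * (K : ℝ) + 3))]
    push_cast at h3
    calc 3 / ((2 * (K : ℝ) + 1) * (2 * (K : ℝ) + 3)) * |(Uc (2 * K + 2)).eval (2 * cos t)|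
        ≤ 3 / ((2 * (K : ℝ) + 1) * (2 * (K : ℝ) + 3)) * (2 * (K : ℝ) + 2 + 1) :=
          mul_le_mul_of_nonneg_left h3 (by positivity)
      _ = 3 / (2 * (K : ℝ) + 1) := by
          have : (2 * (K : ℝ) + 2 + 1) = 2 * (K : ℝ) + 3 := by ring
          rw [this]
          field_simp
  have h6 : (PP (2 * K) d_c).eval (2 * cos t) - (3 * π / 4 * |2 * cos t| - 2) =
      -(3 * π / 2 * |cos t| - (3 + 6 * S)) -
        3 * (-1 : ℝ) ^ K / ((2 * (K : ℝ) + 1) * (2 * (K : ℝ) + 3)) *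
          (Uc (2 * K + 2)).eval (2 * cos t) := by
    rw [abs_mul, abs_of_pos (by norm_num : (0 : ℝ) < 2)]
    linarith
  rw [h6]
  refine (abs_sub _ _).trans ?_
  rw [abs_neg]
  have h7 : 3 / (2 * (K : ℝ) + 3) ≤ 3 / (2 * (K : ℝ) + 1) :=
    div_le_div_of_nonneg_left (by norm_num) (by positivity) (by linarith)
  have h8 : 6 / (2 * (K : ℝ) + 1) = 3 / (2 * (K : ℝ) + 1) + 3 / (2 * (K : ℝ) + 1) := by
    rw [← add_div]; norm_num
  linarith

/-- odd part of the Basel sum -/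
noncomputable def d_O (N : ℕ) : ℝ := ∑ k ∈ range N, 1 / (2 * (k : ℝ) + 1) ^ 2

lemma d_O_le (N : ℕ) : d_O N ≤ π ^ 2 / 8 := by
  have h1 := hasSum_zeta_two
  have hs : Summable (fun n : ℕ => 1 / (n : ℝ) ^ 2) := h1.summable
  have he : Summable (fun k : ℕ => 1 / ((2 * k : ℕ) : ℝ) ^ 2) :=
    hs.comp_injective (i := fun k : ℕ => 2 * k) (fun a b h => by simp only at h; omega)
  have ho : Summable (fun k : ℕ => 1 / ((2 * k + 1 : ℕ) : ℝ) ^ 2) :=
    hs.comp_injective (i := fun k : ℕ => 2 * k + 1) (fun a b h => by simp only at h; omega)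
  have h2 := tsum_even_add_odd (f := fun n : ℕ => 1 / (n : ℝ) ^ 2) he ho
  rw [h1.tsum_eq] at h2
  have h3 : ∑' k : ℕ, 1 / ((2 * k : ℕ) : ℝ) ^ 2 = (1 / 4) * (π ^ 2 / 6) := by
    rw [← h1.tsum_eq, ← tsum_mul_left]
    refine tsum_congr fun k => ?_
    push_cast
    rw [mul_pow]
    ring
  have h4 : ∑' k : ℕ, 1 / ((2 * k + 1 : ℕ) : ℝ) ^ 2 = π ^ 2 / 8 := by
    rw [h3] at h2
    linarith
  rw [← h4]
  have h5 := ho.sum_le_tsum (range N) (fun k _ => by positivity)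
  refine le_trans (le_of_eq ?_) h5
  unfold d_O
  refine sum_congr rfl fun k _ => ?_
  push_cast
  rfl

lemma d_s (K : ℕ) : 4 + ∑ d ∈ range (2 * K + 1), d_c d ^ 2 =
    9 / 4 * (d_O K + d_O (K + 2)) + 9 / 8 * (1 / (2 * (K : ℝ) + 1) + 1 / (2 * (K : ℝ) + 3)) := by
  induction K with
  | zero =>
    simp only [d_O, mul_zero, zero_add, sum_range_succ, sum_range_zero, d_c_zero]
    norm_num
  | succ K ih =>
    rw [d_sum_succ, d_c_odd, d_c_even]
    have e1 : d_O (K + 1) = d_O K + 1 / (2 * (K : ℝ) + 1) ^ 2 := by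
      unfold d_O; rw [sum_range_succ]
    have e2 : d_O (K + 1 + 2) = d_O (K + 2) + 1 / (2 * (K : ℝ) + 5) ^ 2 := by
      unfold d_O
      rw [show K + 1 + 2 = K + 2 + 1 by ring, sum_range_succ]
      push_cast
      rw [show (2 * ((K : ℝ) + 2) + 1) = 2 * (K : ℝ) + 5 by ring]
    rw [e1, e2]
    push_cast
    have hK : (0 : ℝ) ≤ K := Nat.cast_nonneg K
    have e3 : ((-1 : ℝ) ^ K) ^ 2 = 1 := by
      rw [← pow_mul, mul_comm, pow_mul]; norm_num
    have e4 : (6 * (-1 : ℝ) ^ K / ((2 * (K : ℝ) + 1) * (2 * (K : ℝ) + 5))) ^ 2 =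
        36 / ((2 * (K : ℝ) + 1) * (2 * (K : ℝ) + 5)) ^ 2 := by
      rw [div_pow, mul_pow, e3]; norm_num
    rw [e4]
    have e5 : 4 + (∑ d ∈ range (2 * K + 1), d_c d ^ 2 + 0 ^ 2 +
        36 / ((2 * (K : ℝ) + 1) * (2 * (K : ℝ) + 5)) ^ 2) =
        (4 + ∑ d ∈ range (2 * K + 1), d_c d ^ 2) +
        36 / ((2 * (K : ℝ) + 1) * (2 * (K : ℝ) + 5)) ^ 2 := by ring
    rw [e5, ih]
    generalize d_O K = a
    generalize d_O (K + 2) = b
    generalize (K : ℝ) = k at hK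
    have n2 : (2 * (k + 1) + 1 : ℝ) = 2 * k + 3 := by ring
    have n3 : (2 * (k + 1) + 3 : ℝ) = 2 * k + 5 := by ring
    rw [n2, n3]
    have p1 : (2 * k + 1 : ℝ) ≠ 0 := by positivity
    have p2 : (2 * k + 3 : ℝ) ≠ 0 := by positivity
    have p3 : (2 * k + 5 : ℝ) ≠ 0 := by positivity
    field_simp
    ring

lemma d_sum1 (K : ℕ) : ∑ d ∈ range (2 * (K + 1) + 1), (d : ℝ) * d_c d ^ 2 ≤
    89 / 25 - 9 / 2 * (1 / (2 * (K : ℝ) + 3) ^ 2 + 1 / (2 * (K : ℝ) + 5) ^ 2) := by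
  induction K with
  | zero =>
    rw [d_sum_succ]
    have h1 := d_c_even 0
    have h2 := d_c_odd 0
    simp only [mul_zero, zero_add] at h1 h2
    simp only [mul_zero, zero_add, sum_range_succ, sum_range_zero, d_c_zero, h1, h2]
    norm_num
  | succ K ih =>
    rw [d_sum_succ, d_c_odd, d_c_even]
    have hK : (0 : ℝ) ≤ K := Nat.cast_nonneg K
    have e3 : ((-1 : ℝ) ^ (K + 1)) ^ 2 = 1 := by
      rw [← pow_mul, mul_comm, pow_mul]; norm_num
    push_cast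
    have e4 : (6 * (-1 : ℝ) ^ (K + 1) / ((2 * ((K : ℝ) + 1) + 1) * (2 * ((K : ℝ) + 1) + 5))) ^ 2 =
        36 / ((2 * (K : ℝ) + 3) * (2 * (K : ℝ) + 7)) ^ 2 := by
      rw [div_pow, mul_pow, e3]; norm_num
      rw [show (2 * ((K : ℝ) + 1) + 1) = 2 * K + 3 by ring,
        show (2 * ((K : ℝ) + 1) + 5) = 2 * K + 7 by ring]
    rw [e4]
    have e6 : (2 * ((K : ℝ) + 1) + 2) * (36 / ((2 * (K : ℝ) + 3) * (2 * (K : ℝ) + 7)) ^ 2) ≤
        9 / 2 * (1 / (2 * (K : ℝ) + 3) ^ 2 - 1 / (2 * (K : ℝ) + 7) ^ 2) := by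
      have e7 : 9 / 2 * (1 / (2 * (K : ℝ) + 3) ^ 2 - 1 / (2 * (K : ℝ) + 7) ^ 2) =
          (2 * ((K : ℝ) + 1) + 3) * (36 / ((2 * (K : ℝ) + 3) * (2 * (K : ℝ) + 7)) ^ 2) := by
        field_simp
        ring
      rw [e7]
      exact mul_le_mul_of_nonneg_right (by linarith) (by positivity)
    rw [show (2 * ((K : ℝ) + 1) + 3) = 2 * K + 5 by ring,
      show (2 * ((K : ℝ) + 1) + 5) = 2 * K + 7 by ring]
    have e8 : (2 * ((K : ℝ) + 1) + 1) * (0 : ℝ) ^ 2 = 0 := by ring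
    rw [e8]
    linarith

lemma d_sum (K : ℕ) : ∑ d ∈ range (2 * K + 1), (d : ℝ) * d_c d ^ 2 ≤ 18 / 5 := by
  cases K with
  | zero => simp [d_c_zero]; norm_num
  | succ K =>
    refine (d_sum1 K).trans ?_
    have : 0 ≤ 1 / (2 * (K : ℝ) + 3) ^ 2 + 1 / (2 * (K : ℝ) + 5) ^ 2 := by positivity
    linarith

lemma d_sP (K : ℕ) : sP (2 * K) d_c ≤ 3 * π / 4 + 1 / (2 * (K : ℝ) + 1) := by
  have hpi := Real.pi_gt_three
  have hK : (0 : ℝ) ≤ K := Nat.cast_nonneg K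
  have he : 0 < 1 / (2 * (K : ℝ) + 1) := by positivity
  unfold sP
  rw [d_s]
  apply Real.sqrt_le_iff.2
  refine ⟨by positivity, ?_⟩
  have h1 := d_O_le K
  have h2 := d_O_le (K + 2)
  have h3 : 1 / (2 * (K : ℝ) + 3) ≤ 1 / (2 * (K : ℝ) + 1) :=
    div_le_div_of_nonneg_left (by norm_num) (by positivity) (by linarith)
  generalize 1 / (2 * (K : ℝ) + 1) = e at he h3
  nlinarith

lemma d_pow_bound {t : ℝ} (h0 : 0 ≤ t) (h1 : t ≤ 1) (n : ℕ) :
    t ^ n * (1 - t) ≤ 1 / ((n : ℝ) + 1) := by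
  rw [le_div_iff₀ (by positivity)]
  have h2 : ((n : ℝ) + 1) * t ^ n ≤ ∑ j ∈ range (n + 1), t ^ j := by
    calc ((n : ℝ) + 1) * t ^ n = ∑ j ∈ range (n + 1), t ^ n := by
          rw [sum_const, card_range, nsmul_eq_mul]; push_cast; ring
      _ ≤ _ := sum_le_sum fun j hj => pow_le_pow_of_le_one h0 h1 (by
          have := mem_range.1 hj; omega)
  have h3 := geom_sum_mul_neg t (n + 1)
  have h4 : 0 ≤ t ^ (n + 1) := by positivity
  have h5 := mul_le_mul_of_nonneg_right h2 (by linarith : 0 ≤ 1 - t)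
  calc t ^ n * (1 - t) * ((n : ℝ) + 1) = ((n : ℝ) + 1) * t ^ n * (1 - t) := by ring
    _ ≤ _ := h5
    _ = 1 - t ^ (n + 1) := h3
    _ ≤ 1 := by linarith

lemma d_scI (A : ℝ) (M : ℕ) :
    scI (fun x => (A * (x / 2) ^ (2 * M)) ^ 2) ≤ 2 * A ^ 2 / (2 * (M : ℝ) + 1) := by
  unfold scI
  have hpi := Real.pi_pos
  have h1 : ‖∫ θ in (0 : ℝ)..π, (A * ((2 * Real.cos θ) / 2) ^ (2 * M)) ^ 2 * Real.sin θ ^ 2‖ ≤
      (A ^ 2 / (2 * (M : ℝ) + 1)) * |π - 0| := by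
    apply intervalIntegral.norm_integral_le_of_norm_le_const
    intro θ _
    rw [Real.norm_of_nonneg (by positivity)]
    have h2 : (2 * Real.cos θ) / 2 = Real.cos θ := by ring
    rw [h2]
    have h3 : 0 ≤ Real.cos θ ^ 2 := sq_nonneg _
    have h4 : Real.cos θ ^ 2 ≤ 1 := Real.cos_sq_le_one θ
    have h5 := d_pow_bound h3 h4 (2 * M)
    have h6 : Real.sin θ ^ 2 = 1 - Real.cos θ ^ 2 := Real.sin_sq θ
    rw [h6]
    have h7 : (A * Real.cos θ ^ (2 * M)) ^ 2 * (1 - Real.cos θ ^ 2) =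
        A ^ 2 * ((Real.cos θ ^ 2) ^ (2 * M) * (1 - Real.cos θ ^ 2)) := by
      rw [mul_pow, ← pow_mul, ← pow_mul]
      ring
    rw [h7]
    push_cast at h5
    calc A ^ 2 * ((Real.cos θ ^ 2) ^ (2 * M) * (1 - Real.cos θ ^ 2))
        ≤ A ^ 2 * (1 / (2 * (M : ℝ) + 1)) := mul_le_mul_of_nonneg_left h5 (sq_nonneg _)
      _ = A ^ 2 / (2 * (M : ℝ) + 1) := by ring
  have h2 := (le_abs_self _).trans ((Real.norm_eq_abs _).symm.le.trans h1)
  rw [sub_zero, abs_of_pos hpi] at h2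
  calc 2 / π * ∫ θ in (0 : ℝ)..π, (A * ((2 * Real.cos θ) / 2) ^ (2 * M)) ^ 2 * Real.sin θ ^ 2
      ≤ 2 / π * ((A ^ 2 / (2 * (M : ℝ) + 1)) * π) :=
        mul_le_mul_of_nonneg_left h2 (by positivity)
    _ = 2 * A ^ 2 / (2 * (M : ℝ) + 1) := by
        field_simp

/-- growth of a polynomial outside `[-2, 2]` -/
lemma d_growth (F : Polynomial ℝ) {M : ℕ} (hM : F.natDegree ≤ 2 * M) {x : ℝ} (hx : 2 ≤ |x|) :
    |F.eval x| ≤ (∑ j ∈ range (F.natDegree + 1), |F.coeff j| * 2 ^ j) * (x / 2) ^ (2 * M) := by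
  rw [Polynomial.eval_eq_sum_range]
  refine (abs_sum_le_sum_abs _ _).trans ?_
  rw [sum_mul]
  refine sum_le_sum fun j hj => ?_
  have hj' : j ≤ 2 * M := by
    have := mem_range.1 hj; omega
  have h1 : (x / 2) ^ (2 * M) = (|x| / 2) ^ (2 * M) := by
    rw [pow_mul, pow_mul]
    congr 1
    rw [div_pow, div_pow, sq_abs]
  have h2 : (1 : ℝ) ≤ |x| / 2 := by linarith
  have h3 : |x| ^ j = 2 ^ j * (|x| / 2) ^ j := by
    rw [← mul_pow]
    congr 1
    ring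
  rw [h1, abs_mul, abs_pow, h3, mul_assoc]
  refine mul_le_mul_of_nonneg_left ?_ (abs_nonneg _)
  exact mul_le_mul_of_nonneg_left (pow_le_pow_right₀ h2 hj') (by positivity)

/-- D -/
theorem t_D (_d1 : S_D1) (d2 : S_D2) : S_D := by
  intro η δ hη hη4 hδ
  obtain ⟨K, hK⟩ := exists_nat_ge (2 / η)
  have hK0 : (0 : ℝ) ≤ K := Nat.cast_nonneg K
  have hKη : 4 / (2 * (K : ℝ) + 1) ≤ 8 / 5 * η := by
    rw [div_le_iff₀ (by positivity)]
    rw [div_le_iff₀ hη] at hK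
    nlinarith
  have hpi := Real.pi_lt_d2
  have hpi3 := Real.pi_gt_three
  -- the polynomial
  obtain ⟨F, hF⟩ : ∃ F : Polynomial ℝ, F = Polynomial.C (1 + 3 * η) + Polynomial.C (1 / 2) *
      (Polynomial.C (1 - η) * PP (2 * K) d_c +
        Polynomial.C (√(1 - η ^ 2) * sP (2 * K) d_c) * Polynomial.X) := ⟨_, rfl⟩
  have hFe : ∀ x : ℝ, 1 + 1 / 2 * ((1 - η) * (PP (2 * K) d_c).eval x +
      √(1 - η ^ 2) * sP (2 * K) d_c * x) + 3 * η = F.eval x := by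
    intro x
    rw [hF]
    simp only [Polynomial.eval_add, Polynomial.eval_mul, Polynomial.eval_C, Polynomial.eval_X]
    ring
  -- nonnegativity on [-2, 2]
  have hin : ∀ x : ℝ, |x| ≤ 2 → 0 ≤ F.eval x := by
    intro x hx
    rw [← hFe]
    obtain ⟨t, ht⟩ : ∃ t : ℝ, x = 2 * cos t := by
      refine ⟨arccos (x / 2), ?_⟩
      rw [abs_le] at hx
      rw [Real.cos_arccos (by linarith) (by linarith)]
      ring
    have h1 := d_near d2 t K
    rw [← ht] at h1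
    have h2 := (abs_le.1 h1).1
    have h3 := d_sP K
    have h4 : 0 ≤ sP (2 * K) d_c := Real.sqrt_nonneg _
    have h5 : √(1 - η ^ 2) ≤ 1 := by
      apply Real.sqrt_le_iff.2
      refine ⟨zero_le_one, ?_⟩
      have := sq_nonneg η
      linarith
    have h6 : 0 ≤ √(1 - η ^ 2) := Real.sqrt_nonneg _
    have h7 : √(1 - η ^ 2) * sP (2 * K) d_c ≤ 3 * π / 4 + 1 / (2 * (K : ℝ) + 1) := by
      calc √(1 - η ^ 2) * sP (2 * K) d_c ≤ 1 * sP (2 * K) d_c :=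
            mul_le_mul_of_nonneg_right h5 h4
        _ ≤ _ := by linarith
    have h8 : 0 ≤ √(1 - η ^ 2) * sP (2 * K) d_c := mul_nonneg h6 h4
    have h9 : -((3 * π / 4 + 1 / (2 * (K : ℝ) + 1)) * |x|) ≤
        √(1 - η ^ 2) * sP (2 * K) d_c * x := by
      have g1 : |√(1 - η ^ 2) * sP (2 * K) d_c * x| ≤
          (3 * π / 4 + 1 / (2 * (K : ℝ) + 1)) * |x| := by
        rw [abs_mul, abs_of_nonneg h8]
        exact mul_le_mul_of_nonneg_right h7 (abs_nonneg _)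
      exact (abs_le.1 g1).1
    have h10 : (1 - η) * (3 * π / 4 * |x| - 2 - 6 / (2 * (K : ℝ) + 1)) ≤
        (1 - η) * (PP (2 * K) d_c).eval x :=
      mul_le_mul_of_nonneg_left (by linarith) (by linarith)
    have h11 : 6 / (2 * (K : ℝ) + 1) = 6 * (1 / (2 * (K : ℝ) + 1)) := by ring
    have h12 : 4 / (2 * (K : ℝ) + 1) = 4 * (1 / (2 * (K : ℝ) + 1)) := by ring
    rw [h11] at h10
    rw [h12] at hKη
    have he : 0 < 1 / (2 * (K : ℝ) + 1) := by positivity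
    generalize 1 / (2 * (K : ℝ) + 1) = e at h9 h10 hKη he
    have hx0 := abs_nonneg x
    generalize |x| = a at h9 h10 hx hx0
    -- 0 ≤ 1 + 1/2 (h10 + h9) + 3 η
    have h13 : 0 ≤ 1 + 1 / 2 * ((1 - η) * (3 * π / 4 * a - 2 - 6 * e) +
        -((3 * π / 4 + e) * a)) + 3 * η := by
      have e1 : 1 + 1 / 2 * ((1 - η) * (3 * π / 4 * a - 2 - 6 * e) +
        -((3 * π / 4 + e) * a)) + 3 * η = 4 * η - 3 * π / 8 * η * a - 3 * (1 - η) * e - e * a / 2 := by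
        ring
      rw [e1]
      have e2 : 3 * π / 8 * η * a ≤ 3 * 3.15 / 8 * η * 2 := by
        have g1 : 3 * π / 8 * η ≤ 3 * 3.15 / 8 * η :=
          mul_le_mul_of_nonneg_right (by linarith) hη.le
        exact mul_le_mul g1 hx hx0 (by positivity)
      have e3 : e * a ≤ e * 2 := mul_le_mul_of_nonneg_left hx he.le
      have e4 : 0 ≤ η * e := by positivity
      nlinarith
    linarith
  -- the correction
  obtain ⟨A, hA⟩ : ∃ A : ℝ, A = ∑ j ∈ range (F.natDegree + 1), |F.coeff j| * 2 ^ j := ⟨_, rfl⟩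
  have hA0 : 0 ≤ A := by
    rw [hA]
    exact sum_nonneg fun j _ => by positivity
  obtain ⟨M0, hM0⟩ := exists_nat_ge (2 * A ^ 2 / δ)
  obtain ⟨M, hM⟩ : ∃ M : ℕ, M = M0 + F.natDegree := ⟨_, rfl⟩
  have hRe : ∀ x : ℝ, (Polynomial.C A * (Polynomial.C (1 / 2) * Polynomial.X) ^ (2 * M)).eval x =
      A * (x / 2) ^ (2 * M) := by
    intro x
    simp only [Polynomial.eval_mul, Polynomial.eval_C, Polynomial.eval_pow, Polynomial.eval_X]
    congr 2
    ring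
  refine ⟨2 * K, d_c, Polynomial.C A * (Polynomial.C (1 / 2) * Polynomial.X) ^ (2 * M),
    d_c_zero, d_c_odd 0, ?_, ?_, ?_⟩
  · have h1 := d_sum K
    have h2 : 0 ≤ ∑ d ∈ range (2 * K + 1), d_c d ^ 2 := sum_nonneg fun d _ => sq_nonneg _
    linarith
  · intro x
    rw [hFe, hRe]
    have h0 : 0 ≤ (x / 2) ^ (2 * M) := by
      rw [pow_mul]; positivity
    rcases le_total |x| 2 with hx | hx
    · have := hin x hx
      have := mul_nonneg hA0 h0
      linarith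
    · have h1 := d_growth F (M := M) (by omega) hx
      rw [← hA] at h1
      have := (abs_le.1 h1).1
      linarith
  · simp only [hRe]
    refine (d_scI A M).trans ?_
    rw [div_le_iff₀ (by positivity)]
    rw [div_le_iff₀ hδ] at hM0
    have h1 : (M0 : ℝ) ≤ M := by
      rw [hM]; push_cast
      have : (0 : ℝ) ≤ (F.natDegree : ℝ) := Nat.cast_nonneg _
      linarith
    have h2 : (0 : ℝ) ≤ M := Nat.cast_nonneg _
    nlinarith

end Pool.Agent.H276R2.Gn
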