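import Pool.Agent.H276R2.Gn.Spec

set_option autoImplicit false

namespace Pool.Agent.H276R2.Gn

open Finset Real

theorem d1_sin (θ : ℝ) (d : ℕ) :
    (Uc d).eval (2 * Real.cos θ) * Real.sin θ = Real.sin (((d : ℝ) + 1) * θ) := by
  induction d using Nat.strong_induction_on with
  | _ d ih =>
    match d, ih with
    | 0, _ => simp [Uc]
    | 1, _ =>
      have : ((1 : ℕ) : ℝ) + 1 = 2 := by norm_num
      rw [this, Real.sin_two_mul]
      simp [Uc]; ring
    | d + 2, ih =>
      have h1 := ih (d + 1) (by omega)
      have h0 := ih d (by omega)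
      have e : (Uc (d + 2)).eval (2 * Real.cos θ) * Real.sin θ
          = 2 * Real.cos θ * ((Uc (d + 1)).eval (2 * Real.cos θ) * Real.sin θ)
            - (Uc d).eval (2 * Real.cos θ) * Real.sin θ := by
        simp only [Uc, Polynomial.eval_sub, Polynomial.eval_mul, Polynomial.eval_X]
        ring
      rw [e, h1, h0]
      push_cast
      have a1 : ((d : ℝ) + 2 + 1) * θ = ((d : ℝ) + 1 + 1) * θ + θ := by ring
      have a2 : ((d : ℝ) + 1) * θ = ((d : ℝ) + 1 + 1) * θ - θ := by ring
      rw [a1, a2, Real.sin_add, Real.sin_sub]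
      ring

theorem d1_cosint (k : ℤ) : ∫ θ in (0 : ℝ)..π, Real.cos ((k : ℝ) * θ) = if k = 0 then π else 0 := by
  by_cases hk : k = 0
  · subst hk; simp
  · rw [if_neg hk]
    have hk' : (k : ℝ) ≠ 0 := by exact_mod_cast hk
    rw [intervalIntegral.integral_comp_mul_left (fun x => Real.cos x) hk']
    rw [integral_cos]
    simp [Real.sin_int_mul_pi]

theorem d1_orth (d e : ℕ) :
    scI (fun x => (Uc d).eval x * (Uc e).eval x) = if d = e then 1 else 0 := by
  unfold scI
  have h : ∀ θ : ℝ, (Uc d).eval (2 * Real.cos θ) * (Uc e).eval (2 * Real.cos θ) * Real.sin θ ^ 2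
      = (1 / 2) * Real.cos ((((d : ℤ) - e : ℤ) : ℝ) * θ)
        - (1 / 2) * Real.cos ((((d : ℤ) + e + 2 : ℤ) : ℝ) * θ) := by
    intro θ
    have h1 := d1_sin θ d
    have h2 := d1_sin θ e
    have h3 : (Uc d).eval (2 * Real.cos θ) * (Uc e).eval (2 * Real.cos θ) * Real.sin θ ^ 2
        = ((Uc d).eval (2 * Real.cos θ) * Real.sin θ) * ((Uc e).eval (2 * Real.cos θ) * Real.sin θ) := by
      ring
    rw [h3, h1, h2]
    have a1 : (((d : ℤ) - e : ℤ) : ℝ) * θ = ((d : ℝ) + 1) * θ - ((e : ℝ) + 1) * θ := by
      push_cast; ring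
    have a2 : (((d : ℤ) + e + 2 : ℤ) : ℝ) * θ = ((d : ℝ) + 1) * θ + ((e : ℝ) + 1) * θ := by
      push_cast; ring
    rw [a1, a2, Real.cos_sub, Real.cos_add]
    ring
  simp only [h]
  rw [intervalIntegral.integral_sub, intervalIntegral.integral_const_mul,
    intervalIntegral.integral_const_mul, d1_cosint, d1_cosint]
  · have h2 : ¬ ((d : ℤ) + e + 2 = 0) := by omega
    rw [if_neg h2]
    have hpi : (π : ℝ) ≠ 0 := Real.pi_ne_zero
    by_cases hde : d = e
    · subst hde
      simp
      field_simp
    · have h3 : ¬ ((d : ℤ) - e = 0) := by omega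
      rw [if_neg h3, if_neg hde]
      ring
  · apply Continuous.intervalIntegrable; fun_prop
  · apply Continuous.intervalIntegrable; fun_prop

theorem d1_sum {ι : Type} (s : Finset ι) (f : ι → Polynomial ℝ) (a : ι → ℝ) :
    scI (fun x => ∑ i ∈ s, a i * (f i).eval x) = ∑ i ∈ s, a i * scI (fun x => (f i).eval x) := by
  unfold scI
  simp only [Finset.sum_mul]
  rw [intervalIntegral.integral_finset_sum]
  · rw [Finset.mul_sum]
    apply Finset.sum_congr rfl
    intro i _
    have : ∀ θ : ℝ, a i * (f i).eval (2 * Real.cos θ) * Real.sin θ ^ 2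
        = a i * ((f i).eval (2 * Real.cos θ) * Real.sin θ ^ 2) := by intro θ; ring
    simp only [this]
    rw [intervalIntegral.integral_const_mul]
    ring
  · intro i _
    apply Continuous.intervalIntegrable
    have : Continuous fun x : ℝ => (f i).eval x := (f i).continuous
    fun_prop

theorem d1_mulX (P : Polynomial ℝ) (hP : P ∈ Submodule.span ℝ (Set.range Uc)) :
    Polynomial.X * P ∈ Submodule.span ℝ (Set.range Uc) := by
  induction hP using Submodule.span_induction with
  | mem x h =>
    obtain ⟨d, rfl⟩ := h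
    cases d with
    | zero =>
      have : Polynomial.X * Uc 0 = Uc 1 := by simp [Uc]
      rw [this]
      exact Submodule.subset_span ⟨1, rfl⟩
    | succ d =>
      have : Polynomial.X * Uc (d + 1) = Uc (d + 2) + Uc d := by simp [Uc]
      rw [this]
      exact Submodule.add_mem _ (Submodule.subset_span ⟨_, rfl⟩) (Submodule.subset_span ⟨_, rfl⟩)
  | zero => rw [mul_zero]; exact Submodule.zero_mem _
  | add x y _ _ hx hy => rw [mul_add]; exact Submodule.add_mem _ hx hy
  | smul a x _ hx => rw [mul_smul_comm]; exact Submodule.smul_mem _ a hx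

theorem d1_top (P : Polynomial ℝ) : P ∈ Submodule.span ℝ (Set.range Uc) := by
  induction P using Polynomial.induction_on with
  | C a =>
    have : Polynomial.C a = a • Uc 0 := by simp [Uc, Polynomial.smul_eq_C_mul]
    rw [this]
    exact Submodule.smul_mem _ a (Submodule.subset_span ⟨0, rfl⟩)
  | add p q hp hq => exact Submodule.add_mem _ hp hq
  | monomial n a h =>
    have : Polynomial.C a * Polynomial.X ^ (n + 1)
        = Polynomial.X * (Polynomial.C a * Polynomial.X ^ n) := by ring
    rw [this]
    exact d1_mulX _ h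

theorem d1_PP (P : Polynomial ℝ) : ∃ (D : ℕ) (c : ℕ → ℝ), P = PP D c := by
  have h := d1_top P
  rw [Finsupp.mem_span_range_iff_exists_finsupp] at h
  obtain ⟨c, hc⟩ := h
  refine ⟨c.support.sup id, c, ?_⟩
  rw [← hc]
  unfold PP
  rw [Finsupp.sum_of_support_subset (s := range (c.support.sup id + 1))]
  · apply Finset.sum_congr rfl
    intro i _
    rw [Polynomial.smul_eq_C_mul]
  · intro i hi
    rw [Finset.mem_range]
    have : i ≤ c.support.sup id := Finset.le_sup (f := id) hi
    omega
  · intro i _
    simp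

theorem t_D1 : S_D1 := by
  refine ⟨d1_orth, d1_PP, ?_, ?_⟩
  · intro D c
    have h : (fun x => (PP D c).eval x) = fun x => ∑ d ∈ range (D + 1), c d * (Uc d).eval x := by
      funext x
      simp [PP, Polynomial.eval_finset_sum]
    rw [h, d1_sum]
    have h2 : ∀ d, scI (fun x => (Uc d).eval x) = if d = 0 then 1 else 0 := by
      intro d
      have := d1_orth d 0
      simpa [Uc] using this
    simp only [h2]
    rw [Finset.sum_eq_single 0]
    · simp
    · intro b _ hb; simp [hb]
    · intro hh; exact absurd (Finset.mem_range.mpr (Nat.succ_pos D)) hh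
  · intro D c
    have h : (fun x => ((PP D c).eval x) ^ 2)
        = fun x => ∑ p ∈ range (D + 1) ×ˢ range (D + 1), (c p.1 * c p.2) *
            ((Uc p.1) * (Uc p.2)).eval x := by
      funext x
      rw [Finset.sum_product]
      simp only [PP, Polynomial.eval_finset_sum, Polynomial.eval_mul, Polynomial.eval_C, sq]
      rw [Finset.sum_mul_sum]
      apply Finset.sum_congr rfl
      intro i _
      apply Finset.sum_congr rfl
      intro j _
      ring
    rw [h, d1_sum]
    simp only [Polynomial.eval_mul, d1_orth]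
    rw [Finset.sum_product]
    apply Finset.sum_congr rfl
    intro d hd
    rw [Finset.sum_eq_single d]
    · simp [sq]
    · intro b _ hb; simp [Ne.symm hb]
    · intro hh; exact absurd hd hh

end Pool.Agent.H276R2.Gn
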