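import Pool.Agent.H276R2.Gn.Spec

set_option autoImplicit false

namespace Pool.Agent.H276R2.Gn

open Finset Real

theorem d2_fact : Fact ((0 : ℝ) < π) := ⟨Real.pi_pos⟩

attribute [local instance] d2_fact

/-- `|cos|` on the circle of length `π` -/
noncomputable def d2_f : C(AddCircle π, ℂ) where
  toFun := (show Function.Periodic (fun x : ℝ => ((|Real.cos x| : ℝ) : ℂ)) π from
    fun x => by simp [Real.cos_add_pi]).lift
  continuous_toFun := by
    refine continuous_coinduced_dom.mpr ?_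
    have : Continuous (fun x : ℝ => ((|Real.cos x| : ℝ) : ℂ)) := by fun_prop
    exact this

theorem d2_f_coe (x : ℝ) : d2_f (x : AddCircle π) = ((|Real.cos x| : ℝ) : ℂ) := rfl

theorem d2_coeff (n : ℤ) : fourierCoeff d2_f n =
    ((2 / π * ((-1 : ℝ) ^ (n.natAbs + 1) / (4 * (n : ℝ) ^ 2 - 1)) : ℝ) : ℂ) := by
  have hne : (1 : ℂ) - 4 * (n : ℂ) ^ 2 ≠ 0 := by
    intro h
    have h1 : (4 * (n : ℂ) ^ 2) = 1 := by linear_combination -h
    have h2 : (4 * n ^ 2 : ℤ) = 1 := by exact_mod_cast h1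
    omega
  rw [fourierCoeff_eq_intervalIntegral d2_f n (-(π / 2))]
  have e1 : -(π / 2) + π = π / 2 := by ring
  rw [e1]
  have hint : ∫ x in (-(π / 2))..(π / 2), (fourier (T := π) (-n)) (x : AddCircle π) • d2_f x =
      ∫ x in (-(π / 2))..(π / 2), Complex.exp (-2 * Complex.I * n * x) * Complex.cos x := by
    refine intervalIntegral.integral_congr (fun x hx => ?_)
    rw [Set.uIcc_of_le (by linarith [Real.pi_pos])] at hx
    rw [d2_f_coe, smul_eq_mul, fourier_coe_apply, abs_of_nonneg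
      (Real.cos_nonneg_of_neg_pi_div_two_le_of_le hx.1 hx.2), Complex.ofReal_cos]
    congr 2
    have hpi : (π : ℂ) ≠ 0 := by exact_mod_cast Real.pi_ne_zero
    push_cast
    field_simp
  rw [hint]
  have hd : ∀ x ∈ Set.uIcc (-(π / 2)) (π / 2), HasDerivAt (fun x : ℝ =>
      Complex.exp (-2 * Complex.I * n * x) * ((-2 * Complex.I * n) * Complex.cos x + Complex.sin x) /
        (1 - 4 * (n : ℂ) ^ 2))
      (Complex.exp (-2 * Complex.I * n * x) * Complex.cos x) x := by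
    intro x _
    have h1 : HasDerivAt (fun y : ℂ => Complex.exp (-2 * Complex.I * n * y) *
        ((-2 * Complex.I * n) * Complex.cos y + Complex.sin y) / (1 - 4 * (n : ℂ) ^ 2))
        (Complex.exp (-2 * Complex.I * n * x) * Complex.cos x) (x : ℂ) := by
      have ha : HasDerivAt (fun y : ℂ => -2 * Complex.I * n * y) (-2 * Complex.I * n) (x : ℂ) := by
        simpa using (hasDerivAt_id (x : ℂ)).const_mul (-2 * Complex.I * (n : ℂ))
      have hb := ha.cexp
      have hc := ((Complex.hasDerivAt_cos (x : ℂ)).const_mul (-2 * Complex.I * (n : ℂ))).add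
        (Complex.hasDerivAt_sin (x : ℂ))
      have h := (hb.mul hc).div_const (1 - 4 * (n : ℂ) ^ 2)
      refine h.congr_deriv ?_
      rw [div_eq_iff hne]
      simp only [Pi.add_apply]
      have hI : Complex.I ^ 2 = -1 := Complex.I_sq
      linear_combination (4 * (n : ℂ) ^ 2 * Complex.exp (-2 * Complex.I * n * x) * Complex.cos x) * hI
    exact h1.comp_ofReal
  rw [intervalIntegral.integral_eq_sub_of_hasDerivAt hd
    (Continuous.intervalIntegrable (by fun_prop) _ _)]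
  have c1 : Complex.cos (((π / 2 : ℝ)) : ℂ) = 0 := by
    rw [← Complex.ofReal_cos, Real.cos_pi_div_two, Complex.ofReal_zero]
  have s1 : Complex.sin (((π / 2 : ℝ)) : ℂ) = 1 := by
    rw [← Complex.ofReal_sin, Real.sin_pi_div_two, Complex.ofReal_one]
  have c2 : Complex.cos (((-(π / 2) : ℝ)) : ℂ) = 0 := by
    rw [Complex.ofReal_neg, Complex.cos_neg, c1]
  have s2 : Complex.sin (((-(π / 2) : ℝ)) : ℂ) = -1 := by
    rw [Complex.ofReal_neg, Complex.sin_neg, s1]
  rw [c1, s1, c2, s2]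
  have x1 : Complex.exp (-2 * Complex.I * n * ((π / 2 : ℝ) : ℂ)) = (-1) ^ n.natAbs := by
    have : -2 * Complex.I * n * ((π / 2 : ℝ) : ℂ) = ((-n : ℤ) : ℂ) * (π * Complex.I) := by
      push_cast; ring
    rw [this, Complex.exp_int_mul, Complex.exp_pi_mul_I, zpow_neg]
    rcases Int.natAbs_eq n with h | h
    · rw [h, zpow_natCast, Int.natAbs_natCast, ← inv_pow]; norm_num
    · rw [h, zpow_neg, inv_inv, zpow_natCast, Int.natAbs_neg, Int.natAbs_natCast]
  have x2 : Complex.exp (-2 * Complex.I * n * ((-(π / 2) : ℝ) : ℂ)) = (-1) ^ n.natAbs := by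
    have : -2 * Complex.I * n * ((-(π / 2) : ℝ) : ℂ) = ((n : ℤ) : ℂ) * (π * Complex.I) := by
      push_cast; ring
    rw [this, Complex.exp_int_mul, Complex.exp_pi_mul_I]
    rcases Int.natAbs_eq n with h | h
    · rw [h, zpow_natCast, Int.natAbs_natCast]
    · rw [h, zpow_neg, zpow_natCast, Int.natAbs_neg, Int.natAbs_natCast, ← inv_pow]; norm_num
  rw [x1, x2]
  have hne2 : (4 * (n : ℂ) ^ 2 - 1) ≠ 0 := by
    intro h; apply hne; linear_combination -h
  have hpi : (π : ℂ) ≠ 0 := by exact_mod_cast Real.pi_ne_zero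
  rw [Complex.real_smul]
  have hneg : (1 : ℂ) - 4 * (n : ℂ) ^ 2 = -(4 * (n : ℂ) ^ 2 - 1) := by ring
  rw [hneg]
  push_cast
  rw [pow_succ]
  field_simp
  ring

/-- the terms -/
noncomputable def d2_b (θ : ℝ) (k : ℕ) : ℝ :=
  (-1 : ℝ) ^ (k + 1) * Real.cos (2 * k * θ) / (4 * (k : ℝ) ^ 2 - 1)

theorem d2_tele (K : ℕ) : HasSum (fun n : ℕ => 4 / π * (1 / (4 * ((n + (K + 1) : ℕ) : ℝ) ^ 2 - 1)))
    (2 / (π * (2 * K + 1))) := by
  have hpos : ∀ n : ℕ, 0 ≤ 4 / π * (1 / (4 * ((n + (K + 1) : ℕ) : ℝ) ^ 2 - 1)) := by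
    intro n
    have h1 : (1 : ℝ) ≤ ((n + (K + 1) : ℕ) : ℝ) := by
      have : 1 ≤ n + (K + 1) := by omega
      exact_mod_cast this
    have h2 : (0 : ℝ) < 4 * ((n + (K + 1) : ℕ) : ℝ) ^ 2 - 1 := by nlinarith
    positivity
  rw [hasSum_iff_tendsto_nat_of_nonneg hpos]
  have hsum : ∀ n : ℕ, ∑ i ∈ range n, 4 / π * (1 / (4 * ((i + (K + 1) : ℕ) : ℝ) ^ 2 - 1)) =
      2 / (π * (2 * K + 1)) - 2 / (π * (2 * ((n : ℝ) + K) + 1)) := by
    intro n
    induction n with
    | zero => simp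
    | succ n ih =>
      rw [sum_range_succ, ih]
      have h1 : (0 : ℝ) < 2 * ((n : ℝ) + K) + 1 := by positivity
      have h2 : (0 : ℝ) < 2 * (((n : ℝ) + 1) + K) + 1 := by positivity
      have h3 : 4 * ((n + (K + 1) : ℕ) : ℝ) ^ 2 - 1 =
          (2 * ((n : ℝ) + K) + 1) * (2 * (((n : ℝ) + 1) + K) + 1) := by push_cast; ring
      rw [h3]
      have h4 : (0 : ℝ) < 2 * (K : ℝ) + 1 := by positivity
      have hpi := Real.pi_pos
      push_cast
      field_simp
      ring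
  simp_rw [hsum]
  have h0 : Filter.Tendsto (fun n : ℕ => 2 / (π * (2 * ((n : ℝ) + K) + 1))) Filter.atTop (nhds 0) := by
    refine Filter.Tendsto.div_atTop tendsto_const_nhds ?_
    refine Filter.Tendsto.const_mul_atTop Real.pi_pos ?_
    refine Filter.tendsto_atTop_add_const_right _ _ ?_
    refine Filter.Tendsto.const_mul_atTop (by norm_num) ?_
    exact Filter.tendsto_atTop_add_const_right _ _ tendsto_natCast_atTop_atTop
  simpa using tendsto_const_nhds.sub h0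

theorem d2_summable : Summable (fourierCoeff d2_f) := by
  have h0 := (d2_tele 0).summable
  have h1 : Summable (fun n : ℕ => 2 / π * (1 / |4 * ((n : ℕ) : ℝ) ^ 2 - 1|)) := by
    rw [← summable_nat_add_iff 1]
    refine (h0.mul_left (1 / 2)).congr (fun n => ?_)
    have h2 : (0 : ℝ) < 4 * ((n + 1 : ℕ) : ℝ) ^ 2 - 1 := by push_cast; nlinarith [Nat.cast_nonneg (α := ℝ) n]
    rw [abs_of_pos h2]
    simp only [Nat.zero_add]
    ring
  have hn : ∀ m : ℤ, ‖fourierCoeff d2_f m‖ = 2 / π * (1 / |4 * (m : ℝ) ^ 2 - 1|) := by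
    intro m
    have h5 : ‖(-1 : ℝ) ^ (m.natAbs + 1)‖ = 1 := by rw [norm_pow, norm_neg, norm_one, one_pow]
    rw [d2_coeff, Complex.norm_real, norm_mul, norm_div (a := (-1 : ℝ) ^ (m.natAbs + 1)), h5,
      Real.norm_eq_abs, Real.norm_eq_abs, abs_of_pos (div_pos two_pos Real.pi_pos)]
  refine Summable.of_norm ?_
  refine Summable.of_nat_of_neg ?_ ?_
  · refine h1.congr (fun n => ?_)
    rw [hn]; push_cast; rfl
  · refine h1.congr (fun n => ?_)
    rw [hn]; push_cast; rw [neg_sq]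

theorem d2_hasSum (θ : ℝ) : HasSum (fun k : ℕ => 4 / π * d2_b θ k) (|Real.cos θ| + 2 / π) := by
  have h := has_pointwise_sum_fourier_series_of_summable d2_summable (θ : AddCircle π)
  rw [d2_f_coe] at h
  have h1 := Complex.hasSum_re h
  have h2 : ∀ m : ℤ, (fourierCoeff d2_f m • (fourier m) (θ : AddCircle π)).re =
      2 / π * ((-1 : ℝ) ^ (m.natAbs + 1) / (4 * (m : ℝ) ^ 2 - 1)) * Real.cos (2 * m * θ) := by
    intro m
    rw [d2_coeff, smul_eq_mul, Complex.re_ofReal_mul, fourier_coe_apply]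
    congr 1
    have hpi : (π : ℂ) ≠ 0 := by exact_mod_cast Real.pi_ne_zero
    have : 2 * (π : ℂ) * Complex.I * m * θ / π = ((2 * m * θ : ℝ) : ℂ) * Complex.I := by
      push_cast; field_simp
    rw [this, Complex.exp_ofReal_mul_I_re]
  simp_rw [h2] at h1
  rw [Complex.ofReal_re] at h1
  have h3 := h1.nat_add_neg
  have e0 : (2 / π * ((-1 : ℝ) ^ ((0 : ℤ).natAbs + 1) / (4 * ((0 : ℤ) : ℝ) ^ 2 - 1)) *
      Real.cos (2 * ((0 : ℤ) : ℝ) * θ)) = 2 / π := by
    simp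
  rw [e0] at h3
  have e : (fun k : ℕ => 4 / π * d2_b θ k) = fun n : ℕ =>
      2 / π * ((-1 : ℝ) ^ (((n : ℤ)).natAbs + 1) / (4 * ((n : ℤ) : ℝ) ^ 2 - 1)) *
        Real.cos (2 * ((n : ℤ) : ℝ) * θ) +
      2 / π * ((-1 : ℝ) ^ ((-(n : ℤ)).natAbs + 1) / (4 * ((-(n : ℤ) : ℤ) : ℝ) ^ 2 - 1)) *
        Real.cos (2 * ((-(n : ℤ) : ℤ) : ℝ) * θ) := by
    funext n
    unfold d2_b
    rw [Int.natAbs_neg, Int.natAbs_natCast]
    push_cast
    rw [neg_sq, show 2 * -(n : ℝ) * θ = -(2 * n * θ) by ring, Real.cos_neg]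
    ring
  rw [e]
  exact h3

theorem d2_split (θ : ℝ) (K : ℕ) :
    ∑ k ∈ range (K + 1), 4 / π * d2_b θ k = 4 / π + 4 / π * ∑ k ∈ Icc 1 K, d2_b θ k := by
  induction K with
  | zero => simp [d2_b]
  | succ K ih =>
    rw [sum_range_succ, ih, sum_Icc_succ_top (by omega)]
    ring

theorem t_D2 : S_D2 := by
  intro K θ
  have h := (hasSum_nat_add_iff' (K + 1)).mpr (d2_hasSum θ)
  rw [d2_split] at h
  have h2 := (d2_tele K)
  have h3 : ∀ n : ℕ, ‖4 / π * d2_b θ (n + (K + 1))‖ ≤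
      4 / π * (1 / (4 * ((n + (K + 1) : ℕ) : ℝ) ^ 2 - 1)) := by
    intro n
    have h1 : (1 : ℝ) ≤ ((n + (K + 1) : ℕ) : ℝ) := by
      have : 1 ≤ n + (K + 1) := by omega
      exact_mod_cast this
    have h4 : (0 : ℝ) < 4 * ((n + (K + 1) : ℕ) : ℝ) ^ 2 - 1 := by nlinarith
    have hpi : 0 < 4 / π := div_pos four_pos Real.pi_pos
    rw [norm_mul, Real.norm_eq_abs, abs_of_pos hpi]
    refine mul_le_mul_of_nonneg_left ?_ hpi.le
    unfold d2_b
    rw [norm_div, norm_mul, norm_pow, norm_neg, norm_one, one_pow, one_mul, Real.norm_eq_abs,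
      Real.norm_eq_abs, abs_of_pos h4]
    exact div_le_div_of_nonneg_right (Real.abs_cos_le_one _) h4.le
  have h4 := h.norm_le_of_bounded h2 h3
  rw [Real.norm_eq_abs] at h4
  refine le_trans (le_of_eq ?_) h4
  congr 1
  have e : ∑ k ∈ Icc 1 K, (-1 : ℝ) ^ (k + 1) * Real.cos (2 * k * θ) / (4 * (k : ℝ) ^ 2 - 1) =
      ∑ k ∈ Icc 1 K, d2_b θ k := rfl
  rw [e]
  ring

end Pool.Agent.H276R2.Gn
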