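import Pool.Agent.H276R2.Gn.Spec

/-!
# Domination by sprinkling
-/

set_option autoImplicit false

namespace Pool.Agent.H276R2.Gn

open Finset Real

/-- The event of the statement `S_DOM`. -/
def dom_P {n : ℕ} (U : Finset (Fin n)) (Y : Mat n) (κ : ℝ) (τ : Cfg n) : Prop :=
  ∃ (U' : Finset (Fin n)) (V : Mat n), U' ⊆ U ∧ (#U' : ℝ) ≤ κ * #U ∧
    V.transpose = V ∧ (∀ i, V i i = 0) ∧ SuppE τ V ∧ Psd (U \ U') (V + κ • (1 : Mat n) + Y)

theorem dom_mono {n : ℕ} (U : Finset (Fin n)) (Y : Mat n) (κ : ℝ) (σ τ : Cfg n)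
    (h : ∀ e, σ e = true → τ e = true) (hP : dom_P U Y κ σ) : dom_P U Y κ τ := by
  obtain ⟨U', V, h1, h2, h3, h4, h5, h6⟩ := hP
  refine ⟨U', V, h1, h2, h3, h4, ?_, h6⟩
  intro i j hij hτ
  refine h5 i j hij ?_
  by_contra hc
  have hc' : σ s(i, j) = true := by simpa using hc
  rw [h _ hc'] at hτ
  exact Bool.noConfusion hτ

theorem dom_prob (n : ℕ) (q r : ℝ) (hq : 0 ≤ q) (hq1 : q ≤ 1) (hr : 0 ≤ r) (A P : Cfg n → Prop)
    (hA : r ≤ Pp n q A) (hP : ∀ σ, A σ → r ≤ Pp n q (fun τ => P (cup σ τ))) :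
    r ^ 2 ≤ Pp n (q + q - q * q) P := by
  classical
  unfold Pp
  rw [← Ep_cup n q q]
  calc r ^ 2 ≤ r * Pp n q A := by nlinarith
    _ = Ep n q (fun σ => r * (if A σ then 1 else 0)) := by
        rw [Ep_mul]
        unfold Pp
        congr
    _ ≤ _ := by
        refine Ep_mono n q hq hq1 _ _ fun σ => ?_
        by_cases h : A σ
        · simp only [h, if_true, mul_one]
          exact hP σ h
        · simp only [h, if_false, mul_zero]
          refine Ep_nonneg n q hq hq1 _ fun τ => ?_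
          split_ifs <;> norm_num

/-- Diagonal perturbation. -/
theorem dom_diag {n : ℕ} (U : Finset (Fin n)) (Y Yo : Mat n) (k : ℝ)
    (hYo : ∀ i j, Yo i j = if i ∈ U ∧ j ∈ U ∧ i ≠ j then Y i j else 0)
    (hd : ∀ i ∈ U, -k ≤ Y i i) : Psd U (Y - Yo + k • (1 : Mat n)) := by
  intro x hx
  refine Finset.sum_nonneg fun i _ => Finset.sum_nonneg fun j _ => ?_
  by_cases hi : i ∈ U
  · by_cases hj : j ∈ U
    · by_cases hij : i = j
      · subst hij
        simp only [Matrix.add_apply, Matrix.sub_apply, Matrix.smul_apply, Matrix.one_apply_eq,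
          smul_eq_mul, mul_one, hYo, hi, ne_eq, not_true_eq_false, and_false, if_false, sub_zero]
        have h1 := hd i hi
        have h2 : 0 ≤ Y i i + k := by linarith
        nlinarith [mul_nonneg h2 (mul_self_nonneg (x i))]
      · simp only [Matrix.add_apply, Matrix.sub_apply, Matrix.smul_apply, hYo, hi, hj,
          smul_eq_mul, ne_eq, hij, not_false_eq_true, and_self, if_true, sub_self,
          Matrix.one_apply_ne hij, mul_zero, add_zero, zero_mul, le_refl]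
    · rw [hx j hj, mul_zero]
  · rw [hx i hi, zero_mul, zero_mul]

theorem dom_num (κ η p s : ℝ) (hκ : 0 < κ) (hκ1 : κ ≤ 1) (hη : 0 < η) (hη1 : η ≤ 1) (hp : 0 < p)
    (hp1 : p ≤ 1) (hs : s ^ 2 = (κ * η * p) ^ 9 / 10 ^ 18) :
    (1 / (κ / 8) ^ 3) ^ 2 * (7 * (s / (η / 2) ^ 2) ^ 4) ≤
      p / 2 * ((κ / 2 * (η / 2) * (p / 2)) ^ 9 / 10 ^ 18) := by
  have hs4 : s ^ 4 = ((κ * η * p) ^ 9 / 10 ^ 18) ^ 2 := by rw [← hs]; ring
  have e1 : (1 / (κ / 8) ^ 3) ^ 2 * (7 * (s / (η / 2) ^ 2) ^ 4) =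
      7 * 8 ^ 6 * 2 ^ 8 * s ^ 4 / (κ ^ 6 * η ^ 8) := by
    field_simp
  have e2 : 7 * 8 ^ 6 * 2 ^ 8 * s ^ 4 / (κ ^ 6 * η ^ 8) =
      (7 * 8 ^ 6 * 2 ^ 8 / 10 ^ 36) * (κ ^ 9 * η ^ 9 * p ^ 10) * (κ ^ 3 * η * p ^ 8) := by
    rw [hs4]
    field_simp
  rw [e1, e2]
  have h1 : κ ^ 3 * η * p ^ 8 ≤ 1 := by
    have a1 : κ ^ 3 ≤ 1 := pow_le_one₀ hκ.le hκ1
    have a2 : p ^ 8 ≤ 1 := pow_le_one₀ hp.le hp1
    have a3 : κ ^ 3 * η ≤ 1 := by
      calc κ ^ 3 * η ≤ 1 * 1 := mul_le_mul a1 hη1 hη.le zero_le_one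
        _ = 1 := one_mul 1
    calc κ ^ 3 * η * p ^ 8 ≤ 1 * 1 := mul_le_mul a3 a2 (by positivity) zero_le_one
      _ = 1 := one_mul 1
  have h0 : 0 < κ ^ 9 * η ^ 9 * p ^ 10 := by positivity
  calc (7 * 8 ^ 6 * 2 ^ 8 / 10 ^ 36) * (κ ^ 9 * η ^ 9 * p ^ 10) * (κ ^ 3 * η * p ^ 8)
      ≤ (7 * 8 ^ 6 * 2 ^ 8 / 10 ^ 36) * (κ ^ 9 * η ^ 9 * p ^ 10) * 1 :=
        mul_le_mul_of_nonneg_left h1 (by positivity)
    _ ≤ (1 / (2 * 8 ^ 9 * 10 ^ 18)) * (κ ^ 9 * η ^ 9 * p ^ 10) := by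
        rw [mul_one]
        refine mul_le_mul_of_nonneg_right ?_ h0.le
        norm_num
    _ = p / 2 * ((κ / 2 * (η / 2) * (p / 2)) ^ 9 / 10 ^ 18) := by ring

theorem dom_noise_zero {n : ℕ} (U : Finset (Fin n)) (q : ℝ) (Yo : Mat n) (τ : Cfg n)
    (h : ∀ i j, i ∉ U → Yo i j = 0) : ∀ i j, i ∉ U → ((noise q Yo τ) ^ 4) i j = 0 := by
  intro i j hi
  rw [pow_succ' (noise q Yo τ) 3, Matrix.mul_apply]
  refine Finset.sum_eq_zero fun k _ => ?_
  have : noise q Yo τ i k = 0 := by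
    simp [noise, h i k hi]
  rw [this, zero_mul]

theorem dom_noise_sym {n : ℕ} (q : ℝ) (Yo : Mat n) (τ : Cfg n) (h : Yo.transpose = Yo) :
    (noise q Yo τ).transpose = noise q Yo τ := by
  ext i j
  have h1 : Yo j i = Yo i j := by
    conv_rhs => rw [← h]
    rfl
  simp [noise, Matrix.transpose_apply, h1, Sym2.eq_swap]

theorem dom_step (k2 : S_K2) (L : ℕ)
    (ih : ∀ (n : ℕ) (U : Finset (Fin n)) (Y : Mat n) (κ η p : ℝ), 0 < κ → κ ≤ 1 →
      0 < η → η ≤ 1 → 0 < p → p ≤ 1 → Y.transpose = Y → (∀ i j, i ∉ U → Y i j = 0) →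
      fro Y ≤ (κ * η * p) ^ 9 / 10 ^ 18 * #U →
      (κ * η * p) ^ 9 / 10 ^ 18 * #U ≤ 2 ^ (25 * L) * κ ^ 2 →
      1 - p ≤ Pp n η (dom_P U Y κ))
    (n : ℕ) (U : Finset (Fin n)) (Y : Mat n) (κ η p : ℝ) (hκ : 0 < κ) (hκ1 : κ ≤ 1)
    (hη : 0 < η) (hη1 : η ≤ 1) (hp : 0 < p) (hp1 : p ≤ 1) (hY : Y.transpose = Y)
    (hYU : ∀ i j, i ∉ U → Y i j = 0) (hf : fro Y ≤ (κ * η * p) ^ 9 / 10 ^ 18 * #U)
    (hb : (κ * η * p) ^ 9 / 10 ^ 18 * #U ≤ 2 ^ (25 * (L + 1)) * κ ^ 2) (hU : 0 < #U) :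
    1 - p ≤ Pp n η (dom_P U Y κ) := by
  classical
  set b : ℝ := (κ * η * p) ^ 9 / 10 ^ 18 with hbdef
  have hb0 : 0 < b := by positivity
  set s : ℝ := √b with hsdef
  have hs0 : 0 < s := Real.sqrt_pos.mpr hb0
  have hs2 : s ^ 2 = b := Real.sq_sqrt hb0.le
  have hm : (0 : ℝ) < #U := by exact_mod_cast hU
  have hYs : ∀ i j, Y j i = Y i j := by
    intro i j
    conv_rhs => rw [← hY]
    rfl
  -- `s ≤ κ ^ 2 / 64`
  have hsκ : s ≤ κ ^ 2 / 64 := by
    rw [hsdef, Real.sqrt_le_left (by positivity)]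
    have h1 : (κ * η * p) ^ 9 ≤ κ ^ 4 := by
      have hηp : η * p ≤ 1 := by
        calc η * p ≤ 1 * 1 := mul_le_mul hη1 hp1 hp.le zero_le_one
          _ = 1 := one_mul 1
      calc (κ * η * p) ^ 9 = κ ^ 4 * (κ ^ 5 * (η * p) ^ 9) := by ring
        _ ≤ κ ^ 4 * (1 * 1) := by
            refine mul_le_mul_of_nonneg_left ?_ (by positivity)
            exact mul_le_mul (pow_le_one₀ hκ.le hκ1) (pow_le_one₀ (by positivity) hηp)
              (by positivity) zero_le_one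
        _ = κ ^ 4 := by ring
    rw [hbdef]
    have h2 : 0 < κ ^ 4 := by positivity
    calc (κ * η * p) ^ 9 / 10 ^ 18 ≤ κ ^ 4 / 10 ^ 18 := by gcongr
      _ ≤ (κ ^ 2 / 64) ^ 2 := by
          rw [show (κ ^ 2 / 64) ^ 2 = κ ^ 4 / 4096 by ring]
          gcongr
          norm_num
  -- the bad rows
  set rh : Fin n → ℝ := fun j => ∑ k, Y j k ^ 2 with hrh
  set U1 : Finset (Fin n) := U.filter (fun j => s < rh j) with hU1
  set U2 : Finset (Fin n) := U \ U1 with hU2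
  have hrh0 : ∀ j, 0 ≤ rh j := fun j => Finset.sum_nonneg fun k _ => sq_nonneg _
  have hcard1 : (#U1 : ℝ) ≤ s * #U := by
    have h1 : (#U1 : ℝ) * s ≤ fro Y := by
      calc (#U1 : ℝ) * s = ∑ j ∈ U1, s := by rw [Finset.sum_const, nsmul_eq_mul]
        _ ≤ ∑ j ∈ U1, rh j := Finset.sum_le_sum fun j hj => (Finset.mem_filter.mp hj).2.le
        _ ≤ ∑ j, rh j := Finset.sum_le_univ_sum_of_nonneg hrh0
        _ = fro Y := rfl
    have h2 : (#U1 : ℝ) * s ≤ (s * #U) * s := by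
      calc (#U1 : ℝ) * s ≤ b * #U := h1.trans hf
        _ = (s * #U) * s := by rw [← hs2]; ring
    exact le_of_mul_le_mul_right h2 hs0
  have hsκ8 : s ≤ κ / 8 := by nlinarith
  have hcard1' : (#U1 : ℝ) ≤ κ / 8 * #U :=
    hcard1.trans (mul_le_mul_of_nonneg_right hsκ8 hm.le)
  have hU1U : U1 ⊆ U := Finset.filter_subset _ _
  have hcard2 : (#U2 : ℝ) = #U - #U1 := by
    rw [hU2, Finset.card_sdiff_of_subset hU1U, Nat.cast_sub (Finset.card_le_card hU1U)]
  have hm2 : (0 : ℝ) < #U2 := by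
    rw [hcard2]
    nlinarith
  have hm2' : (#U2 : ℝ) ≤ #U := by
    rw [hcard2]
    have : (0 : ℝ) ≤ #U1 := Nat.cast_nonneg _
    linarith
  have hrow : ∀ i ∈ U2, rh i ≤ s := by
    intro i hi
    rw [hU2, Finset.mem_sdiff] at hi
    by_contra hc
    exact hi.2 (Finset.mem_filter.mpr ⟨hi.1, not_le.mp hc⟩)
  -- the off diagonal part
  set Yo : Mat n := Matrix.of fun i j => if i ∈ U2 ∧ j ∈ U2 ∧ i ≠ j then Y i j else 0 with hYo
  have hYo_app : ∀ i j, Yo i j = if i ∈ U2 ∧ j ∈ U2 ∧ i ≠ j then Y i j else 0 := fun i j => rfl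
  have hYo_sym : Yo.transpose = Yo := by
    ext i j
    rw [Matrix.transpose_apply, hYo_app, hYo_app, hYs]
    by_cases h1 : i ∈ U2 <;> by_cases h2 : j ∈ U2 <;> by_cases h3 : i = j <;>
      simp [h1, h2, h3, eq_comm]
  have hYo_diag : ∀ i, Yo i i = 0 := by
    intro i
    rw [hYo_app]
    simp
  have hYo_zero : ∀ i j, i ∉ U2 → Yo i j = 0 := by
    intro i j hi
    rw [hYo_app]
    simp [hi]
  have hYo_row : ∀ i, ∑ j, Yo i j ^ 2 ≤ s := by
    intro i
    by_cases hi : i ∈ U2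
    · refine le_trans (Finset.sum_le_sum fun j _ => ?_) (hrow i hi)
      rw [hYo_app]
      split_ifs
      · exact le_refl _
      · rw [zero_pow (by norm_num)]
        exact sq_nonneg _
    · rw [Finset.sum_eq_zero]
      · exact hs0.le
      · intro j _
        rw [hYo_zero i j hi, zero_pow (by norm_num)]
  -- the first stage
  set q : ℝ := η / 2 with hq
  have hq0 : 0 < q := by positivity
  have hq1 : q ≤ 1 := by rw [hq]; linarith
  set k : ℝ := κ / 8 with hk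
  have hk0 : 0 < k := by positivity
  set Y1 : Cfg n → Mat n := fun τ => (-(1 / k ^ 3)) • (noise q Yo τ) ^ 4 with hY1
  have hY1f : ∀ τ, fro (Y1 τ) = (1 / k ^ 3) ^ 2 * ((noise q Yo τ) ^ 8).trace := by
    intro τ
    rw [hY1]
    simp only
    rw [fro_smul, fro_pow_four _ (dom_noise_sym q Yo τ hYo_sym)]
    ring
  set b1 : ℝ := (κ / 2 * (η / 2) * (p / 2)) ^ 9 / 10 ^ 18 with hb1
  have hb10 : 0 < b1 := by positivity
  have hEf : Ep n q (fun τ => fro (Y1 τ)) ≤ p / 2 * (b1 * #U2) := by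
    have h1 : Ep n q (fun τ => fro (Y1 τ)) =
        (1 / k ^ 3) ^ 2 * Ep n q (fun τ => ((noise q Yo τ) ^ 8).trace) := by
      rw [← Ep_mul]
      congr 1
      funext τ
      exact hY1f τ
    rw [h1]
    have h2 := k2 n U2 Yo q s hq0 hq1 hYo_sym hYo_diag hYo_zero hYo_row
    have h3 := dom_num κ η p s hκ hκ1 hη hη1 hp hp1 hs2
    calc (1 / k ^ 3) ^ 2 * Ep n q (fun τ => ((noise q Yo τ) ^ 8).trace)
        ≤ (1 / k ^ 3) ^ 2 * (7 * (s / q ^ 2) ^ 4 * #U2) :=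
          mul_le_mul_of_nonneg_left h2 (by positivity)
      _ = ((1 / k ^ 3) ^ 2 * (7 * (s / q ^ 2) ^ 4)) * #U2 := by ring
      _ ≤ (p / 2 * b1) * #U2 := mul_le_mul_of_nonneg_right h3 hm2.le
      _ = p / 2 * (b1 * #U2) := by ring
  have hc0 : 0 < b1 * #U2 := by positivity
  have hmark := Pp_markov n q hq0.le hq1 (fun τ => fro (Y1 τ)) (fun τ => fro_nonneg _)
    (b1 * #U2) hc0
  have hA : 1 - p / 2 ≤ Pp n q (fun τ => ¬ (b1 * #U2 < fro (Y1 τ))) := by
    rw [Pp_not]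
    have : Ep n q (fun τ => fro (Y1 τ)) / (b1 * #U2) ≤ p / 2 := by
      rw [div_le_iff₀ hc0]
      exact hEf
    linarith
  -- combination
  have hcomb : (1 - p / 2) ^ 2 ≤ Pp n (q + q - q * q) (dom_P U Y κ) := by
    refine dom_prob n q (1 - p / 2) hq0.le hq1 (by linarith) _ _ hA fun σ hσ => ?_
    rw [not_lt] at hσ
    have hY1sym : (Y1 σ).transpose = Y1 σ := by
      rw [hY1]
      simp only
      rw [Matrix.transpose_smul, Matrix.transpose_pow, dom_noise_sym q Yo σ hYo_sym]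
    have hY1z : ∀ i j, i ∉ U2 → Y1 σ i j = 0 := by
      intro i j hi
      rw [hY1]
      simp only [Matrix.smul_apply]
      rw [dom_noise_zero U2 q Yo σ hYo_zero i j hi, smul_zero]
    have hsz : b1 * #U2 ≤ 2 ^ (25 * L) * (κ / 2) ^ 2 := by
      have e1 : b1 = b / 8 ^ 9 := by
        rw [hb1, hbdef]
        ring
      rw [e1]
      calc b / 8 ^ 9 * #U2 ≤ b / 8 ^ 9 * #U := mul_le_mul_of_nonneg_left hm2' (by positivity)
        _ = (b * #U) / 8 ^ 9 := by ring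
        _ ≤ (2 ^ (25 * (L + 1)) * κ ^ 2) / 8 ^ 9 := by gcongr
        _ = 2 ^ (25 * L) * (κ / 2) ^ 2 := by
            rw [show 25 * (L + 1) = 25 * L + 25 by ring, pow_add]
            ring
    have hih := ih n U2 (Y1 σ) (κ / 2) (η / 2) (p / 2) (by positivity) (by linarith)
      (by positivity) (by linarith) (by positivity) (by linarith) hY1sym hY1z hσ hsz
    refine hih.trans (Pp_mono n q hq0.le hq1 _ _ fun τ hτ => ?_)
    obtain ⟨U'', V1, h1, h2, h3, h4, h5, h6⟩ := hτ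
    set N : Mat n := noise q Yo σ with hN
    have hNs : N.transpose = N := dom_noise_sym q Yo σ hYo_sym
    have hV0 : ∀ i j, (-(Yo + N)) i j = -(Yo i j * (if σ s(i, j) = true then 1 / q else 0)) := by
      intro i j
      rw [hN]
      simp only [noise, Matrix.neg_apply, Matrix.add_apply, Matrix.of_apply]
      ring
    refine ⟨U1 ∪ U'', -(Yo + N) + V1, ?_, ?_, ?_, ?_, ?_, ?_⟩
    · refine Finset.union_subset hU1U (h1.trans ?_)
      rw [hU2]
      exact Finset.sdiff_subset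
    · have : (#(U1 ∪ U'') : ℝ) ≤ #U1 + #U'' := by exact_mod_cast Finset.card_union_le _ _
      have h7 : κ / 2 * (#U2 : ℝ) ≤ κ / 2 * #U := mul_le_mul_of_nonneg_left hm2' (by positivity)
      nlinarith
    · rw [Matrix.transpose_add, Matrix.transpose_neg, Matrix.transpose_add, hYo_sym, hNs, h3]
    · intro i
      rw [Matrix.add_apply, hV0, hYo_diag, h4]
      ring
    · intro i j hij hc
      have hc1 : σ s(i, j) = false ∧ τ s(i, j) = false := by
        simpa [cup] using hc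
      rw [Matrix.add_apply, hV0, h5 i j hij hc1.2]
      simp [hc1.1]
    · have hset : U \ (U1 ∪ U'') = U2 \ U'' := by
        rw [hU2]
        ext i
        simp only [Finset.mem_sdiff, Finset.mem_union]
        tauto
      rw [hset]
      have hsub : U2 \ U'' ⊆ U2 := Finset.sdiff_subset
      have p1 : Psd (U2 \ U'') (Y - Yo + k • (1 : Mat n)) := by
        refine Psd_mono hsub (dom_diag U2 Y Yo k hYo_app fun i hi => ?_)
        have h8 : Y i i ^ 2 ≤ k ^ 2 := by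
          calc Y i i ^ 2 ≤ rh i :=
                Finset.single_le_sum (f := fun j => Y i j ^ 2) (fun j _ => sq_nonneg _)
                  (Finset.mem_univ i)
            _ ≤ s := hrow i hi
            _ ≤ κ ^ 2 / 64 := hsκ
            _ = k ^ 2 := by rw [hk]; ring
        exact (abs_le.mp (abs_le_of_sq_le_sq h8 hk0.le)).1
      have p2 : Psd (U2 \ U'') (k • (1 : Mat n) + (1 / k ^ 3) • N ^ 4 - N) :=
        Psd_mono (Finset.subset_univ _) (Psd_pow_four N hNs k hk0)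
      have p3 : Psd (U2 \ U'') (k • (1 : Mat n) + (1 / k ^ 3) • (0 : Mat n) ^ 4 - 0) :=
        Psd_mono (Finset.subset_univ _) (Psd_pow_four 0 (by simp) k hk0)
      have p4 := Psd_add (Psd_add (Psd_add p1 p2) (Psd_add p3 p3)) h6
      have e : Y - Yo + k • (1 : Mat n) + (k • (1 : Mat n) + (1 / k ^ 3) • N ^ 4 - N) +
          ((k • (1 : Mat n) + (1 / k ^ 3) • (0 : Mat n) ^ 4 - 0) +
            (k • (1 : Mat n) + (1 / k ^ 3) • (0 : Mat n) ^ 4 - 0)) +
          (V1 + (κ / 2) • (1 : Mat n) + Y1 σ) = -(Yo + N) + V1 + κ • (1 : Mat n) + Y := by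
        rw [hY1]
        simp only
        rw [← hN, zero_pow (by norm_num), smul_zero, neg_smul]
        have e1 : κ • (1 : Mat n) = k • (1 : Mat n) + k • (1 : Mat n) + k • (1 : Mat n) +
            k • (1 : Mat n) + (κ / 2) • (1 : Mat n) := by
          rw [← add_smul, ← add_smul, ← add_smul, ← add_smul]
          congr 1
          rw [hk]
          ring
        rw [e1]
        abel
      rw [e] at p4
      exact p4
  have hq' : q + q - q * q ≤ η := by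
    have : 0 ≤ q * q := by positivity
    rw [hq] at this ⊢
    linarith
  have hq'' : 0 ≤ q + q - q * q := by nlinarith
  have hfin := Pp_mono_density n (q + q - q * q) η hq'' hq' hη1 (dom_P U Y κ)
    (fun σ τ h hP => dom_mono U Y κ σ τ h hP)
  nlinarith

theorem dom_zero (n : ℕ) (U : Finset (Fin n)) (Y : Mat n) (κ η p : ℝ) (hκ : 0 < κ)
    (hη : 0 < η) (hη1 : η ≤ 1) (hp : 0 < p) (hf : fro Y ≤ κ ^ 2) :
    1 - p ≤ Pp n η (dom_P U Y κ) := by
  have h1 : Pp n η (fun _ => True) = 1 := by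
    unfold Pp
    simp only [if_true]
    exact Ep_const n η 1
  have h2 : Pp n η (fun _ => True) ≤ Pp n η (dom_P U Y κ) := by
    refine Pp_mono n η hη.le hη1 _ _ fun τ _ => ?_
    refine ⟨∅, 0, Finset.empty_subset _, ?_, ?_, ?_, ?_, ?_⟩
    · rw [Finset.card_empty, Nat.cast_zero]
      positivity
    · simp
    · simp
    · intro i j _ _
      rfl
    · rw [zero_add]
      exact Psd_mono (Finset.subset_univ _) (Psd_of_fro Y κ hκ.le hf)
  linarith

theorem dom_all (k2 : S_K2) (L : ℕ) : ∀ (n : ℕ) (U : Finset (Fin n)) (Y : Mat n) (κ η p : ℝ),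
    0 < κ → κ ≤ 1 → 0 < η → η ≤ 1 → 0 < p → p ≤ 1 → Y.transpose = Y →
    (∀ i j, i ∉ U → Y i j = 0) → fro Y ≤ (κ * η * p) ^ 9 / 10 ^ 18 * #U →
    (κ * η * p) ^ 9 / 10 ^ 18 * #U ≤ 2 ^ (25 * L) * κ ^ 2 →
    1 - p ≤ Pp n η (dom_P U Y κ) := by
  induction L with
  | zero =>
    intro n U Y κ η p hκ hκ1 hη hη1 hp hp1 hY hYU hf hb
    refine dom_zero n U Y κ η p hκ hη hη1 hp (hf.trans (hb.trans ?_))
    simp
  | succ L ih =>
    intro n U Y κ η p hκ hκ1 hη hη1 hp hp1 hY hYU hf hb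
    rcases Nat.eq_zero_or_pos (#U) with h0 | h0
    · refine dom_zero n U Y κ η p hκ hη hη1 hp (hf.trans ?_)
      rw [h0, Nat.cast_zero, mul_zero]
      positivity
    · exact dom_step k2 L ih n U Y κ η p hκ hκ1 hη hη1 hp hp1 hY hYU hf hb h0

theorem t_DOM (k2 : S_K2) : S_DOM := by
  intro n U Y κ η p hκ hκ1 hη hη1 hp hp1 hY hYU hf
  obtain ⟨L, hL⟩ := pow_unbounded_of_one_lt ((κ * η * p) ^ 9 / 10 ^ 18 * #U / κ ^ 2)
    (show (1 : ℝ) < 2 ^ 25 by norm_num)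
  have h := dom_all k2 L n U Y κ η p hκ hκ1 hη hη1 hp hp1 hY hYU hf (by
    rw [div_lt_iff₀ (by positivity)] at hL
    rw [pow_mul]
    exact hL.le)
  exact h

end Pool.Agent.H276R2.Gn
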