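import Mathlib

/-!
# Lovasz number of `G(n, 1/2)`: definitions
-/

set_option autoImplicit false

namespace Pool.Agent.H276R2.Gn

open Finset Real

/-! ### Random configurations -/

/-- Configurations: which pairs are edges (the values on the diagonal pairs are irrelevant). -/
abbrev Cfg (n : ℕ) : Type := Sym2 (Fin n) → Bool

/-- Expectation when every pair is an edge with probability `p`, independently. -/
noncomputable def Ep (n : ℕ) (p : ℝ) (f : Cfg n → ℝ) : ℝ :=
  ∑ σ : Cfg n, (∏ e, if σ e = true then p else 1 - p) * f σ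

open Classical in
/-- Probability. -/
noncomputable def Pp (n : ℕ) (p : ℝ) (P : Cfg n → Prop) : ℝ := Ep n p (fun σ => if P σ then 1 else 0)

/-- Real square matrices. -/
abbrev Mat (n : ℕ) : Type := Matrix (Fin n) (Fin n) ℝ

/-- Families of random matrices. -/
abbrev MF : Type := (n : ℕ) → Cfg n → Mat n

open Classical in
/-- The centred and normalised edge variable: mean `0`, variance `1`; `0` on the diagonal. -/
noncomputable def om (p : ℝ) {n : ℕ} (σ : Cfg n) (e : Sym2 (Fin n)) : ℝ :=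
  if e.IsDiag then 0 else if σ e = true then √((1 - p) / p) else -√(p / (1 - p))

/-- The constant with `om ^ 2 = 1 + bb * om` off the diagonal. -/
noncomputable def bb (p : ℝ) : ℝ := (1 - 2 * p) / √(p * (1 - p))

/-- Entrywise multiplication by the edge variables (zero on the diagonal). -/
noncomputable def Tm (p : ℝ) {n : ℕ} (σ : Cfg n) (X : Mat n) : Mat n :=
  Matrix.of fun i j => om p σ s(i, j) * X i j

/-- Square of the Frobenius norm. -/
noncomputable def fro {n : ℕ} (X : Mat n) : ℝ := ∑ i, ∑ j, X i j ^ 2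

/-- The matrix with all entries `1 / √n`. -/
noncomputable def Jn (n : ℕ) : Mat n := Matrix.of fun _ _ => 1 / √n

/-- The normalised matrix of edge variables. -/
noncomputable def Wn (p : ℝ) {n : ℕ} (σ : Cfg n) : Mat n := Matrix.of fun i j => om p σ s(i, j) / √n

/-- Nonnegative quadratic form on vectors supported in `U`. -/
def Psd {n : ℕ} (U : Finset (Fin n)) (M : Mat n) : Prop :=
  ∀ x : Fin n → ℝ, (∀ i, i ∉ U → x i = 0) → 0 ≤ ∑ i, ∑ j, x i * M i j * x j

/-- The Lovasz number of the graph `σ` restricted to the vertex set `U`. -/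
noncomputable def Th {n : ℕ} (σ : Cfg n) (U : Finset (Fin n)) : ℝ :=
  sSup {s : ℝ | ∃ X : Mat n, X.PosSemidef ∧ X.trace = 1 ∧
    (∀ i j, i ≠ j → σ s(i, j) = true → X i j = 0) ∧ (∀ i j, i ∉ U → X i j = 0) ∧
    s = ∑ i, ∑ j, X i j}

/-- `B` vanishes outside the edges of `σ` and the diagonal. -/
def SuppE {n : ℕ} (σ : Cfg n) (B : Mat n) : Prop := ∀ i j, i ≠ j → σ s(i, j) = false → B i j = 0

/-- Union of two configurations. -/
def cup {n : ℕ} (σ τ : Cfg n) : Cfg n := fun e => σ e || τ e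

/-! ### Shapes and chaoses -/

/-- A shape: a finite graph with two marked vertices. -/
structure Shp : Type 1 where
  /-- vertices -/
  X : Type
  [fX : Fintype X]
  [dX : DecidableEq X]
  /-- source -/
  s : X
  /-- target -/
  t : X
  /-- edges -/
  E : Finset (Sym2 X)
  loopless : ∀ e ∈ E, ¬ e.IsDiag

attribute [instance] Shp.fX Shp.dX

/-- The number of isolated vertices different from the marked vertices. -/
def Shp.iso (H : Shp) : ℕ := #{x : H.X | x ≠ H.s ∧ x ≠ H.t ∧ ∀ e ∈ H.E, x ∉ e}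

open Classical in
/-- The sum over all injective labellings of the shape, normalised by `√n ^ q`. -/
noncomputable def Sh (p : ℝ) (H : Shp) (q : ℕ) : MF := fun n σ => Matrix.of fun i j =>
  (∑ v : H.X → Fin n, if Function.Injective v ∧ v H.s = i ∧ v H.t = j then
    ∏ e ∈ H.E, om p σ (e.map v) else 0) / √n ^ q

/-- Negligible families: bounded combinations of shapes with `#X + iso ≤ q`. -/
def BadF (p : ℝ) (f : MF) : Prop := ∃ (K : Type) (_ : Fintype K) (H : K → Shp) (q : K → ℕ)
  (c : K → ℕ → ℝ) (C : ℝ), (∀ k n, |c k n| ≤ C) ∧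
  (∀ k, Fintype.card (H k).X + (H k).iso ≤ q k) ∧
  ∀ n, 0 < n → ∀ σ : Cfg n, f n σ = ∑ k, c k n • Sh p (H k) (q k) n σ

/-- A partial map from the vertices of the second shape to the vertices of the first one. -/
abbrev SPat (H₁ H₂ : Shp) : Type := H₂.X → Option H₁.X

/-- The partial map is injective and maps the source of the second to the target of the first. -/
def SPat.OK {H₁ H₂ : Shp} (ξ : SPat H₁ H₂) : Prop :=
  ξ H₂.s = some H₁.t ∧ ∀ y y' x, ξ y = some x → ξ y' = some x → y = y'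

/-- Vertices of the product shape. -/
abbrev SPat.V {H₁ H₂ : Shp} (ξ : SPat H₁ H₂) : Type := H₁.X ⊕ {y : H₂.X // ξ y = none}

/-- The embedding of the second shape. -/
def SPat.emb {H₁ H₂ : Shp} (ξ : SPat H₁ H₂) (y : H₂.X) : ξ.V :=
  match h : ξ y with
  | some x => Sum.inl x
  | none => Sum.inr ⟨y, h⟩

/-- Image of the edges of the first shape. -/
def SPat.E₁ {H₁ H₂ : Shp} (ξ : SPat H₁ H₂) : Finset (Sym2 ξ.V) := H₁.E.image (Sym2.map Sum.inl)

/-- Image of the edges of the second shape. -/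
def SPat.E₂ {H₁ H₂ : Shp} (ξ : SPat H₁ H₂) : Finset (Sym2 ξ.V) := H₂.E.image (Sym2.map ξ.emb)

open Classical in
/-- The product shape with coincidence pattern `ξ`, where the doubled edges of `R` are kept. -/
noncomputable def prodShp (H₁ H₂ : Shp) (ξ : SPat H₁ H₂) (R : Finset (Sym2 ξ.V)) : Shp where
  X := ξ.V
  s := Sum.inl H₁.s
  t := ξ.emb H₂.t
  E := {e ∈ symmDiff ξ.E₁ ξ.E₂ ∪ R | ¬ e.IsDiag}
  loopless := fun _ he => (Finset.mem_filter.mp he).2

/-- Source and target are linked: every set of vertices containing the source and not the target has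
a boundary edge. -/
def Shp.Linked (H : Shp) : Prop := ∀ K : Finset H.X, H.s ∈ K → H.t ∉ K →
  ∃ x ∈ K, ∃ y, y ∉ K ∧ s(x, y) ∈ H.E

/-- A chain: vertices `0, ..., L` and edges `(a, b)`, `a < b`, among them all `(a, a + 1)`. -/
structure Chn : Type where
  /-- length -/
  L : ℕ
  /-- edges -/
  E : Finset (ℕ × ℕ)
  lt : ∀ e ∈ E, e.1 < e.2 ∧ e.2 ≤ L
  unit : ∀ a, a < L → (a, a + 1) ∈ E

/-- A chain which contains the edge between its ends. -/
def Chn.IsTr (B : Chn) : Prop := 0 < B.L ∧ (0, B.L) ∈ B.E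

/-- The empty chain. -/
def Chn.nil : Chn := ⟨0, ∅, by simp, by simp⟩

/-- The chain with one edge. -/
def Chn.leaf : Chn := ⟨1, {(0, 1)}, by simp, by simp⟩

/-- Concatenation. -/
def Chn.cat (B₁ B₂ : Chn) : Chn where
  L := B₁.L + B₂.L
  E := B₁.E ∪ B₂.E.image (fun e => (e.1 + B₁.L, e.2 + B₁.L))
  lt := by
    intro e he
    rcases Finset.mem_union.mp he with h | h
    · have := B₁.lt e h
      omega
    · obtain ⟨e', he', rfl⟩ := Finset.mem_image.mp h
      have := B₂.lt e' he'
      simp only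
      omega
  unit := by
    intro a ha
    by_cases h : a < B₁.L
    · exact Finset.mem_union_left _ (B₁.unit a h)
    · refine Finset.mem_union_right _ (Finset.mem_image.mpr ⟨(a - B₁.L, a - B₁.L + 1),
        B₂.unit _ (by omega), ?_⟩)
      simp only [Prod.mk.injEq]
      omega

/-- Adding the edge between the ends. -/
def Chn.cap (B : Chn) (h : 0 < B.L) : Chn where
  L := B.L
  E := insert (0, B.L) B.E
  lt := by
    intro e he
    rcases Finset.mem_insert.mp he with rfl | he
    · simp only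
      omega
    · exact B.lt e he
  unit := fun a ha => Finset.mem_insert_of_mem (B.unit a ha)

/-- The shape of a chain. -/
def Chn.shp (B : Chn) : Shp where
  X := Fin (B.L + 1)
  s := 0
  t := Fin.last _
  E := B.E.image (fun e => s(Fin.ofNat (B.L + 1) e.1, Fin.ofNat (B.L + 1) e.2))
  loopless := by
    intro e he hd
    obtain ⟨e', he', rfl⟩ := Finset.mem_image.mp he
    have h1 := B.lt e' he'
    rw [Sym2.mk_isDiag_iff] at hd
    have h2 := congrArg Fin.val hd
    simp only [Fin.ofNat] at h2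
    rw [Nat.mod_eq_of_lt (by omega), Nat.mod_eq_of_lt (by omega)] at h2
    omega

/-- Concatenation of a sequence of chains. -/
def catF : (r : ℕ) → (Fin r → Chn) → Chn
  | 0, _ => Chn.nil
  | r + 1, f => (f 0).cat (catF r (fun i => f i.succ))

open Classical in
/-- The chaos of a chain. -/
noncomputable def Fc (p : ℝ) (B : Chn) : MF := fun n σ => Matrix.of fun i j =>
  (∑ v : Fin (B.L + 1) → Fin n, if Function.Injective v ∧ v 0 = i ∧ v (Fin.last _) = j then
    ∏ e ∈ B.E, om p σ s(v (Fin.ofNat (B.L + 1) e.1), v (Fin.ofNat (B.L + 1) e.2)) else 0) /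
      √n ^ B.L

/-- Adjacency in a chain. -/
def Chn.Adj (B : Chn) (a b : ℕ) : Prop := (a, b) ∈ B.E ∨ (b, a) ∈ B.E

/-- Isomorphisms of chains exchanging the ends. -/
def CIso (B B' : Chn) : Type := {ξ : Fin (B'.L + 1) ≃ Fin (B.L + 1) //
  ξ 0 = Fin.last _ ∧ ξ (Fin.last _) = 0 ∧
    ∀ a b : Fin (B'.L + 1), B'.Adj a b ↔ B.Adj (ξ a : ℕ) (ξ b : ℕ)}

/-- The covariance of two chains. -/
noncomputable def cc (B B' : Chn) : ℝ := Nat.card (CIso B B')

section Wick

variable (p : ℝ) {J : Type} [Fintype J] (tr : J → Chn)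

/-- Linear combination of trees. -/
noncomputable def Gf (α : J → ℝ) : MF := fun n σ => ∑ j, α j • Fc p (tr j) n σ

/-- Wick product of linear combinations of trees. -/
noncomputable def Wf {r : ℕ} (γ : Fin r → J → ℝ) : MF := fun n σ =>
  ∑ j : Fin r → J, (∏ i, γ i (j i)) • Fc p (catF r (fun i => tr (j i))) n σ

/-- Covariance of linear combinations of trees. -/
noncomputable def CC (α β : J → ℝ) : ℝ := ∑ i, ∑ j, α i * β j * cc (tr i) (tr j)

/-- The symmetric family `G` is approximated by the linear combination of trees `α`. -/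
def App (α : J → ℝ) (G : MF) : Prop := (∀ j, (tr j).IsTr) ∧
  (∀ n (σ : Cfg n), (G n σ).transpose = G n σ) ∧ BadF p (fun n σ => G n σ - Gf p tr α n σ)

end Wick

/-! ### Chebyshev polynomials and the iteration -/

open Polynomial in
/-- Chebyshev polynomials of the second kind for the interval `[-2, 2]`. -/
noncomputable def Uc : ℕ → ℝ[X]
  | 0 => 1
  | 1 => X
  | d + 2 => X * Uc (d + 1) - Uc d

/-- Integral of a function against the semicircle law. -/
noncomputable def scI (f : ℝ → ℝ) : ℝ :=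
  2 / π * ∫ θ in (0 : ℝ)..π, f (2 * Real.cos θ) * Real.sin θ ^ 2

/-- The polynomial with Chebyshev coefficients `c d`, `d ≤ D`. -/
noncomputable def PP (D : ℕ) (c : ℕ → ℝ) : Polynomial ℝ :=
  ∑ d ∈ range (D + 1), Polynomial.C (c d) * Uc d

/-- The normalisation of the iteration. -/
noncomputable def sP (D : ℕ) (c : ℕ → ℝ) : ℝ := √(4 + ∑ d ∈ range (D + 1), c d ^ 2)

/-- Correlations of consecutive iterates. -/
noncomputable def rho (D : ℕ) (c : ℕ → ℝ) : ℕ → ℝ
  | 0 => 2 / sP D c
  | m + 1 => (4 + ∑ d ∈ range (D + 1), c d ^ 2 * rho D c m ^ d) / sP D c ^ 2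

/-- One step of the iteration. -/
noncomputable def Stp (p : ℝ) (D : ℕ) (c : ℕ → ℝ) (a s : ℝ) (G : MF) : MF := fun n σ =>
  (1 / s) • (a • Wn p σ + Tm p σ (Polynomial.aeval (G n σ) (PP D c)))

/-- The iterates. -/
noncomputable def Gm (p : ℝ) (D : ℕ) (c : ℕ → ℝ) : ℕ → MF
  | 0 => fun _ σ => Wn p σ
  | m + 1 => Stp p D c 2 (sP D c) (Gm p D c m)

/-- State of the iteration. -/
structure St (p : ℝ) (D : ℕ) (c : ℕ → ℝ) (m : ℕ) {J : Type} [Fintype J] (tr : J → Chn)
    (α β : J → ℝ) : Prop where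
  aα : App p tr α (Gm p D c m)
  aβ : App p tr β (Gm p D c (m + 1))
  nα : CC tr α α = 1
  nβ : CC tr β β = 1
  cov : CC tr α β = rho D c m

/-- There is an approximate solution. -/
def ApproxM (η δ : ℝ) (n : ℕ) (σ : Cfg n) : Prop := ∃ B Y : Mat n,
  B.transpose = B ∧ Y.transpose = Y ∧ (∀ i, B i i = 1) ∧ SuppE σ B ∧ fro Y ≤ δ * n ∧
  Psd univ (B + (3 * η) • (1 : Mat n) - (1 - η) • Jn n - Y)

/-- There is a solution on most vertices. -/
def GoodU (κ β γ : ℝ) (n : ℕ) (σ : Cfg n) : Prop := ∃ (U : Finset (Fin n)) (B : Mat n),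
  (#Uᶜ : ℝ) ≤ κ * n ∧ B.transpose = B ∧ (∀ i, B i i = β) ∧ SuppE σ B ∧ Psd U (B - γ • Jn n)

end Pool.Agent.H276R2.Gn
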