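import Pool.Agent.H276R2.Gn.Spec

/-! Task FR (helper51): the average over all graphs. -/

set_option autoImplicit false

namespace Pool.Agent.H276R2.Gn

open Finset Real

/-- the graph of a configuration -/
def fr_gr {n : ℕ} (σ : Cfg n) : SimpleGraph (Fin n) where
  Adj i j := i ≠ j ∧ σ s(i, j) = true
  symm := ⟨fun i j h => ⟨h.1.symm, by rw [Sym2.eq_swap]; exact h.2⟩⟩
  loopless := ⟨fun i h => h.1 rfl⟩

/-- the functional -/
noncomputable def fr_F {n : ℕ} (G : SimpleGraph (Fin n)) : ℝ :=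
  sSup {s : ℝ | ∃ X : Matrix (Fin n) (Fin n) ℝ,
      X.PosSemidef ∧ X.trace = 1 ∧ (∀ i j, G.Adj i j → X i j = 0) ∧
      s = ∑ i, ∑ j, X i j}

theorem fr_Th {n : ℕ} (σ : Cfg n) : Th σ univ = fr_F (fr_gr σ) := by
  unfold Th fr_F
  congr 1
  ext s
  constructor
  · rintro ⟨X, h1, h2, h3, -, h5⟩
    exact ⟨X, h1, h2, fun i j h => h3 i j h.1 h.2, h5⟩
  · rintro ⟨X, h1, h2, h3, h5⟩
    exact ⟨X, h1, h2, fun i j h h' => h3 i j ⟨h, h'⟩, fun i j h => absurd (mem_univ i) h, h5⟩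

theorem fr_iff {n : ℕ} (σ : Cfg n) (G : SimpleGraph (Fin n)) :
    fr_gr σ = G ↔ ∀ e : Sym2 (Fin n), ¬ e.IsDiag → (σ e = true ↔ e ∈ G.edgeSet) := by
  constructor
  · rintro rfl e
    induction e using Sym2.ind with
    | h i j =>
      intro h
      rw [Sym2.mk_isDiag_iff] at h
      rw [SimpleGraph.mem_edgeSet]
      exact ⟨fun h1 => ⟨h, h1⟩, fun h1 => h1.2⟩
  · intro h
    ext i j
    by_cases hij : i = j
    · subst hij
      simp
    · have h1 := h s(i, j) (by rwa [Sym2.mk_isDiag_iff])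
      rw [SimpleGraph.mem_edgeSet] at h1
      rw [← h1]
      exact ⟨fun h2 => h2.2, fun h2 => ⟨hij, h2⟩⟩

open Classical in
theorem fr_fib_le {n : ℕ} (G G' : SimpleGraph (Fin n)) :
    #{σ : Cfg n | fr_gr σ = G} ≤ #{σ : Cfg n | fr_gr σ = G'} := by
  apply Finset.card_le_card_of_injOn
    (fun σ => (fun e => if e.IsDiag then σ e else decide (e ∈ G'.edgeSet) : Cfg n))
  · intro σ _
    rw [mem_coe, mem_filter]
    refine ⟨mem_univ _, ?_⟩
    rw [fr_iff]
    intro e he
    simp only [if_neg he, decide_eq_true_iff]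
  · intro σ hσ τ hτ h
    rw [mem_coe, mem_filter] at hσ hτ
    have h1 := (fr_iff σ G).1 hσ.2
    have h2 := (fr_iff τ G).1 hτ.2
    funext e
    by_cases he : e.IsDiag
    · have h3 := congrFun h e
      simp only [if_pos he] at h3
      exact h3
    · have h3 : σ e = true ↔ τ e = true := (h1 e he).trans (h2 e he).symm
      exact Bool.eq_iff_iff.2 h3

theorem fr_Ep {n : ℕ} (f : Cfg n → ℝ) :
    Ep n (1 / 2) f = (∑ σ : Cfg n, f σ) / Fintype.card (Cfg n) := by
  unfold Ep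
  have h1 : ∀ σ : Cfg n, (∏ e, if σ e = true then (1 / 2 : ℝ) else 1 - 1 / 2) =
      1 / (Fintype.card (Cfg n) : ℝ) := by
    intro σ
    have h2 : ∀ e ∈ (univ : Finset (Sym2 (Fin n))),
        (if σ e = true then (1 / 2 : ℝ) else 1 - 1 / 2) = 1 / 2 := by
      intro e _
      split_ifs <;> norm_num
    rw [prod_congr rfl h2, prod_const, card_univ, Fintype.card_fun, Fintype.card_bool]
    push_cast
    rw [one_div_pow]
  simp only [h1]
  rw [← mul_sum]
  ring

theorem t_FR : S_FR := by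
  classical
  intro n
  have hfin : Finite (SimpleGraph (Fin n)) := inferInstance
  letI := Fintype.ofFinite (SimpleGraph (Fin n))
  have h0 : (∑ᶠ G : SimpleGraph (Fin n),
    sSup {s : ℝ | ∃ X : Matrix (Fin n) (Fin n) ℝ,
      X.PosSemidef ∧ X.trace = 1 ∧ (∀ i j, G.Adj i j → X i j = 0) ∧
      s = ∑ i, ∑ j, X i j}) = ∑ G : SimpleGraph (Fin n), fr_F G :=
    finsum_eq_sum_of_fintype _
  rw [h0, Nat.card_eq_fintype_card, fr_Ep]
  set N : ℕ := #{σ : Cfg n | fr_gr σ = ⊥} with hN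
  have hfib : ∀ G : SimpleGraph (Fin n), #{σ : Cfg n | fr_gr σ = G} = N := fun G =>
    le_antisymm (fr_fib_le G ⊥) (fr_fib_le ⊥ G)
  have h1 : ∑ σ : Cfg n, Th σ univ = N * ∑ G : SimpleGraph (Fin n), fr_F G := by
    have h2 := Finset.sum_fiberwise (univ : Finset (Cfg n)) fr_gr (fun σ => Th σ univ)
    rw [← h2, mul_sum]
    refine sum_congr rfl fun G _ => ?_
    have h3 : ∀ σ ∈ (univ : Finset (Cfg n)).filter (fun σ => fr_gr σ = G), Th σ univ = fr_F G := by
      intro σ hσ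
      rw [fr_Th, (mem_filter.1 hσ).2]
    rw [sum_congr rfl h3, sum_const, nsmul_eq_mul, hfib G]
  have h4 : (Fintype.card (Cfg n) : ℝ) = N * Fintype.card (SimpleGraph (Fin n)) := by
    have h5 := Finset.card_eq_sum_card_fiberwise (s := (univ : Finset (Cfg n)))
      (t := (univ : Finset (SimpleGraph (Fin n)))) (f := fr_gr) (fun σ _ => mem_univ _)
    rw [card_univ] at h5
    simp only [hfib, sum_const, card_univ, smul_eq_mul] at h5
    rw [h5]
    push_cast
    ring
  have hN0 : (N : ℝ) ≠ 0 := by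
    intro h6
    rw [h6, zero_mul] at h4
    have : 0 < Fintype.card (Cfg n) := Fintype.card_pos
    have h7 : Fintype.card (Cfg n) = 0 := by exact_mod_cast h4
    omega
  rw [h1, h4, mul_div_mul_left _ _ hN0]

end Pool.Agent.H276R2.Gn
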