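import Pool.Agent.H276R2.Gn.Spec
set_option autoImplicit false
namespace Pool.Agent.H276R2.Gn
open Finset Real

/-! ### counting extensions -/

theorem q3_sum_emb {V : Type} [Fintype V] [DecidableEq V] (n : ℕ) (F : (V → Fin n) → ℝ)
    [∀ v : V → Fin n, Decidable (Function.Injective v)] :
    (∑ v : V → Fin n, if Function.Injective v then F v else 0) = ∑ v : V ↪ Fin n, F v := by
  classical
  rw [← Finset.sum_filter]
  symm
  refine Finset.sum_bij (fun v _ => (v : V → Fin n)) ?_ ?_ ?_ ?_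
  · intro v _
    simpa using v.injective
  · intro v _ w _ h
    exact DFunLike.coe_injective h
  · intro v hv
    exact ⟨⟨v, (Finset.mem_filter.mp hv).2⟩, Finset.mem_univ _, rfl⟩
  · intro v _
    rfl

theorem q3_count_sum {U W : Type} [Fintype U] [DecidableEq U] [Fintype W] [DecidableEq W] (n : ℕ)
    (F : (U → Fin n) → ℝ) :
    (∑ v : U ⊕ W ↪ Fin n, F (fun u => v (Sum.inl u))) =
      ((n - Fintype.card U).descFactorial (Fintype.card W) : ℝ) * ∑ u : U ↪ Fin n, F u := by
  classical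
  rw [← (Equiv.sumEmbeddingEquivSigmaEmbeddingRestricted (α := U) (β := W) (γ := Fin n)).symm.sum_comp]
  rw [Fintype.sum_sigma, Finset.mul_sum]
  refine Finset.sum_congr rfl fun f _ => ?_
  have h1 : ∀ g : W ↪ ↥(Set.range f)ᶜ,
      F (fun u => (Equiv.sumEmbeddingEquivSigmaEmbeddingRestricted.symm ⟨f, g⟩ : U ⊕ W ↪ Fin n) (Sum.inl u)) = F f := by
    intro g
    congr 1
  rw [Finset.sum_congr rfl fun g _ => h1 g]
  rw [Finset.sum_const, nsmul_eq_mul, Finset.card_univ, Fintype.card_embedding_eq]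
  congr 3
  rw [Fintype.card_compl_set, Fintype.card_fin, Set.card_range_of_injective f.injective]

theorem q3_count {U V : Type} [Fintype U] [DecidableEq U] [Fintype V] [DecidableEq V] (n : ℕ)
    (ι : U → V) (hι : Function.Injective ι) (F : (U → Fin n) → ℝ)
    [∀ v : V → Fin n, Decidable (Function.Injective v)]
    [∀ v : U → Fin n, Decidable (Function.Injective v)] :
    (∑ v : V → Fin n, if Function.Injective v then F (fun u => v (ι u)) else 0) =
      ((n - Fintype.card U).descFactorial (Fintype.card V - Fintype.card U) : ℝ) *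
        ∑ u : U → Fin n, if Function.Injective u then F u else 0 := by
  classical
  rw [q3_sum_emb n (fun v => F (fun u => v (ι u))), q3_sum_emb n F]
  let e : U ⊕ {x : V // x ∉ Set.range ι} ≃ V :=
    ((Equiv.ofInjective ι hι).sumCongr (Equiv.refl _)).trans (Equiv.sumCompl (fun x => x ∈ Set.range ι))
  have he : ∀ u, e (Sum.inl u) = ι u := by
    intro u
    rfl
  let E : (V ↪ Fin n) ≃ (U ⊕ {x : V // x ∉ Set.range ι} ↪ Fin n) :=
    Equiv.embeddingCongr e.symm (Equiv.refl _)
  rw [← E.symm.sum_comp]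
  have h1 : ∀ v : U ⊕ {x : V // x ∉ Set.range ι} ↪ Fin n,
      F (fun u => (E.symm v) (ι u)) = F (fun u => v (Sum.inl u)) := by
    intro v
    congr 1
    funext u
    have : (E.symm v) (ι u) = v (e.symm (ι u)) := rfl
    rw [this, ← he, Equiv.symm_apply_apply]
  rw [Finset.sum_congr rfl fun v _ => h1 v, q3_count_sum]
  congr 3
  have := Fintype.card_congr e
  rw [Fintype.card_sum] at this
  omega


/-! ### the edges -/

theorem q3_mem_shp (B : Chn) (x y : Fin (B.L + 1)) : s(x, y) ∈ B.shp.E ↔ B.Adj x y := by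
  unfold Chn.shp Chn.Adj
  simp only [Finset.mem_image, Prod.exists]
  constructor
  · rintro ⟨a, b, hab, h⟩
    have h1 := B.lt _ hab
    simp only at h1
    rw [Sym2.eq_iff] at h
    have ha : (Fin.ofNat (B.L + 1) a).val = a := Nat.mod_eq_of_lt (by omega)
    have hb : (Fin.ofNat (B.L + 1) b).val = b := Nat.mod_eq_of_lt (by omega)
    rcases h with ⟨rfl, rfl⟩ | ⟨rfl, rfl⟩
    · left; rwa [ha, hb]
    · right; rwa [ha, hb]
  · rintro (h | h)
    · refine ⟨_, _, h, ?_⟩
      have hx : Fin.ofNat (B.L + 1) (x : ℕ) = x := Fin.ext (Nat.mod_eq_of_lt x.2)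
      have hy : Fin.ofNat (B.L + 1) (y : ℕ) = y := Fin.ext (Nat.mod_eq_of_lt y.2)
      rw [hx, hy]
    · refine ⟨_, _, h, ?_⟩
      have hx : Fin.ofNat (B.L + 1) (x : ℕ) = x := Fin.ext (Nat.mod_eq_of_lt x.2)
      have hy : Fin.ofNat (B.L + 1) (y : ℕ) = y := Fin.ext (Nat.mod_eq_of_lt y.2)
      rw [hx, hy, Sym2.eq_swap]

theorem q3_emb_some {H₁ H₂ : Shp} (ξ : SPat H₁ H₂) (y : H₂.X) (x : H₁.X) (h : ξ y = some x) :
    ξ.emb y = Sum.inl x := by
  unfold SPat.emb
  split
  · rename_i x' h'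
    rw [h] at h'
    cases h'
    rfl
  · rename_i h'
    rw [h] at h'
    cases h'

theorem q3_emb_none {H₁ H₂ : Shp} (ξ : SPat H₁ H₂) (y : H₂.X) (h : ξ y = none) :
    ξ.emb y = Sum.inr ⟨y, h⟩ := by
  unfold SPat.emb
  split
  · rename_i x' h'
    rw [h] at h'
    cases h'
  · rfl

theorem q3_emb_inj {H₁ H₂ : Shp} (ξ : SPat H₁ H₂) (h : ξ.OK) : Function.Injective ξ.emb := by
  intro y y' hy
  rcases h1 : ξ y with _ | x <;> rcases h2 : ξ y' with _ | x'
  · rw [q3_emb_none ξ y h1, q3_emb_none ξ y' h2] at hy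
    simpa using hy
  · rw [q3_emb_none ξ y h1, q3_emb_some ξ y' x' h2] at hy
    cases hy
  · rw [q3_emb_some ξ y x h1, q3_emb_none ξ y' h2] at hy
    cases hy
  · rw [q3_emb_some ξ y x h1, q3_emb_some ξ y' x' h2] at hy
    have := Sum.inl.inj hy
    subst this
    exact h.2 y y' x h1 h2

theorem q3_perf_lt (t t' B : Chn) (φ : CIso t t') (y : Fin (t'.L + B.L + 1)) (h : y.val < t'.L + 1) :
    perf t t' B φ y = some (φ.1 ⟨y.val, h⟩) := by
  unfold perf
  exact dif_pos h

theorem q3_perf_ge (t t' B : Chn) (φ : CIso t t') (y : Fin (t'.L + B.L + 1)) (h : ¬ y.val < t'.L + 1) :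
    perf t t' B φ y = none := by
  unfold perf
  exact dif_neg h

theorem q3_ok (t t' B : Chn) (φ : CIso t t') : (perf t t' B φ).OK := by
  constructor
  · have h := q3_perf_lt t t' B φ (0 : Fin (t'.L + B.L + 1)) (by simp)
    refine h.trans ?_
    congr 1
    exact φ.2.1
  · intro y y' x hy hy'
    change Fin (t'.L + B.L + 1) at y y'
    by_cases h1 : y.val < t'.L + 1
    · by_cases h2 : y'.val < t'.L + 1
      · rw [q3_perf_lt t t' B φ y h1] at hy
        rw [q3_perf_lt t t' B φ y' h2] at hy'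
        have h3 := φ.1.injective (Option.some.inj (hy.trans hy'.symm))
        have h4 := congrArg Fin.val h3
        exact Fin.ext h4
      · rw [q3_perf_ge t t' B φ y' h2] at hy'
        cases hy'
    · rw [q3_perf_ge t t' B φ y h1] at hy
      cases hy

/-- the vertices of `B` in the product shape -/
def q3_io (t t' B : Chn) (φ : CIso t t') (b : Fin (B.L + 1)) : (perf t t' B φ).V :=
  (perf t t' B φ).emb (show Fin (t'.L + B.L + 1) from ⟨t'.L + b.val, by omega⟩)

theorem q3_io_inj (t t' B : Chn) (φ : CIso t t') : Function.Injective (q3_io t t' B φ) := by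
  intro b b' h
  have h1 := q3_emb_inj _ (q3_ok t t' B φ) h
  have h2 : t'.L + b.val = t'.L + b'.val := congrArg Fin.val h1
  exact Fin.ext (by omega)

theorem q3_io_zero (t t' B : Chn) (φ : CIso t t') :
    q3_io t t' B φ 0 = Sum.inl (show Fin (t.L + 1) from 0) := by
  unfold q3_io
  apply q3_emb_some
  rw [q3_perf_lt _ _ _ _ _ (by simp)]
  congr 1
  have := φ.2.2.1
  convert this using 2
  exact Fin.ext (by simp)

theorem q3_io_last (t t' B : Chn) (φ : CIso t t') :
    q3_io t t' B φ (Fin.last _) = (perf t t' B φ).emb (t'.cat B).shp.t := rfl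

theorem q3_io_pos (t t' B : Chn) (φ : CIso t t') (b : Fin (B.L + 1)) (h : 0 < b.val) :
    ∃ y, q3_io t t' B φ b = Sum.inr y := by
  unfold q3_io
  exact ⟨_, q3_emb_none _ _ (q3_perf_ge _ _ _ _ _ (by simp only; omega))⟩

theorem q3_emb_low (t t' B : Chn) (φ : CIso t t') (a : ℕ) (h : a < t'.L + 1) :
    (perf t t' B φ).emb (Fin.ofNat ((t'.cat B).L + 1) a) = Sum.inl (φ.1 ⟨a, h⟩) := by
  have h0 : (t'.cat B).L = t'.L + B.L := rfl
  have h1 : (Fin.ofNat ((t'.cat B).L + 1) a).val = a := Nat.mod_eq_of_lt (by omega)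
  apply q3_emb_some
  have h2 := q3_perf_lt t t' B φ (Fin.ofNat ((t'.cat B).L + 1) a) (by rw [h1]; exact h)
  refine h2.trans ?_
  congr 2
  exact Fin.ext h1

theorem q3_emb_high (t t' B : Chn) (φ : CIso t t') (b : ℕ) (h : b < B.L + 1) :
    (perf t t' B φ).emb (Fin.ofNat ((t'.cat B).L + 1) (b + t'.L)) =
      q3_io t t' B φ (Fin.ofNat (B.L + 1) b) := by
  have h0 : (t'.cat B).L = t'.L + B.L := rfl
  have h1 : (Fin.ofNat ((t'.cat B).L + 1) (b + t'.L)).val = b + t'.L := Nat.mod_eq_of_lt (by omega)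
  have h2 : (Fin.ofNat (B.L + 1) b).val = b := Nat.mod_eq_of_lt (by omega)
  unfold q3_io
  congr 1
  refine Fin.ext ?_
  rw [h1]
  simp only [h2]
  omega

theorem q3_mem_E1 (t t' B : Chn) (φ : CIso t t') (x y : Fin (t.L + 1)) (h : t.Adj x y) :
    s(Sum.inl x, Sum.inl y) ∈ (perf t t' B φ).E₁ :=
  Finset.mem_image.mpr ⟨s(x, y), (q3_mem_shp t x y).mpr h, rfl⟩

theorem q3_edges (t t' B : Chn) (φ : CIso t t') :
    (prodShp t.shp (t'.cat B).shp (perf t t' B φ) ∅).E =
      B.E.image (fun e => s(q3_io t t' B φ (Fin.ofNat (B.L + 1) e.1),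
        q3_io t t' B φ (Fin.ofNat (B.L + 1) e.2))) := by
  classical
  set EB : Finset (Sym2 (perf t t' B φ).V) := B.E.image (fun e =>
    s(q3_io t t' B φ (Fin.ofNat (B.L + 1) e.1), q3_io t t' B φ (Fin.ofNat (B.L + 1) e.2))) with hEB
  have h1 : ∀ e, e ∈ (perf t t' B φ).E₂ ↔ e ∈ (perf t t' B φ).E₁ ∨ e ∈ EB := by
    intro e
    constructor
    · intro he
      obtain ⟨e', he', rfl⟩ := Finset.mem_image.mp he
      obtain ⟨⟨a, b⟩, hab, rfl⟩ := Finset.mem_image.mp he'
      rcases Finset.mem_union.mp hab with h | h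
      · left
        have h2 := t'.lt _ h
        simp only at h2
        change s((perf t t' B φ).emb (Fin.ofNat ((t'.cat B).L + 1) a),
          (perf t t' B φ).emb (Fin.ofNat ((t'.cat B).L + 1) b)) ∈ _
        rw [q3_emb_low t t' B φ a (by omega), q3_emb_low t t' B φ b (by omega)]
        apply q3_mem_E1
        apply (φ.2.2.2 _ _).mp
        left
        exact h
      · right
        obtain ⟨⟨a', b'⟩, hab', h3⟩ := Finset.mem_image.mp h
        have h2 := B.lt _ hab'
        simp only [Prod.mk.injEq] at h2 h3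
        obtain ⟨rfl, rfl⟩ := h3
        change s((perf t t' B φ).emb (Fin.ofNat ((t'.cat B).L + 1) (a' + t'.L)),
          (perf t t' B φ).emb (Fin.ofNat ((t'.cat B).L + 1) (b' + t'.L))) ∈ _
        rw [q3_emb_high t t' B φ a' (by omega), q3_emb_high t t' B φ b' (by omega)]
        exact Finset.mem_image.mpr ⟨(a', b'), hab', rfl⟩
    · rintro (he | he)
      · obtain ⟨e', he', rfl⟩ := Finset.mem_image.mp he
        induction e' with
        | h x y =>
          change Fin (t.L + 1) at x y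
          have h2 := (q3_mem_shp t x y).mp he'
          have h3 : t'.Adj (φ.1.symm x : ℕ) (φ.1.symm y : ℕ) := by
            apply (φ.2.2.2 _ _).mpr
            rw [Equiv.apply_symm_apply, Equiv.apply_symm_apply]
            exact h2
          have hx := q3_emb_low t t' B φ _ (φ.1.symm x).2
          have hy := q3_emb_low t t' B φ _ (φ.1.symm y).2
          simp only [Fin.eta, Equiv.apply_symm_apply] at hx hy
          change s(Sum.inl x, Sum.inl y) ∈ _
          rw [← hx, ← hy]
          rcases h3 with h3 | h3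
          · exact Finset.mem_image.mpr ⟨s(Fin.ofNat _ (φ.1.symm x : ℕ), Fin.ofNat _ (φ.1.symm y : ℕ)),
              Finset.mem_image.mpr ⟨_, Finset.mem_union_left _ h3, rfl⟩, rfl⟩
          · have h6 : s((perf t t' B φ).emb (Fin.ofNat ((t'.cat B).L + 1) ↑(φ.1.symm y)),
                (perf t t' B φ).emb (Fin.ofNat ((t'.cat B).L + 1) ↑(φ.1.symm x))) ∈
                (perf t t' B φ).E₂ :=
              Finset.mem_image.mpr ⟨s(Fin.ofNat _ (φ.1.symm y : ℕ), Fin.ofNat _ (φ.1.symm x : ℕ)),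
                Finset.mem_image.mpr ⟨_, Finset.mem_union_left _ h3, rfl⟩, rfl⟩
            rw [Sym2.eq_swap] at h6
            exact h6
      · obtain ⟨⟨a, b⟩, hab, rfl⟩ := Finset.mem_image.mp he
        have h2 := B.lt _ hab
        simp only at h2
        change s(q3_io t t' B φ (Fin.ofNat (B.L + 1) a), q3_io t t' B φ (Fin.ofNat (B.L + 1) b)) ∈ _
        rw [← q3_emb_high t t' B φ a (by omega), ← q3_emb_high t t' B φ b (by omega)]
        exact Finset.mem_image.mpr ⟨s(Fin.ofNat _ (a + t'.L), Fin.ofNat _ (b + t'.L)),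
          Finset.mem_image.mpr ⟨(a + t'.L, b + t'.L), Finset.mem_union_right _
            (Finset.mem_image.mpr ⟨(a, b), hab, rfl⟩), rfl⟩, rfl⟩
  have h2 : ∀ e ∈ EB, e ∉ (perf t t' B φ).E₁ ∧ ¬ e.IsDiag := by
    intro e he
    obtain ⟨⟨a, b⟩, hab, rfl⟩ := Finset.mem_image.mp he
    have h3 := B.lt _ hab
    simp only at h3
    have hb : (Fin.ofNat (B.L + 1) b).val = b := Nat.mod_eq_of_lt (by omega)
    have ha : (Fin.ofNat (B.L + 1) a).val = a := Nat.mod_eq_of_lt (by omega)
    constructor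
    · intro h4
      obtain ⟨e', he', h5⟩ := Finset.mem_image.mp h4
      induction e' with
      | h x y =>
        obtain ⟨z, hz⟩ := q3_io_pos t t' B φ (Fin.ofNat (B.L + 1) b) (by rw [hb]; omega)
        change s(Sum.inl x, Sum.inl y) = s(q3_io t t' B φ (Fin.ofNat (B.L + 1) a),
          q3_io t t' B φ (Fin.ofNat (B.L + 1) b)) at h5
        rw [hz, Sym2.eq_iff] at h5
        rcases h5 with ⟨_, h5⟩ | ⟨h5, _⟩ <;> cases h5
    · intro h4
      rw [Sym2.mk_isDiag_iff] at h4
      have h5 := congrArg Fin.val (q3_io_inj t t' B φ h4)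
      rw [ha, hb] at h5
      omega
  refine (Finset.ext fun e => ?_ : (show Finset (Sym2 (perf t t' B φ).V) from
    (prodShp t.shp (t'.cat B).shp (perf t t' B φ) ∅).E) = EB)
  refine Finset.mem_filter.trans ?_
  rw [Finset.union_empty, Finset.mem_symmDiff, h1 e]
  constructor
  · rintro ⟨h | h, _⟩
    · exact absurd (Or.inl h.1) h.2
    · rcases h.1 with h3 | h3
      · exact absurd h3 h.2
      · exact h3
  · intro h
    exact ⟨Or.inr ⟨Or.inr h, (h2 e h).1⟩, (h2 e h).2⟩

theorem q3_prod (p : ℝ) (t t' B : Chn) (φ : CIso t t') (n : ℕ) (σ : Cfg n)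
    (v : (perf t t' B φ).V → Fin n) :
    ∏ e ∈ (prodShp t.shp (t'.cat B).shp (perf t t' B φ) ∅).E, om p σ (e.map v) =
      ∏ e ∈ B.E, om p σ s(v (q3_io t t' B φ (Fin.ofNat (B.L + 1) e.1)),
        v (q3_io t t' B φ (Fin.ofNat (B.L + 1) e.2))) := by
  classical
  refine (congrArg (fun E : Finset (Sym2 (perf t t' B φ).V) => ∏ e ∈ E, om p σ (e.map v))
    (q3_edges t t' B φ)).trans ?_
  rw [Finset.prod_image]
  · rfl
  · rintro ⟨a, b⟩ hab ⟨c, d⟩ hcd h
    have h1 := B.lt _ hab
    have h2 := B.lt _ hcd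
    simp only at h1 h2 h
    have ha : (Fin.ofNat (B.L + 1) a).val = a := Nat.mod_eq_of_lt (by omega)
    have hb : (Fin.ofNat (B.L + 1) b).val = b := Nat.mod_eq_of_lt (by omega)
    have hc : (Fin.ofNat (B.L + 1) c).val = c := Nat.mod_eq_of_lt (by omega)
    have hd : (Fin.ofNat (B.L + 1) d).val = d := Nat.mod_eq_of_lt (by omega)
    rw [Sym2.eq_iff] at h
    rcases h with ⟨h3, h4⟩ | ⟨h3, h4⟩
    · have h5 := congrArg Fin.val (q3_io_inj t t' B φ h3)
      have h6 := congrArg Fin.val (q3_io_inj t t' B φ h4)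
      rw [ha, hc] at h5
      rw [hb, hd] at h6
      rw [h5, h6]
    · have h5 := congrArg Fin.val (q3_io_inj t t' B φ h3)
      have h6 := congrArg Fin.val (q3_io_inj t t' B φ h4)
      rw [ha, hd] at h5
      rw [hb, hc] at h6
      omega

theorem q3_card (t t' B : Chn) (φ : CIso t t') :
    Fintype.card (prodShp t.shp (t'.cat B).shp (perf t t' B φ) ∅).X = t.L + 1 + B.L := by
  classical
  have e1 : Fin B.L ≃ {y : Fin (t'.L + B.L + 1) // perf t t' B φ y = none} := by
    refine Equiv.ofBijective (fun b => ⟨⟨t'.L + 1 + b.val, by omega⟩,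
      q3_perf_ge t t' B φ _ (by simp only; omega)⟩) ⟨?_, ?_⟩
    · intro b b' h
      have h1 := congrArg (fun y => (Subtype.val y).val) h
      simp only at h1
      exact Fin.ext (by omega)
    · rintro ⟨y, hy⟩
      have h1 : ¬ y.val < t'.L + 1 := by
        intro h2
        rw [q3_perf_lt t t' B φ y h2] at hy
        cases hy
      refine ⟨⟨y.val - (t'.L + 1), by omega⟩, ?_⟩
      apply Subtype.ext
      apply Fin.ext
      simp only
      omega
  have e2 : Fin (t.L + 1) ⊕ Fin B.L ≃ (prodShp t.shp (t'.cat B).shp (perf t t' B φ) ∅).X :=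
    (Equiv.refl _).sumCongr e1
  rw [← Fintype.card_congr e2, Fintype.card_sum, Fintype.card_fin, Fintype.card_fin]

theorem t_Q3 : S_Q3 := by
  intro p t t' B φ n σ _ _ hL hn
  refine ⟨q3_ok t t' B φ, ?_⟩
  classical
  ext i j
  unfold Sh Fc
  simp only [Matrix.of_apply, Matrix.smul_apply, smul_eq_mul]
  have key := q3_count (U := Fin (B.L + 1)) (V := (prodShp t.shp (t'.cat B).shp (perf t t' B φ) ∅).X)
    n (q3_io t t' B φ) (q3_io_inj t t' B φ)
    (fun u => if u 0 = i ∧ u (Fin.last _) = j then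
      ∏ e ∈ B.E, om p σ s(u (Fin.ofNat (B.L + 1) e.1), u (Fin.ofNat (B.L + 1) e.2)) else 0)
  have hc : Fintype.card (prodShp t.shp (t'.cat B).shp (perf t t' B φ) ∅).X -
      Fintype.card (Fin (B.L + 1)) = t.L := by
    rw [q3_card, Fintype.card_fin]
    omega
  rw [hc, Fintype.card_fin] at key
  have hl : (∑ v : (prodShp t.shp (t'.cat B).shp (perf t t' B φ) ∅).X → Fin n,
      if Function.Injective v ∧ v (prodShp t.shp (t'.cat B).shp (perf t t' B φ) ∅).s = i ∧
        v (prodShp t.shp (t'.cat B).shp (perf t t' B φ) ∅).t = j then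
      ∏ e ∈ (prodShp t.shp (t'.cat B).shp (perf t t' B φ) ∅).E, om p σ (e.map v) else 0) =
      ((n - (B.L + 1)).descFactorial t.L : ℝ) * ∑ v : Fin (B.L + 1) → Fin n,
        if Function.Injective v ∧ v 0 = i ∧ v (Fin.last _) = j then
        ∏ e ∈ B.E, om p σ s(v (Fin.ofNat (B.L + 1) e.1), v (Fin.ofNat (B.L + 1) e.2)) else 0 := by
    refine (Finset.sum_congr rfl fun v _ => ?_).trans (key.trans ?_)
    · rw [ite_and]
      refine if_congr Iff.rfl ?_ rfl
      simp only
      rw [q3_io_zero, q3_io_last]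
      refine if_congr Iff.rfl ?_ rfl
      exact q3_prod p t t' B φ n σ v
    · congr 1
      refine Finset.sum_congr rfl fun u _ => ?_
      exact (ite_and _ _ _ _).symm
  rw [hl]
  have hn0 : (0 : ℝ) < n := by exact_mod_cast hn
  have hs : √(n : ℝ) ^ (t.L + (t'.cat B).L) = (n : ℝ) ^ t.L * √(n : ℝ) ^ B.L := by
    have h0 : (t'.cat B).L = t.L + B.L := by
      rw [hL]
      rfl
    rw [h0, ← add_assoc, pow_add, ← two_mul, pow_mul, Real.sq_sqrt hn0.le]
  rw [hs]
  have h1 : (n : ℝ) ^ t.L ≠ 0 := by positivity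
  have h2 : √(n : ℝ) ^ B.L ≠ 0 := by positivity
  field_simp

end Pool.Agent.H276R2.Gn
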