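import Pool.Agent.H276R2.Gn.Pre
import Pool.Agent.H276R2.Gn.D
import Pool.Agent.H276R2.Gn.Q3

/-!
# Lovasz number of `G(n, 1/2)`: final theorem
-/

set_option autoImplicit false

namespace Pool.Agent.H276R2.Gn

theorem main : Filter.Tendsto
      (fun n : ℕ =>
        ((∑ᶠ G : SimpleGraph (Fin n),
            sSup {s : ℝ | ∃ X : Matrix (Fin n) (Fin n) ℝ,
              X.PosSemidef ∧ X.trace = 1 ∧
              (∀ i j, G.Adj i j → X i j = 0) ∧
              s = ∑ i, ∑ j, X i j}) /
          (Nat.card (SimpleGraph (Fin n)) : ℝ)) / Real.sqrt n)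
      Filter.atTop (nhds 1) := pre_main t_D t_Q3

end Pool.Agent.H276R2.Gn
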