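import Pool.Agent.H276R2.Gn.Spec

/-!
Task GB (helper388): the bound of the right order for every density.
-/

set_option autoImplicit false

namespace Pool.Agent.H276R2.Gn

open Finset Real

/-- validity of the constant `H` for `n` -/
def gb_Val (n : ℕ) (H : ℝ) : Prop := ∀ (U : Finset (Fin n)) (q : ℝ), 0 < q → q ≤ 1 →
  Ep n q (fun τ => Th τ U) ≤ H * √(#U) / q ^ 5

theorem gb_start (th : S_TH) (n : ℕ) : gb_Val n (√n) := by
  intro U q hq hq1
  have h1 : Ep n q (fun τ => Th τ U) ≤ #U := by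
    calc Ep n q (fun τ => Th τ U) ≤ Ep n q (fun _ => (#U : ℝ)) :=
          Ep_mono n q hq.le hq1 _ _ (fun σ => (th.1 n σ U).2)
      _ = #U := Ep_const n q _
  have h2 : (#U : ℝ) ≤ √n * √(#U) := by
    have h3 : (#U : ℝ) ≤ n := by
      have := Finset.card_le_univ U
      rw [Fintype.card_fin] at this
      exact_mod_cast this
    calc (#U : ℝ) = √(#U) * √(#U) := (Real.mul_self_sqrt (Nat.cast_nonneg _)).symm
      _ ≤ √n * √(#U) := by
        apply mul_le_mul_of_nonneg_right (Real.sqrt_le_sqrt h3) (Real.sqrt_nonneg _)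
  have h4 : √n * √(#U) ≤ √n * √(#U) / q ^ 5 := by
    rw [le_div_iff₀ (by positivity)]
    have : q ^ 5 ≤ 1 := pow_le_one₀ hq.le hq1
    have h5 : 0 ≤ √(n : ℝ) * √(#U : ℝ) := by positivity
    nlinarith
  linarith

/-- the matrix `Y` -/
noncomputable def gb_Y {n : ℕ} (U : Finset (Fin n)) (a : ℝ) : Mat n :=
  Matrix.of fun i j => if i ∈ U ∧ j ∈ U then -a else 0

theorem gb_fro {n : ℕ} (U : Finset (Fin n)) (a : ℝ) : fro (gb_Y U a) = a ^ 2 * (#U : ℝ) ^ 2 := by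
  unfold fro gb_Y
  have h1 : ∀ i j : Fin n, (Matrix.of (fun i j => if i ∈ U ∧ j ∈ U then -a else 0) : Mat n) i j ^ 2 =
      (if i ∈ U then (1 : ℝ) else 0) * ((if j ∈ U then (1 : ℝ) else 0) * a ^ 2) := by
    intro i j
    rw [Matrix.of_apply]
    by_cases hi : i ∈ U <;> by_cases hj : j ∈ U <;> simp [hi, hj]
  simp only [h1]
  simp only [← Finset.mul_sum, ← Finset.sum_mul]
  rw [Finset.sum_ite_mem, Finset.univ_inter, Finset.sum_const, nsmul_eq_mul, mul_one]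
  ring

/-- the good event -/
def gb_P {n : ℕ} (U : Finset (Fin n)) (κ : ℝ) (Y : Mat n) (τ : Cfg n) : Prop :=
  ∃ (U' : Finset (Fin n)) (V : Mat n), U' ⊆ U ∧ (#U' : ℝ) ≤ κ * #U ∧
    V.transpose = V ∧ (∀ i, V i i = 0) ∧ SuppE τ V ∧ Psd (U \ U') (V + κ • (1 : Mat n) + Y)

theorem gb_good (td : S_TD) {n : ℕ} (U U' : Finset (Fin n)) (κ c : ℝ) (hκ : 0 < κ) (hc : 0 < c)
    (hU : 0 < #U) (τ : Cfg n) (V : Mat n) (hV : V.transpose = V) (hV0 : ∀ i, V i i = 0)
    (hS : SuppE τ V) (hP : Psd (U \ U') (V + κ • (1 : Mat n) + gb_Y U (c / √(#U)))) :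
    Th τ (U \ U') ≤ κ * √(#U) / c := by
  have hn : 0 < n := by
    obtain ⟨i, _⟩ := Finset.card_pos.1 hU
    exact lt_of_le_of_lt (Nat.zero_le _) i.2
  have hn' : (0 : ℝ) < √n := Real.sqrt_pos.2 (by exact_mod_cast hn)
  have hm' : (0 : ℝ) < √(#U) := Real.sqrt_pos.2 (by exact_mod_cast hU)
  have h1 := td n τ (U \ U') (V + κ • (1 : Mat n)) κ (c * √n / √(#U)) hκ.le (by positivity)
    ?_ ?_ ?_ ?_
  · refine h1.trans (le_of_eq ?_)
    field_simp
  · intro i _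
    simp [hV0 i]
  · intro i j hij hτ
    rw [Matrix.add_apply, hS i j hij hτ, Matrix.smul_apply, Matrix.one_apply_ne hij]
    simp
  · intro x hx
    refine (hP x hx).trans (le_of_eq ?_)
    refine Finset.sum_congr rfl fun i _ => Finset.sum_congr rfl fun j _ => ?_
    by_cases hi : i ∈ U \ U'
    · by_cases hj : j ∈ U \ U'
      · have hi' := (Finset.mem_sdiff.1 hi).1
        have hj' := (Finset.mem_sdiff.1 hj).1
        congr 2
        rw [Matrix.add_apply, Matrix.sub_apply, Matrix.smul_apply]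
        unfold gb_Y Jn
        rw [Matrix.of_apply, Matrix.of_apply, if_pos ⟨hi', hj'⟩, smul_eq_mul]
        field_simp
        ring
      · rw [hx j hj]; ring
    · rw [hx i hi]; ring
  · rw [Matrix.transpose_add, hV, Matrix.transpose_smul, Matrix.transpose_one]

theorem gb_step (th : S_TH) (td : S_TD) (dom : S_DOM) (n : ℕ) (H : ℝ) (hH : 0 ≤ H)
    (hv : gb_Val n H) (κ p c0 : ℝ) (hκ : κ = 1 / 2 ^ 14) (hp : p = 1 / 2 ^ 7)
    (hc0 : c0 = √((κ * p / 2) ^ 9 / 10 ^ 18)) : gb_Val n (κ / c0 + H / 2) := by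
  have hκ0 : 0 < κ := by rw [hκ]; positivity
  have hκ1 : κ ≤ 1 := by rw [hκ]; norm_num
  have hp0 : 0 < p := by rw [hp]; positivity
  have hp1 : p ≤ 1 := by rw [hp]; norm_num
  have hc00 : 0 < c0 := by rw [hc0]; positivity
  intro U q hq hq1
  rcases Nat.eq_zero_or_pos (#U) with hU | hU
  · have h1 : Ep n q (fun τ => Th τ U) ≤ 0 := by
      calc Ep n q (fun τ => Th τ U) ≤ Ep n q (fun _ => (#U : ℝ)) :=
            Ep_mono n q hq.le hq1 _ _ (fun σ => (th.1 n σ U).2)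
        _ = #U := Ep_const n q _
        _ = 0 := by rw [hU]; simp
    refine h1.trans ?_
    positivity
  have hm : (0 : ℝ) < #U := by exact_mod_cast hU
  have hm' : (0 : ℝ) < √(#U) := Real.sqrt_pos.2 hm
  set q1 := q / 2 with hq1def
  have hq10 : 0 < q1 := by positivity
  have hq11 : q1 ≤ 1 := by rw [hq1def]; linarith
  set c := √((κ * q1 * p) ^ 9 / 10 ^ 18) with hcdef
  have hc : 0 < c := by rw [hcdef]; positivity
  have hc2 : c ^ 2 = (κ * q1 * p) ^ 9 / 10 ^ 18 := Real.sq_sqrt (by positivity)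
  set Y := gb_Y U (c / √(#U)) with hY
  have hd := dom n U Y κ q1 p hκ0 hκ1 hq10 hq11 hp0 hp1
    (by
      rw [hY]
      ext i j
      unfold gb_Y
      rw [Matrix.transpose_apply, Matrix.of_apply, Matrix.of_apply]
      congr 1
      rw [and_comm])
    (by
      intro i j hi
      rw [hY]
      unfold gb_Y
      rw [Matrix.of_apply, if_neg (fun h => hi h.1)])
    (by
      rw [hY, gb_fro, div_pow, Real.sq_sqrt hm.le, ← hc2]
      apply le_of_eq
      field_simp)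
  change 1 - p ≤ Pp n q1 (gb_P U κ Y) at hd
  -- the pointwise bound
  have hpt : ∀ τ₁ : Cfg n, Ep n q1 (fun τ₂ => Th (cup τ₁ τ₂) U) ≤
      (κ * √(#U) / c + H * √(κ * #U) / q1 ^ 5) +
        H * √(#U) / q1 ^ 5 * (@ite ℝ (¬ gb_P U κ Y τ₁) (Classical.propDecidable _) 1 0) := by
    intro τ₁
    have hcl : ∀ τ₂ : Cfg n, ∀ e, τ₁ e = true → cup τ₁ τ₂ e = true := by
      intro τ₂ e he
      simp [cup, he]
    have hcr : ∀ τ₂ : Cfg n, ∀ e, τ₂ e = true → cup τ₁ τ₂ e = true := by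
      intro τ₂ e he
      simp [cup, he]
    by_cases hP : gb_P U κ Y τ₁
    · rw [if_neg (not_not.2 hP), mul_zero, add_zero]
      obtain ⟨U', V, hU'U, hU'c, hV, hV0, hS, hPsd⟩ := hP
      have h1 := gb_good td U U' κ c hκ0 hc hU τ₁ V hV hV0 hS hPsd
      have h2 : ∀ τ₂ : Cfg n, Th (cup τ₁ τ₂) U ≤ κ * √(#U) / c + Th τ₂ U' := by
        intro τ₂
        have h3 : Th (cup τ₁ τ₂) ((U \ U') ∪ U') ≤ Th (cup τ₁ τ₂) (U \ U') + Th (cup τ₁ τ₂) U' :=
          th.2.2.2 n _ _ _ Finset.sdiff_disjoint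
        rw [Finset.sdiff_union_of_subset hU'U] at h3
        have h4 := th.2.1 n τ₁ (cup τ₁ τ₂) (U \ U') (hcl τ₂)
        have h5 := th.2.1 n τ₂ (cup τ₁ τ₂) U' (hcr τ₂)
        linarith
      calc Ep n q1 (fun τ₂ => Th (cup τ₁ τ₂) U)
          ≤ Ep n q1 (fun τ₂ => κ * √(#U) / c + Th τ₂ U') :=
            Ep_mono n q1 hq10.le hq11 _ _ h2
        _ = κ * √(#U) / c + Ep n q1 (fun τ₂ => Th τ₂ U') := by
            rw [Ep_add, Ep_const]
        _ ≤ κ * √(#U) / c + H * √(#U') / q1 ^ 5 := by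
            have := hv U' q1 hq10 hq11
            linarith
        _ ≤ _ := by
            gcongr
    · rw [if_pos hP, mul_one]
      calc Ep n q1 (fun τ₂ => Th (cup τ₁ τ₂) U) ≤ Ep n q1 (fun τ₂ => Th τ₂ U) :=
            Ep_mono n q1 hq10.le hq11 _ _ (fun τ₂ => th.2.1 n τ₂ (cup τ₁ τ₂) U (hcr τ₂))
        _ ≤ H * √(#U) / q1 ^ 5 := hv U q1 hq10 hq11
        _ ≤ _ := by
            have : 0 ≤ κ * √(#U) / c + H * √(κ * #U) / q1 ^ 5 := by positivity
            linarith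
  have hbad : Ep n q1 (fun τ₁ => @ite ℝ (¬ gb_P U κ Y τ₁) (Classical.propDecidable _) 1 0) ≤ p := by
    have h1 := Pp_not n q1 (gb_P U κ Y)
    unfold Pp at h1 hd
    linarith
  have hcup := Ep_cup n q1 q1 (fun τ => Th τ U)
  have hq' : q1 + q1 - q1 * q1 ≤ q := by
    rw [hq1def]
    have : 0 < q * q := by positivity
    linarith
  have hq'0 : 0 ≤ q1 + q1 - q1 * q1 := by nlinarith
  have hdens := Ep_mono_density n (q1 + q1 - q1 * q1) q hq'0 hq' hq1 (fun τ => (-1) * Th τ U)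
    (fun σ τ h => by
      have := th.2.1 n σ τ U h
      linarith)
  rw [Ep_mul, Ep_mul] at hdens
  have hmain : Ep n q (fun τ => Th τ U) ≤
      (κ * √(#U) / c + H * √(κ * #U) / q1 ^ 5) + H * √(#U) / q1 ^ 5 * p := by
    calc Ep n q (fun τ => Th τ U) ≤ Ep n (q1 + q1 - q1 * q1) (fun τ => Th τ U) := by linarith
      _ = Ep n q1 (fun τ₁ => Ep n q1 (fun τ₂ => Th (cup τ₁ τ₂) U)) := hcup.symm
      _ ≤ Ep n q1 (fun τ₁ => (κ * √(#U) / c + H * √(κ * #U) / q1 ^ 5) +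
            H * √(#U) / q1 ^ 5 * (@ite ℝ (¬ gb_P U κ Y τ₁) (Classical.propDecidable _) 1 0)) :=
          Ep_mono n q1 hq10.le hq11 _ _ hpt
      _ = (κ * √(#U) / c + H * √(κ * #U) / q1 ^ 5) + H * √(#U) / q1 ^ 5 *
            Ep n q1 (fun τ₁ => @ite ℝ (¬ gb_P U κ Y τ₁) (Classical.propDecidable _) 1 0) := by
          rw [Ep_add, Ep_const, Ep_mul]
      _ ≤ _ := by gcongr
  refine hmain.trans ?_
  -- numbers
  have hsκ : √κ = 1 / 2 ^ 7 := by
    rw [hκ, show (1 : ℝ) / 2 ^ 14 = (1 / 2 ^ 7) ^ 2 by norm_num]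
    exact Real.sqrt_sq (by positivity)
  have hcc : c0 * q ^ 5 ≤ c := by
    rw [hcdef]
    apply Real.le_sqrt_of_sq_le
    rw [mul_pow, hc0, Real.sq_sqrt (by positivity), hq1def]
    have h1 : (κ * (q / 2) * p) ^ 9 / 10 ^ 18 = (κ * p / 2) ^ 9 / 10 ^ 18 * q ^ 9 := by ring
    rw [h1]
    apply mul_le_mul_of_nonneg_left _ (by positivity)
    calc (q ^ 5) ^ 2 = q ^ 9 * q := by ring
      _ ≤ q ^ 9 * 1 := by gcongr
      _ = q ^ 9 := mul_one _
  have e1 : κ * √(#U) / c ≤ κ / c0 * √(#U) / q ^ 5 := by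
    calc κ * √(#U) / c ≤ κ * √(#U) / (c0 * q ^ 5) := by gcongr
      _ = _ := by field_simp
  have e2 : H * √(κ * #U) / q1 ^ 5 + H * √(#U) / q1 ^ 5 * p = H / 2 * √(#U) / q ^ 5 := by
    rw [Real.sqrt_mul hκ0.le, hsκ, hp, hq1def]
    field_simp
    norm_num
  calc κ * √(#U) / c + H * √(κ * #U) / q1 ^ 5 + H * √(#U) / q1 ^ 5 * p
      = κ * √(#U) / c + (H * √(κ * #U) / q1 ^ 5 + H * √(#U) / q1 ^ 5 * p) := by ring
    _ ≤ κ / c0 * √(#U) / q ^ 5 + H / 2 * √(#U) / q ^ 5 := by rw [e2]; linarith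
    _ = _ := by ring

theorem t_GB (th : S_TH) (td : S_TD) (dom : S_DOM) : S_GB := by
  set κ : ℝ := 1 / 2 ^ 14 with hκ
  set p : ℝ := 1 / 2 ^ 7 with hp
  set c0 : ℝ := √((κ * p / 2) ^ 9 / 10 ^ 18) with hc0
  have hc00 : 0 < c0 := by rw [hc0]; positivity
  have hκ0 : 0 < κ := by rw [hκ]; positivity
  refine ⟨2 * (κ / c0), by positivity, ?_⟩
  intro n U q hq hq1
  have hk : ∀ k : ℕ, gb_Val n (2 * (κ / c0) + √n / 2 ^ k) := by
    intro k
    induction k with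
    | zero =>
      intro U q hq hq1
      refine (gb_start th n U q hq hq1).trans ?_
      have : 0 ≤ κ / c0 := by positivity
      gcongr
      simp only [pow_zero, div_one]
      linarith
    | succ k ih =>
      have h1 := gb_step th td dom n _ (by positivity) ih κ p c0 hκ hp hc0
      have h2 : κ / c0 + (2 * (κ / c0) + √n / 2 ^ k) / 2 = 2 * (κ / c0) + √n / 2 ^ (k + 1) := by
        rw [pow_succ]
        field_simp
        ring
      rwa [h2] at h1
  have hlim : Filter.Tendsto (fun k : ℕ => (2 * (κ / c0) + √n / 2 ^ k) * √(#U) / q ^ 5)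
      Filter.atTop (nhds (2 * (κ / c0) * √(#U) / q ^ 5)) := by
    have h1 : Filter.Tendsto (fun k : ℕ => √(n : ℝ) * (1 / 2 : ℝ) ^ k) Filter.atTop (nhds 0) := by
      have := (tendsto_pow_atTop_nhds_zero_of_lt_one (r := (1 / 2 : ℝ)) (by norm_num)
        (by norm_num)).const_mul (√(n : ℝ))
      simpa using this
    have h2 : ∀ k : ℕ, √(n : ℝ) / 2 ^ k = √(n : ℝ) * (1 / 2 : ℝ) ^ k := by
      intro k
      rw [one_div, inv_pow, div_eq_mul_inv]
    simp only [h2]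
    have h3 := ((h1.const_add (2 * (κ / c0))).mul_const (√(#U : ℝ))).div_const (q ^ 5)
    simpa using h3
  exact ge_of_tendsto' hlim (fun k => hk k U q hq hq1)

end Pool.Agent.H276R2.Gn
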