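import Pool.Agent.H276R2.Gn.Spec

set_option autoImplicit false

namespace Pool.Agent.H276R2.Gn

open Finset Real

theorem gl_aeval {n : ℕ} (G : Mat n) (D : ℕ) (c : ℕ → ℝ) :
    Polynomial.aeval G (PP D c) = ∑ d ∈ range (D + 1), c d • Polynomial.aeval G (Uc d) := by
  unfold PP
  rw [map_sum]
  refine Finset.sum_congr rfl fun d _ => ?_
  rw [map_mul, Polynomial.aeval_C, Algebra.algebraMap_eq_smul_one, smul_mul_assoc, one_mul]

theorem gl_Uc0 {n : ℕ} (G : Mat n) : Polynomial.aeval G (Uc 0) = 1 := by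
  simp [Uc]

/-- Expectations of the Frobenius norms of the error terms. -/
theorem gl_err (bn : S_BN) (w2 : S_W2) (p : ℝ) (J : Type) [Fintype J] (tr : J → Chn) (α : J → ℝ)
    (G : MF) (hp : 0 < p) (hp1 : p < 1) (hA : App p tr α G) (hC : CC tr α α = 1) :
    ∃ C : ℕ → ℝ, ∀ d n : ℕ, 0 < n → Ep n p (fun σ => fro (Polynomial.aeval (G n σ) (Uc d) -
      Wf p tr (fun _ : Fin d => α) n σ)) ≤ C d := by
  have h : ∀ d : ℕ, ∃ C : ℝ, ∀ n : ℕ, 0 < n → Ep n p (fun σ => fro (Polynomial.aeval (G n σ) (Uc d) -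
      Wf p tr (fun _ : Fin d => α) n σ)) ≤ C := fun d =>
    (bn p hp hp1).1 _ (w2 p J tr α G hp hp1 hA hC d)
  choose C hC' using h
  exact ⟨C, hC'⟩

theorem t_GL (d1 : S_D1) (bn : S_BN) (w2 : S_W2) : S_GL := by
  intro p J _ tr α G hp hp1 hA hC
  obtain ⟨C, hCd⟩ := gl_err bn w2 p J tr α G hp hp1 hA hC
  set F : ℕ → MF := fun d n σ => Polynomial.aeval (G n σ) (Uc d) -
      Wf p tr (fun _ : Fin d => α) n σ with hF
  have hCd' : ∀ d n : ℕ, 0 < n → Ep n p (fun σ => fro (F d n σ)) ≤ C d := hCd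
  have htr := hA.1
  refine ⟨?_, ?_⟩
  · intro R
    obtain ⟨D, c, rfl⟩ := d1.2.1 R
    refine ⟨(D + 1) * ∑ d ∈ range (D + 1), c d ^ 2 * C d, ?_⟩
    intro n hn
    have hn' : (0 : ℝ) < n := by exact_mod_cast hn
    rw [d1.2.2.1 D c]
    have key : ∀ σ : Cfg n, (Polynomial.aeval (G n σ) (PP D c)).trace - c 0 * n =
        ∑ d ∈ range (D + 1), c d * (F d n σ).trace := by
      intro σ
      rw [gl_aeval, Matrix.trace_sum, Finset.sum_range_succ', Finset.sum_range_succ']
      have h0 : (F 0 n σ).trace = 0 := by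
        simp only [hF, gl_Uc0, Wf_zero, sub_self, Matrix.trace_zero]
      have h0' : (c 0 • Polynomial.aeval (G n σ) (Uc 0)).trace = c 0 * n := by
        rw [gl_Uc0, Matrix.trace_smul, Matrix.trace_one, Fintype.card_fin, smul_eq_mul]
      rw [h0, h0']
      have : ∀ d ∈ range D, (c (d + 1) • Polynomial.aeval (G n σ) (Uc (d + 1))).trace =
          c (d + 1) * (F (d + 1) n σ).trace := by
        intro d _
        simp only [hF]
        rw [Matrix.trace_sub, trace_Wf p tr htr, sub_zero, Matrix.trace_smul, smul_eq_mul]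
      rw [Finset.sum_congr rfl this]
      ring
    have hb : ∀ σ : Cfg n, ((Polynomial.aeval (G n σ) (PP D c)).trace / n - c 0) ^ 2 ≤
        ∑ d ∈ range (D + 1), ((D + 1) * c d ^ 2 / n) * fro (F d n σ) := by
      intro σ
      have e1 : (Polynomial.aeval (G n σ) (PP D c)).trace / n - c 0 =
          (∑ d ∈ range (D + 1), c d * (F d n σ).trace) / n := by
        rw [← key σ]
        field_simp
      rw [e1, div_pow, div_le_iff₀ (by positivity)]
      have h1 := sq_sum_le_card_mul_sum_sq (s := range (D + 1))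
        (f := fun d => c d * (F d n σ).trace)
      refine h1.trans ?_
      rw [card_range, Finset.mul_sum, Finset.sum_mul]
      refine Finset.sum_le_sum fun d _ => ?_
      have h2 := sq_trace_le (F d n σ)
      have h3 : (((D + 1 : ℕ) : ℝ)) * (c d * (F d n σ).trace) ^ 2 ≤
          ((D : ℝ) + 1) * (c d ^ 2 * (n * fro (F d n σ))) := by
        push_cast
        rw [mul_pow]
        gcongr
      refine h3.trans (le_of_eq ?_)
      field_simp
    refine (Ep_mono n p hp.le hp1.le _ _ hb).trans ?_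
    rw [Ep_sum, mul_sum, sum_div]
    refine Finset.sum_le_sum fun d _ => ?_
    rw [Ep_mul]
    have h4 := hCd' d n hn
    calc (D + 1 : ℝ) * c d ^ 2 / n * Ep n p (fun σ => fro (F d n σ))
        ≤ (D + 1 : ℝ) * c d ^ 2 / n * C d := by gcongr
      _ = _ := by ring
  · intro D c hc0
    refine ⟨(D + 1) * ∑ d ∈ range (D + 1), c d ^ 2 * C d, ?_⟩
    intro n hn
    have hb : ∀ σ : Cfg n, ∑ i, (Polynomial.aeval (G n σ) (PP D c) i i) ^ 2 ≤
        ∑ d ∈ range (D + 1), ((D + 1) * c d ^ 2) * fro (F d n σ) := by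
      intro σ
      have e1 : ∀ i, Polynomial.aeval (G n σ) (PP D c) i i =
          (∑ d ∈ range (D + 1), c d • F d n σ) i i := by
        intro i
        rw [gl_aeval, Matrix.sum_apply, Matrix.sum_apply, Finset.sum_range_succ',
          Finset.sum_range_succ', hc0]
        simp only [zero_smul, Matrix.zero_apply, add_zero]
        refine Finset.sum_congr rfl fun d _ => ?_
        simp only [hF, Matrix.smul_apply, Matrix.sub_apply]
        rw [Wf_diag p tr htr, sub_zero]
      rw [Finset.sum_congr rfl fun i _ => by rw [e1 i]]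
      refine (fro_diag_le _).trans ((fro_sum_le _ _).trans ?_)
      rw [card_range, mul_sum]
      refine Finset.sum_le_sum fun d _ => ?_
      rw [fro_smul]
      push_cast
      exact le_of_eq (by ring)
    refine (Ep_mono n p hp.le hp1.le _ _ hb).trans ?_
    rw [Ep_sum, mul_sum]
    refine Finset.sum_le_sum fun d _ => ?_
    rw [Ep_mul]
    have h4 := hCd' d n hn
    calc (D + 1 : ℝ) * c d ^ 2 * Ep n p (fun σ => fro (F d n σ))
        ≤ (D + 1 : ℝ) * c d ^ 2 * C d := by gcongr
      _ = _ := by ring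

end Pool.Agent.H276R2.Gn
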