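import Pool.Agent.H276R2.Gn.Spec

/-!
# IT0: start of the iteration
-/

set_option autoImplicit false

namespace Pool.Agent.H276R2.Gn

open Finset Real

/-- The family `Wn` is a single tree, in any family of trees which contains the leaf. -/
theorem it0_app (p : ℝ) {J : Type} [Fintype J] [DecidableEq J] (tr : J → Chn) (j0 : J)
    (h0 : tr j0 = Chn.leaf) (htr : ∀ j, (tr j).IsTr) :
    App p tr (Pi.single j0 (1 : ℝ)) (fun _ σ => Wn p σ) := by
  refine ⟨htr, fun n σ => Wn_transpose p σ, ?_⟩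
  refine BadF_congr BadF_zero ?_
  intro n _ σ
  have : Gf p tr (Pi.single j0 (1 : ℝ)) n σ = Wn p σ := by
    unfold Gf
    rw [Finset.sum_eq_single j0]
    · rw [Pi.single_eq_same, one_smul, h0, Fc_leaf]
    · intro b _ hb
      rw [Pi.single_eq_of_ne hb, zero_smul]
    · intro h
      exact absurd (Finset.mem_univ _) h
  simp only [this, sub_self]

theorem it0_CC {J : Type} [Fintype J] [DecidableEq J] (tr : J → Chn) (j0 : J)
    (h0 : tr j0 = Chn.leaf) :
    CC tr (Pi.single j0 (1 : ℝ)) (Pi.single j0 (1 : ℝ)) = 1 := by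
  unfold CC
  rw [Finset.sum_eq_single j0, Finset.sum_eq_single j0]
  · rw [Pi.single_eq_same, h0, cc_leaf]
    norm_num
  · intro b _ hb
    rw [Pi.single_eq_of_ne hb]
    ring
  · intro h
    exact absurd (Finset.mem_univ _) h
  · intro b _ hb
    refine Finset.sum_eq_zero fun j _ => ?_
    rw [Pi.single_eq_of_ne hb]
    ring
  · intro h
    exact absurd (Finset.mem_univ _) h

theorem it0_Stp_zero (p : ℝ) (D : ℕ) :
    Stp p D (fun _ => 0) 1 1 (fun _ σ => Wn p σ) = fun _ σ => Wn p σ := by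
  funext n σ
  unfold Stp
  have h1 : PP D (fun _ => 0) = 0 := by
    unfold PP
    simp
  have h2 : Tm p σ (0 : Mat n) = 0 := by
    have := Tm_smul p σ (0 : ℝ) (0 : Mat n)
    simpa using this
  simp only [h1, map_zero, h2, add_zero, one_smul, div_one]

theorem it0_sP_sq (D : ℕ) (c : ℕ → ℝ) : sP D c ^ 2 = 4 + ∑ d ∈ range (D + 1), c d ^ 2 := by
  unfold sP
  exact Real.sq_sqrt (by positivity)

theorem it0_sP_pos (D : ℕ) (c : ℕ → ℝ) : 0 < sP D c := by
  unfold sP
  apply Real.sqrt_pos.mpr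
  positivity

theorem t_IT0 (nx : S_NX) (w4 : S_W4) : S_IT0 := by
  intro p D c hp hp1 hc0 hc1
  have hs := it0_sP_pos D c
  have hsq := it0_sP_sq D c
  have a0 : App p (fun _ : Unit => Chn.leaf) (Pi.single () (1 : ℝ)) (fun _ σ => Wn p σ) :=
    it0_app p (fun _ : Unit => Chn.leaf) () rfl (fun _ => leaf_IsTr)
  have n0 : CC (fun _ : Unit => Chn.leaf) (Pi.single () (1 : ℝ)) (Pi.single () (1 : ℝ)) = 1 :=
    it0_CC (fun _ : Unit => Chn.leaf) () rfl
  obtain ⟨K, hK, tr2, h⟩ := nx p Unit (fun _ : Unit => Chn.leaf) D c 2 (sP D c) hp hp1 hs.ne' hc0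
    hc1 (fun _ => leaf_IsTr)
  obtain ⟨β, hβ⟩ := h (fun _ σ => Wn p σ) (Pi.single () (1 : ℝ)) a0 n0
  classical
  have aα : App p (fun o : Option K => o.elim Chn.leaf tr2) (Pi.single none (1 : ℝ))
      (fun _ σ => Wn p σ) :=
    it0_app p (fun o : Option K => o.elim Chn.leaf tr2) none rfl hβ.1
  have nα : CC (fun o : Option K => o.elim Chn.leaf tr2) (Pi.single none (1 : ℝ))
      (Pi.single none (1 : ℝ)) = 1 :=
    it0_CC (fun o : Option K => o.elim Chn.leaf tr2) none rfl
  refine ⟨Option K, inferInstance, fun o : Option K => o.elim Chn.leaf tr2,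
    Pi.single none (1 : ℝ), β, ?_⟩
  refine ⟨aα, hβ, nα, ?_, ?_⟩
  · have := w4 p Unit (Option K) (fun _ : Unit => Chn.leaf) (fun o : Option K => o.elim Chn.leaf tr2)
      (Pi.single () (1 : ℝ)) (Pi.single () (1 : ℝ)) β β (fun _ σ => Wn p σ) (fun _ σ => Wn p σ)
      D c c 2 2 (sP D c) (sP D c) hp hp1 a0 a0 n0 n0 hc0 hc1 hc0 hc1 hs.ne' hs.ne' hβ hβ
    rw [n0] at this
    have e : sP D c * sP D c * CC (fun o : Option K => o.elim Chn.leaf tr2) β β =
        sP D c * sP D c * 1 := by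
      rw [this, mul_one, ← sq (sP D c), hsq]
      congr 1
      · norm_num
      · refine Finset.sum_congr rfl fun d _ => ?_
        rw [one_pow]
        ring
    exact mul_left_cancel₀ (mul_pos hs hs).ne' e
  · have := w4 p Unit (Option K) (fun _ : Unit => Chn.leaf) (fun o : Option K => o.elim Chn.leaf tr2)
      (Pi.single () (1 : ℝ)) (Pi.single () (1 : ℝ)) (Pi.single none (1 : ℝ)) β
      (fun _ σ => Wn p σ) (fun _ σ => Wn p σ)
      D (fun _ => 0) c 1 2 1 (sP D c) hp hp1 a0 a0 n0 n0 rfl rfl hc0 hc1 one_ne_zero hs.ne'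
      (by rw [it0_Stp_zero]; exact aα) hβ
    show _ = 2 / sP D c
    rw [eq_div_iff hs.ne']
    simp only [zero_mul, Finset.sum_const_zero, add_zero, one_mul] at this
    linarith

end Pool.Agent.H276R2.Gn
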