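import Pool.Agent.H276R2.Gn.Spec

set_option autoImplicit false

namespace Pool.Agent.H276R2.Gn

open Finset Real

theorem it1_sP_sq (D : ℕ) (c : ℕ → ℝ) : sP D c ^ 2 = 4 + ∑ d ∈ range (D + 1), c d ^ 2 := by
  unfold sP
  rw [Real.sq_sqrt (by positivity)]

theorem it1_sP_pos (D : ℕ) (c : ℕ → ℝ) : 0 < sP D c := by
  unfold sP
  positivity

theorem t_IT1 (nx : S_NX) (w4 : S_W4) : S_IT1 := by
  intro p D c m hp hp1 h0 h1 hst
  obtain ⟨J, hJ, tr, α, β, st⟩ := hst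
  have hs : sP D c ≠ 0 := (it1_sP_pos D c).ne'
  obtain ⟨K, hK, tr'', hnx⟩ := nx p J tr D c 2 (sP D c) hp hp1 hs h0 h1 st.aα.1
  obtain ⟨α', hα'⟩ := hnx (Gm p D c m) α st.aα st.nα
  obtain ⟨β', hβ'⟩ := hnx (Gm p D c (m + 1)) β st.aβ st.nβ
  have hsq := it1_sP_sq D c
  have e1 := w4 p J (Option K) tr (fun o : Option K => o.elim Chn.leaf tr'') α α α' α'
    (Gm p D c m) (Gm p D c m) D c c 2 2 (sP D c) (sP D c) hp hp1 st.aα st.aα st.nα st.nα
    h0 h1 h0 h1 hs hs hα' hα'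
  have e2 := w4 p J (Option K) tr (fun o : Option K => o.elim Chn.leaf tr'') β β β' β'
    (Gm p D c (m + 1)) (Gm p D c (m + 1)) D c c 2 2 (sP D c) (sP D c) hp hp1 st.aβ st.aβ
    st.nβ st.nβ h0 h1 h0 h1 hs hs hβ' hβ'
  have e3 := w4 p J (Option K) tr (fun o : Option K => o.elim Chn.leaf tr'') α β α' β'
    (Gm p D c m) (Gm p D c (m + 1)) D c c 2 2 (sP D c) (sP D c) hp hp1 st.aα st.aβ
    st.nα st.nβ h0 h1 h0 h1 hs hs hα' hβ'
  have hone : (2 : ℝ) * 2 + ∑ d ∈ range (D + 1), c d * c d * (1 : ℝ) ^ d = sP D c ^ 2 := by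
    rw [hsq]
    have : ∑ d ∈ range (D + 1), c d * c d * (1 : ℝ) ^ d = ∑ d ∈ range (D + 1), c d ^ 2 :=
      Finset.sum_congr rfl fun d _ => by rw [one_pow]; ring
    rw [this]
    norm_num
  refine ⟨Option K, inferInstance, fun o : Option K => o.elim Chn.leaf tr'', α', β',
    ⟨hα', hβ', ?_, ?_, ?_⟩⟩
  · rw [st.nα, hone] at e1
    have h2 : sP D c ^ 2 * CC (fun o : Option K => o.elim Chn.leaf tr'') α' α' =
        sP D c ^ 2 * 1 := by linear_combination e1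
    exact mul_left_cancel₀ (pow_ne_zero 2 hs) h2
  · rw [st.nβ, hone] at e2
    have h2 : sP D c ^ 2 * CC (fun o : Option K => o.elim Chn.leaf tr'') β' β' =
        sP D c ^ 2 * 1 := by linear_combination e2
    exact mul_left_cancel₀ (pow_ne_zero 2 hs) h2
  · rw [st.cov] at e3
    show CC (fun o : Option K => o.elim Chn.leaf tr'') α' β' =
      (4 + ∑ d ∈ range (D + 1), c d ^ 2 * rho D c m ^ d) / sP D c ^ 2
    rw [eq_div_iff (pow_ne_zero 2 hs)]
    have h3 : ∑ d ∈ range (D + 1), c d * c d * rho D c m ^ d =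
        ∑ d ∈ range (D + 1), c d ^ 2 * rho D c m ^ d :=
      Finset.sum_congr rfl fun d _ => by ring
    rw [h3] at e3
    linarith

end Pool.Agent.H276R2.Gn
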