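import Pool.Agent.H276R2.Gn.Spec

/-!
# Task K1: a trace inequality (helper959)
-/

set_option autoImplicit false

namespace Pool.Agent.H276R2.Gn

open Finset Real

theorem k1_diag {n : ℕ} (N : Mat n) (hN : N.transpose = N) :
    ∃ (U : Mat n) (D : Fin n → ℝ), U * U.transpose = 1 ∧ U.transpose * U = 1 ∧
      ∀ r : ℕ, N ^ r = U * Matrix.diagonal (fun i => D i ^ r) * U.transpose := by
  have hH : N.IsHermitian := by
    rw [Matrix.IsHermitian, Matrix.conjTranspose_eq_transpose_of_trivial]
    exact hN
  have h1 : (hH.eigenvectorUnitary : Mat n) * (hH.eigenvectorUnitary : Mat n).transpose = 1 := by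
    have := Unitary.mul_star_self_of_mem hH.eigenvectorUnitary.2
    rwa [Matrix.star_eq_conjTranspose, Matrix.conjTranspose_eq_transpose_of_trivial] at this
  have h2 : (hH.eigenvectorUnitary : Mat n).transpose * (hH.eigenvectorUnitary : Mat n) = 1 := by
    have := Unitary.star_mul_self_of_mem hH.eigenvectorUnitary.2
    rwa [Matrix.star_eq_conjTranspose, Matrix.conjTranspose_eq_transpose_of_trivial] at this
  have h3 : N = (hH.eigenvectorUnitary : Mat n) * Matrix.diagonal hH.eigenvalues *
      (hH.eigenvectorUnitary : Mat n).transpose := by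
    have := hH.spectral_theorem
    rw [Unitary.conjStarAlgAut_apply, Matrix.star_eq_conjTranspose,
      Matrix.conjTranspose_eq_transpose_of_trivial] at this
    exact this
  refine ⟨hH.eigenvectorUnitary, hH.eigenvalues, h1, h2, ?_⟩
  generalize (hH.eigenvectorUnitary : Mat n) = U at h1 h2 h3
  generalize hH.eigenvalues = D at h3
  intro r
  induction r with
  | zero =>
    simp only [pow_zero]
    rw [Matrix.diagonal_one, mul_one, h1]
  | succ r ih =>
    rw [pow_succ, ih, h3]
    calc U * Matrix.diagonal (fun i => D i ^ r) * U.transpose *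
          (U * Matrix.diagonal D * U.transpose)
        = U * Matrix.diagonal (fun i => D i ^ r) * (U.transpose * U) * Matrix.diagonal D *
          U.transpose := by simp only [mul_assoc]
      _ = U * (Matrix.diagonal (fun i => D i ^ r) * Matrix.diagonal D) * U.transpose := by
          rw [h2]; simp only [mul_one, mul_assoc]
      _ = _ := by
          rw [Matrix.diagonal_mul_diagonal]
          simp only [pow_succ]

theorem k1_num (x y : ℝ) (m : ℕ) : ∑ r ∈ range (2 * m + 1), x ^ r * y ^ (2 * m - r) ≤
    (2 * m + 1) / 2 * (x ^ (2 * m) + y ^ (2 * m)) := by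
  have h1 : ∑ r ∈ range (2 * m + 1), x ^ r * y ^ (2 * m - r) =
      ∑ r ∈ range (2 * m + 1), x ^ (2 * m - r) * y ^ r := by
    rw [← Finset.sum_range_reflect]
    refine Finset.sum_congr rfl fun r hr => ?_
    rw [mem_range] at hr
    rw [show 2 * m + 1 - 1 - r = 2 * m - r by omega, show 2 * m - (2 * m - r) = r by omega]
  have h2 : ∀ r ∈ range (2 * m + 1), x ^ r * y ^ (2 * m - r) + x ^ (2 * m - r) * y ^ r ≤
      x ^ (2 * m) + y ^ (2 * m) := by
    intro r hr
    rw [mem_range] at hr
    have hx : x ^ (2 * m) = |x| ^ r * |x| ^ (2 * m - r) := by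
      rw [← pow_add, show r + (2 * m - r) = 2 * m by omega]
      exact (Even.pow_abs (even_two_mul m) x).symm
    have hy : y ^ (2 * m) = |y| ^ r * |y| ^ (2 * m - r) := by
      rw [← pow_add, show r + (2 * m - r) = 2 * m by omega]
      exact (Even.pow_abs (even_two_mul m) y).symm
    have h3 : x ^ r * y ^ (2 * m - r) ≤ |x| ^ r * |y| ^ (2 * m - r) := by
      rw [← abs_pow, ← abs_pow, ← abs_mul]
      exact le_abs_self _
    have h4 : x ^ (2 * m - r) * y ^ r ≤ |x| ^ (2 * m - r) * |y| ^ r := by
      rw [← abs_pow, ← abs_pow, ← abs_mul]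
      exact le_abs_self _
    have h5 : 0 ≤ (|x| ^ r - |y| ^ r) * (|x| ^ (2 * m - r) - |y| ^ (2 * m - r)) := by
      rcases le_total |x| |y| with h | h
      · refine mul_nonneg_of_nonpos_of_nonpos ?_ ?_
        · exact sub_nonpos.2 (pow_le_pow_left₀ (abs_nonneg _) h _)
        · exact sub_nonpos.2 (pow_le_pow_left₀ (abs_nonneg _) h _)
      · refine mul_nonneg ?_ ?_
        · exact sub_nonneg.2 (pow_le_pow_left₀ (abs_nonneg _) h _)
        · exact sub_nonneg.2 (pow_le_pow_left₀ (abs_nonneg _) h _)
    rw [hx, hy]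
    nlinarith
  have h3 := Finset.sum_le_sum h2
  rw [sum_add_distrib, ← h1, sum_const, card_range, nsmul_eq_mul] at h3
  push_cast at h3
  linarith

theorem t_K1 : S_K1 := by
  intro n N M A hN hM hA m
  obtain ⟨U, D, hU1, hU2, hNr⟩ := k1_diag N hN
  obtain ⟨V, E, hV1, hV2, hMr⟩ := k1_diag M hM
  set B : Mat n := U.transpose * A * V with hB
  have hBt : B.transpose = V.transpose * A * U := by
    rw [hB, Matrix.transpose_mul, Matrix.transpose_mul, Matrix.transpose_transpose, hA,
      mul_assoc]
  have key : ∀ r s : ℕ, (A * N ^ r * A * M ^ s).trace =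
      ∑ i, ∑ j, B i j ^ 2 * (D i ^ r * E j ^ s) := by
    intro r s
    have h1 : (A * N ^ r * A * M ^ s).trace = (B.transpose * Matrix.diagonal (fun i => D i ^ r) *
        (B * Matrix.diagonal (fun j => E j ^ s))).trace := by
      rw [hNr, hMr, hBt, hB]
      have : A * (U * Matrix.diagonal (fun i => D i ^ r) * U.transpose) * A *
          (V * Matrix.diagonal (fun i => E i ^ s) * V.transpose) =
          (A * U * Matrix.diagonal (fun i => D i ^ r) * (U.transpose * A * V *
            Matrix.diagonal (fun j => E j ^ s))) * V.transpose := by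
        simp only [mul_assoc]
      rw [this, Matrix.trace_mul_comm]
      simp only [mul_assoc]
    rw [h1, Matrix.trace]
    simp only [Matrix.diag_apply]
    rw [Finset.sum_comm]
    refine Finset.sum_congr rfl fun j _ => ?_
    rw [Matrix.mul_apply]
    refine Finset.sum_congr rfl fun i _ => ?_
    rw [Matrix.mul_diagonal, Matrix.mul_diagonal, Matrix.transpose_apply]
    ring
  have hAN : (A * A * N ^ (2 * m)).trace = (A * N ^ (2 * m) * A * M ^ 0).trace := by
    rw [pow_zero, mul_one, Matrix.trace_mul_comm (A * N ^ (2 * m)) A, mul_assoc]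
  have hAM : (A * A * M ^ (2 * m)).trace = (A * N ^ 0 * A * M ^ (2 * m)).trace := by
    rw [pow_zero, mul_one]
  rw [hAN, hAM]
  simp only [key]
  rw [Finset.sum_comm]
  calc ∑ i, ∑ r ∈ range (2 * m + 1), ∑ j, B i j ^ 2 * (D i ^ r * E j ^ (2 * m - r))
      = ∑ i, ∑ j, B i j ^ 2 * ∑ r ∈ range (2 * m + 1), D i ^ r * E j ^ (2 * m - r) := by
        refine Finset.sum_congr rfl fun i _ => ?_
        rw [Finset.sum_comm]
        refine Finset.sum_congr rfl fun j _ => ?_
        rw [Finset.mul_sum]
    _ ≤ ∑ i, ∑ j, B i j ^ 2 * ((2 * m + 1) / 2 * (D i ^ (2 * m) + E j ^ (2 * m))) := by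
        refine Finset.sum_le_sum fun i _ => Finset.sum_le_sum fun j _ => ?_
        exact mul_le_mul_of_nonneg_left (k1_num _ _ _) (sq_nonneg _)
    _ = _ := by
        rw [← Finset.sum_add_distrib, Finset.mul_sum]
        refine Finset.sum_congr rfl fun i _ => ?_
        rw [← Finset.sum_add_distrib, Finset.mul_sum]
        refine Finset.sum_congr rfl fun j _ => ?_
        rw [pow_zero, pow_zero]
        ring

end Pool.Agent.H276R2.Gn
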