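import Pool.Agent.H276R2.Gn.Spec

/-! Task K2: eighth moment of a random matrix with independent entries. -/

set_option autoImplicit false

namespace Pool.Agent.H276R2.Gn

open Finset Real

/-- The part of `Y` on the pair `e`. -/
noncomputable def k2_A {n : ℕ} (Y : Mat n) (e : Sym2 (Fin n)) : Mat n :=
  Matrix.of fun i j => if s(i, j) = e then Y i j else 0

theorem k2_A_transpose {n : ℕ} (Y : Mat n) (hY : Y.transpose = Y) (e : Sym2 (Fin n)) :
    (k2_A Y e).transpose = k2_A Y e := by
  ext i j
  have h : Y j i = Y i j := congrFun (congrFun hY i) j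
  simp only [k2_A, Matrix.transpose_apply, Matrix.of_apply, Sym2.eq_swap (a := j) (b := i), h]

theorem k2_noise_sum {n : ℕ} (q : ℝ) (Y : Mat n) (τ : Cfg n) :
    noise q Y τ = ∑ e, ((if τ e = true then 1 / q else 0) - 1) • k2_A Y e := by
  ext i j
  rw [Matrix.sum_apply]
  simp only [noise, k2_A, Matrix.of_apply, Matrix.smul_apply, smul_eq_mul, mul_ite, mul_zero,
    Finset.sum_ite_eq, Finset.mem_univ, if_true]
  ring

theorem k2_noise_transpose {n : ℕ} (q : ℝ) (Y : Mat n) (hY : Y.transpose = Y) (τ : Cfg n) :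
    (noise q Y τ).transpose = noise q Y τ := by
  ext i j
  have h : Y j i = Y i j := congrFun (congrFun hY i) j
  simp only [noise, Matrix.transpose_apply, Matrix.of_apply, Sym2.eq_swap (a := j) (b := i), h]

theorem k2_noise_update {n : ℕ} (q : ℝ) (Y : Mat n) (τ : Cfg n) (e : Sym2 (Fin n)) :
    noise q Y (Function.update τ e true) - noise q Y (Function.update τ e false) =
      (1 / q) • k2_A Y e := by
  ext i j
  simp only [noise, k2_A, Matrix.of_apply, Matrix.smul_apply, Matrix.sub_apply, smul_eq_mul]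
  by_cases h : s(i, j) = e
  · subst h
    simp only [Function.update_self, if_true]
    simp
    ring
  · simp only [Function.update_of_ne h, if_neg h]
    ring

theorem k2_tele {n : ℕ} (X Z : Mat n) (k : ℕ) :
    X ^ (k + 1) - Z ^ (k + 1) = ∑ r ∈ range (k + 1), X ^ r * (X - Z) * Z ^ (k - r) := by
  induction k with
  | zero => simp
  | succ k ih =>
    rw [Finset.sum_range_succ]
    have h1 : ∑ r ∈ range (k + 1), X ^ r * (X - Z) * Z ^ (k + 1 - r) =
        (∑ r ∈ range (k + 1), X ^ r * (X - Z) * Z ^ (k - r)) * Z := by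
      rw [Finset.sum_mul]
      refine Finset.sum_congr rfl ?_
      intro r hr
      have hr' : r ≤ k := by
        have := Finset.mem_range.mp hr
        omega
      rw [show k + 1 - r = (k - r) + 1 by omega, pow_succ Z (k - r), ← mul_assoc]
    rw [h1, ← ih, Nat.sub_self, pow_zero, mul_one, pow_succ X (k + 1), pow_succ Z (k + 1), mul_sub,
      sub_mul]
    abel

theorem k2_trace_nonneg {n : ℕ} (A N : Mat n) (hA : A.transpose = A) (hN : N.transpose = N)
    (m : ℕ) : 0 ≤ (A * A * N ^ (2 * m)).trace := by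
  have hP : (N ^ m).transpose = N ^ m := by rw [Matrix.transpose_pow, hN]
  have h1 : (A * A * N ^ (2 * m)).trace = ((A * N ^ m) * (A * N ^ m).transpose).trace := by
    rw [Matrix.transpose_mul, hP, hA, two_mul, pow_add]
    have : A * A * (N ^ m * N ^ m) = A * (A * N ^ m * N ^ m) := by simp only [mul_assoc]
    rw [this, Matrix.trace_mul_comm]
    congr 1
    simp only [mul_assoc]
  rw [h1, ← fro_eq_trace]
  exact fro_nonneg _

theorem k2_point (k1 : S_K1) {n : ℕ} (Y : Mat n) (q : ℝ) (hq : 0 < q) (hq1 : q ≤ 1)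
    (hY : Y.transpose = Y) (m : ℕ) (e : Sym2 (Fin n)) (τ : Cfg n) :
    (1 - q) * ((k2_A Y e * noise q Y (Function.update τ e true) ^ (2 * m + 1)).trace -
        (k2_A Y e * noise q Y (Function.update τ e false) ^ (2 * m + 1)).trace) ≤
      (2 * m + 1) / (2 * q ^ 2) *
        (q * (k2_A Y e * k2_A Y e * noise q Y (Function.update τ e true) ^ (2 * m)).trace +
        (1 - q) * (k2_A Y e * k2_A Y e * noise q Y (Function.update τ e false) ^ (2 * m)).trace) := by
  set A := k2_A Y e with hA
  set P := noise q Y (Function.update τ e true) with hP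
  set M := noise q Y (Function.update τ e false) with hM
  have hAt : A.transpose = A := k2_A_transpose Y hY e
  have hPt : P.transpose = P := k2_noise_transpose q Y hY _
  have hMt : M.transpose = M := k2_noise_transpose q Y hY _
  have hPM : P - M = (1 / q) • A := k2_noise_update q Y τ e
  have h1 : (A * P ^ (2 * m + 1)).trace - (A * M ^ (2 * m + 1)).trace =
      (1 / q) * ∑ r ∈ range (2 * m + 1), (A * P ^ r * A * M ^ (2 * m - r)).trace := by
    rw [← Matrix.trace_sub, ← mul_sub, k2_tele, hPM, Finset.mul_sum, Matrix.trace_sum,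
      Finset.mul_sum]
    refine Finset.sum_congr rfl ?_
    intro r _
    rw [mul_smul_comm, smul_mul_assoc, mul_smul_comm, Matrix.trace_smul, smul_eq_mul]
    simp only [mul_assoc]
  have h2 := k1 n P M A hPt hMt hAt m
  have h3 := k2_trace_nonneg A P hAt hPt m
  have h4 := k2_trace_nonneg A M hAt hMt m
  set f := (A * A * P ^ (2 * m)).trace
  set g := (A * A * M ^ (2 * m)).trace
  rw [h1]
  have h5 : (1 - q) * ((1 / q) * ∑ r ∈ range (2 * m + 1), (A * P ^ r * A * M ^ (2 * m - r)).trace) ≤
      (1 - q) * ((1 / q) * ((2 * m + 1) / 2 * (f + g))) := by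
    refine mul_le_mul_of_nonneg_left (mul_le_mul_of_nonneg_left h2 (by positivity)) (by linarith)
  refine h5.trans ?_
  have h6 : (2 * (m : ℝ) + 1) / (2 * q ^ 2) * (q * f + (1 - q) * g) -
      (1 - q) * ((1 / q) * ((2 * m + 1) / 2 * (f + g))) =
      (2 * (m : ℝ) + 1) / 2 * (f + (1 - q) ^ 2 / q ^ 2 * g) := by
    field_simp
    ring
  have h7 : 0 ≤ (2 * (m : ℝ) + 1) / 2 * (f + (1 - q) ^ 2 / q ^ 2 * g) := by positivity
  linarith

theorem k2_step (k1 : S_K1) {n : ℕ} (Y : Mat n) (q : ℝ) (hq : 0 < q) (hq1 : q ≤ 1)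
    (hY : Y.transpose = Y) (m : ℕ) :
    Ep n q (fun τ => ((noise q Y τ) ^ (2 * m + 2)).trace) ≤ (2 * m + 1) / (2 * q ^ 2) *
      Ep n q (fun τ => ∑ i, (∑ j, Y i j ^ 2) * ((noise q Y τ) ^ (2 * m)) i i) := by
  have h1 : (fun τ : Cfg n => ((noise q Y τ) ^ (2 * m + 2)).trace) = fun τ => ∑ e,
      ((if τ e = true then 1 / q else 0) - 1) * (k2_A Y e * (noise q Y τ) ^ (2 * m + 1)).trace := by
    funext τ
    rw [pow_succ' _ (2 * m + 1)]
    conv_lhs => rw [k2_noise_sum q Y τ]
    rw [Finset.sum_mul, Matrix.trace_sum, ← k2_noise_sum q Y τ]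
    refine Finset.sum_congr rfl ?_
    intro e _
    rw [smul_mul_assoc, Matrix.trace_smul, smul_eq_mul]
  have h2 : (fun τ : Cfg n => ∑ i, (∑ j, Y i j ^ 2) * ((noise q Y τ) ^ (2 * m)) i i) = fun τ => ∑ e,
      (k2_A Y e * k2_A Y e * (noise q Y τ) ^ (2 * m)).trace := by
    funext τ
    rw [← Matrix.trace_sum, ← Finset.sum_mul]
    have h3 : ∑ e, k2_A Y e * k2_A Y e = Matrix.diagonal fun i => ∑ j, Y i j ^ 2 := by
      ext i j
      rw [Matrix.sum_apply]
      simp only [Matrix.mul_apply]
      rw [Finset.sum_comm]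
      by_cases hij : i = j
      · subst hij
        rw [Matrix.diagonal_apply_eq]
        refine Finset.sum_congr rfl ?_
        intro k _
        have hk : Y k i = Y i k := congrFun (congrFun hY i) k
        simp only [k2_A, Matrix.of_apply, Sym2.eq_swap (a := k) (b := i), hk, ite_mul, mul_ite,
          zero_mul, mul_zero]
        simp only [← ite_and, and_self, Finset.sum_ite_eq, Finset.mem_univ, if_true]
        ring
      · rw [Matrix.diagonal_apply_ne _ hij]
        refine Finset.sum_eq_zero ?_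
        intro k _
        refine Finset.sum_eq_zero ?_
        intro e _
        simp only [k2_A, Matrix.of_apply]
        by_cases h4 : s(i, k) = e
        · by_cases h5 : s(k, j) = e
          · exfalso
            apply hij
            rw [← h5, Sym2.eq_swap (a := k) (b := j)] at h4
            rcases (by simpa using h4 : i = j ∨ i = k ∧ k = j) with h6 | h6
            · exact h6
            · exact h6.1.trans h6.2
          · rw [if_neg h5, mul_zero]
        · rw [if_neg h4, zero_mul]
    rw [h3]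
    rw [Matrix.trace]
    refine Finset.sum_congr rfl ?_
    intro i _
    rw [Matrix.diag_apply, Matrix.diagonal_mul]
  rw [h1, h2, Ep_sum, Ep_sum, Finset.mul_sum]
  refine Finset.sum_le_sum ?_
  intro e _
  rw [← Ep_update n q e, ← Ep_update n q e (fun τ => (k2_A Y e * k2_A Y e * (noise q Y τ) ^ (2 * m)).trace),
    ← Ep_mul]
  refine Ep_mono n q hq.le hq1 _ _ ?_
  intro τ
  simp only [Function.update_self, if_true]
  refine le_trans (le_of_eq ?_) (k2_point k1 Y q hq hq1 hY m e τ)
  simp
  field_simp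
  ring

theorem t_K2 (k1 : S_K1) : S_K2 := by
  intro n U Y q v hq hq1 hY hdiag hU hv
  rcases Nat.eq_zero_or_pos n with rfl | hn
  · have h0 : (fun τ : Cfg 0 => ((noise q Y τ) ^ 8).trace) = fun _ => 0 := by
      funext τ
      simp [Matrix.trace]
    rw [h0, Ep_const]
    have hU0 : U = ∅ := Finset.eq_empty_of_isEmpty U
    rw [hU0]
    simp
  have hv0 : 0 ≤ v := le_trans (Finset.sum_nonneg fun j _ => sq_nonneg _) (hv ⟨0, hn⟩)
  have hstep : ∀ m : ℕ, 1 ≤ m → Ep n q (fun τ => ((noise q Y τ) ^ (2 * m + 2)).trace) ≤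
      (2 * m + 1) / 2 * (v / q ^ 2) * Ep n q (fun τ => ((noise q Y τ) ^ (2 * m)).trace) := by
    intro m _
    refine (k2_step k1 Y q hq hq1 hY m).trans ?_
    have h1 : Ep n q (fun τ => ∑ i, (∑ j, Y i j ^ 2) * ((noise q Y τ) ^ (2 * m)) i i) ≤
        Ep n q (fun τ => v * ((noise q Y τ) ^ (2 * m)).trace) := by
      refine Ep_mono n q hq.le hq1 _ _ ?_
      intro τ
      rw [Matrix.trace, Finset.mul_sum]
      refine Finset.sum_le_sum ?_
      intro i _
      rw [Matrix.diag_apply]
      refine mul_le_mul_of_nonneg_right (hv i) ?_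
      have hP : (noise q Y τ ^ m).transpose = noise q Y τ ^ m := by
        rw [Matrix.transpose_pow, k2_noise_transpose q Y hY]
      rw [two_mul, pow_add, Matrix.mul_apply]
      refine Finset.sum_nonneg ?_
      intro j _
      have : (noise q Y τ ^ m) j i = (noise q Y τ ^ m) i j := congrFun (congrFun hP i) j
      rw [this]
      exact mul_self_nonneg _
    rw [Ep_mul] at h1
    refine (mul_le_mul_of_nonneg_left h1 (by positivity)).trans (le_of_eq ?_)
    field_simp
  have h0 : Ep n q (fun τ => ((noise q Y τ) ^ 2).trace) ≤ 1 / 2 * (v / q ^ 2) * #U := by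
    have h1 := k2_step k1 Y q hq hq1 hY 0
    simp only [Nat.cast_zero, mul_zero, zero_add, pow_zero, Matrix.one_apply_eq, mul_one] at h1
    rw [Ep_const] at h1
    refine h1.trans ?_
    have h2 : ∑ i, ∑ j, Y i j ^ 2 ≤ v * #U := by
      have h3 : ∑ i, ∑ j, Y i j ^ 2 = ∑ i ∈ U, ∑ j, Y i j ^ 2 := by
        symm
        refine Finset.sum_subset (Finset.subset_univ U) ?_
        intro i _ hi
        refine Finset.sum_eq_zero ?_
        intro j _
        rw [hU i j hi]
        norm_num
      rw [h3]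
      calc ∑ i ∈ U, ∑ j, Y i j ^ 2 ≤ ∑ i ∈ U, v := Finset.sum_le_sum fun i _ => hv i
        _ = v * #U := by rw [Finset.sum_const, nsmul_eq_mul, mul_comm]
    refine (mul_le_mul_of_nonneg_left h2 (by positivity)).trans (le_of_eq ?_)
    field_simp
  have h1 := hstep 1 le_rfl
  have h2 := hstep 2 (by norm_num)
  have h3 := hstep 3 (by norm_num)
  norm_num at h1 h2 h3
  set w := v / q ^ 2 with hw
  have hw0 : 0 ≤ w := by positivity
  have g1 : Ep n q (fun τ => ((noise q Y τ) ^ 4).trace) ≤ 3 / 2 * w * (1 / 2 * w * #U) :=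
    h1.trans (mul_le_mul_of_nonneg_left h0 (by positivity))
  have g2 : Ep n q (fun τ => ((noise q Y τ) ^ 6).trace) ≤
      5 / 2 * w * (3 / 2 * w * (1 / 2 * w * #U)) :=
    h2.trans (mul_le_mul_of_nonneg_left g1 (by positivity))
  have g3 : Ep n q (fun τ => ((noise q Y τ) ^ 8).trace) ≤
      7 / 2 * w * (5 / 2 * w * (3 / 2 * w * (1 / 2 * w * #U))) :=
    h3.trans (mul_le_mul_of_nonneg_left g2 (by positivity))
  refine g3.trans ?_
  have : (0 : ℝ) ≤ w ^ 4 * #U := by positivity
  nlinarith

end Pool.Agent.H276R2.Gn
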