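import Pool.Agent.H276R2.Gn.Spec
set_option autoImplicit false

/-! Task LO (helper267): the lower bound for the average Lovasz number. -/

namespace Pool.Agent.H276R2.Gn
open Finset Real

theorem lo_Th_nonneg {n : ℕ} (σ : Cfg n) (U : Finset (Fin n)) : 0 ≤ Th σ U := by
  unfold Th
  apply Real.sSup_nonneg
  rintro s ⟨X, hX, -, -, -, rfl⟩
  have h := hX.dotProduct_mulVec_nonneg (fun _ => (1 : ℝ))
  have h2 : (star (fun _ : Fin n => (1 : ℝ))) ⬝ᵥ (X.mulVec fun _ => (1 : ℝ)) =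
      ∑ i, ∑ j, X i j := by
    simp [dotProduct, Matrix.mulVec]
  rw [h2] at h
  exact h

theorem lo_mono (κ β γ : ℝ) (n : ℕ) (σ τ : Cfg n) (h : ∀ e, σ e = true → τ e = true)
    (hg : GoodU κ β γ n σ) : GoodU κ β γ n τ := by
  obtain ⟨U, B, h1, h2, h3, h4, h5⟩ := hg
  refine ⟨U, B, h1, h2, h3, fun i j hij hτ => h4 i j hij ?_, h5⟩
  by_contra hc
  have h6 : σ s(i, j) = true := by simpa using hc
  have h7 := h _ h6
  rw [hτ] at h7
  exact absurd h7 (by decide)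

theorem lo_bound (tl : S_TL) {κ β γ : ℝ} {n : ℕ} (hn : 0 < n) (hβ : 0 < β) (hγ : 0 ≤ γ)
    (hκ : κ ≤ 1) (σ : Cfg n) (hg : GoodU κ β γ n (fun e => !σ e)) :
    γ / β * (1 - κ) ^ 2 * √n ≤ Th σ univ := by
  obtain ⟨U, B, h1, h2, h3, h4, h5⟩ := hg
  have h6 := tl n σ U B β γ hn hβ hγ h3 h4 h5 h2
  refine le_trans ?_ h6
  have hn' : (0 : ℝ) < n := by exact_mod_cast hn
  have hs : 0 < √(n : ℝ) := Real.sqrt_pos.2 hn'
  have hss : √(n : ℝ) * √(n : ℝ) = n := Real.mul_self_sqrt hn'.le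
  have hU : (1 - κ) * n ≤ (#U : ℝ) := by
    have h7 : (#U : ℝ) + (#Uᶜ : ℝ) = n := by
      have h8 := Finset.card_add_card_compl U
      rw [Fintype.card_fin] at h8
      exact_mod_cast h8
    nlinarith
  have hU2 : ((1 - κ) * n) ^ 2 ≤ (#U : ℝ) ^ 2 := by
    apply pow_le_pow_left₀ _ hU
    exact mul_nonneg (by linarith) hn'.le
  have h9 : γ / β * (1 - κ) ^ 2 * √(n : ℝ) = γ * ((1 - κ) * n) ^ 2 / (√(n : ℝ) * (β * n)) := by
    rw [eq_div_iff (by positivity)]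
    have : γ / β * (1 - κ) ^ 2 * √(n : ℝ) * (√(n : ℝ) * (β * n)) =
        γ / β * β * (1 - κ) ^ 2 * (√(n : ℝ) * √(n : ℝ)) * n := by ring
    rw [this, div_mul_cancel₀ _ hβ.ne', hss]
    ring
  rw [h9]
  gcongr

theorem lo_ind (n : ℕ) (P : Cfg n → Prop) (f : Cfg n → ℝ) (c : ℝ) (hf : ∀ σ, 0 ≤ f σ)
    (h : ∀ σ, P σ → c ≤ f σ) : c * Pp n (1 / 2) P ≤ Ep n (1 / 2) f := by
  classical
  unfold Pp
  rw [← Ep_mul]
  refine Ep_mono n (1 / 2) (by norm_num) (by norm_num) _ _ fun σ => ?_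
  split_ifs with hP
  · rw [mul_one]; exact h σ hP
  · rw [mul_zero]; exact hf σ

theorem t_LO (tl : S_TL) (tw : S_TW) : S_LO := by
  intro ε hε
  obtain ⟨δ, hδ⟩ : ∃ δ, δ = min (1 / 4) (ε / 20) := ⟨_, rfl⟩
  have hδ0 : 0 < δ := by rw [hδ]; exact lt_min (by norm_num) (by positivity)
  have hδ1 : δ ≤ 1 / 4 := by rw [hδ]; exact min_le_left _ _
  have hδ2 : δ ≤ ε / 20 := by rw [hδ]; exact min_le_right _ _
  obtain ⟨n₀, h₀⟩ := tw δ δ δ hδ0 hδ1 hδ0 (by linarith) hδ0 (by linarith)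
  refine ⟨n₀ + 1, fun n hn => ?_⟩
  have hn0 : 0 < n := by omega
  have h1 := h₀ n (by omega)
  obtain ⟨β, hβ⟩ : ∃ β, β = 1 + 3 * δ + δ := ⟨_, rfl⟩
  obtain ⟨γ, hγ⟩ : ∃ γ, γ = 1 - δ := ⟨_, rfl⟩
  rw [← hβ, ← hγ] at h1
  have hβ0 : 0 < β := by rw [hβ]; linarith
  have hγ0 : 0 ≤ γ := by rw [hγ]; linarith
  have h2 : Pp n (1 / 2 - δ / 4) (GoodU δ β γ n) ≤ Pp n (1 / 2) (GoodU δ β γ n) :=
    Pp_mono_density n _ _ (by linarith) (by linarith) (by norm_num) _ (lo_mono δ β γ n)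
  have h3 : Pp n (1 / 2) (fun σ => GoodU δ β γ n (fun e => !σ e)) =
      Pp n (1 / 2) (GoodU δ β γ n) := by
    classical
    unfold Pp
    rw [Ep_compl n (1 / 2) (fun σ => if GoodU δ β γ n σ then (1 : ℝ) else 0)]
    norm_num
  have h4 := lo_ind n (fun σ => GoodU δ β γ n (fun e => !σ e)) (fun σ => Th σ univ)
    (γ / β * (1 - δ) ^ 2 * √n) (fun σ => lo_Th_nonneg σ univ)
    (fun σ hσ => lo_bound tl hn0 hβ0 hγ0 (by linarith) σ hσ)
  refine le_trans ?_ h4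
  rw [h3]
  have hs : 0 ≤ √(n : ℝ) := Real.sqrt_nonneg _
  have hc : 0 ≤ γ / β * (1 - δ) ^ 2 * √(n : ℝ) := by positivity
  refine le_trans ?_ (mul_le_mul_of_nonneg_left (h1.trans h2) hc)
  have key : 1 - ε ≤ γ / β * (1 - δ) ^ 2 * (1 - δ) := by
    have h5 : γ / β * (1 - δ) ^ 2 * (1 - δ) = (1 - δ) ^ 4 / (1 + 4 * δ) := by
      rw [hγ, hβ, show 1 + 3 * δ + δ = 1 + 4 * δ by ring]
      field_simp
    rw [h5, le_div_iff₀ (by linarith)]
    have h6 : (1 - 4 * δ) ≤ (1 - δ) ^ 4 := by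
      have := one_add_mul_le_pow (a := -δ) (by linarith) 4
      push_cast at this
      have h7 : 1 + -δ = 1 - δ := by ring
      rw [h7] at this
      linarith
    nlinarith
  calc (1 - ε) * √(n : ℝ) ≤ (γ / β * (1 - δ) ^ 2 * (1 - δ)) * √(n : ℝ) :=
        mul_le_mul_of_nonneg_right key hs
    _ = _ := by rw [hγ]; ring

end Pool.Agent.H276R2.Gn
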