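import Pool.Agent.H276R2.Gn.Defs

/-!
# Library A: expectations `Ep`, probabilities `Pp`
-/

set_option autoImplicit false

namespace Pool.Agent.H276R2.Gn

open Finset Real

/-- the weight of a configuration -/
noncomputable def la_w (n : ℕ) (p : ℝ) (σ : Cfg n) : ℝ := ∏ e, if σ e = true then p else 1 - p

theorem la_Ep (n : ℕ) (p : ℝ) (f : Cfg n → ℝ) : Ep n p f = ∑ σ : Cfg n, la_w n p σ * f σ := rfl

theorem la_w_nonneg (n : ℕ) (p : ℝ) (hp : 0 ≤ p) (hp1 : p ≤ 1) (σ : Cfg n) : 0 ≤ la_w n p σ := by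
  unfold la_w
  refine Finset.prod_nonneg fun e _ => ?_
  split_ifs
  · exact hp
  · linarith

theorem la_fub (n : ℕ) (g : Sym2 (Fin n) → Bool → ℝ) :
    ∑ σ : Cfg n, ∏ e, g e (σ e) = ∏ e, (g e true + g e false) := by
  have h : ∀ e, g e true + g e false = ∑ b ∈ (univ : Finset Bool), g e b := by
    intro e
    rw [Fintype.sum_bool]
  rw [Finset.prod_congr rfl fun e _ => h e, Finset.prod_univ_sum, Fintype.piFinset_univ]

/-- Product functions. -/
theorem Ep_prod (n : ℕ) (p : ℝ) (a b : Sym2 (Fin n) → ℝ) :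
    Ep n p (fun σ => ∏ e, if σ e = true then a e else b e) = ∏ e, (p * a e + (1 - p) * b e) := by
  unfold Ep
  have h := la_fub n (fun e c => if c = true then p * a e else (1 - p) * b e)
  simp only [if_true, Bool.false_eq_true, if_false] at h
  rw [← h]
  refine Finset.sum_congr rfl fun σ _ => ?_
  rw [← Finset.prod_mul_distrib]
  refine Finset.prod_congr rfl fun e _ => ?_
  split_ifs <;> rfl

theorem Ep_const (n : ℕ) (p c : ℝ) : Ep n p (fun _ => c) = c := by
  have h := Ep_prod n p (fun _ => 1) (fun _ => 1)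
  simp only [ite_self, Finset.prod_const_one, mul_one] at h
  have h1 : ∏ _e : Sym2 (Fin n), (p + (1 - p)) = 1 := by
    rw [show p + (1 - p) = 1 by ring, Finset.prod_const_one]
  rw [h1, la_Ep] at h
  rw [la_Ep, ← Finset.sum_mul]
  simp only [mul_one] at h
  rw [h, one_mul]

theorem Ep_add (n : ℕ) (p : ℝ) (f g : Cfg n → ℝ) :
    Ep n p (fun σ => f σ + g σ) = Ep n p f + Ep n p g := by
  simp only [la_Ep, mul_add, Finset.sum_add_distrib]

theorem Ep_sub (n : ℕ) (p : ℝ) (f g : Cfg n → ℝ) :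
    Ep n p (fun σ => f σ - g σ) = Ep n p f - Ep n p g := by
  simp only [la_Ep, mul_sub, Finset.sum_sub_distrib]

theorem Ep_mul (n : ℕ) (p c : ℝ) (f : Cfg n → ℝ) :
    Ep n p (fun σ => c * f σ) = c * Ep n p f := by
  simp only [la_Ep, Finset.mul_sum]
  refine Finset.sum_congr rfl fun σ _ => ?_
  ring

theorem Ep_div (n : ℕ) (p c : ℝ) (f : Cfg n → ℝ) :
    Ep n p (fun σ => f σ / c) = Ep n p f / c := by
  simp only [la_Ep, Finset.sum_div]
  refine Finset.sum_congr rfl fun σ _ => ?_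
  ring

theorem Ep_sum (n : ℕ) (p : ℝ) {ι : Type} (s : Finset ι) (f : ι → Cfg n → ℝ) :
    Ep n p (fun σ => ∑ i ∈ s, f i σ) = ∑ i ∈ s, Ep n p (f i) := by
  simp only [la_Ep, Finset.mul_sum]
  exact Finset.sum_comm

theorem Ep_mono (n : ℕ) (p : ℝ) (hp : 0 ≤ p) (hp1 : p ≤ 1) (f g : Cfg n → ℝ)
    (h : ∀ σ, f σ ≤ g σ) : Ep n p f ≤ Ep n p g := by
  rw [la_Ep, la_Ep]
  exact Finset.sum_le_sum fun σ _ => mul_le_mul_of_nonneg_left (h σ) (la_w_nonneg n p hp hp1 σ)

theorem Ep_nonneg (n : ℕ) (p : ℝ) (hp : 0 ≤ p) (hp1 : p ≤ 1) (f : Cfg n → ℝ)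
    (h : ∀ σ, 0 ≤ f σ) : 0 ≤ Ep n p f := by
  rw [la_Ep]
  exact Finset.sum_nonneg fun σ _ => mul_nonneg (la_w_nonneg n p hp hp1 σ) (h σ)

theorem abs_Ep_le (n : ℕ) (p : ℝ) (hp : 0 ≤ p) (hp1 : p ≤ 1) (f : Cfg n → ℝ) :
    |Ep n p f| ≤ Ep n p (fun σ => |f σ|) := by
  rw [la_Ep, la_Ep]
  refine (Finset.abs_sum_le_sum_abs _ _).trans (le_of_eq ?_)
  refine Finset.sum_congr rfl fun σ _ => ?_
  rw [abs_mul, abs_of_nonneg (la_w_nonneg n p hp hp1 σ)]

/-- Cauchy-Schwarz. -/
theorem Ep_cs (n : ℕ) (p : ℝ) (hp : 0 ≤ p) (hp1 : p ≤ 1) (f g : Cfg n → ℝ) :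
    (Ep n p (fun σ => f σ * g σ)) ^ 2 ≤
      Ep n p (fun σ => f σ ^ 2) * Ep n p (fun σ => g σ ^ 2) := by
  rw [la_Ep, la_Ep, la_Ep]
  refine Finset.sum_sq_le_sum_mul_sum_of_sq_le_mul _
    (fun σ _ => mul_nonneg (la_w_nonneg n p hp hp1 σ) (sq_nonneg _))
    (fun σ _ => mul_nonneg (la_w_nonneg n p hp hp1 σ) (sq_nonneg _)) (fun σ _ => le_of_eq ?_)
  ring

theorem sq_Ep_le (n : ℕ) (p : ℝ) (hp : 0 ≤ p) (hp1 : p ≤ 1) (f : Cfg n → ℝ) :
    (Ep n p f) ^ 2 ≤ Ep n p (fun σ => f σ ^ 2) := by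
  have h := Ep_cs n p hp hp1 f (fun _ => 1)
  simp only [mul_one, one_pow, Ep_const] at h
  exact h

/-- the weight without one pair -/
noncomputable def la_we (n : ℕ) (p : ℝ) (e : Sym2 (Fin n)) (σ : Cfg n) : ℝ :=
  ∏ e' ∈ univ.erase e, if σ e' = true then p else 1 - p

theorem la_w_eq (n : ℕ) (p : ℝ) (e : Sym2 (Fin n)) (σ : Cfg n) :
    la_w n p σ = (if σ e = true then p else 1 - p) * la_we n p e σ :=
  (Finset.mul_prod_erase univ (fun e' => if σ e' = true then p else 1 - p) (mem_univ e)).symm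

theorem la_we_update (n : ℕ) (p : ℝ) (e : Sym2 (Fin n)) (σ : Cfg n) (b : Bool) :
    la_we n p e (Function.update σ e b) = la_we n p e σ := by
  unfold la_we
  refine Finset.prod_congr rfl fun e' he' => ?_
  rw [Function.update_of_ne (Finset.ne_of_mem_erase he')]

/-- switching one pair -/
def la_fl {n : ℕ} (e : Sym2 (Fin n)) (σ : Cfg n) : Cfg n := Function.update σ e (!σ e)

theorem la_fl_inv {n : ℕ} (e : Sym2 (Fin n)) : Function.Involutive (la_fl e) := by
  intro σ
  unfold la_fl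
  rw [Function.update_self, Bool.not_not, Function.update_idem, Function.update_eq_self]

theorem la_sum_fl {n : ℕ} (e : Sym2 (Fin n)) (F : Cfg n → ℝ) :
    ∑ σ : Cfg n, F σ = ∑ σ : Cfg n, F (la_fl e σ) :=
  (Equiv.sum_comp (Function.Involutive.toPerm (la_fl e) (la_fl_inv e)) F).symm

/-- Resampling one pair. -/
theorem Ep_update (n : ℕ) (p : ℝ) (e : Sym2 (Fin n)) (f : Cfg n → ℝ) :
    Ep n p (fun σ => p * f (Function.update σ e true) + (1 - p) * f (Function.update σ e false)) =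
      Ep n p f := by
  have h1 : ∀ F : Cfg n → ℝ, 2 * Ep n p F = ∑ σ : Cfg n, la_we n p e σ *
      (p * F (Function.update σ e true) + (1 - p) * F (Function.update σ e false)) := by
    intro F
    rw [two_mul, la_Ep]
    nth_rewrite 2 [la_sum_fl e]
    rw [← Finset.sum_add_distrib]
    refine Finset.sum_congr rfl fun σ _ => ?_
    rw [la_w_eq n p e σ, la_w_eq n p e (la_fl e σ)]
    unfold la_fl
    rw [la_we_update, Function.update_self]
    rcases hb : σ e with _ | _
    · have h2 : Function.update σ e false = σ := by rw [← hb]; exact Function.update_eq_self _ _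
      rw [h2]
      simp only [Bool.false_eq_true, if_false, Bool.not_false, if_true]
      ring
    · have h2 : Function.update σ e true = σ := by rw [← hb]; exact Function.update_eq_self _ _
      rw [h2]
      simp only [Bool.false_eq_true, if_false, Bool.not_true, if_true]
      ring
  have h2 : 2 * Ep n p (fun σ => p * f (Function.update σ e true) +
      (1 - p) * f (Function.update σ e false)) = 2 * Ep n p f := by
    rw [h1, h1]
    refine Finset.sum_congr rfl fun σ _ => ?_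
    simp only [Function.update_idem]
    ring
  linarith

/-- The union of two independent configurations. -/
theorem Ep_cup (n : ℕ) (p q : ℝ) (f : Cfg n → ℝ) :
    Ep n p (fun σ => Ep n q (fun τ => f (cup σ τ))) = Ep n (p + q - p * q) f := by
  have h1 : ∀ σ τ : Cfg n, f (cup σ τ) =
      ∑ u : Cfg n, (∏ e, if (σ e || τ e) = u e then (1 : ℝ) else 0) * f u := by
    intro σ τ
    rw [Finset.sum_eq_single (cup σ τ)]
    · rw [Finset.prod_congr rfl (g := fun _ => (1 : ℝ)), Finset.prod_const_one, one_mul]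
      intro e _
      exact if_pos rfl
    · intro u _ hu
      obtain ⟨e, he⟩ := Function.ne_iff.1 hu
      rw [Finset.prod_eq_zero (mem_univ e), zero_mul]
      exact if_neg fun h => he h.symm
    · intro h
      exact absurd (mem_univ _) h
  have h2 : ∀ u : Cfg n, ∑ σ : Cfg n, ∑ τ : Cfg n, la_w n p σ * (la_w n q τ *
      ∏ e, if (σ e || τ e) = u e then (1 : ℝ) else 0) = la_w n (p + q - p * q) u := by
    intro u
    have h3 : ∀ σ τ : Cfg n, la_w n p σ * (la_w n q τ *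
        ∏ e, if (σ e || τ e) = u e then (1 : ℝ) else 0) =
        ∏ e, ((if σ e = true then p else 1 - p) * ((if τ e = true then q else 1 - q) *
          (if (σ e || τ e) = u e then (1 : ℝ) else 0))) := by
      intro σ τ
      unfold la_w
      rw [Finset.prod_mul_distrib, Finset.prod_mul_distrib]
    have h4 : ∀ σ : Cfg n, ∑ τ : Cfg n, la_w n p σ * (la_w n q τ *
        ∏ e, if (σ e || τ e) = u e then (1 : ℝ) else 0) = ∏ e,
        ((if σ e = true then p else 1 - p) * (q * (if (σ e || true) = u e then (1 : ℝ) else 0)) +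
          (if σ e = true then p else 1 - p) *
            ((1 - q) * (if (σ e || false) = u e then (1 : ℝ) else 0))) := by
      intro σ
      rw [Finset.sum_congr rfl fun τ _ => h3 σ τ]
      have h5 := la_fub n (fun e b => (if σ e = true then p else 1 - p) *
        ((if b = true then q else 1 - q) * (if (σ e || b) = u e then (1 : ℝ) else 0)))
      simp only [if_true, Bool.false_eq_true, if_false] at h5
      exact h5
    rw [Finset.sum_congr rfl fun σ _ => h4 σ]
    have h6 := la_fub n (fun e a =>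
      (if a = true then p else 1 - p) * (q * (if (a || true) = u e then (1 : ℝ) else 0)) +
          (if a = true then p else 1 - p) *
            ((1 - q) * (if (a || false) = u e then (1 : ℝ) else 0)))
    rw [h6]
    unfold la_w
    refine Finset.prod_congr rfl fun e _ => ?_
    rcases u e with _ | _
    · simp only [Bool.or_true, Bool.or_false, if_true, Bool.false_eq_true, if_false,
        Bool.true_eq_false]
      ring
    · simp only [Bool.or_true, Bool.or_false, if_true, Bool.false_eq_true, if_false]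
      ring
  rw [la_Ep, la_Ep]
  simp only [la_Ep]
  calc ∑ σ : Cfg n, la_w n p σ * ∑ τ : Cfg n, la_w n q τ * f (cup σ τ)
      = ∑ σ : Cfg n, ∑ τ : Cfg n, ∑ u : Cfg n, la_w n p σ * (la_w n q τ *
          ∏ e, if (σ e || τ e) = u e then (1 : ℝ) else 0) * f u := by
        refine Finset.sum_congr rfl fun σ _ => ?_
        rw [Finset.mul_sum]
        refine Finset.sum_congr rfl fun τ _ => ?_
        rw [h1, Finset.mul_sum, Finset.mul_sum]
        refine Finset.sum_congr rfl fun u _ => ?_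
        ring
    _ = ∑ u : Cfg n, ∑ σ : Cfg n, ∑ τ : Cfg n, la_w n p σ * (la_w n q τ *
          ∏ e, if (σ e || τ e) = u e then (1 : ℝ) else 0) * f u := by
        rw [Finset.sum_congr rfl fun σ _ => Finset.sum_comm, Finset.sum_comm]
    _ = ∑ u : Cfg n, la_w n (p + q - p * q) u * f u := by
        refine Finset.sum_congr rfl fun u _ => ?_
        rw [← h2 u, Finset.sum_mul]
        refine Finset.sum_congr rfl fun σ _ => ?_
        rw [Finset.sum_mul]

/-- Monotonicity in the density. -/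
theorem Ep_mono_density (n : ℕ) (p q : ℝ) (hp : 0 ≤ p) (hpq : p ≤ q) (hq : q ≤ 1)
    (f : Cfg n → ℝ) (hf : ∀ σ τ : Cfg n, (∀ e, σ e = true → τ e = true) → f σ ≤ f τ) :
    Ep n p f ≤ Ep n q f := by
  rcases eq_or_lt_of_le (hpq.trans hq) with h1 | h1
  · have h2 : q = p := by linarith
    rw [h2]
  · have h2 : 0 < 1 - p := by linarith
    have hr0 : 0 ≤ (q - p) / (1 - p) := div_nonneg (by linarith) h2.le
    have hr1 : (q - p) / (1 - p) ≤ 1 := by
      rw [div_le_one h2]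
      linarith
    have hr : p + (q - p) / (1 - p) - p * ((q - p) / (1 - p)) = q := by
      field_simp
      ring
    have h3 := Ep_cup n p ((q - p) / (1 - p)) f
    rw [hr] at h3
    rw [← h3]
    refine Ep_mono n p hp (by linarith) _ _ fun σ => ?_
    calc f σ = Ep n ((q - p) / (1 - p)) (fun _ => f σ) := (Ep_const _ _ _).symm
      _ ≤ _ := Ep_mono n _ hr0 hr1 _ _ fun τ => hf _ _ fun e he => by
          unfold cup
          rw [he, Bool.true_or]

/-- Complement. -/
theorem Ep_compl (n : ℕ) (p : ℝ) (f : Cfg n → ℝ) :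
    Ep n p (fun σ => f (fun e => !σ e)) = Ep n (1 - p) f := by
  have hinv : Function.Involutive (fun (σ : Cfg n) e => !σ e) := by
    intro σ
    funext e
    exact Bool.not_not _
  have h0 := Equiv.sum_comp (Function.Involutive.toPerm _ hinv)
    (fun σ : Cfg n => la_w n (1 - p) σ * f σ)
  rw [la_Ep, la_Ep, ← h0]
  refine Finset.sum_congr rfl fun σ _ => ?_
  have h : la_w n p σ = la_w n (1 - p) (fun e => !σ e) := by
    unfold la_w
    refine Finset.prod_congr rfl fun e _ => ?_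
    by_cases hb : σ e = true
    · simp [hb]
    · simp [hb]
  rw [h]
  rfl

theorem Pp_nonneg (n : ℕ) (p : ℝ) (hp : 0 ≤ p) (hp1 : p ≤ 1) (P : Cfg n → Prop) :
    0 ≤ Pp n p P := by
  unfold Pp
  refine Ep_nonneg n p hp hp1 _ fun σ => ?_
  split_ifs
  · exact zero_le_one
  · exact le_rfl

theorem Pp_mono (n : ℕ) (p : ℝ) (hp : 0 ≤ p) (hp1 : p ≤ 1) (P Q : Cfg n → Prop)
    (h : ∀ σ, P σ → Q σ) : Pp n p P ≤ Pp n p Q := by
  unfold Pp
  refine Ep_mono n p hp hp1 _ _ fun σ => ?_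
  by_cases hP : P σ
  · rw [if_pos hP, if_pos (h σ hP)]
  · rw [if_neg hP]
    split_ifs
    · exact zero_le_one
    · exact le_rfl

theorem Pp_le_one (n : ℕ) (p : ℝ) (hp : 0 ≤ p) (hp1 : p ≤ 1) (P : Cfg n → Prop) :
    Pp n p P ≤ 1 := by
  have h := Pp_mono n p hp hp1 P (fun _ => True) (fun _ _ => trivial)
  have h2 : Pp n p (fun _ => True) = 1 := by
    unfold Pp
    simp only [if_true]
    exact Ep_const n p 1
  rw [h2] at h
  exact h

theorem Pp_not (n : ℕ) (p : ℝ) (P : Cfg n → Prop) : Pp n p (fun σ => ¬ P σ) = 1 - Pp n p P := by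
  unfold Pp
  rw [← Ep_const n p 1, ← Ep_sub, Ep_const]
  congr 1
  funext σ
  by_cases h : P σ
  · rw [if_pos h, if_neg (not_not.2 h), sub_self]
  · rw [if_neg h, if_pos h, sub_zero]

theorem Pp_or_le (n : ℕ) (p : ℝ) (hp : 0 ≤ p) (hp1 : p ≤ 1) (P Q : Cfg n → Prop) :
    Pp n p (fun σ => P σ ∨ Q σ) ≤ Pp n p P + Pp n p Q := by
  unfold Pp
  rw [← Ep_add]
  refine Ep_mono n p hp hp1 _ _ fun σ => ?_
  by_cases h : P σ
  · rw [if_pos (Or.inl h), if_pos h]
    split_ifs <;> norm_num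
  · by_cases h2 : Q σ
    · rw [if_pos (Or.inr h2), if_neg h, if_pos h2, zero_add]
    · rw [if_neg (not_or.2 ⟨h, h2⟩), if_neg h, if_neg h2, zero_add]

theorem Pp_and_ge (n : ℕ) (p : ℝ) (hp : 0 ≤ p) (hp1 : p ≤ 1) (P Q : Cfg n → Prop) :
    Pp n p P + Pp n p Q - 1 ≤ Pp n p (fun σ => P σ ∧ Q σ) := by
  have h1 : Pp n p (fun σ => ¬ (P σ ∧ Q σ)) = 1 - Pp n p (fun σ => P σ ∧ Q σ) :=
    Pp_not n p _
  have h2 : Pp n p (fun σ => ¬ (P σ ∧ Q σ)) ≤ Pp n p (fun σ => ¬ P σ ∨ ¬ Q σ) :=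
    Pp_mono n p hp hp1 _ _ (fun σ => not_and_or.1)
  have h3 : Pp n p (fun σ => ¬ P σ ∨ ¬ Q σ) ≤ Pp n p (fun σ => ¬ P σ) + Pp n p (fun σ => ¬ Q σ) :=
    Pp_or_le n p hp hp1 _ _
  have h4 := Pp_not n p P
  have h5 := Pp_not n p Q
  linarith

/-- Markov's inequality. -/
theorem Pp_markov (n : ℕ) (p : ℝ) (hp : 0 ≤ p) (hp1 : p ≤ 1) (f : Cfg n → ℝ)
    (hf : ∀ σ, 0 ≤ f σ) (c : ℝ) (hc : 0 < c) :
    Pp n p (fun σ => c < f σ) ≤ Ep n p f / c := by
  unfold Pp
  rw [← Ep_div]
  refine Ep_mono n p hp hp1 _ _ fun σ => ?_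
  by_cases h : c < f σ
  · rw [if_pos h, le_div_iff₀ hc, one_mul]
    exact h.le
  · rw [if_neg h]
    exact div_nonneg (hf σ) hc.le

theorem Pp_mono_density (n : ℕ) (p q : ℝ) (hp : 0 ≤ p) (hpq : p ≤ q) (hq : q ≤ 1)
    (P : Cfg n → Prop) (hP : ∀ σ τ : Cfg n, (∀ e, σ e = true → τ e = true) → P σ → P τ) :
    Pp n p P ≤ Pp n q P := by
  unfold Pp
  refine Ep_mono_density n p q hp hpq hq _ fun σ τ h => ?_
  by_cases h1 : P σ
  · rw [if_pos h1, if_pos (hP σ τ h h1)]
  · rw [if_neg h1]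
    split_ifs
    · exact zero_le_one
    · exact le_rfl

theorem om_diag (p : ℝ) {n : ℕ} (σ : Cfg n) (i : Fin n) : om p σ s(i, i) = 0 := by
  unfold om
  rw [if_pos (Sym2.mk_isDiag_iff.2 rfl)]

theorem la_sq1 (p : ℝ) (_hp : 0 < p) (hp1 : p < 1) : √((1 - p) / p) = √(1 - p) / √p :=
  Real.sqrt_div (by linarith) p

theorem la_sq2 (p : ℝ) (hp : 0 < p) : √(p / (1 - p)) = √p / √(1 - p) :=
  Real.sqrt_div hp.le (1 - p)

theorem om_sq (p : ℝ) (hp : 0 < p) (hp1 : p < 1) {n : ℕ} (σ : Cfg n) (e : Sym2 (Fin n))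
    (he : ¬ e.IsDiag) : om p σ e ^ 2 = 1 + bb p * om p σ e := by
  unfold om bb
  rw [if_neg he, la_sq1 p hp hp1, la_sq2 p hp, Real.sqrt_mul hp.le]
  have ha : 0 < √p := Real.sqrt_pos.2 hp
  have hb : 0 < √(1 - p) := Real.sqrt_pos.2 (by linarith)
  have ha2 : √p ^ 2 = p := Real.sq_sqrt hp.le
  have hb2 : √(1 - p) ^ 2 = 1 - p := Real.sq_sqrt (by linarith)
  have hp' : (1 : ℝ) - p ≠ 0 := by linarith
  split_ifs
  · have h1 : (1 - 2 * p) / (√p * √(1 - p)) * (√(1 - p) / √p) = (1 - 2 * p) / √p ^ 2 := by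
      field_simp
    rw [h1, div_pow, ha2, hb2]
    field_simp
    ring
  · have h1 : (1 - 2 * p) / (√p * √(1 - p)) * (-(√p / √(1 - p))) =
        -((1 - 2 * p) / √(1 - p) ^ 2) := by
      field_simp
    rw [h1, neg_sq, div_pow, ha2, hb2]
    field_simp
    ring

theorem la_om_nd (p : ℝ) {n : ℕ} (σ : Cfg n) (e : Sym2 (Fin n)) (he : ¬ e.IsDiag) :
    om p σ e = if σ e = true then √((1 - p) / p) else -√(p / (1 - p)) := by
  unfold om
  rw [if_neg he]

/-- Orthonormality of the products of the edge variables. -/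
theorem Ep_om (n : ℕ) (p : ℝ) (hp : 0 < p) (hp1 : p < 1) (S T : Finset (Sym2 (Fin n)))
    (hS : ∀ e ∈ S, ¬ e.IsDiag) (hT : ∀ e ∈ T, ¬ e.IsDiag) :
    Ep n p (fun σ => (∏ e ∈ S, om p σ e) * ∏ e ∈ T, om p σ e) = if S = T then 1 else 0 := by
  have ha : 0 < √p := Real.sqrt_pos.2 hp
  have hb : 0 < √(1 - p) := Real.sqrt_pos.2 (by linarith)
  have ha2 : √p ^ 2 = p := Real.sq_sqrt hp.le
  have hb2 : √(1 - p) ^ 2 = 1 - p := Real.sq_sqrt (by linarith)
  have h1 : ∀ (U : Finset (Sym2 (Fin n))), (∀ e ∈ U, ¬ e.IsDiag) → ∀ σ : Cfg n,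
      ∏ e ∈ U, om p σ e = ∏ e, if σ e = true then (if e ∈ U then √((1 - p) / p) else 1)
        else (if e ∈ U then -√(p / (1 - p)) else 1) := by
    intro U hU σ
    have h2 : ∏ e ∈ U, om p σ e = ∏ e, if e ∈ U then om p σ e else 1 := by
      rw [Finset.prod_ite_mem, Finset.univ_inter]
    rw [h2]
    refine Finset.prod_congr rfl fun e _ => ?_
    by_cases he : e ∈ U
    · simp only [he, if_true]
      exact la_om_nd p σ e (hU e he)
    · simp only [he, if_false, ite_self]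
  have h3 : ∀ σ : Cfg n, (∏ e ∈ S, om p σ e) * ∏ e ∈ T, om p σ e = ∏ e, if σ e = true then
      (if e ∈ S then √((1 - p) / p) else 1) * (if e ∈ T then √((1 - p) / p) else 1) else
      (if e ∈ S then -√(p / (1 - p)) else 1) * (if e ∈ T then -√(p / (1 - p)) else 1) := by
    intro σ
    rw [h1 S hS σ, h1 T hT σ, ← Finset.prod_mul_distrib]
    refine Finset.prod_congr rfl fun e _ => ?_
    split_ifs <;> rfl
  have h4 : Ep n p (fun σ => (∏ e ∈ S, om p σ e) * ∏ e ∈ T, om p σ e) =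
      ∏ e, (p * ((if e ∈ S then √((1 - p) / p) else 1) * (if e ∈ T then √((1 - p) / p) else 1)) +
        (1 - p) * ((if e ∈ S then -√(p / (1 - p)) else 1) *
          (if e ∈ T then -√(p / (1 - p)) else 1))) := by
    rw [← Ep_prod]
    exact congrArg (Ep n p) (funext h3)
  have e0 : p * √((1 - p) / p) + (1 - p) * -√(p / (1 - p)) = 0 := by
    rw [la_sq1 p hp hp1, la_sq2 p hp]
    have e1 : p * (√(1 - p) / √p) = √p * √(1 - p) := by
      nth_rewrite 1 [← ha2]
      field_simp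
    have e2 : (1 - p) * -(√p / √(1 - p)) = -(√p * √(1 - p)) := by
      nth_rewrite 1 [← hb2]
      field_simp
    rw [e1, e2]
    ring
  have e1 : p * (√((1 - p) / p) * √((1 - p) / p)) +
      (1 - p) * (-√(p / (1 - p)) * -√(p / (1 - p))) = 1 := by
    have f1 : √((1 - p) / p) * √((1 - p) / p) = (1 - p) / p :=
      Real.mul_self_sqrt (div_nonneg (by linarith) hp.le)
    have f2 : √(p / (1 - p)) * √(p / (1 - p)) = p / (1 - p) :=
      Real.mul_self_sqrt (div_nonneg hp.le (by linarith))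
    have hp' : (1 : ℝ) - p ≠ 0 := by linarith
    rw [neg_mul_neg, f1, f2]
    field_simp
    ring
  rw [h4]
  by_cases hST : S = T
  · rw [if_pos hST, hST]
    refine Finset.prod_eq_one fun e _ => ?_
    split_ifs
    · exact e1
    · ring
  · rw [if_neg hST]
    have h5 : ∃ e, ¬ (e ∈ S ↔ e ∈ T) := by
      by_contra hcon
      push Not at hcon
      exact hST (Finset.ext hcon)
    obtain ⟨e, he⟩ := h5
    refine Finset.prod_eq_zero (mem_univ e) ?_
    by_cases g1 : e ∈ S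
    · have g2 : e ∉ T := fun g2 => he ⟨fun _ => g2, fun _ => g1⟩
      rw [if_pos g1, if_pos g1, if_neg g2, if_neg g2, mul_one, mul_one]
      exact e0
    · have g2 : e ∈ T := by
        by_contra g2
        exact he ⟨fun h => absurd h g1, fun h => absurd h g2⟩
      rw [if_neg g1, if_neg g1, if_pos g2, if_pos g2, one_mul, one_mul]
      exact e0

end Pool.Agent.H276R2.Gn
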