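import Pool.Agent.H276R2.Gn.LibA

/-!
# Library B: matrix facts
-/

set_option autoImplicit false

namespace Pool.Agent.H276R2.Gn

open Finset Real

theorem fro_nonneg {n : ℕ} (X : Mat n) : 0 ≤ fro X :=
  sum_nonneg fun _ _ => sum_nonneg fun _ _ => sq_nonneg _

theorem fro_add_le {n : ℕ} (X Y : Mat n) : fro (X + Y) ≤ 2 * fro X + 2 * fro Y := by
  unfold fro
  rw [mul_sum, mul_sum, ← sum_add_distrib]
  apply sum_le_sum
  intro i _
  rw [mul_sum, mul_sum, ← sum_add_distrib]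
  apply sum_le_sum
  intro j _
  rw [Matrix.add_apply]
  nlinarith [sq_nonneg (X i j - Y i j)]

theorem fro_smul {n : ℕ} (c : ℝ) (X : Mat n) : fro (c • X) = c ^ 2 * fro X := by
  unfold fro
  rw [mul_sum]
  apply sum_congr rfl
  intro i _
  rw [mul_sum]
  apply sum_congr rfl
  intro j _
  rw [Matrix.smul_apply, smul_eq_mul, mul_pow]

theorem fro_sum_le {n : ℕ} {ι : Type} (s : Finset ι) (X : ι → Mat n) :
    fro (∑ i ∈ s, X i) ≤ #s * ∑ i ∈ s, fro (X i) := by
  unfold fro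
  have h : ∀ i j, (∑ k ∈ s, X k) i j ^ 2 ≤ #s * ∑ k ∈ s, X k i j ^ 2 := by
    intro i j
    rw [Matrix.sum_apply]
    exact sq_sum_le_card_mul_sum_sq
  calc ∑ i, ∑ j, (∑ k ∈ s, X k) i j ^ 2 ≤ ∑ i, ∑ j, #s * ∑ k ∈ s, X k i j ^ 2 :=
        sum_le_sum fun i _ => sum_le_sum fun j _ => h i j
    _ = #s * ∑ k ∈ s, ∑ i, ∑ j, X k i j ^ 2 := by
        simp_rw [← mul_sum]
        congr 1
        have e1 : ∑ k ∈ s, ∑ i, ∑ j, X k i j ^ 2 = ∑ i, ∑ k ∈ s, ∑ j, X k i j ^ 2 := sum_comm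
        rw [e1]
        apply sum_congr rfl
        intro i _
        exact sum_comm

theorem fro_eq_trace {n : ℕ} (X : Mat n) : fro X = (X * X.transpose).trace := by
  unfold fro Matrix.trace
  apply sum_congr rfl
  intro i _
  rw [Matrix.diag_apply, Matrix.mul_apply]
  apply sum_congr rfl
  intro j _
  rw [Matrix.transpose_apply, sq]

theorem fro_sym {n : ℕ} (X : Mat n) (h : X.transpose = X) : fro X = (X ^ 2).trace := by
  rw [fro_eq_trace, h, sq]

theorem lb_fro_transpose {n : ℕ} (X : Mat n) : fro X = ∑ i, ∑ j, X j i ^ 2 := by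
  unfold fro
  rw [sum_comm]

theorem sq_trace_mul_le {n : ℕ} (X Y : Mat n) : ((X * Y).trace) ^ 2 ≤ fro X * fro Y := by
  rw [lb_fro_transpose Y]
  unfold fro Matrix.trace
  have h1 : ∑ i, (X * Y).diag i = ∑ p : Fin n × Fin n, X p.1 p.2 * Y p.2 p.1 := by
    rw [Fintype.sum_prod_type]
    apply sum_congr rfl
    intro i _
    rw [Matrix.diag_apply, Matrix.mul_apply]
  have h2 : ∑ i, ∑ j, X i j ^ 2 = ∑ p : Fin n × Fin n, X p.1 p.2 ^ 2 := by
    rw [Fintype.sum_prod_type]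
  have h3 : ∑ i, ∑ j, Y j i ^ 2 = ∑ p : Fin n × Fin n, Y p.2 p.1 ^ 2 := by
    rw [Fintype.sum_prod_type]
  rw [h1, h2, h3]
  exact Finset.sum_mul_sq_le_sq_mul_sq _ _ _

theorem fro_diag_le {n : ℕ} (X : Mat n) : ∑ i, X i i ^ 2 ≤ fro X := by
  unfold fro
  apply sum_le_sum
  intro i _
  exact single_le_sum (f := fun j => X i j ^ 2) (fun j _ => sq_nonneg _) (mem_univ i)

theorem sq_trace_le {n : ℕ} (X : Mat n) : X.trace ^ 2 ≤ n * fro X := by
  have h1 : X.trace ^ 2 ≤ n * ∑ i, X i i ^ 2 := by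
    have := sq_sum_le_card_mul_sum_sq (s := (univ : Finset (Fin n))) (f := fun i => X i i)
    rw [card_univ, Fintype.card_fin] at this
    exact this
  exact h1.trans (mul_le_mul_of_nonneg_left (fro_diag_le X) (Nat.cast_nonneg n))

/-- Expectation of a trace of a product. -/
theorem Ep_trace_mul_le (n : ℕ) (p : ℝ) (hp : 0 ≤ p) (hp1 : p ≤ 1) (X Y : Cfg n → Mat n) :
    (Ep n p (fun σ => (X σ * Y σ).trace)) ^ 2 ≤
      Ep n p (fun σ => fro (X σ)) * Ep n p (fun σ => fro (Y σ)) := by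
  have h1 := Ep_cs n p hp hp1 (fun σ => √(fro (X σ))) (fun σ => √(fro (Y σ)))
  have e1 : (fun σ => √(fro (X σ)) ^ 2) = fun σ => fro (X σ) := by
    funext σ
    exact Real.sq_sqrt (fro_nonneg _)
  have e2 : (fun σ => √(fro (Y σ)) ^ 2) = fun σ => fro (Y σ) := by
    funext σ
    exact Real.sq_sqrt (fro_nonneg _)
  rw [e1, e2] at h1
  refine le_trans ?_ h1
  rw [sq_le_sq, abs_of_nonneg (Ep_nonneg n p hp hp1 (fun σ => √(fro (X σ)) * √(fro (Y σ)))
    (fun σ => by positivity))]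
  refine (abs_Ep_le n p hp hp1 _).trans (Ep_mono n p hp hp1 _ _ ?_)
  intro σ
  rw [← Real.sqrt_mul (fro_nonneg _)]
  exact Real.abs_le_sqrt (sq_trace_mul_le _ _)

theorem aeval_transpose {n : ℕ} (G : Mat n) (hG : G.transpose = G) (P : Polynomial ℝ) :
    (Polynomial.aeval G P).transpose = Polynomial.aeval G P := by
  rw [Polynomial.aeval_eq_sum_range, Matrix.transpose_sum]
  apply sum_congr rfl
  intro i _
  rw [Matrix.transpose_smul, Matrix.transpose_pow, hG]

theorem lb_quad {n : ℕ} (M : Mat n) (x : Fin n → ℝ) :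
    ∑ i, ∑ j, x i * M i j * x j = star x ⬝ᵥ (M.mulVec x) := by
  simp only [dotProduct, Matrix.mulVec, mul_sum, star_trivial, mul_assoc]

theorem lb_Psd_univ {n : ℕ} (M : Mat n) : Psd univ M ↔ ∀ x : Fin n → ℝ,
    0 ≤ ∑ i, ∑ j, x i * M i j * x j :=
  ⟨fun h x => h x (fun i hi => absurd (mem_univ i) hi), fun h x _ => h x⟩

theorem lb_Psd_univ_iff {n : ℕ} (M : Mat n) (hM : M.transpose = M) :
    Psd univ M ↔ M.PosSemidef := by
  rw [lb_Psd_univ, Matrix.posSemidef_iff_dotProduct_mulVec]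
  have h : M.IsHermitian := by
    rw [Matrix.IsHermitian, Matrix.conjTranspose_eq_transpose_of_trivial]
    exact hM
  constructor
  · intro h1
    exact ⟨h, fun x => by rw [← lb_quad]; exact h1 x⟩
  · intro h1 x
    rw [lb_quad]
    exact h1.2 x

open scoped MatrixOrder in
/-- A polynomial which is nonnegative on the real line gives a positive semidefinite matrix. -/
theorem psd_aeval {n : ℕ} (G : Mat n) (hG : G.transpose = G) (P : Polynomial ℝ)
    (hP : ∀ x : ℝ, 0 ≤ P.eval x) : Psd univ (Polynomial.aeval G P) := by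
  have hsa : IsSelfAdjoint G := by
    rw [IsSelfAdjoint, Matrix.star_eq_conjTranspose, Matrix.conjTranspose_eq_transpose_of_trivial]
    exact hG
  have h2 : 0 ≤ Polynomial.aeval G P := by
    rw [← cfc_polynomial P G hsa]
    exact cfc_nonneg (fun x _ => hP x)
  exact (lb_Psd_univ_iff _ (aeval_transpose G hG P)).2 (Matrix.nonneg_iff_posSemidef.1 h2)

theorem Psd_univ_iff {n : ℕ} (M : Mat n) (hM : M.transpose = M) : Psd univ M ↔ M.PosSemidef :=
  lb_Psd_univ_iff M hM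

theorem Psd_mono {n : ℕ} {U V : Finset (Fin n)} (h : U ⊆ V) {M : Mat n} (hM : Psd V M) :
    Psd U M := fun x hx => hM x (fun i hi => hx i (fun hu => hi (h hu)))

theorem Psd_add {n : ℕ} {U : Finset (Fin n)} {M N : Mat n} (hM : Psd U M) (hN : Psd U N) :
    Psd U (M + N) := by
  intro x hx
  have h1 := hM x hx
  have h2 := hN x hx
  have h3 : ∑ i, ∑ j, x i * (M + N) i j * x j =
      (∑ i, ∑ j, x i * M i j * x j) + ∑ i, ∑ j, x i * N i j * x j := by
    simp only [Matrix.add_apply, mul_add, add_mul, sum_add_distrib]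
  rw [h3]
  exact add_nonneg h1 h2

/-- The quadratic form of a matrix of Frobenius norm at most `c`. -/
theorem Psd_of_fro {n : ℕ} (Y : Mat n) (c : ℝ) (hc : 0 ≤ c) (h : fro Y ≤ c ^ 2) :
    Psd univ (c • (1 : Mat n) + Y) := by
  intro x _
  have h3 : ∑ i, ∑ j, x i * (c • (1 : Mat n) + Y) i j * x j =
      c * (∑ i, x i ^ 2) + ∑ i, ∑ j, x i * Y i j * x j := by
    simp only [Matrix.add_apply, mul_add, add_mul, sum_add_distrib]
    congr 1
    rw [mul_sum]
    apply sum_congr rfl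
    intro i _
    rw [Finset.sum_eq_single i]
    · rw [Matrix.smul_apply, Matrix.one_apply_eq, smul_eq_mul]
      ring
    · intro j _ hj
      rw [Matrix.smul_apply, Matrix.one_apply_ne (Ne.symm hj), smul_zero]
      ring
    · intro hi
      exact absurd (mem_univ i) hi
  rw [h3]
  have h4 : (∑ i, ∑ j, x i * Y i j * x j) ^ 2 ≤ (c * ∑ i, x i ^ 2) ^ 2 := by
    have e1 : ∑ i, ∑ j, x i * Y i j * x j = ∑ p : Fin n × Fin n, (x p.1 * x p.2) * Y p.1 p.2 := by
      rw [Fintype.sum_prod_type]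
      apply sum_congr rfl
      intro i _
      apply sum_congr rfl
      intro j _
      ring
    have e2 : fro Y = ∑ p : Fin n × Fin n, Y p.1 p.2 ^ 2 := by
      rw [Fintype.sum_prod_type]
      rfl
    have e3 : (∑ i, x i ^ 2) ^ 2 = ∑ p : Fin n × Fin n, (x p.1 * x p.2) ^ 2 := by
      rw [Fintype.sum_prod_type, sq, sum_mul_sum]
      apply sum_congr rfl
      intro i _
      apply sum_congr rfl
      intro j _
      ring
    rw [e1]
    refine (Finset.sum_mul_sq_le_sq_mul_sq _ _ _).trans ?_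
    rw [← e2, ← e3, mul_pow, mul_comm]
    exact mul_le_mul_of_nonneg_right h (sq_nonneg _)
  have h5 : 0 ≤ c * ∑ i, x i ^ 2 := mul_nonneg hc (sum_nonneg fun i _ => sq_nonneg _)
  have h6 := abs_le_of_sq_le_sq h4 h5
  have h7 := (abs_le.1 h6).1
  linarith

/-- `k + x ^ 4 / k ^ 3 ≥ |x|`. -/
theorem Psd_pow_four {n : ℕ} (N : Mat n) (hN : N.transpose = N) (k : ℝ) (hk : 0 < k) :
    Psd univ (k • (1 : Mat n) + (1 / k ^ 3) • N ^ 4 - N) := by
  have h := psd_aeval N hN (Polynomial.C k + Polynomial.C (1 / k ^ 3) * Polynomial.X ^ 4 -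
    Polynomial.X) (by
      intro x
      simp only [Polynomial.eval_sub, Polynomial.eval_add, Polynomial.eval_C, Polynomial.eval_mul,
        Polynomial.eval_pow, Polynomial.eval_X]
      have e : k + 1 / k ^ 3 * x ^ 4 - x =
          k * (((x / k) ^ 2 - 1 / 2) ^ 2 + (x / k - 1 / 2) ^ 2 + 1 / 2) := by
        field_simp
        ring
      rw [e]
      positivity)
  have e : Polynomial.aeval N (Polynomial.C k + Polynomial.C (1 / k ^ 3) * Polynomial.X ^ 4 -
    Polynomial.X) = k • (1 : Mat n) + (1 / k ^ 3) • N ^ 4 - N := by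
    simp only [map_sub, map_add, map_mul, Polynomial.aeval_C, map_pow, Polynomial.aeval_X,
      Algebra.algebraMap_eq_smul_one, smul_mul_assoc, one_mul]
  rw [e] at h
  exact h

theorem fro_pow_four {n : ℕ} (N : Mat n) (hN : N.transpose = N) : fro (N ^ 4) = (N ^ 8).trace := by
  rw [fro_sym _ (by rw [Matrix.transpose_pow, hN]), ← pow_mul]

theorem Tm_add (p : ℝ) {n : ℕ} (σ : Cfg n) (X Y : Mat n) :
    Tm p σ (X + Y) = Tm p σ X + Tm p σ Y := by
  ext i j
  simp only [Tm, Matrix.of_apply, Matrix.add_apply, mul_add]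

theorem Tm_sub (p : ℝ) {n : ℕ} (σ : Cfg n) (X Y : Mat n) :
    Tm p σ (X - Y) = Tm p σ X - Tm p σ Y := by
  ext i j
  simp only [Tm, Matrix.of_apply, Matrix.sub_apply, mul_sub]

theorem Tm_smul (p : ℝ) {n : ℕ} (σ : Cfg n) (c : ℝ) (X : Mat n) :
    Tm p σ (c • X) = c • Tm p σ X := by
  ext i j
  simp only [Tm, Matrix.of_apply, Matrix.smul_apply, smul_eq_mul]
  ring

theorem Tm_sum (p : ℝ) {n : ℕ} (σ : Cfg n) {ι : Type} (s : Finset ι) (X : ι → Mat n) :
    Tm p σ (∑ i ∈ s, X i) = ∑ i ∈ s, Tm p σ (X i) := by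
  ext i j
  simp only [Tm, Matrix.of_apply, Matrix.sum_apply, mul_sum]

theorem Tm_transpose (p : ℝ) {n : ℕ} (σ : Cfg n) (X : Mat n) :
    (Tm p σ X).transpose = Tm p σ X.transpose := by
  ext i j
  simp only [Tm, Matrix.of_apply, Matrix.transpose_apply]
  rw [Sym2.eq_swap]

theorem Tm_Jn (p : ℝ) {n : ℕ} (σ : Cfg n) : Tm p σ (Jn n) = Wn p σ := by
  ext i j
  simp only [Tm, Jn, Wn, Matrix.of_apply]
  rw [mul_one_div]

theorem Wn_transpose (p : ℝ) {n : ℕ} (σ : Cfg n) : (Wn p σ).transpose = Wn p σ := by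
  ext i j
  simp only [Wn, Matrix.of_apply, Matrix.transpose_apply]
  rw [Sym2.eq_swap]

end Pool.Agent.H276R2.Gn
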