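import Pool.Agent.H276R2.Gn.LibB

/-!
# Library C: structural facts on chains, their chaoses and on `BadF`
(task LC1: chains and `Fc`; task LC2 = file LibD: closure properties of `BadF`)
-/

set_option autoImplicit false

namespace Pool.Agent.H276R2.Gn

open Finset Real

theorem Chn.ext' {B B' : Chn} (hL : B.L = B'.L) (hE : B.E = B'.E) : B = B' := by
  cases B; cases B'; simp_all

theorem cat_nil (B : Chn) : B.cat Chn.nil = B := by
  apply Chn.ext'
  · simp [Chn.cat, Chn.nil]
  · simp [Chn.cat, Chn.nil]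

theorem cat_assoc (B₁ B₂ B₃ : Chn) : (B₁.cat B₂).cat B₃ = B₁.cat (B₂.cat B₃) := by
  apply Chn.ext'
  · simp [Chn.cat, add_assoc]
  · simp only [Chn.cat]
    rw [Finset.image_union, Finset.union_assoc, Finset.image_image]
    congr 2
    apply Finset.image_congr
    intro e _
    simp only [Function.comp_apply, Prod.mk.injEq]
    omega

theorem catF_succ (r : ℕ) (f : Fin (r + 1) → Chn) :
    catF (r + 1) f = (f 0).cat (catF r (fun i => f i.succ)) := rfl

theorem leaf_IsTr : Chn.leaf.IsTr := by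
  refine ⟨Nat.zero_lt_one, ?_⟩
  simp [Chn.leaf]

theorem cap_IsTr (B : Chn) (h : 0 < B.L) : (B.cap h).IsTr :=
  ⟨h, Finset.mem_insert_self _ _⟩

theorem catF_pos (r : ℕ) (f : Fin (r + 1) → Chn) (hf : ∀ i, (f i).IsTr) :
    0 < (catF (r + 1) f).L := by
  rw [catF_succ]
  have := (hf 0).1
  simp only [Chn.cat]
  omega

/-- A concatenation of at least two trees does not contain the edge between its ends. -/
theorem catF_no_root (r : ℕ) (f : Fin (r + 2) → Chn) (hf : ∀ i, (f i).IsTr) :
    (0, (catF (r + 2) f).L) ∉ (catF (r + 2) f).E := by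
  rw [catF_succ]
  have h0 := (hf 0).1
  have h1 := catF_pos r (fun i => f i.succ) (fun i => hf i.succ)
  intro h
  simp only [Chn.cat, Finset.mem_union, Finset.mem_image, Prod.mk.injEq] at h
  rcases h with h | ⟨e, he, h2, h3⟩
  · have := ((f 0).lt _ h).2
    simp only at this
    omega
  · omega

theorem shp_card (B : Chn) : Fintype.card B.shp.X = B.L + 1 := Fintype.card_fin (B.L + 1)

theorem lc_ofNat_val {L a : ℕ} (h : a ≤ L) : ((Fin.ofNat (L + 1) a : Fin (L + 1)) : ℕ) = a := by
  simp only [Fin.ofNat]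
  exact Nat.mod_eq_of_lt (by omega)

theorem lc_ofNat_coe {L : ℕ} (x : Fin (L + 1)) : Fin.ofNat (L + 1) (x : ℕ) = x := by
  apply Fin.ext
  exact lc_ofNat_val (by omega)

theorem lc_unit_mem (B : Chn) {a : ℕ} (h : a < B.L) :
    s(Fin.ofNat (B.L + 1) a, Fin.ofNat (B.L + 1) (a + 1)) ∈
      B.E.image (fun e => s(Fin.ofNat (B.L + 1) e.1, Fin.ofNat (B.L + 1) e.2)) :=
  Finset.mem_image.mpr ⟨(a, a + 1), B.unit a h, rfl⟩

theorem shp_iso (B : Chn) : B.shp.iso = 0 := by
  unfold Shp.iso
  rw [Finset.card_eq_zero, Finset.filter_eq_empty_iff]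
  rintro (x : Fin (B.L + 1)) - ⟨h0, -, h⟩
  have hx : 0 < (x : ℕ) := by
    rcases Nat.eq_zero_or_pos (x : ℕ) with h1 | h1
    · exact absurd (Fin.ext h1 : x = 0) h0
    · exact h1
  have hlt := x.isLt
  refine h _ (lc_unit_mem B (a := (x : ℕ) - 1) (by omega)) ?_
  rw [Nat.sub_add_cancel (by omega), lc_ofNat_coe]
  exact Sym2.mem_mk_right _ _

theorem shp_linked (B : Chn) : B.shp.Linked := by
  rintro (K : Finset (Fin (B.L + 1))) hs ht
  by_contra hcon
  push Not at hcon
  have key : ∀ a : ℕ, a ≤ B.L → Fin.ofNat (B.L + 1) a ∈ K := by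
    intro a
    induction a with
    | zero => intro _; exact hs
    | succ a ih =>
      intro ha
      by_contra hn
      exact hcon _ (ih (by omega)) _ hn (lc_unit_mem B (by omega))
  apply ht
  have h1 := key B.L le_rfl
  have h2 : Fin.ofNat (B.L + 1) B.L = Fin.last B.L := by
    apply Fin.ext
    rw [lc_ofNat_val le_rfl]
    rfl
  rw [h2] at h1
  exact h1

theorem lc_inj (B : Chn) : Set.InjOn (fun e : ℕ × ℕ =>
    s(Fin.ofNat (B.L + 1) e.1, Fin.ofNat (B.L + 1) e.2)) (B.E : Set (ℕ × ℕ)) := by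
  intro e he e' he' h
  have h1 := B.lt e (Finset.mem_coe.1 he)
  have h2 := B.lt e' (Finset.mem_coe.1 he')
  simp only [Sym2.eq_iff] at h
  rcases h with ⟨h3, h4⟩ | ⟨h3, h4⟩
  · have a1 := congrArg Fin.val h3
    have a2 := congrArg Fin.val h4
    rw [lc_ofNat_val (by omega), lc_ofNat_val (by omega)] at a1
    rw [lc_ofNat_val (by omega), lc_ofNat_val (by omega)] at a2
    exact Prod.ext a1 a2
  · have a1 := congrArg Fin.val h3
    have a2 := congrArg Fin.val h4
    rw [lc_ofNat_val (by omega), lc_ofNat_val (by omega)] at a1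
    rw [lc_ofNat_val (by omega), lc_ofNat_val (by omega)] at a2
    omega

theorem lc_ite {P Q : Prop} {iP : Decidable P} {iQ : Decidable Q} (h : P ↔ Q) {a b : ℝ}
    (hab : P → a = b) : (@ite ℝ P iP a 0) = @ite ℝ Q iQ b 0 := by
  by_cases hP : P
  · rw [if_pos hP, if_pos (h.1 hP), hab hP]
  · rw [if_neg hP, if_neg (fun hQ => hP (h.2 hQ))]

/-- The chaos of a chain is the shape sum of its shape. -/
theorem Fc_eq_Sh (p : ℝ) (B : Chn) (n : ℕ) (σ : Cfg n) : Fc p B n σ = Sh p B.shp B.L n σ := by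
  unfold Fc Sh
  ext i j
  simp only [Matrix.of_apply]
  congr 1
  refine Finset.sum_congr rfl fun v _ => ?_
  exact lc_ite Iff.rfl fun _ =>
    (Finset.prod_image (s := B.E) (f := fun e => om p σ (e.map v)) (lc_inj B)).symm

/-- Shape sums depend only on the isomorphism type. -/
theorem Sh_iso (p : ℝ) (H H' : Shp) (q : ℕ) (φ : H.X ≃ H'.X) (hs : φ H.s = H'.s)
    (ht : φ H.t = H'.t) (hE : H.E.image (Sym2.map φ) = H'.E) (n : ℕ) (σ : Cfg n) :
    Sh p H q n σ = Sh p H' q n σ := by
  unfold Sh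
  ext i j
  simp only [Matrix.of_apply]
  congr 1
  refine Fintype.sum_equiv (Equiv.arrowCongr φ (Equiv.refl (Fin n))) _ _ fun v => ?_
  have e1 : (Equiv.arrowCongr φ (Equiv.refl (Fin n))) v = v ∘ φ.symm := rfl
  rw [e1]
  refine if_congr ?_ ?_ rfl
  · rw [← hs, ← ht]
    simp only [Function.comp_apply, Equiv.symm_apply_apply]
    rw [Equiv.injective_comp φ.symm v]
  · rw [← hE, Finset.prod_image (fun a _ b _ h => Sym2.map.injective φ.injective h)]
    refine Finset.prod_congr rfl fun e _ => ?_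
    rw [Sym2.map_map]
    congr 2
    funext x
    simp

theorem Fc_nil (p : ℝ) (n : ℕ) (σ : Cfg n) : Fc p Chn.nil n σ = 1 := by
  classical
  ext i j
  unfold Fc
  simp only [Matrix.of_apply]
  have h1 : ∀ v : Fin (Chn.nil.L + 1) → Fin n, Function.Injective v := fun v a b _ => by
    have ha : (a : ℕ) < 1 := a.isLt
    have hb : (b : ℕ) < 1 := b.isLt
    apply Fin.ext
    omega
  by_cases hij : i = j
  · subst hij
    rw [Matrix.one_apply_eq]
    rw [Finset.sum_eq_single (fun _ => i)]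
    · rw [if_pos ⟨h1 _, rfl, rfl⟩]
      simp [Chn.nil]
    · intro v _ hv
      rw [if_neg]
      rintro ⟨-, h2, -⟩
      apply hv
      funext a
      have ha : a = 0 := by
        have ha : (a : ℕ) < 1 := a.isLt
        apply Fin.ext
        simp only [Fin.val_zero]
        omega
      rw [ha, h2]
    · intro h
      exact absurd (Finset.mem_univ _) h
  · rw [Matrix.one_apply_ne hij, Finset.sum_eq_zero, zero_div]
    intro v _
    rw [if_neg]
    rintro ⟨-, h2, h3⟩
    apply hij
    rw [← h2, ← h3]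
    rfl

theorem Fc_leaf (p : ℝ) (n : ℕ) (σ : Cfg n) : Fc p Chn.leaf n σ = Wn p σ := by
  classical
  ext i j
  unfold Fc Wn
  simp only [Matrix.of_apply]
  have hL : Chn.leaf.L = 1 := rfl
  by_cases hij : i = j
  · subst hij
    rw [om_diag, zero_div, Finset.sum_eq_zero, zero_div]
    intro v _
    rw [if_neg]
    rintro ⟨h1, h2, h3⟩
    have h4 := h1 (h2.trans h3.symm)
    have h5 := congrArg Fin.val h4
    exact absurd h5 (by
      change ¬ (0 : ℕ) = 1
      omega)
  · have hpow : √(n : ℝ) ^ Chn.leaf.L = √n := by rw [hL, pow_one]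
    rw [hpow]
    congr 1
    rw [Finset.sum_eq_single (fun a : Fin (Chn.leaf.L + 1) => if a = 0 then i else j)]
    · have hl0 : (Fin.last Chn.leaf.L) ≠ 0 := by
        intro h
        have h5 := congrArg Fin.val h
        exact absurd h5 (by
          change ¬ (1 : ℕ) = 0
          omega)
      rw [if_pos]
      · have : Chn.leaf.E = {(0, 1)} := rfl
        rw [this, Finset.prod_singleton]
        simp only
        have e0 : Fin.ofNat (Chn.leaf.L + 1) 0 = 0 := rfl
        have e1 : Fin.ofNat (Chn.leaf.L + 1) 1 = Fin.last Chn.leaf.L := rfl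
        rw [e0, e1, if_pos rfl, if_neg hl0]
      · refine ⟨?_, if_pos rfl, if_neg hl0⟩
        intro a b hab
        simp only at hab
        have ha : (a : ℕ) < 2 := a.isLt
        have hb : (b : ℕ) < 2 := b.isLt
        by_cases a0 : a = 0
        · by_cases b0 : b = 0
          · rw [a0, b0]
          · rw [if_pos a0, if_neg b0] at hab
            exact absurd hab hij
        · by_cases b0 : b = 0
          · rw [if_neg a0, if_pos b0] at hab
            exact absurd hab.symm hij
          · have a1 : (a : ℕ) ≠ 0 := fun h => a0 (Fin.ext h)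
            have b1 : (b : ℕ) ≠ 0 := fun h => b0 (Fin.ext h)
            apply Fin.ext
            omega
    · intro v _ hv
      rw [if_neg]
      rintro ⟨-, h2, h3⟩
      apply hv
      funext a
      by_cases a0 : a = 0
      · rw [if_pos a0, a0, h2]
      · rw [if_neg a0, ← h3]
        congr 1
        have ha : (a : ℕ) < 2 := a.isLt
        have a1 : (a : ℕ) ≠ 0 := fun h => a0 (Fin.ext h)
        apply Fin.ext
        change (a : ℕ) = 1
        omega
    · intro h
      exact absurd (Finset.mem_univ _) h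

theorem Fc_diag (p : ℝ) (B : Chn) (hB : 0 < B.L) (n : ℕ) (σ : Cfg n) (i : Fin n) :
    Fc p B n σ i i = 0 := by
  classical
  unfold Fc
  simp only [Matrix.of_apply]
  rw [Finset.sum_eq_zero, zero_div]
  intro v _
  rw [if_neg]
  rintro ⟨h1, h2, h3⟩
  have h4 := h1 (h2.trans h3.symm)
  have h5 := congrArg Fin.val h4
  simp only [Fin.val_zero, Fin.val_last] at h5
  omega

theorem trace_Fc (p : ℝ) (B : Chn) (hB : 0 < B.L) (n : ℕ) (σ : Cfg n) :
    (Fc p B n σ).trace = 0 := by
  unfold Matrix.trace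
  exact Finset.sum_eq_zero fun i _ => Fc_diag p B hB n σ i

/-- Multiplication by the edge variables adds the edge between the ends. -/
theorem Tm_Fc (p : ℝ) (B : Chn) (hB : 0 < B.L) (h : (0, B.L) ∉ B.E) (n : ℕ) (σ : Cfg n) :
    Tm p σ (Fc p B n σ) = Fc p (B.cap hB) n σ := by
  classical
  ext i j
  unfold Tm Fc
  simp only [Matrix.of_apply]
  rw [← mul_div_assoc]
  have hL : (B.cap hB).L = B.L := rfl
  congr 1
  rw [Finset.mul_sum]
  refine Finset.sum_congr rfl fun v _ => ?_
  rw [mul_ite, mul_zero]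
  refine lc_ite Iff.rfl fun hc => ?_
  have e0 : Fin.ofNat (B.L + 1) 0 = 0 := rfl
  have e1 : Fin.ofNat (B.L + 1) B.L = Fin.last B.L := by
    apply Fin.ext
    rw [lc_ofNat_val le_rfl]
    rfl
  have h3 := Finset.prod_insert (f := fun e : ℕ × ℕ => om p σ s(v (Fin.ofNat (B.L + 1) e.1),
    v (Fin.ofNat (B.L + 1) e.2))) h
  simp only [e0, e1, hc.2.1, hc.2.2] at h3
  exact h3.symm

theorem cc_leaf : cc Chn.leaf Chn.leaf = 1 := by
  unfold cc
  have h : Nat.card (CIso Chn.leaf Chn.leaf) = 1 := by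
    rw [Nat.card_eq_one_iff_unique]
    constructor
    · constructor
      rintro ⟨ξ, h0, h1, -⟩ ⟨ξ', h0', h1', -⟩
      apply Subtype.ext
      simp only
      apply Equiv.ext
      intro a
      have ha : (a : ℕ) < 2 := a.isLt
      by_cases a0 : a = 0
      · rw [a0, h0, h0']
      · have a1 : a = Fin.last _ := by
          have a1 : (a : ℕ) ≠ 0 := fun h => a0 (Fin.ext h)
          apply Fin.ext
          change (a : ℕ) = 1
          omega
        rw [a1, h1, h1']
    · refine ⟨⟨(Equiv.swap (0 : Fin 2) 1 : Fin 2 ≃ Fin 2), rfl, rfl, ?_⟩⟩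
      change ∀ a b : Fin 2, Chn.leaf.Adj a b ↔ Chn.leaf.Adj ((Equiv.swap (0 : Fin 2) 1) a : Fin 2)
        ((Equiv.swap (0 : Fin 2) 1) b : Fin 2)
      intro a b
      unfold Chn.Adj Chn.leaf
      fin_cases a <;> fin_cases b <;> simp
  rw [h, Nat.cast_one]

section

variable (p : ℝ) {J : Type} [Fintype J] (tr : J → Chn)

theorem Wf_zero (γ : Fin 0 → J → ℝ) (n : ℕ) (σ : Cfg n) : Wf p tr γ n σ = 1 := by
  unfold Wf
  rw [Fintype.sum_unique, Finset.univ_eq_empty, Finset.prod_empty, one_smul]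
  exact Fc_nil p n σ

theorem Wf_one (γ : Fin 1 → J → ℝ) (n : ℕ) (σ : Cfg n) : Wf p tr γ n σ = Gf p tr (γ 0) n σ := by
  unfold Wf Gf
  refine Fintype.sum_equiv (Equiv.funUnique (Fin 1) J) _ _ fun f => ?_
  have e : catF 1 (fun i => tr (f i)) = tr (f 0) := by
    rw [catF_succ]
    exact cat_nil _
  rw [e, Fin.prod_univ_one]
  rfl

theorem Wf_diag (htr : ∀ j, (tr j).IsTr) (r : ℕ) (γ : Fin (r + 1) → J → ℝ) (n : ℕ) (σ : Cfg n)
    (i : Fin n) : Wf p tr γ n σ i i = 0 := by
  unfold Wf
  rw [Matrix.sum_apply]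
  refine Finset.sum_eq_zero fun f _ => ?_
  rw [Matrix.smul_apply, Fc_diag p _ (catF_pos r _ fun i => htr _), smul_zero]

theorem trace_Wf (htr : ∀ j, (tr j).IsTr) (r : ℕ) (γ : Fin (r + 1) → J → ℝ) (n : ℕ) (σ : Cfg n) :
    (Wf p tr γ n σ).trace = 0 := by
  unfold Matrix.trace
  exact Finset.sum_eq_zero fun i _ => Wf_diag p tr htr r γ n σ i

end

end Pool.Agent.H276R2.Gn
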