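import Pool.Agent.H276R2.Gn.LibC

/-!
# Library D: easy closure properties of `BadF` (task LD: replace the sorries)
-/

set_option autoImplicit false

namespace Pool.Agent.H276R2.Gn

open Finset Real

variable {p : ℝ}

theorem BadF_congr {f g : MF} (hf : BadF p f) (h : ∀ n, 0 < n → ∀ σ : Cfg n, g n σ = f n σ) :
    BadF p g := by
  obtain ⟨K, hK, H, q, c, C, hc, hq, hs⟩ := hf
  exact ⟨K, hK, H, q, c, C, hc, hq, fun n hn σ => by rw [h n hn σ, hs n hn σ]⟩

theorem BadF_zero : BadF p (fun _ _ => 0) := by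
  refine ⟨Empty, inferInstance, fun k => k.elim, fun k => k.elim, fun k => k.elim, 0,
    fun k => k.elim, fun k => k.elim, fun n _ σ => ?_⟩
  simp

theorem BadF_add {f g : MF} (hf : BadF p f) (hg : BadF p g) : BadF p (fun n σ => f n σ + g n σ) := by
  obtain ⟨K, hK, H, q, c, C, hc, hq, hs⟩ := hf
  obtain ⟨K', hK', H', q', c', C', hc', hq', hs'⟩ := hg
  refine ⟨K ⊕ K', inferInstance, Sum.elim H H', Sum.elim q q', Sum.elim c c', max C C',
    ?_, ?_, ?_⟩
  · rintro (k | k) n
    · exact (hc k n).trans (le_max_left _ _)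
    · exact (hc' k n).trans (le_max_right _ _)
  · rintro (k | k)
    · exact hq k
    · exact hq' k
  · intro n hn σ
    show f n σ + g n σ = _
    rw [Fintype.sum_sum_type, hs n hn σ, hs' n hn σ]
    rfl

theorem BadF_smul' {f : MF} (c : ℕ → ℝ) (C : ℝ) (hc : ∀ n, |c n| ≤ C) (hf : BadF p f) :
    BadF p (fun n σ => c n • f n σ) := by
  obtain ⟨K, hK, H, q, c', C', hc', hq, hs⟩ := hf
  refine ⟨K, hK, H, q, fun k n => c n * c' k n, C * C', ?_, hq, ?_⟩
  · intro k n
    rw [abs_mul]
    exact mul_le_mul (hc n) (hc' k n) (abs_nonneg _) ((abs_nonneg _).trans (hc n))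
  · intro n hn σ
    show c n • f n σ = _
    rw [hs n hn σ, Finset.smul_sum]
    exact Finset.sum_congr rfl fun k _ => by rw [smul_smul]

theorem BadF_smul {f : MF} (c : ℝ) (hf : BadF p f) : BadF p (fun n σ => c • f n σ) :=
  BadF_smul' (fun _ => c) |c| (fun _ => le_refl _) hf

theorem BadF_sub {f g : MF} (hf : BadF p f) (hg : BadF p g) : BadF p (fun n σ => f n σ - g n σ) :=
  BadF_congr (BadF_add hf (BadF_smul (-1) hg)) fun n _ σ => by
    simp only [neg_smul, one_smul, sub_eq_add_neg]

theorem BadF_sum {ι : Type} (s : Finset ι) (f : ι → MF) (hf : ∀ i ∈ s, BadF p (f i)) :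
    BadF p (fun n σ => ∑ i ∈ s, f i n σ) := by
  classical
  induction s using Finset.induction_on with
  | empty => exact BadF_congr BadF_zero fun n _ σ => by simp
  | insert a s ha ih =>
    refine BadF_congr (BadF_add (hf a (Finset.mem_insert_self a s))
      (ih fun i hi => hf i (Finset.mem_insert_of_mem hi))) fun n _ σ => ?_
    rw [Finset.sum_insert ha]

theorem BadF_Sh (H : Shp) (q : ℕ) (h : Fintype.card H.X + H.iso ≤ q) : BadF p (Sh p H q) := by
  refine ⟨Unit, inferInstance, fun _ => H, fun _ => q, fun _ _ => 1, 1, fun _ _ => by simp,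
    fun _ => h, fun n _ σ => ?_⟩
  simp

/-- Chaoses of chains with a coefficient of order `1 / n` are negligible. -/
theorem BadF_Fc (B : Chn) (c : ℕ → ℝ) (C : ℝ) (hc : ∀ n, |c n| ≤ C) :
    BadF p (fun n σ => (c n / n) • Fc p B n σ) := by
  refine BadF_congr (BadF_smul' c C hc (BadF_Sh B.shp (B.L + 2) ?_)) fun n hn σ => ?_
  · rw [shp_card, shp_iso]
    omega
  · rw [Fc_eq_Sh]
    ext i j
    have hn' : (0 : ℝ) < n := by exact_mod_cast hn
    have h1 : √(n : ℝ) ^ 2 = n := Real.sq_sqrt hn'.le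
    have h2 : √(n : ℝ) ≠ 0 := (Real.sqrt_pos.mpr hn').ne'
    simp only [Matrix.smul_apply, Sh, Matrix.of_apply, smul_eq_mul]
    rw [pow_add, h1]
    field_simp

/-- The values of a shape sum. -/
theorem ld_Sh_apply (p : ℝ) (H : Shp) (q n : ℕ) (σ : Cfg n) (i j : Fin n) : Sh p H q n σ i j =
    (∑ v : H.X → Fin n, open Classical in if Function.Injective v ∧ v H.s = i ∧ v H.t = j then
    ∏ e ∈ H.E, om p σ (e.map v) else 0) / √n ^ q := rfl

/-- Changing the edge set. -/
def ldE (H : Shp) (E : Finset (Sym2 H.X)) (h : ∀ e ∈ E, ¬ e.IsDiag) : Shp where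
  X := H.X
  s := H.s
  t := H.t
  E := E
  loopless := h

theorem ld_iso_card (H : Shp) (S : Finset H.X)
    (hS : ∀ x, x ∈ S ↔ (x ≠ H.s ∧ x ≠ H.t ∧ ∀ e ∈ H.E, x ∉ e)) : H.iso = S.card := by
  unfold Shp.iso
  congr 1
  ext x
  rw [hS x, Finset.mem_filter]
  simp

theorem ld_iso (H : Shp) (E : Finset (Sym2 H.X)) (h : ∀ e ∈ E, ¬ e.IsDiag)
    (hE : ∀ x, x ≠ H.s → x ≠ H.t → ((∀ e ∈ E, x ∉ e) ↔ ∀ e ∈ H.E, x ∉ e)) :
    (ldE H E h).iso = H.iso := by
  classical
  have hS : ∀ x : H.X, x ∈ (univ : Finset H.X).filter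
      (fun x => x ≠ H.s ∧ x ≠ H.t ∧ ∀ e ∈ H.E, x ∉ e) ↔
        (x ≠ H.s ∧ x ≠ H.t ∧ ∀ e ∈ H.E, x ∉ e) := fun x => by simp
  have h1 := ld_iso_card H _ hS
  rw [h1]
  refine ld_iso_card (ldE H E h) _ fun x => (hS x).trans ?_
  constructor
  · rintro ⟨h1, h2, h3⟩
    exact ⟨h1, h2, (hE x h1 h2).mpr h3⟩
  · rintro ⟨h1, h2, h3⟩
    exact ⟨h1, h2, (hE x h1 h2).mp h3⟩

theorem ld_Tm_Sh (hp : 0 < p) (hp1 : p < 1) (H : Shp) (q : ℕ) (h : Fintype.card H.X + H.iso ≤ q) :
    BadF p (fun n σ => Tm p σ (Sh p H q n σ)) := by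
  classical
  by_cases hst : H.s = H.t
  · refine BadF_congr BadF_zero fun n _ σ => ?_
    ext i j
    simp only [Tm, Matrix.of_apply, Matrix.zero_apply]
    by_cases hij : i = j
    · subst hij
      rw [om_diag, zero_mul]
    · rw [ld_Sh_apply, Finset.sum_eq_zero, zero_div, mul_zero]
      intro v _
      rw [if_neg]
      rintro ⟨_, h1, h2⟩
      exact hij (by rw [← h1, ← h2, hst])
  · have hnd : ¬ (s(H.s, H.t) : Sym2 H.X).IsDiag := by
      rw [Sym2.mk_isDiag_iff]
      exact hst
    by_cases he : s(H.s, H.t) ∈ H.E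
    · have h0 : ∀ e ∈ H.E.erase s(H.s, H.t), ¬ e.IsDiag := fun e he' =>
        H.loopless e (Finset.mem_of_mem_erase he')
      refine BadF_congr (BadF_add (BadF_Sh (ldE H (H.E.erase s(H.s, H.t)) h0) q ?_)
        (BadF_smul (bb p) (BadF_Sh H q h))) fun n _ σ => ?_
      · refine le_trans (le_of_eq ?_) h
        refine congrArg (Fintype.card H.X + ·) (ld_iso H _ h0 fun x h1 h2 => ?_)
        constructor
        · intro h3 e he'
          by_cases hee : e = s(H.s, H.t)
          · rw [hee, Sym2.mem_iff]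
            rintro (h4 | h4)
            · exact h1 h4
            · exact h2 h4
          · exact h3 e (Finset.mem_erase.mpr ⟨hee, he'⟩)
        · exact fun h3 e he' => h3 e (Finset.mem_of_mem_erase he')
      · ext i j
        simp only [Tm, Matrix.of_apply, Matrix.add_apply, Matrix.smul_apply, smul_eq_mul]
        rw [ld_Sh_apply, ld_Sh_apply]
        rw [← mul_div_assoc, ← mul_div_assoc, ← add_div]
        congr 1
        rw [Finset.mul_sum, Finset.mul_sum]
        show _ = (∑ v : H.X → Fin n, if Function.Injective v ∧ v H.s = i ∧ v H.t = j then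
          ∏ e ∈ H.E.erase s(H.s, H.t), om p σ (e.map v) else 0) + _
        rw [← Finset.sum_add_distrib]
        refine Finset.sum_congr rfl fun v _ => ?_
        by_cases hv : Function.Injective v ∧ v H.s = i ∧ v H.t = j
        · rw [if_pos hv, if_pos hv, ← Finset.mul_prod_erase _ _ he, Sym2.map_mk]
          obtain ⟨h1, h2, h3⟩ := hv
          have hd : ¬ (s(i, j) : Sym2 (Fin n)).IsDiag := by
            rw [Sym2.mk_isDiag_iff, ← h2, ← h3]
            exact fun h4 => hst (h1 h4)
          have h5 := om_sq p hp hp1 σ s(i, j) hd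
          rw [h2, h3]
          linear_combination (∏ e ∈ H.E.erase s(H.s, H.t), om p σ (e.map v)) * h5
        · rw [if_neg hv, if_neg hv]
          ring
    · have h0 : ∀ e ∈ insert s(H.s, H.t) H.E, ¬ e.IsDiag := by
        intro e he'
        rcases Finset.mem_insert.mp he' with rfl | he'
        · exact hnd
        · exact H.loopless e he'
      refine BadF_congr (BadF_Sh (ldE H (insert s(H.s, H.t) H.E) h0) q ?_) fun n _ σ => ?_
      · refine le_trans (le_of_eq ?_) h
        refine congrArg (Fintype.card H.X + ·) (ld_iso H _ h0 fun x h1 h2 => ?_)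
        constructor
        · exact fun h3 e he' => h3 e (Finset.mem_insert_of_mem he')
        · intro h3 e he'
          rcases Finset.mem_insert.mp he' with rfl | he'
          · rw [Sym2.mem_iff]
            rintro (h4 | h4)
            · exact h1 h4
            · exact h2 h4
          · exact h3 e he'
      · ext i j
        simp only [Tm, Matrix.of_apply]
        rw [ld_Sh_apply, ld_Sh_apply]
        rw [← mul_div_assoc]
        congr 1
        rw [Finset.mul_sum]
        show _ = (∑ v : H.X → Fin n, if Function.Injective v ∧ v H.s = i ∧ v H.t = j then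
          ∏ e ∈ insert s(H.s, H.t) H.E, om p σ (e.map v) else 0)
        refine Finset.sum_congr rfl fun v _ => ?_
        by_cases hv : Function.Injective v ∧ v H.s = i ∧ v H.t = j
        · rw [if_pos hv, if_pos hv, Finset.prod_insert he, Sym2.map_mk]
          obtain ⟨h1, h2, h3⟩ := hv
          rw [h2, h3]
        · rw [if_neg hv, if_neg hv]
          ring

/-- `Tm` maps negligible families to negligible families. For a shape with `s ≠ t`: if `s(s, t)` is
not an edge, add it; if it is an edge, `om ^ 2 = 1 + bb * om` gives the shape without this edge plus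
`bb` times the shape. For `s = t` the result is zero. -/
theorem BadF_Tm (hp : 0 < p) (hp1 : p < 1) {f : MF} (hf : BadF p f) :
    BadF p (fun n σ => Tm p σ (f n σ)) := by
  obtain ⟨K, hK, H, q, c, C, hc, hq, hs⟩ := hf
  refine BadF_congr (BadF_sum (univ : Finset K)
    (fun k n σ => c k n • Tm p σ (Sh p (H k) (q k) n σ)) fun k _ =>
      BadF_smul' (c k) C (hc k) (ld_Tm_Sh hp hp1 (H k) (q k) (hq k))) fun n hn σ => ?_
  rw [hs n hn σ]
  ext i j
  simp only [Tm, Matrix.of_apply, Matrix.sum_apply, Matrix.smul_apply, smul_eq_mul]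
  rw [Finset.mul_sum]
  exact Finset.sum_congr rfl fun k _ => by ring

end Pool.Agent.H276R2.Gn
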