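import Pool.Agent.H276R2.Gn.Spec

/-!
# Part NX: one step of the iteration
-/

set_option autoImplicit false

namespace Pool.Agent.H276R2.Gn

open Finset Real

/-- The new trees. -/
noncomputable def nx_tr {J : Type} (tr : J → Chn) (D : ℕ) :
    (Σ d : Fin (D + 1), (Fin (d : ℕ) → J)) → Chn := fun k =>
  if h : 0 < (catF (k.1 : ℕ) (fun i => tr (k.2 i))).L then
    (catF (k.1 : ℕ) (fun i => tr (k.2 i))).cap h else Chn.leaf

/-- The new coefficients. -/
noncomputable def nx_co {J : Type} (D : ℕ) (c : ℕ → ℝ) (a s : ℝ) (α : J → ℝ) :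
    Option (Σ d : Fin (D + 1), (Fin (d : ℕ) → J)) → ℝ := fun o =>
  match o with
  | none => a / s
  | some k => if 2 ≤ (k.1 : ℕ) then c (k.1 : ℕ) / s * ∏ i, α (k.2 i) else 0

theorem nx_tr_IsTr {J : Type} (tr : J → Chn) (D : ℕ) (k : Σ d : Fin (D + 1), (Fin (d : ℕ) → J)) :
    (nx_tr tr D k).IsTr := by
  unfold nx_tr
  split_ifs with h
  · exact cap_IsTr _ h
  · exact leaf_IsTr

theorem nx_Fc (p : ℝ) {J : Type} (tr : J → Chn) (htr : ∀ j, (tr j).IsTr) (D : ℕ)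
    (d : Fin (D + 1)) (j : Fin (d : ℕ) → J) (hd : 2 ≤ (d : ℕ)) (n : ℕ) (σ : Cfg n) :
    Fc p (nx_tr tr D ⟨d, j⟩) n σ = Tm p σ (Fc p (catF (d : ℕ) (fun i => tr (j i))) n σ) := by
  have key : ∀ (e : ℕ) (j : Fin e → J), 2 ≤ e → 0 < (catF e (fun i => tr (j i))).L ∧
      (0, (catF e (fun i => tr (j i))).L) ∉ (catF e (fun i => tr (j i))).E := by
    intro e j he
    obtain ⟨r, rfl⟩ : ∃ r, e = r + 2 := ⟨e - 2, by omega⟩
    exact ⟨catF_pos (r + 1) _ (fun i => htr _), catF_no_root r _ (fun i => htr _)⟩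
  obtain ⟨h1, h2⟩ := key (d : ℕ) j hd
  rw [Tm_Fc p _ h1 h2]
  unfold nx_tr
  rw [dif_pos h1]

theorem nx_Gf (p : ℝ) {J : Type} [Fintype J] (tr : J → Chn) (htr : ∀ j, (tr j).IsTr) (D : ℕ)
    (c : ℕ → ℝ) (a s : ℝ) (α : J → ℝ) (h0 : c 0 = 0) (h1 : c 1 = 0) (n : ℕ) (σ : Cfg n) :
    Gf p (fun o : Option (Σ d : Fin (D + 1), (Fin (d : ℕ) → J)) => o.elim Chn.leaf (nx_tr tr D))
      (nx_co D c a s α) n σ =
    (a / s) • Wn p σ + ∑ d ∈ range (D + 1), (c d / s) • Tm p σ (Wf p tr (fun _ : Fin d => α) n σ) := by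
  unfold Gf
  rw [Fintype.sum_option, Fintype.sum_sigma, Finset.sum_range]
  congr 1
  · simp only [Option.elim, nx_co, Fc_leaf]
  · refine Finset.sum_congr rfl fun d _ => ?_
    by_cases hd : 2 ≤ (d : ℕ)
    · unfold Wf
      rw [Tm_sum, Finset.smul_sum]
      refine Finset.sum_congr rfl fun j _ => ?_
      simp only [Option.elim, nx_co, if_pos hd]
      rw [nx_Fc p tr htr D d j hd, Tm_smul, smul_smul]
    · have hc : c (d : ℕ) = 0 := by
        have : (d : ℕ) = 0 ∨ (d : ℕ) = 1 := by omega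
        rcases this with h | h <;> rw [h] <;> assumption
      rw [hc, zero_div, zero_smul]
      refine Finset.sum_eq_zero fun j _ => ?_
      simp only [nx_co, if_neg hd, zero_smul]

theorem nx_Stp (p : ℝ) (D : ℕ) (c : ℕ → ℝ) (a s : ℝ) (G : MF) (n : ℕ) (σ : Cfg n) :
    Stp p D c a s G n σ = (a / s) • Wn p σ +
      ∑ d ∈ range (D + 1), (c d / s) • Tm p σ (Polynomial.aeval (G n σ) (Uc d)) := by
  unfold Stp PP
  rw [map_sum, Tm_sum, smul_add, smul_smul, Finset.smul_sum]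
  congr 1
  · congr 1
    ring
  · refine Finset.sum_congr rfl fun d _ => ?_
    rw [map_mul, Polynomial.aeval_C, ← Algebra.smul_def, Tm_smul, smul_smul]
    congr 1
    ring

theorem t_NX (w2 : S_W2) : S_NX := by
  intro p J _ tr D c a s hp hp1 _ h0 h1 htr
  refine ⟨(Σ d : Fin (D + 1), (Fin (d : ℕ) → J)), inferInstance, nx_tr tr D, ?_⟩
  intro G α hG hα
  refine ⟨nx_co D c a s α, ?_, ?_, ?_⟩
  · intro o
    cases o with
    | none => exact leaf_IsTr
    | some k => exact nx_tr_IsTr tr D k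
  · intro n σ
    unfold Stp
    rw [Matrix.transpose_smul, Matrix.transpose_add, Matrix.transpose_smul, Wn_transpose,
      Tm_transpose, aeval_transpose _ (hG.2.1 n σ)]
  · refine BadF_congr (BadF_sum (range (D + 1)) (fun d n σ => (c d / s) • Tm p σ
      (Polynomial.aeval (G n σ) (Uc d) - Wf p tr (fun _ : Fin d => α) n σ))
      (fun d _ => BadF_smul _ (BadF_Tm hp hp1 (w2 p J tr α G hp hp1 hG hα d)))) ?_
    intro n _ σ
    rw [nx_Stp, nx_Gf p tr htr D c a s α h0 h1, add_sub_add_left_eq_sub, ← Finset.sum_sub_distrib]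
    refine Finset.sum_congr rfl fun d _ => ?_
    rw [Tm_sub, smul_sub]

end Pool.Agent.H276R2.Gn
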