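import Pool.Agent.H276R2.Gn.Spec

/-!
# Product of two shape sums (task PL)
-/

set_option autoImplicit false

namespace Pool.Agent.H276R2.Gn

open Finset Real

section

variable {H₁ H₂ : Shp}

theorem pl_emb_some (ξ : SPat H₁ H₂) {y : H₂.X} {x : H₁.X} (h : ξ y = some x) :
    ξ.emb y = Sum.inl x := by
  unfold SPat.emb
  split
  · rename_i x' h'
    rw [h] at h'
    simp only [Option.some.injEq] at h'
    rw [h']
  · rename_i h'
    rw [h] at h'
    exact absurd h' (by simp)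

theorem pl_emb_none (ξ : SPat H₁ H₂) {y : H₂.X} (h : ξ y = none) :
    ξ.emb y = Sum.inr ⟨y, h⟩ := by
  unfold SPat.emb
  split
  · rename_i x' h'
    rw [h] at h'
    exact absurd h' (by simp)
  · rfl

theorem pl_emb_eq_inl (ξ : SPat H₁ H₂) {y : H₂.X} {x : H₁.X} :
    ξ.emb y = Sum.inl x ↔ ξ y = some x := by
  constructor
  · intro h
    rcases h' : ξ y with _ | x'
    · rw [pl_emb_none ξ h'] at h
      exact absurd h (by simp)
    · rw [pl_emb_some ξ h'] at h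
      rw [Sum.inl.inj h]
  · exact pl_emb_some ξ

theorem pl_emb_inj (ξ : SPat H₁ H₂) (hξ : ξ.OK) : Function.Injective ξ.emb := by
  intro y y' h
  rcases h1 : ξ y with _ | x
  · rcases h2 : ξ y' with _ | x'
    · rw [pl_emb_none ξ h1, pl_emb_none ξ h2] at h
      exact congrArg Subtype.val (Sum.inr.inj h)
    · rw [pl_emb_none ξ h1, pl_emb_some ξ h2] at h
      exact absurd h (by simp)
  · rw [pl_emb_some ξ h1] at h
    exact hξ.2 y y' x h1 ((pl_emb_eq_inl ξ).mp h.symm)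

theorem pl_nd₁ (ξ : SPat H₁ H₂) (e : Sym2 ξ.V) (he : e ∈ ξ.E₁) : ¬ e.IsDiag := by
  obtain ⟨e', he', rfl⟩ := Finset.mem_image.mp he
  rw [Sym2.isDiag_map Sum.inl_injective]
  exact H₁.loopless e' he'

theorem pl_nd₂ (ξ : SPat H₁ H₂) (hξ : ξ.OK) (e : Sym2 ξ.V) (he : e ∈ ξ.E₂) : ¬ e.IsDiag := by
  obtain ⟨e', he', rfl⟩ := Finset.mem_image.mp he
  rw [Sym2.isDiag_map (pl_emb_inj ξ hξ)]
  exact H₂.loopless e' he'

theorem pl_prod₁ (ξ : SPat H₁ H₂) {n : ℕ} (f : Sym2 (Fin n) → ℝ) (w : ξ.V → Fin n) :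
    ∏ e ∈ H₁.E, f (e.map (fun x => w (Sum.inl x))) = ∏ e ∈ ξ.E₁, f (e.map w) := by
  unfold SPat.E₁
  rw [Finset.prod_image]
  · refine Finset.prod_congr rfl fun e _ => ?_
    rw [Sym2.map_map]
    rfl
  · intro a _ b _ h
    exact Sym2.map.injective Sum.inl_injective h

theorem pl_prod₂ (ξ : SPat H₁ H₂) (hξ : ξ.OK) {n : ℕ} (f : Sym2 (Fin n) → ℝ) (w : ξ.V → Fin n) :
    ∏ e ∈ H₂.E, f (e.map (fun x => w (ξ.emb x))) = ∏ e ∈ ξ.E₂, f (e.map w) := by
  unfold SPat.E₂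
  rw [Finset.prod_image]
  · refine Finset.prod_congr rfl fun e _ => ?_
    rw [Sym2.map_map]
    rfl
  · intro a _ b _ h
    exact Sym2.map.injective (pl_emb_inj ξ hξ) h

/-- The product of two edge products. -/
theorem pl_core (p : ℝ) (hp : 0 < p) (hp1 : p < 1) (ξ : SPat H₁ H₂) (hξ : ξ.OK) {n : ℕ}
    (σ : Cfg n) (w : ξ.V → Fin n) (hw : Function.Injective w) :
    (∏ e ∈ H₁.E, om p σ (e.map (fun x => w (Sum.inl x)))) *
      (∏ e ∈ H₂.E, om p σ (e.map (fun x => w (ξ.emb x)))) =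
    ∑ R ∈ (ξ.E₁ ∩ ξ.E₂).powerset, (bb p) ^ R.card *
      ∏ e ∈ (prodShp H₁ H₂ ξ R).E, om p σ (e.map w) := by
  classical
  rw [pl_prod₁ ξ (om p σ) w, pl_prod₂ ξ hξ (om p σ) w]
  set f : Sym2 ξ.V → ℝ := fun e => om p σ (e.map w) with hf
  have h1 : ∏ e ∈ ξ.E₁, f e = (∏ e ∈ ξ.E₁ \ ξ.E₂, f e) * ∏ e ∈ ξ.E₁ ∩ ξ.E₂, f e := by
    rw [← Finset.prod_union]
    · congr 1
      ext e
      simp only [Finset.mem_union, Finset.mem_sdiff, Finset.mem_inter]
      tauto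
    · rw [Finset.disjoint_left]
      intro e he he'
      exact (Finset.mem_sdiff.mp he).2 (Finset.mem_inter.mp he').2
  have h2 : ∏ e ∈ ξ.E₂, f e = (∏ e ∈ ξ.E₂ \ ξ.E₁, f e) * ∏ e ∈ ξ.E₁ ∩ ξ.E₂, f e := by
    rw [← Finset.prod_union]
    · congr 1
      ext e
      simp only [Finset.mem_union, Finset.mem_sdiff, Finset.mem_inter]
      tauto
    · rw [Finset.disjoint_left]
      intro e he he'
      exact (Finset.mem_sdiff.mp he).2 (Finset.mem_inter.mp he').1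
  have h3 : ∏ e ∈ symmDiff ξ.E₁ ξ.E₂, f e =
      (∏ e ∈ ξ.E₁ \ ξ.E₂, f e) * ∏ e ∈ ξ.E₂ \ ξ.E₁, f e := by
    rw [← Finset.prod_union]
    · congr 1
    · rw [Finset.disjoint_left]
      intro e he he'
      exact (Finset.mem_sdiff.mp he).2 (Finset.mem_sdiff.mp he').1
  have h4 : (∏ e ∈ ξ.E₁ ∩ ξ.E₂, f e) * (∏ e ∈ ξ.E₁ ∩ ξ.E₂, f e) =
      ∑ R ∈ (ξ.E₁ ∩ ξ.E₂).powerset, (bb p) ^ R.card * ∏ e ∈ R, f e := by
    rw [← Finset.prod_mul_distrib]
    have h5 : ∏ e ∈ ξ.E₁ ∩ ξ.E₂, f e * f e = ∏ e ∈ ξ.E₁ ∩ ξ.E₂, (1 + bb p * f e) := by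
      refine Finset.prod_congr rfl fun e he => ?_
      have hd : ¬ (e.map w).IsDiag := by
        rw [Sym2.isDiag_map hw]
        exact pl_nd₁ ξ e (Finset.mem_inter.mp he).1
      have := om_sq p hp hp1 σ (e.map w) hd
      simp only [hf]
      rw [← this]
      ring
    rw [h5, Finset.prod_one_add]
    refine Finset.sum_congr rfl fun R _ => ?_
    rw [Finset.prod_mul_distrib, Finset.prod_const]
  have h6 : (∏ e ∈ ξ.E₁, f e) * (∏ e ∈ ξ.E₂, f e) = (∏ e ∈ symmDiff ξ.E₁ ξ.E₂, f e) *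
      ((∏ e ∈ ξ.E₁ ∩ ξ.E₂, f e) * (∏ e ∈ ξ.E₁ ∩ ξ.E₂, f e)) := by
    rw [h1, h2, h3]
    ring
  rw [h6, h4, Finset.mul_sum]
  refine Finset.sum_congr rfl fun R hR => ?_
  have hR' := Finset.mem_powerset.mp hR
  have h7 : (prodShp H₁ H₂ ξ R).E = symmDiff ξ.E₁ ξ.E₂ ∪ R := by
    unfold prodShp
    simp only
    rw [Finset.filter_true_of_mem]
    intro e he
    rcases Finset.mem_union.mp he with h | h
    · rcases Finset.mem_symmDiff.mp h with h | h
      · exact pl_nd₁ ξ e h.1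
      · exact pl_nd₂ ξ hξ e h.1
    · exact pl_nd₁ ξ e (Finset.mem_inter.mp (hR' h)).1
  have h9 : ∏ e ∈ (prodShp H₁ H₂ ξ R).E, om p σ (e.map w) =
      ∏ e ∈ symmDiff ξ.E₁ ξ.E₂ ∪ R, f e := Finset.prod_congr h7 (fun _ _ => rfl)
  rw [h9, Finset.prod_union]
  · ring
  · rw [Finset.disjoint_left]
    intro e he he'
    have h8 := Finset.mem_inter.mp (hR' he')
    rcases Finset.mem_symmDiff.mp he with h | h
    · exact h.2 h8.2
    · exact h.2 h8.1

open Classical in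
/-- The coincidence pattern of two labellings. -/
noncomputable def pl_pat {n : ℕ} (v₁ : H₁.X → Fin n) (v₂ : H₂.X → Fin n) : SPat H₁ H₂ := fun y =>
  if h : ∃ x, v₁ x = v₂ y then some h.choose else none

theorem pl_pat_some {n : ℕ} {v₁ : H₁.X → Fin n} (hv₁ : Function.Injective v₁)
    {v₂ : H₂.X → Fin n} {y : H₂.X} {x : H₁.X} : pl_pat v₁ v₂ y = some x ↔ v₁ x = v₂ y := by
  unfold pl_pat
  split
  · rename_i h
    constructor
    · intro h'
      have : h.choose = x := Option.some.inj h'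
      rw [← this]
      exact h.choose_spec
    · intro h'
      congr 1
      exact hv₁ (h.choose_spec.trans h'.symm)
  · rename_i h
    constructor
    · intro h'
      exact absurd h' (by simp)
    · intro h'
      exact absurd ⟨x, h'⟩ h

theorem pl_pat_none {n : ℕ} {v₁ : H₁.X → Fin n} {v₂ : H₂.X → Fin n} {y : H₂.X}
    (h : pl_pat v₁ v₂ y = none) (x : H₁.X) : v₁ x ≠ v₂ y := by
  intro h'
  unfold pl_pat at h
  split at h
  · exact absurd h (by simp)
  · rename_i h''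
    exact h'' ⟨x, h'⟩

open Classical in
/-- The change of variables. -/
theorem pl_bij {n : ℕ} (i j : Fin n) (F : (H₁.X → Fin n) → (H₂.X → Fin n) → ℝ) :
    ∑ ξ : SPat H₁ H₂, (if ξ.OK then ∑ w : ξ.V → Fin n,
      if Function.Injective w ∧ w (Sum.inl H₁.s) = i ∧ w (ξ.emb H₂.t) = j then
        F (fun x => w (Sum.inl x)) (fun y => w (ξ.emb y)) else 0 else 0) =
    ∑ v₁ : H₁.X → Fin n, ∑ v₂ : H₂.X → Fin n, if (Function.Injective v₁ ∧ v₁ H₁.s = i) ∧
      (Function.Injective v₂ ∧ v₂ H₂.t = j) ∧ v₁ H₁.t = v₂ H₂.s then F v₁ v₂ else 0 := by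
  have e1 : ∑ ξ : SPat H₁ H₂, (if ξ.OK then ∑ w : ξ.V → Fin n,
      if Function.Injective w ∧ w (Sum.inl H₁.s) = i ∧ w (ξ.emb H₂.t) = j then
        F (fun x => w (Sum.inl x)) (fun y => w (ξ.emb y)) else 0 else 0) =
      ∑ z ∈ (univ : Finset (Σ ξ : SPat H₁ H₂, (ξ.V → Fin n))).filter (fun z => z.1.OK ∧
        Function.Injective z.2 ∧ z.2 (Sum.inl H₁.s) = i ∧ z.2 (z.1.emb H₂.t) = j),
        F (fun x => z.2 (Sum.inl x)) (fun y => z.2 (z.1.emb y)) := by
    rw [Finset.sum_filter, Fintype.sum_sigma]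
    refine Finset.sum_congr rfl fun ξ _ => ?_
    split_ifs with h
    · refine Finset.sum_congr rfl fun w _ => ?_
      simp only [h, true_and]
    · symm
      refine Finset.sum_eq_zero fun w _ => ?_
      simp only [h, false_and, if_false]
  have e2 : ∑ v₁ : H₁.X → Fin n, ∑ v₂ : H₂.X → Fin n, (if (Function.Injective v₁ ∧ v₁ H₁.s = i) ∧
      (Function.Injective v₂ ∧ v₂ H₂.t = j) ∧ v₁ H₁.t = v₂ H₂.s then F v₁ v₂ else 0) =
      ∑ v ∈ (univ : Finset ((H₁.X → Fin n) × (H₂.X → Fin n))).filter (fun v =>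
        (Function.Injective v.1 ∧ v.1 H₁.s = i) ∧
      (Function.Injective v.2 ∧ v.2 H₂.t = j) ∧ v.1 H₁.t = v.2 H₂.s), F v.1 v.2 := by
    rw [Finset.sum_filter, Fintype.sum_prod_type]
  rw [e1, e2]
  refine Finset.sum_bij (fun z _ => (fun x => z.2 (Sum.inl x), fun y => z.2 (z.1.emb y)))
    ?_ ?_ ?_ ?_
  · rintro ⟨ξ, w⟩ hz
    simp only [Finset.mem_filter, Finset.mem_univ, true_and] at hz ⊢
    obtain ⟨hξ, hw, h1, h2⟩ := hz
    refine ⟨⟨hw.comp Sum.inl_injective, h1⟩, ⟨hw.comp (pl_emb_inj ξ hξ), h2⟩, ?_⟩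
    rw [pl_emb_some ξ hξ.1]
  · rintro ⟨ξ, w⟩ hz ⟨ξ', w'⟩ hz' h
    simp only [Finset.mem_filter, Finset.mem_univ, true_and] at hz hz'
    simp only [Prod.mk.injEq] at h
    obtain ⟨h1, h2⟩ := h
    have key : ∀ (ξ : SPat H₁ H₂) (w : ξ.V → Fin n), Function.Injective w → ∀ y x,
        ξ y = some x ↔ w (ξ.emb y) = w (Sum.inl x) := by
      intro ξ w hw y x
      rw [← pl_emb_eq_inl ξ]
      exact hw.eq_iff.symm
    have hξ : ξ = ξ' := by
      funext y
      have : ∀ x, ξ y = some x ↔ ξ' y = some x := by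
        intro x
        rw [key ξ w hz.2.1, key ξ' w' hz'.2.1, congrFun h2 y, congrFun h1 x]
      exact Option.ext fun x => this x
    subst hξ
    have hw : w = w' := by
      funext a
      rcases a with x | ⟨y, hy⟩
      · exact congrFun h1 x
      · have := congrFun h2 y
        rw [pl_emb_none ξ hy] at this
        exact this
    rw [hw]
  · rintro ⟨v₁, v₂⟩ hv
    simp only [Finset.mem_filter, Finset.mem_univ, true_and] at hv
    obtain ⟨⟨hv₁, hs⟩, ⟨hv₂, ht⟩, hst⟩ := hv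
    have hp : ∀ y x, pl_pat v₁ v₂ y = some x ↔ v₁ x = v₂ y := fun y x => pl_pat_some hv₁
    have hemb : ∀ y, (Sum.elim v₁ (fun y : {y : H₂.X // pl_pat v₁ v₂ y = none} => v₂ y.1))
        ((pl_pat v₁ v₂).emb y) = v₂ y := by
      intro y
      rcases h : pl_pat v₁ v₂ y with _ | x
      · rw [pl_emb_none _ h]
        rfl
      · rw [pl_emb_some _ h]
        exact (hp y x).mp h
    refine ⟨⟨pl_pat v₁ v₂, Sum.elim v₁ (fun y => v₂ y.1)⟩, ?_, ?_⟩
    · simp only [Finset.mem_filter, Finset.mem_univ, true_and]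
      refine ⟨⟨(hp _ _).mpr hst, ?_⟩, ?_, hs, ?_⟩
      · intro y y' x h h'
        exact hv₂ (((hp _ _).mp h).symm.trans ((hp _ _).mp h'))
      · rintro (x | ⟨y, hy⟩) (x' | ⟨y', hy'⟩) h
        · simp only [Sum.elim_inl] at h
          rw [hv₁ h]
        · simp only [Sum.elim_inl, Sum.elim_inr] at h
          exact absurd h (pl_pat_none hy' x)
        · simp only [Sum.elim_inl, Sum.elim_inr] at h
          exact absurd h.symm (pl_pat_none hy x')
        · simp only [Sum.elim_inr] at h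
          have := hv₂ h
          subst this
          rfl
      · rw [hemb]
        exact ht
    · simp only [Sum.elim_inl, Prod.mk.injEq, true_and]
      funext y
      exact hemb y
  · intro z _
    rfl

end

theorem t_PL : S_PL := by
  classical
  intro p H₁ H₂ q₁ q₂ n σ hp hp1
  ext i j
  -- left side
  have hL : (Sh p H₁ q₁ n σ * Sh p H₂ q₂ n σ) i j =
      (∑ v₁ : H₁.X → Fin n, ∑ v₂ : H₂.X → Fin n, if (Function.Injective v₁ ∧ v₁ H₁.s = i) ∧
        (Function.Injective v₂ ∧ v₂ H₂.t = j) ∧ v₁ H₁.t = v₂ H₂.s then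
        (∏ e ∈ H₁.E, om p σ (e.map v₁)) * (∏ e ∈ H₂.E, om p σ (e.map v₂)) else 0) /
        √n ^ (q₁ + q₂) := by
    rw [Matrix.mul_apply]
    have e1 : ∀ k, Sh p H₁ q₁ n σ i k * Sh p H₂ q₂ n σ k j =
        (∑ v₁ : H₁.X → Fin n, ∑ v₂ : H₂.X → Fin n, if (Function.Injective v₁ ∧ v₁ H₁.s = i ∧
          v₁ H₁.t = k) ∧ (Function.Injective v₂ ∧ v₂ H₂.s = k ∧ v₂ H₂.t = j) then
        (∏ e ∈ H₁.E, om p σ (e.map v₁)) * (∏ e ∈ H₂.E, om p σ (e.map v₂)) else 0) /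
        √n ^ (q₁ + q₂) := by
      intro k
      unfold Sh
      simp only [Matrix.of_apply]
      rw [div_mul_div_comm, ← pow_add, Finset.sum_mul_sum]
      congr 1
      refine Finset.sum_congr rfl fun v₁ _ => Finset.sum_congr rfl fun v₂ _ => ?_
      by_cases h1 : Function.Injective v₁ ∧ v₁ H₁.s = i ∧ v₁ H₁.t = k
      · by_cases h2 : Function.Injective v₂ ∧ v₂ H₂.s = k ∧ v₂ H₂.t = j
        · rw [if_pos h1, if_pos h2, if_pos ⟨h1, h2⟩]
        · rw [if_pos h1, if_neg h2, if_neg (fun h => h2 h.2), mul_zero]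
      · rw [if_neg h1, zero_mul, if_neg (fun h => h1 h.1)]
    rw [Finset.sum_congr rfl (fun k _ => e1 k), ← Finset.sum_div]
    congr 1
    rw [Finset.sum_comm]
    refine Finset.sum_congr rfl fun v₁ _ => ?_
    rw [Finset.sum_comm]
    refine Finset.sum_congr rfl fun v₂ _ => ?_
    by_cases h : (Function.Injective v₁ ∧ v₁ H₁.s = i) ∧
        (Function.Injective v₂ ∧ v₂ H₂.t = j) ∧ v₁ H₁.t = v₂ H₂.s
    · rw [if_pos h, Finset.sum_eq_single (v₁ H₁.t)]
      · rw [if_pos ⟨⟨h.1.1, h.1.2, rfl⟩, h.2.1.1, h.2.2.symm, h.2.1.2⟩]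
      · intro k _ hk
        rw [if_neg]
        rintro ⟨⟨_, _, h'⟩, _⟩
        exact hk h'.symm
      · intro h'
        exact absurd (Finset.mem_univ _) h'
    · rw [if_neg h]
      refine Finset.sum_eq_zero fun k _ => ?_
      rw [if_neg]
      rintro ⟨⟨a1, a2, a3⟩, b1, b2, b3⟩
      exact h ⟨⟨a1, a2⟩, ⟨b1, b3⟩, a3.trans b2.symm⟩
  rw [hL, ← pl_bij i j (fun v₁ v₂ => (∏ e ∈ H₁.E, om p σ (e.map v₁)) *
    (∏ e ∈ H₂.E, om p σ (e.map v₂))), Matrix.sum_apply, Finset.sum_div]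
  refine Finset.sum_congr rfl fun ξ _ => ?_
  by_cases hξ : ξ.OK
  · rw [if_pos hξ, if_pos hξ, Matrix.sum_apply]
    have e2 : ∀ R ∈ (ξ.E₁ ∩ ξ.E₂).powerset,
        ((bb p) ^ R.card • Sh p (prodShp H₁ H₂ ξ R) (q₁ + q₂) n σ) i j =
        (∑ w : ξ.V → Fin n, if Function.Injective w ∧ w (Sum.inl H₁.s) = i ∧
          w (ξ.emb H₂.t) = j then (bb p) ^ R.card *
            ∏ e ∈ (prodShp H₁ H₂ ξ R).E, om p σ (e.map w) else 0) / √n ^ (q₁ + q₂) := by
      intro R _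
      rw [Matrix.smul_apply, smul_eq_mul]
      unfold Sh
      rw [Matrix.of_apply, ← mul_div_assoc, Finset.mul_sum]
      congr 1
      refine Finset.sum_congr rfl fun w _ => ?_
      rw [mul_ite, mul_zero]
      rfl
    rw [Finset.sum_congr rfl e2, ← Finset.sum_div]
    congr 1
    rw [Finset.sum_comm]
    refine Finset.sum_congr rfl fun w _ => ?_
    by_cases hw : Function.Injective w ∧ w (Sum.inl H₁.s) = i ∧ w (ξ.emb H₂.t) = j
    · rw [if_pos hw]
      simp only [if_pos hw]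
      exact pl_core p hp hp1 ξ hξ σ w hw.1
    · rw [if_neg hw]
      simp only [if_neg hw]
      rw [Finset.sum_const_zero]
  · rw [if_neg hξ, if_neg hξ, Matrix.zero_apply, zero_div]

end Pool.Agent.H276R2.Gn
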