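import Pool.Agent.H276R2.Gn.Spec

/-! PR: the product rule. -/

set_option autoImplicit false

namespace Pool.Agent.H276R2.Gn

open Finset Real

theorem pr_desc (n a : ℕ) (hn : 0 < n) (L : ℕ) :
    0 ≤ (((n - a).descFactorial L : ℕ) : ℝ) / (n : ℝ) ^ L ∧
    (((n - a).descFactorial L : ℕ) : ℝ) / (n : ℝ) ^ L ≤ 1 ∧
    (n : ℝ) * (1 - (((n - a).descFactorial L : ℕ) : ℝ) / (n : ℝ) ^ L) ≤ L * (a + L) := by
  have hn' : (0 : ℝ) < n := by exact_mod_cast hn
  induction L with
  | zero => simp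
  | succ L ih =>
    obtain ⟨h0, h1, h2⟩ := ih
    set x : ℝ := (((n - a).descFactorial L : ℕ) : ℝ) / (n : ℝ) ^ L with hx
    have e : (((n - a).descFactorial (L + 1) : ℕ) : ℝ) / (n : ℝ) ^ (L + 1) =
        (((n - a - L : ℕ) : ℝ) / n) * x := by
      rw [Nat.descFactorial_succ, hx, pow_succ]
      push_cast
      field_simp
    rw [e]
    have hu0 : 0 ≤ ((n - a - L : ℕ) : ℝ) / n := by positivity
    have hu1 : ((n - a - L : ℕ) : ℝ) / n ≤ 1 := by
      rw [div_le_one hn']
      exact_mod_cast (by omega : n - a - L ≤ n)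
    have hu2 : (n : ℝ) * (1 - ((n - a - L : ℕ) : ℝ) / n) ≤ a + L := by
      have : (n : ℝ) * (1 - ((n - a - L : ℕ) : ℝ) / n) = n - ((n - a - L : ℕ) : ℝ) := by
        field_simp
      rw [this]
      have h3 : (n : ℝ) ≤ ((n - a - L : ℕ) : ℝ) + a + L := by
        exact_mod_cast (by omega : n ≤ n - a - L + a + L)
      linarith
    set u : ℝ := ((n - a - L : ℕ) : ℝ) / n with hu
    refine ⟨mul_nonneg hu0 h0, mul_le_one₀ hu1 h0 h1, ?_⟩
    have h4 : (n : ℝ) * (1 - u * x) = n * (1 - u) + u * (n * (1 - x)) := by ring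
    have h5 : u * (n * (1 - x)) ≤ 1 * (n * (1 - x)) := by
      apply mul_le_mul_of_nonneg_right hu1
      apply mul_nonneg hn'.le
      linarith
    rw [h4]
    push_cast
    have h6 : (L : ℝ) * (a + L) ≤ (L : ℝ) * (a + (L + 1)) := by
      apply mul_le_mul_of_nonneg_left _ (by positivity)
      linarith
    nlinarith [h2, h5, hu2]

theorem pr_ciso_L {t t' : Chn} (φ : CIso t t') : t.L = t'.L := by
  have := Fintype.card_congr φ.1
  simp only [Fintype.card_fin] at this
  omega

theorem pr_perf_inj (t t' B : Chn) : Function.Injective (perf t t' B) := by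
  intro φ ψ h
  apply Subtype.ext
  apply Equiv.ext
  intro a
  have hlt : (a : ℕ) < t'.L + B.L + 1 := by
    have := a.2
    omega
  have h1 := congrFun h (show (t'.cat B).shp.X from (⟨a, hlt⟩ : Fin (t'.L + B.L + 1)))
  unfold perf at h1
  have h2 : ((⟨a, hlt⟩ : Fin (t'.L + B.L + 1)) : ℕ) < t'.L + 1 := a.2
  rw [dif_pos h2, dif_pos h2] at h1
  exact Option.some.inj h1

theorem pr_perf_ne (t t' B : Chn) (ht' : 0 < t'.L) (φ : CIso t t') :
    perf t t' B φ ≠ triv t.shp (t'.cat B).shp := by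
  intro h
  have hlt : 1 < t'.L + B.L + 1 := by omega
  have h1 := congrFun h (show (t'.cat B).shp.X from (⟨1, hlt⟩ : Fin (t'.L + B.L + 1)))
  unfold perf triv at h1
  have h2 : ((⟨1, hlt⟩ : Fin (t'.L + B.L + 1)) : ℕ) < t'.L + 1 := by
    show 1 < t'.L + 1
    omega
  have h3 : ¬ ((show (t'.cat B).shp.X from (⟨1, hlt⟩ : Fin (t'.L + B.L + 1))) =
      (t'.cat B).shp.s) := by
    intro h4
    have h5 : (⟨1, hlt⟩ : Fin (t'.L + B.L + 1)) = 0 := h4
    have h6 := congrArg Fin.val h5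
    simp at h6
  rw [dif_pos h2, if_neg h3] at h1
  exact absurd h1 (by simp)

theorem t_PR (pl : S_PL) (q1 : S_Q1) (q2 : S_Q2) (q3 : S_Q3) : S_PR := by
  classical
  intro p t t' B hp hp1 ht ht'
  have hfin : Finite (CIso t t') := by
    unfold CIso
    infer_instance
  have hft : Fintype (CIso t t') := Fintype.ofFinite _
  -- the good patterns
  set P : Finset (SPat t.shp (t'.cat B).shp) :=
    insert (triv t.shp (t'.cat B).shp) (univ.image (perf t t' B)) with hP
  have hPOK : ∀ ξ ∈ P, ξ.OK := by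
    intro ξ hξ
    rcases Finset.mem_insert.1 hξ with rfl | h
    · exact (q2 p t (t'.cat B) 1 (fun _ => true)).1
    · obtain ⟨φ, _, rfl⟩ := Finset.mem_image.1 h
      exact (q3 p t t' B φ 1 (fun _ => true) ht ht' (pr_ciso_L φ) one_pos).1
  set q : ℕ := t.L + (t'.cat B).L with hq
  -- the bad part
  set bad : MF := fun n σ => ∑ ξ : SPat t.shp (t'.cat B).shp, if ξ.OK then
    ∑ R ∈ (ξ.E₁ ∩ ξ.E₂).powerset, (if ξ ∈ P ∧ R = ∅ then 0 else
      (bb p) ^ R.card • Sh p (prodShp t.shp (t'.cat B).shp ξ R) q n σ) else 0 with hbad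
  have hbadF : BadF p bad := by
    rw [hbad]
    refine BadF_sum univ _ fun ξ _ => ?_
    by_cases hOK : ξ.OK
    · simp only [if_pos hOK]
      refine BadF_sum _ _ fun R hR => ?_
      by_cases hg : ξ ∈ P ∧ R = ∅
      · simp only [if_pos hg]
        exact BadF_zero
      · simp only [if_neg hg]
        refine BadF_smul _ (BadF_Sh _ _ ?_)
        rcases q1 t t' B ht ht' ξ R hOK (Finset.mem_powerset.1 hR) with h | h | h
        · exact absurd ⟨by rw [hP, h.1]; exact Finset.mem_insert_self _ _, h.2⟩ hg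
        · obtain ⟨_, h2, φ, h3⟩ := h
          exact absurd ⟨by
            rw [hP, h3]
            exact Finset.mem_insert_of_mem (Finset.mem_image_of_mem _ (Finset.mem_univ φ)), h2⟩ hg
        · exact h
    · simp only [if_neg hOK]
      exact BadF_zero
  set c : ℕ → ℝ := fun n => (n : ℝ) * (cc t t' *
    ((((n - (B.L + 1)).descFactorial t.L : ℕ) : ℝ) / (n : ℝ) ^ t.L - 1)) with hc
  have hcc : 0 ≤ cc t t' := by
    unfold cc
    positivity
  have hcb : ∀ n, |c n| ≤ cc t t' * (t.L * ((B.L + 1 : ℕ) + t.L)) := by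
    intro n
    rcases Nat.eq_zero_or_pos n with rfl | hn
    · rw [hc]
      simp only [Nat.cast_zero, zero_mul, abs_zero]
      positivity
    · obtain ⟨h0, h1, h2⟩ := pr_desc n (B.L + 1) hn t.L
      have hn' : (0 : ℝ) < n := by exact_mod_cast hn
      have e : c n = -(cc t t' * (n * (1 - (((n - (B.L + 1)).descFactorial t.L : ℕ) : ℝ) /
          (n : ℝ) ^ t.L))) := by
        rw [hc]
        ring
      rw [e, abs_neg, abs_of_nonneg]
      · exact mul_le_mul_of_nonneg_left h2 hcc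
      · apply mul_nonneg hcc
        apply mul_nonneg hn'.le
        linarith
  have hF := BadF_add hbadF (BadF_Fc (p := p) B c _ hcb)
  refine BadF_congr hF fun n hn σ => ?_
  have hn' : (0 : ℝ) < n := by exact_mod_cast hn
  -- the product
  have e1 : Fc p t n σ * Fc p (t'.cat B) n σ = (∑ ξ : SPat t.shp (t'.cat B).shp,
      if ξ ∈ P then Sh p (prodShp t.shp (t'.cat B).shp ξ ∅) q n σ else 0) + bad n σ := by
    rw [Fc_eq_Sh, Fc_eq_Sh, pl p t.shp (t'.cat B).shp t.L (t'.cat B).L n σ hp hp1, hbad]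
    simp only
    rw [← Finset.sum_add_distrib]
    refine Finset.sum_congr rfl fun ξ _ => ?_
    by_cases hOK : ξ.OK
    · rw [if_pos hOK, if_pos hOK]
      have e2 : ∀ R ∈ (ξ.E₁ ∩ ξ.E₂).powerset,
          (bb p) ^ R.card • Sh p (prodShp t.shp (t'.cat B).shp ξ R) (t.L + (t'.cat B).L) n σ =
          (if R = ∅ then (if ξ ∈ P then Sh p (prodShp t.shp (t'.cat B).shp ξ ∅) q n σ else 0)
            else 0) +
          (if ξ ∈ P ∧ R = ∅ then 0 else
            (bb p) ^ R.card • Sh p (prodShp t.shp (t'.cat B).shp ξ R) q n σ) := by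
        intro R _
        by_cases hR : R = ∅
        · subst hR
          by_cases hx : ξ ∈ P
          · rw [if_pos rfl, if_pos hx, if_pos ⟨hx, rfl⟩]
            simp [hq]
          · rw [if_pos rfl, if_neg hx, if_neg (fun h => hx h.1)]
            simp [hq]
        · rw [if_neg hR, if_neg (fun h => hR h.2)]
          simp [hq]
      rw [Finset.sum_congr rfl e2, Finset.sum_add_distrib]
      congr 1
      rw [Finset.sum_ite_eq' (ξ.E₁ ∩ ξ.E₂).powerset ∅
        (fun _ => if ξ ∈ P then Sh p (prodShp t.shp (t'.cat B).shp ξ ∅) q n σ else 0)]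
      rw [if_pos (Finset.empty_mem_powerset _)]
    · rw [if_neg hOK, if_neg hOK, if_neg (fun h => hOK (hPOK ξ h))]
      simp
  have e3 : (∑ ξ : SPat t.shp (t'.cat B).shp,
      if ξ ∈ P then Sh p (prodShp t.shp (t'.cat B).shp ξ ∅) q n σ else 0) =
      Fc p (t.cat (t'.cat B)) n σ + (cc t t' *
        ((((n - (B.L + 1)).descFactorial t.L : ℕ) : ℝ) / (n : ℝ) ^ t.L)) • Fc p B n σ := by
    rw [← Finset.sum_filter]
    have e4 : (univ.filter fun ξ : SPat t.shp (t'.cat B).shp => ξ ∈ P) = P := by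
      ext ξ
      simp
    rw [e4, hP, Finset.sum_insert, (q2 p t (t'.cat B) n σ).2.2]
    · congr 1
      rw [Finset.sum_image (fun φ _ ψ _ h => pr_perf_inj t t' B h)]
      have e5 : ∀ φ ∈ (univ : Finset (CIso t t')),
          Sh p (prodShp t.shp (t'.cat B).shp (perf t t' B φ) ∅) q n σ =
          ((((n - (B.L + 1)).descFactorial t.L : ℕ) : ℝ) / (n : ℝ) ^ t.L) • Fc p B n σ :=
        fun φ _ => (q3 p t t' B φ n σ ht ht' (pr_ciso_L φ) hn).2
      rw [Finset.sum_congr rfl e5, Finset.sum_const, Finset.card_univ, ← Nat.card_eq_fintype_card]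
      rw [← Nat.cast_smul_eq_nsmul ℝ, smul_smul]
      rfl
    · intro h
      obtain ⟨φ, _, h1⟩ := Finset.mem_image.1 h
      exact pr_perf_ne t t' B ht'.1 φ h1
  rw [e1, e3]
  have e6 : c n / n = cc t t' *
      ((((n - (B.L + 1)).descFactorial t.L : ℕ) : ℝ) / (n : ℝ) ^ t.L) - cc t t' := by
    rw [hc]
    field_simp
  rw [e6, sub_smul]
  abel

end Pool.Agent.H276R2.Gn
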