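import Pool.Agent.H276R2.Gn.Spec

set_option autoImplicit false

namespace Pool.Agent.H276R2.Gn

open Finset Real

theorem q1_ofNat (L : ℕ) (a : Fin (L + 1)) : Fin.ofNat (L + 1) a.val = a := by
  apply Fin.ext
  simp only [Fin.ofNat]
  exact Nat.mod_eq_of_lt a.isLt

theorem q1_mem_shp (B : Chn) (a b : Fin (B.L + 1)) :
    s(a, b) ∈ B.shp.E ↔ B.Adj a.val b.val := by
  unfold Chn.shp Chn.Adj
  simp only [Finset.mem_image, Prod.exists]
  constructor
  · rintro ⟨x, y, h, he⟩
    have hlt := B.lt _ h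
    simp only at hlt
    have hx : (Fin.ofNat (B.L + 1) x).val = x := by
      simp only [Fin.ofNat]; exact Nat.mod_eq_of_lt (by omega)
    have hy : (Fin.ofNat (B.L + 1) y).val = y := by
      simp only [Fin.ofNat]; exact Nat.mod_eq_of_lt (by omega)
    rw [Sym2.eq_iff] at he
    rcases he with ⟨h1, h2⟩ | ⟨h1, h2⟩
    · left; rw [← h1, ← h2, hx, hy]; exact h
    · right; rw [← h1, ← h2, hx, hy]; exact h
  · rintro (h | h)
    · exact ⟨a.val, b.val, h, by rw [q1_ofNat, q1_ofNat]⟩
    · exact ⟨b.val, a.val, h, by rw [q1_ofNat, q1_ofNat]; exact Sym2.eq_swap⟩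

theorem q1_adj_comm (B : Chn) (a b : ℕ) : B.Adj a b ↔ B.Adj b a := by
  unfold Chn.Adj; tauto

theorem q1_adj_ne (B : Chn) (a b : ℕ) (h : B.Adj a b) : a ≠ b := by
  rcases h with h | h
  · have := B.lt _ h; simp only at this; omega
  · have := B.lt _ h; simp only at this; omega

theorem q1_adj_le (B : Chn) (a b : ℕ) (h : B.Adj a b) : a ≤ B.L ∧ b ≤ B.L := by
  rcases h with h | h
  · have := B.lt _ h; simp only at this; omega
  · have := B.lt _ h; simp only at this; omega

theorem q1_adj_succ (B : Chn) (a : ℕ) (h : a < B.L) : B.Adj a (a + 1) := Or.inl (B.unit a h)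

theorem q1_cat_adj (t B : Chn) (a b : ℕ) (ha : a ≤ t.L) (hb : b ≤ t.L) :
    (t.cat B).Adj a b ↔ t.Adj a b := by
  unfold Chn.Adj Chn.cat
  simp only [Finset.mem_union, Finset.mem_image, Prod.mk.injEq, Prod.exists]
  have key : ∀ a b : ℕ, a ≤ t.L → b ≤ t.L →
      ¬ ∃ a_1 b_1, (a_1, b_1) ∈ B.E ∧ a_1 + t.L = a ∧ b_1 + t.L = b := by
    rintro a b ha hb ⟨c, d, h, h1, h2⟩
    have := B.lt _ h
    simp only at this
    omega
  have k1 := key a b ha hb
  have k2 := key b a hb ha
  simp only [k1, k2, or_false]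

/-! ### General facts on patterns -/

section

variable {H₁ H₂ : Shp} (ξ : SPat H₁ H₂)

theorem q1_emb_some (y : H₂.X) (x : H₁.X) (h : ξ y = some x) : ξ.emb y = Sum.inl x := by
  unfold SPat.emb
  split
  · next x' h' => rw [h] at h'; cases h'; rfl
  · next h' => rw [h] at h'; cases h'

theorem q1_emb_none (y : H₂.X) (h : ξ y = none) : ξ.emb y = Sum.inr ⟨y, h⟩ := by
  unfold SPat.emb
  split
  · next x' h' => rw [h] at h'; cases h'
  · next h' => rfl

theorem q1_emb_inl (y : H₂.X) (x : H₁.X) (h : ξ.emb y = Sum.inl x) : ξ y = some x := by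
  cases h' : ξ y with
  | none => rw [q1_emb_none ξ y h'] at h; cases h
  | some x' => rw [q1_emb_some ξ y x' h'] at h; cases h; rfl

theorem q1_emb_inr (y : H₂.X) (y' : {y : H₂.X // ξ y = none}) (h : ξ.emb y = Sum.inr y') :
    y = y'.1 := by
  cases h' : ξ y with
  | none => rw [q1_emb_none ξ y h'] at h; cases h; rfl
  | some x' => rw [q1_emb_some ξ y x' h'] at h; cases h

theorem q1_emb_inj (hξ : ξ.OK) : Function.Injective ξ.emb := by
  intro y y' h
  cases h' : ξ y with
  | none =>
    rw [q1_emb_none ξ y h'] at h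
    exact (q1_emb_inr ξ y' _ h.symm).symm
  | some x =>
    rw [q1_emb_some ξ y x h'] at h
    exact hξ.2 y y' x h' (q1_emb_inl ξ y' x h.symm)

theorem q1_mem_E₁ (a b : ξ.V) :
    s(a, b) ∈ ξ.E₁ ↔ ∃ x x', a = Sum.inl x ∧ b = Sum.inl x' ∧ s(x, x') ∈ H₁.E := by
  unfold SPat.E₁
  simp only [Finset.mem_image]
  constructor
  · rintro ⟨e, he, h⟩
    induction e using Sym2.ind with
    | _ x x' =>
      rw [Sym2.map_mk, Sym2.eq_iff] at h
      rcases h with ⟨h1, h2⟩ | ⟨h1, h2⟩
      · exact ⟨x, x', h1.symm, h2.symm, he⟩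
      · exact ⟨x', x, h2.symm, h1.symm, by rw [Sym2.eq_swap]; exact he⟩
  · rintro ⟨x, x', rfl, rfl, h⟩
    exact ⟨_, h, by rw [Sym2.map_mk]⟩

theorem q1_mem_E₂ (a b : ξ.V) :
    s(a, b) ∈ ξ.E₂ ↔ ∃ y y', a = ξ.emb y ∧ b = ξ.emb y' ∧ s(y, y') ∈ H₂.E := by
  unfold SPat.E₂
  simp only [Finset.mem_image]
  constructor
  · rintro ⟨e, he, h⟩
    induction e using Sym2.ind with
    | _ x x' =>
      rw [Sym2.map_mk, Sym2.eq_iff] at h
      rcases h with ⟨h1, h2⟩ | ⟨h1, h2⟩
      · exact ⟨x, x', h1.symm, h2.symm, he⟩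
      · exact ⟨x', x, h2.symm, h1.symm, by rw [Sym2.eq_swap]; exact he⟩
  · rintro ⟨x, x', rfl, rfl, h⟩
    exact ⟨_, h, by rw [Sym2.map_mk]⟩

variable (R : Finset (Sym2 ξ.V))

/-- Isolated unmarked vertices of the product. -/
def q1Good (z : ξ.V) : Prop := z ≠ (Sum.inl H₁.s : ξ.V) ∧ z ≠ ξ.emb H₂.t ∧
  ∀ e ∈ (prodShp H₁ H₂ ξ R).E, z ∉ (show Sym2 ξ.V from e)

theorem q1_mem_prod (a b : ξ.V) (hab : a ≠ b) : (s(a, b) : Sym2 ξ.V) ∈ (prodShp H₁ H₂ ξ R).E ↔
    (s(a, b) ∈ ξ.E₁ ∧ s(a, b) ∉ ξ.E₂) ∨ (s(a, b) ∈ ξ.E₂ ∧ s(a, b) ∉ ξ.E₁) ∨ s(a, b) ∈ R := by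
  unfold prodShp
  simp only [Finset.mem_filter, Finset.mem_union, Finset.mem_symmDiff]
  have : ¬ (s(a, b) : Sym2 ξ.V).IsDiag := by rwa [Sym2.mk_isDiag_iff]
  tauto

theorem q1_iff (z : ξ.V) (hz : q1Good ξ R z) (b : ξ.V) (hb : z ≠ b) :
    (s(z, b) ∈ ξ.E₁ ↔ s(z, b) ∈ ξ.E₂) ∧ s(z, b) ∉ R := by
  have h := hz.2.2 s(z, b)
  have h2 : (s(z, b) : Sym2 ξ.V) ∉ (prodShp H₁ H₂ ξ R).E := fun hh => h hh (Sym2.mem_mk_left z b)
  rw [q1_mem_prod ξ R z b hb] at h2
  tauto

theorem q1_ne₁ (x x' : H₁.X) (h : s(x, x') ∈ H₁.E) : x ≠ x' := by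
  intro he
  exact H₁.loopless _ h (by rw [Sym2.mk_isDiag_iff]; exact he)

theorem q1_ne₂ (y y' : H₂.X) (h : s(y, y') ∈ H₂.E) : y ≠ y' := by
  intro he
  exact H₂.loopless _ h (by rw [Sym2.mk_isDiag_iff]; exact he)

/-- Good vertices are matched. -/
theorem q1_good_matched (h₁ : ∀ x : H₁.X, ∃ x', s(x, x') ∈ H₁.E)
    (h₂ : ∀ y : H₂.X, ∃ y', s(y, y') ∈ H₂.E) (z : ξ.V) (hz : q1Good ξ R z) :
    ∃ y x, ξ y = some x ∧ ξ.emb y = z := by
  rcases z with x | ⟨y, hy⟩
  · obtain ⟨x', hx'⟩ := h₁ x
    have hne : (Sum.inl x : ξ.V) ≠ Sum.inl x' := by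
      intro h; exact q1_ne₁ x x' hx' (Sum.inl_injective h)
    have h := (q1_iff ξ R _ hz _ hne).1.mp ((q1_mem_E₁ ξ _ _).mpr ⟨x, x', rfl, rfl, hx'⟩)
    obtain ⟨y, y', e1, e2, -⟩ := (q1_mem_E₂ ξ _ _).mp h
    exact ⟨y, x, q1_emb_inl ξ y x e1.symm, e1.symm⟩
  · exfalso
    obtain ⟨y', hy'⟩ := h₂ y
    have hne : (Sum.inr ⟨y, hy⟩ : ξ.V) ≠ ξ.emb y' := by
      intro h
      exact q1_ne₂ y y' hy' (q1_emb_inr ξ y' _ h.symm).symm
    have h := (q1_iff ξ R _ hz _ hne).1.mpr
      ((q1_mem_E₂ ξ _ _).mpr ⟨y, y', (q1_emb_none ξ y hy).symm, rfl, hy'⟩)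
    obtain ⟨x, x', e1, -, -⟩ := (q1_mem_E₁ ξ _ _).mp h
    cases e1

/-- Neighbours in the second shape of good vertices are matched. -/
theorem q1_g1 (hξ : ξ.OK) (y : H₂.X) (hz : q1Good ξ R (ξ.emb y)) (y' : H₂.X)
    (h : s(y, y') ∈ H₂.E) : ∃ x', ξ y' = some x' := by
  have hne : ξ.emb y ≠ ξ.emb y' := fun he => q1_ne₂ y y' h (q1_emb_inj ξ hξ he)
  have h2 := (q1_iff ξ R _ hz _ hne).1.mpr ((q1_mem_E₂ ξ _ _).mpr ⟨y, y', rfl, rfl, h⟩)
  obtain ⟨x, x', -, e2, -⟩ := (q1_mem_E₁ ξ _ _).mp h2
  exact ⟨x', q1_emb_inl ξ y' x' e2⟩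

/-- Neighbours in the first shape of good vertices are matched. -/
theorem q1_g2 (y : H₂.X) (x : H₁.X) (hy : ξ y = some x) (hz : q1Good ξ R (ξ.emb y))
    (x' : H₁.X) (h : s(x, x') ∈ H₁.E) : ∃ y', ξ y' = some x' := by
  rw [q1_emb_some ξ y x hy] at hz
  have hne : (Sum.inl x : ξ.V) ≠ Sum.inl x' := by
    intro he; exact q1_ne₁ x x' h (Sum.inl_injective he)
  have h2 := (q1_iff ξ R _ hz _ hne).1.mp ((q1_mem_E₁ ξ _ _).mpr ⟨x, x', rfl, rfl, h⟩)
  obtain ⟨y1, y', -, e2, -⟩ := (q1_mem_E₂ ξ _ _).mp h2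
  exact ⟨y', q1_emb_inl ξ y' x' e2.symm⟩

theorem q1_g3 (hξ : ξ.OK) (y y' : H₂.X) (x x' : H₁.X) (hy : ξ y = some x) (hy' : ξ y' = some x')
    (hz : q1Good ξ R (ξ.emb y)) : s(y, y') ∈ H₂.E ↔ s(x, x') ∈ H₁.E := by
  by_cases hyy : y = y'
  · subst hyy
    rw [hy] at hy'
    cases hy'
    constructor
    · intro h; exact absurd rfl (q1_ne₂ _ _ h)
    · intro h; exact absurd rfl (q1_ne₁ _ _ h)
  · have hne : ξ.emb y ≠ ξ.emb y' := fun he => hyy (q1_emb_inj ξ hξ he)
    have h := (q1_iff ξ R _ hz _ hne).1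
    rw [q1_mem_E₁, q1_mem_E₂] at h
    constructor
    · intro h2
      obtain ⟨x1, x2, e1, e2, h3⟩ := h.mpr ⟨y, y', rfl, rfl, h2⟩
      rw [q1_emb_some ξ y x hy] at e1
      rw [q1_emb_some ξ y' x' hy'] at e2
      cases e1; cases e2
      exact h3
    · intro h2
      obtain ⟨y1, y2, e1, e2, h3⟩ := h.mp
        ⟨x, x', q1_emb_some ξ y x hy, q1_emb_some ξ y' x' hy', h2⟩
      rw [q1_emb_inj ξ hξ e1, q1_emb_inj ξ hξ e2]
      exact h3

/-- At most one matched vertex is not good. -/
theorem q1_bad (h₁ : ∀ x : H₁.X, ∃ x', s(x, x') ∈ H₁.E)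
    (h₂ : ∀ y : H₂.X, ∃ y', s(y, y') ∈ H₂.E)
    (hc : Fintype.card H₁.X + Fintype.card H₂.X ≤
      Fintype.card (prodShp H₁ H₂ ξ R).X + (prodShp H₁ H₂ ξ R).iso + 1)
    (y y' : H₂.X) (x x' : H₁.X) (hy : ξ y = some x) (hy' : ξ y' = some x')
    (hz : ¬ q1Good ξ R (ξ.emb y)) (hz' : ¬ q1Good ξ R (ξ.emb y')) : y = y' := by
  classical
  by_contra hne
  have hcard : Fintype.card (prodShp H₁ H₂ ξ R).X =
      Fintype.card H₁.X + Fintype.card {y : H₂.X // ξ y = none} := by
    have : Fintype.card (prodShp H₁ H₂ ξ R).X = Fintype.card ξ.V := rfl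
    rw [this, Fintype.card_sum]
  have hcard2 : Fintype.card {y : H₂.X // ξ y = none} + #{y : H₂.X | ξ y ≠ none} =
      Fintype.card H₂.X := by
    rw [Fintype.card_subtype]
    rw [← Finset.card_univ]
    exact Finset.card_filter_add_card_filter_not (s := (Finset.univ : Finset H₂.X)) (fun y => ξ y = none)
  have hiso : (prodShp H₁ H₂ ξ R).iso ≤ #(({y : H₂.X | ξ y ≠ none} : Finset H₂.X).erase y |>.erase y') := by
    have memG : ∀ z : ξ.V, z ∈ ({z : ξ.V | q1Good ξ R z} : Finset ξ.V) ↔ q1Good ξ R z := by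
      intro z; simp
    have e1 : (prodShp H₁ H₂ ξ R).iso ≤ #{z : ξ.V | q1Good ξ R z} := by
      unfold Shp.iso
      apply Finset.card_le_card_of_injOn (fun a : (prodShp H₁ H₂ ξ R).X => (show ξ.V from a))
      · intro a ha
        rw [Finset.mem_coe, Finset.mem_filter] at ha
        exact (memG a).mpr ha.2
      · intro a _ b _ h; exact h
    refine e1.trans ?_
    have e2 : ({z : ξ.V | q1Good ξ R z} : Finset ξ.V) ⊆
        ((({y : H₂.X | ξ y ≠ none} : Finset H₂.X).erase y).erase y').image ξ.emb := by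
      intro z hz0
      simp only [Finset.mem_filter, Finset.mem_univ, true_and] at hz0
      obtain ⟨y0, x0, hx0, he0⟩ := q1_good_matched ξ R h₁ h₂ z hz0
      refine Finset.mem_image.mpr ⟨y0, ?_, he0⟩
      rw [← he0] at hz0
      simp only [Finset.mem_erase, Finset.mem_filter, Finset.mem_univ, true_and]
      refine ⟨?_, ?_, ?_⟩
      · rintro rfl; exact hz' hz0
      · rintro rfl; exact hz hz0
      · rw [hx0]; simp
    exact (Finset.card_le_card e2).trans Finset.card_image_le
  have hm1 : y ∈ ({y : H₂.X | ξ y ≠ none} : Finset H₂.X) := by simp [hy]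
  have hm2 : y' ∈ (({y : H₂.X | ξ y ≠ none} : Finset H₂.X).erase y) := by
    simp only [Finset.mem_erase, Finset.mem_filter, Finset.mem_univ, true_and]
    exact ⟨fun h => hne h.symm, by rw [hy']; simp⟩
  have c1 := Finset.card_erase_add_one hm1
  have c2 := Finset.card_erase_add_one hm2
  omega

end


/-- The combinatorial core. -/
theorem q1_core (t C : Chn) (hT : t.IsTr) (f : Fin (C.L + 1) → Option (Fin (t.L + 1)))
    (G : Fin (C.L + 1) → Prop) (f0 : f 0 = some (Fin.last _))
    (finj : ∀ y y' x, f y = some x → f y' = some x → y = y')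
    (g1 : ∀ y, G y → ∀ y' : Fin (C.L + 1), C.Adj y.val y'.val → ∃ x', f y' = some x')
    (g2 : ∀ y x, f y = some x → G y → ∀ x' : Fin (t.L + 1), t.Adj x.val x'.val →
      ∃ y', f y' = some x')
    (g4a : ∀ y, G y → f y ≠ some 0) (g4b : ∀ y, G y → y ≠ Fin.last _)
    (bad : ∀ y y' x x', f y = some x → f y' = some x' → ¬ G y → ¬ G y' → y = y')
    (hne : ∃ y x, y ≠ 0 ∧ f y = some x) :
    ∃ z' : Fin (C.L + 1), f z' = some 0 ∧ z'.val = t.L ∧ G 0 ∧
      (∀ y, (∃ x, f y = some x) ↔ y.val ≤ z'.val) ∧ (∀ y x, f y = some x → y ≠ z' → G y) := by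
  have hL := hT.1
  -- the source is good
  have hG0 : G 0 := by
    by_contra h0
    obtain ⟨y₁, x₁, hy₁, hx₁⟩ := hne
    have hgood : ∀ y x, f y = some x → y ≠ 0 → G y := by
      intro y x hx hy
      by_contra hG
      exact hy (bad y 0 x _ hx f0 hG h0)
    have hx1 : x₁.val < t.L := by
      have h1 : x₁ ≠ Fin.last _ := by
        rintro rfl
        exact hy₁ (finj _ _ _ hx₁ f0)
      have := Fin.val_lt_last h1
      exact this
    have key : ∀ k : ℕ, k ≤ x₁.val → ∃ y x, f y = some x ∧ x.val = x₁.val - k := by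
      intro k
      induction k with
      | zero => intro _; exact ⟨y₁, x₁, hx₁, by simp⟩
      | succ k ih =>
        intro hk
        obtain ⟨y, x, hx, hv⟩ := ih (by omega)
        have hy : y ≠ 0 := by
          rintro rfl
          rw [f0] at hx
          have := Option.some_injective _ hx
          rw [← this] at hv
          simp only [Fin.val_last] at hv
          omega
        have hadj : t.Adj x.val (⟨x₁.val - (k + 1), by omega⟩ : Fin (t.L + 1)).val := by
          rw [q1_adj_comm]
          show t.Adj (x₁.val - (k + 1)) x.val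
          have h1 : x.val = (x₁.val - (k + 1)) + 1 := by omega
          rw [h1]
          exact q1_adj_succ t _ (by omega)
        obtain ⟨y', hy'⟩ := g2 y x hx (hgood y x hx hy) _ hadj
        exact ⟨y', _, hy', rfl⟩
    obtain ⟨y, x, hx, hv⟩ := key x₁.val le_rfl
    have hx0 : x = 0 := by
      apply Fin.ext
      rw [hv]; simp
    subst hx0
    have hy : y ≠ 0 := by
      rintro rfl
      rw [f0] at hx
      have := congrArg Fin.val (Option.some_injective _ hx)
      simp only [Fin.val_last, Fin.val_zero] at this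
      omega
    exact g4a y (hgood y _ hx hy) hx
  -- the vertex matched with the source of the first chain
  have hroot : t.Adj (Fin.last t.L).val (0 : Fin (t.L + 1)).val := by
    rw [q1_adj_comm]
    simp only [Fin.val_last, Fin.val_zero]
    exact Or.inl hT.2
  obtain ⟨z', hz'⟩ := g2 0 _ f0 hG0 0 hroot
  have hbz : ¬ G z' := fun h => g4a z' h hz'
  have hgood : ∀ y x, f y = some x → y ≠ z' → G y := by
    intro y x hx hy
    by_contra hG
    exact hy (bad y z' x _ hx hz' hG hbz)
  -- all vertices of the first chain are matched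
  have key : ∀ k : ℕ, k ≤ t.L → ∃ y x, f y = some x ∧ x.val = t.L - k := by
    intro k
    induction k with
    | zero => intro _; exact ⟨0, _, f0, by simp⟩
    | succ k ih =>
      intro hk
      obtain ⟨y, x, hx, hv⟩ := ih (by omega)
      have hy : y ≠ z' := by
        rintro rfl
        rw [hz'] at hx
        have := Option.some_injective _ hx
        rw [← this] at hv
        simp only [Fin.val_zero] at hv
        omega
      have hadj : t.Adj x.val (⟨t.L - (k + 1), by omega⟩ : Fin (t.L + 1)).val := by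
        rw [q1_adj_comm]
        show t.Adj (t.L - (k + 1)) x.val
        have h1 : x.val = (t.L - (k + 1)) + 1 := by omega
        rw [h1]
        exact q1_adj_succ t _ (by omega)
      obtain ⟨y', hy'⟩ := g2 y x hx (hgood y x hx hy) _ hadj
      exact ⟨y', _, hy', rfl⟩
  have hall : ∀ x : Fin (t.L + 1), ∃ y, f y = some x := by
    intro x
    obtain ⟨y, x', hx', hv⟩ := key (t.L - x.val) (by omega)
    have hxx : x' = x := by
      apply Fin.ext
      have := x.isLt
      omega
    exact ⟨y, by rw [hx', hxx]⟩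
  -- the matched vertices of the second chain
  have up : ∀ k : ℕ, (hk : k ≤ z'.val) → ∃ x, f ⟨k, by have := z'.isLt; omega⟩ = some x := by
    intro k
    induction k with
    | zero => intro _; exact ⟨_, f0⟩
    | succ k ih =>
      intro hk
      obtain ⟨x, hx⟩ := ih (by omega)
      have hy : (⟨k, by have := z'.isLt; omega⟩ : Fin (C.L + 1)) ≠ z' := by
        intro h
        have := congrArg Fin.val h
        simp only at this
        omega
      exact g1 _ (hgood _ x hx hy) _ (q1_adj_succ C k (by have := z'.isLt; omega))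
  have above : ∀ y : Fin (C.L + 1), z'.val < y.val → ¬ ∃ x, f y = some x := by
    rintro y hy ⟨x, hx⟩
    have step : ∀ k : ℕ, (hk : y.val + k ≤ C.L) →
        ∃ x, f ⟨y.val + k, by omega⟩ = some x := by
      intro k
      induction k with
      | zero => intro _; exact ⟨x, hx⟩
      | succ k ih =>
        intro hk
        obtain ⟨x, hx⟩ := ih (by omega)
        have hy : (⟨y.val + k, by omega⟩ : Fin (C.L + 1)) ≠ z' := by
          intro h
          have := congrArg Fin.val h
          simp only at this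
          omega
        exact g1 _ (hgood _ x hx hy) _ (q1_adj_succ C (y.val + k) (by omega))
    obtain ⟨x', hx'⟩ := step (C.L - y.val) (by have := y.isLt; omega)
    have hlast : (⟨y.val + (C.L - y.val), by have := y.isLt; omega⟩ : Fin (C.L + 1)) =
        Fin.last _ := by
      apply Fin.ext
      simp only [Fin.val_last]
      have := y.isLt
      omega
    rw [hlast] at hx'
    have hne' : (Fin.last C.L) ≠ z' := by
      intro h
      have := congrArg Fin.val h
      simp only [Fin.val_last] at this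
      have := y.isLt
      omega
    exact g4b _ (hgood _ _ hx' hne') rfl
  have hM : ∀ y, (∃ x, f y = some x) ↔ y.val ≤ z'.val := by
    intro y
    constructor
    · intro h
      by_contra hlt
      exact above y (by omega) h
    · intro h
      exact up y.val h
  refine ⟨z', hz', ?_, hG0, hM, hgood⟩
  -- counting
  choose g hg using hall
  have ginj : Function.Injective g := by
    intro a b hab
    have h1 := hg a
    have h2 := hg b
    rw [hab, h2] at h1
    exact (Option.some_injective _ h1).symm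
  have c1 : t.L + 1 ≤ z'.val + 1 := by
    have h1 : (Finset.univ.image g) ⊆ Finset.Iic z' := by
      intro y hy
      obtain ⟨x, -, rfl⟩ := Finset.mem_image.mp hy
      rw [Finset.mem_Iic, Fin.le_def]
      exact (hM (g x)).mp ⟨x, hg x⟩
    have h2 := Finset.card_le_card h1
    rw [Finset.card_image_of_injective _ ginj, Finset.card_univ, Fintype.card_fin,
      Fin.card_Iic] at h2
    exact h2
  have c2 : z'.val + 1 ≤ t.L + 1 := by
    have h1 : ∀ y ∈ Finset.Iic z', ∃ x, f y = some x := by
      intro y hy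
      rw [Finset.mem_Iic, Fin.le_def] at hy
      exact (hM y).mpr hy
    choose! h hh using h1
    have h2 : #((Finset.Iic z').image h) ≤ t.L + 1 := by
      calc #((Finset.Iic z').image h) ≤ #(Finset.univ : Finset (Fin (t.L + 1))) :=
            Finset.card_le_card (Finset.subset_univ _)
        _ = t.L + 1 := by simp
    rw [Finset.card_image_of_injOn, Fin.card_Iic] at h2
    · exact h2
    · intro a ha b hb hab
      simp only [Finset.mem_coe] at ha hb
      have e1 := hh a ha
      have e2 := hh b hb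
      rw [← hab] at e2
      exact finj a b _ e1 e2
  omega


theorem q1_nb (B : Chn) (hB : 0 < B.L) (x : B.shp.X) : ∃ x', s(x, x') ∈ B.shp.E := by
  change Fin (B.L + 1) at x
  by_cases h : x.val < B.L
  · refine ⟨(⟨x.val + 1, by omega⟩ : Fin (B.L + 1)), ?_⟩
    exact (q1_mem_shp B x _).mpr (q1_adj_succ B _ h)
  · refine ⟨(⟨x.val - 1, by have := x.isLt; omega⟩ : Fin (B.L + 1)), ?_⟩
    refine (q1_mem_shp B x _).mpr ?_
    rw [q1_adj_comm]
    have h1 : x.val = (x.val - 1) + 1 := by have := x.isLt; omega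
    have h2 := q1_adj_succ B (x.val - 1) (by have := x.isLt; omega)
    rw [← h1] at h2
    exact h2

theorem t_Q1 : S_Q1 := by
  classical
  intro t t' B hT hT' ξ R hξ hR
  by_contra hcon
  rw [not_or, not_or] at hcon
  obtain ⟨hA, hB, hC⟩ := hcon
  have hL1 := hT.1
  have hL2 := hT'.1
  have hcL : (t'.cat B).L = t'.L + B.L := rfl
  have h₁ := q1_nb t hL1
  have h₂ := q1_nb (t'.cat B) (by rw [hcL]; omega)
  have hc : Fintype.card t.shp.X + Fintype.card (t'.cat B).shp.X ≤
      Fintype.card (prodShp _ _ ξ R).X + (prodShp _ _ ξ R).iso + 1 := by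
    rw [shp_card, shp_card]
    omega
  have hξ0 : ξ (0 : Fin ((t'.cat B).L + 1)) = some (Fin.last t.L) := hξ.1
  by_cases hne : ∃ (y : Fin ((t'.cat B).L + 1)) (x : Fin (t.L + 1)), y ≠ 0 ∧ ξ y = some x
  swap
  · -- only the source is matched
    apply hA
    have honly : ∀ (y : Fin ((t'.cat B).L + 1)) (x : Fin (t.L + 1)), ξ y = some x → y = 0 := by
      intro y x hx
      by_contra hy
      exact hne ⟨y, x, hy, hx⟩
    constructor
    · funext y
      unfold triv
      split_ifs with h
      · rw [h]; exact hξ.1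
      · cases hy : ξ y with
        | none => rfl
        | some x => exact absurd (honly y x hy) h
    · rw [Finset.eq_empty_iff_forall_notMem]
      intro e he
      have he' := hR he
      rw [Finset.mem_inter] at he'
      induction e using Sym2.ind with
      | _ a b =>
        obtain ⟨x, x', e1, e2, h3⟩ := (q1_mem_E₁ ξ a b).mp he'.1
        obtain ⟨y, y', e3, e4, -⟩ := (q1_mem_E₂ ξ a b).mp he'.2
        have h5 : ξ y = some x := q1_emb_inl ξ y x (by rw [← e3, e1])
        have h6 : ξ y' = some x' := q1_emb_inl ξ y' x' (by rw [← e4, e2])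
        have h7 := honly y x h5
        have h8 := honly y' x' h6
        rw [h7] at h5
        rw [h8, h5] at h6
        exact q1_ne₁ x x' h3 (Option.some_injective _ h6)
  · -- the perfect case
    obtain ⟨z', hz', hzL, hG0, hM, hgood⟩ := q1_core t (t'.cat B) hT ξ
      (fun y => q1Good ξ R (ξ.emb y)) hξ0 (fun y y' x h h' => hξ.2 y y' x h h')
      (by
        intro y hG y' hadj
        exact q1_g1 ξ R hξ y hG y' ((q1_mem_shp (t'.cat B) y y').mpr hadj))
      (by
        intro y x hx hG x' hadj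
        exact q1_g2 ξ R y x hx hG x' ((q1_mem_shp t x x').mpr hadj))
      (by
        intro y hG h0
        have h1 := q1_emb_some ξ y _ h0
        exact hG.1 h1)
      (by
        intro y hG h0
        apply hG.2.1
        rw [h0]
        rfl)
      (by
        intro y y' x x' hx hx' hG hG'
        exact q1_bad ξ R h₁ h₂ hc y y' x x' hx hx' hG hG')
      hne
    -- the position of z'
    have hroot2 : (t'.cat B).Adj 0 t'.L := by
      have := hT'.2
      left
      exact Finset.mem_union_left _ this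
    have hle1 : t'.L ≤ z'.val := by
      have h1 := q1_g1 ξ R hξ (0 : Fin ((t'.cat B).L + 1)) hG0
        (⟨t'.L, by omega⟩ : Fin ((t'.cat B).L + 1))
        ((q1_mem_shp (t'.cat B) 0 _).mpr hroot2)
      exact (hM _).mp h1
    have hadj0 : (t'.cat B).Adj 0 z'.val := by
      have h1 := (q1_g3 ξ R hξ (0 : Fin ((t'.cat B).L + 1)) z' _ _ hξ0 hz' hG0).mpr (by
        refine (q1_mem_shp t _ _).mpr ?_
        rw [q1_adj_comm]
        exact Or.inl hT.2)
      exact (q1_mem_shp (t'.cat B) 0 z').mp h1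
    have hle2 : z'.val ≤ t'.L := by
      rcases hadj0 with h | h
      · rcases Finset.mem_union.mp h with h | h
        · exact (t'.lt _ h).2
        · obtain ⟨e, he, h⟩ := Finset.mem_image.mp h
          rw [Prod.mk.injEq] at h
          omega
      · have := (t'.cat B).lt _ h
        simp only at this
        omega
    have hz'L : z'.val = t'.L := le_antisymm hle2 hle1
    have hLL : t.L = t'.L := by omega
    -- the isomorphism
    have hex : ∀ y : Fin (t'.L + 1), ∃ x : Fin (t.L + 1),
        ξ (⟨y.val, by have := y.isLt; omega⟩ : Fin ((t'.cat B).L + 1)) = some x := by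
      intro y
      exact (hM _).mpr (by have := y.isLt; simp only; omega)
    choose g hg using hex
    have ginj : Function.Injective g := by
      intro a b hab
      have h1 := hg a
      have h2 := hg b
      rw [← hab] at h2
      have h3 := hξ.2 _ _ _ h1 h2
      apply Fin.ext
      exact congrArg (fun q : Fin ((t'.cat B).L + 1) => q.val) h3
    have gbij : Function.Bijective g := by
      rw [Fintype.bijective_iff_injective_and_card]
      exact ⟨ginj, by simp [hLL]⟩
    have hg0 : g 0 = Fin.last _ := by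
      have h1 := hg 0
      have h2 : (⟨(0 : Fin (t'.L + 1)).val, by simp⟩ : Fin ((t'.cat B).L + 1)) = 0 := by
        apply Fin.ext; simp
      rw [h2, hξ0] at h1
      exact (Option.some_injective _ h1).symm
    have hglast : g (Fin.last _) = 0 := by
      have h1 := hg (Fin.last _)
      have h2 : (⟨(Fin.last t'.L).val, by simp only [Fin.val_last]; omega⟩ :
          Fin ((t'.cat B).L + 1)) = z' := by
        apply Fin.ext
        simp only [Fin.val_last]
        exact hz'L.symm
      rw [h2, hz'] at h1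
      exact (Option.some_injective _ h1).symm
    have gadj : ∀ a b : Fin (t'.L + 1), t'.Adj a b ↔ t.Adj (g a : ℕ) (g b : ℕ) := by
      -- one good end
      have main : ∀ a b : Fin (t'.L + 1), a.val ≠ t'.L →
          (t'.Adj a b ↔ t.Adj (g a : ℕ) (g b : ℕ)) := by
        intro a b ha
        have hga := hg a
        have hgb := hg b
        have hne2 : (⟨a.val, by have := a.isLt; omega⟩ : Fin ((t'.cat B).L + 1)) ≠ z' := by
          intro h
          have := congrArg Fin.val h
          simp only at this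
          omega
        have hG := hgood _ _ hga hne2
        have h3 := q1_g3 ξ R hξ _ _ _ _ hga hgb hG
        have h4 := (q1_mem_shp (t'.cat B) ⟨a.val, by have := a.isLt; omega⟩
          ⟨b.val, by have := b.isLt; omega⟩)
        have h5 := q1_mem_shp t (g a) (g b)
        have h6 := q1_cat_adj t' B a.val b.val (by have := a.isLt; omega)
          (by have := b.isLt; omega)
        rw [← h6]
        simp only at h4
        rw [← h4, ← h5]
        exact h3
      intro a b
      by_cases ha : a.val = t'.L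
      · by_cases hb : b.val = t'.L
        · have : a = b := Fin.ext (by omega)
          subst this
          constructor
          · intro h; exact absurd rfl (q1_adj_ne _ _ _ h)
          · intro h; exact absurd rfl (q1_adj_ne _ _ _ h)
        · rw [q1_adj_comm, main b a hb, q1_adj_comm]
      · exact main a b ha
    apply hB
    refine ⟨hLL, ?_, ⟨⟨Equiv.ofBijective g gbij, hg0, hglast, gadj⟩, ?_⟩⟩
    · rw [Finset.eq_empty_iff_forall_notMem]
      intro e he
      have he' := hR he
      rw [Finset.mem_inter] at he'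
      have key : ∀ (x x' : Fin (t.L + 1)), x ≠ 0 → x ≠ x' →
          (s(Sum.inl x, Sum.inl x') : Sym2 ξ.V) ∉ R := by
        intro x x' hx hxx hmem
        obtain ⟨a, rfl⟩ := gbij.2 x
        have hga := hg a
        have hne2 : (⟨a.val, by have := a.isLt; omega⟩ : Fin ((t'.cat B).L + 1)) ≠ z' := by
          intro h
          rw [h, hz'] at hga
          exact hx (Option.some_injective _ hga).symm
        have hG := hgood _ _ hga hne2
        rw [q1_emb_some ξ _ _ hga] at hG
        exact (q1_iff ξ R _ hG (Sum.inl x') (fun h => hxx (Sum.inl_injective h))).2 hmem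
      induction e using Sym2.ind with
      | _ a b =>
        obtain ⟨x, x', e1, e2, h3⟩ := (q1_mem_E₁ ξ a b).mp he'.1
        have hxx := q1_ne₁ x x' h3
        change Fin (t.L + 1) at x x'
        by_cases hx : x = 0
        · have hx' : x' ≠ 0 := by
            rintro rfl; exact hxx hx
          apply key x' x hx' (Ne.symm hxx)
          rw [Sym2.eq_swap, ← e1, ← e2]
          exact he
        · apply key x x' hx hxx
          rw [← e1, ← e2]
          exact he
    · funext y
      change Fin (t'.L + B.L + 1) at y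
      unfold perf
      simp only
      split_ifs with h
      · exact hg ⟨y.val, h⟩
      · cases hy : ξ y with
        | none => rfl
        | some x =>
          exfalso
          have := (hM y).mp ⟨x, hy⟩
          omega

end Pool.Agent.H276R2.Gn
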