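import Pool.Agent.H276R2.Gn.Spec

set_option autoImplicit false

namespace Pool.Agent.H276R2.Gn

open Finset Real

theorem q2_triv_s (H₁ H₂ : Shp) : triv H₁ H₂ H₂.s = some H₁.t := by
  unfold triv; rw [if_pos rfl]

theorem q2_triv_ne (H₁ H₂ : Shp) (y : H₂.X) (h : y ≠ H₂.s) : triv H₁ H₂ y = none := by
  unfold triv; rw [if_neg h]

theorem q2_OK (H₁ H₂ : Shp) : (triv H₁ H₂).OK := by
  refine ⟨q2_triv_s H₁ H₂, ?_⟩
  have key : ∀ y x, triv H₁ H₂ y = some x → y = H₂.s := by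
    intro y x h
    by_contra hy
    rw [q2_triv_ne H₁ H₂ y hy] at h
    exact absurd h (by simp)
  intro y y' x h h'
  rw [key y x h, key y' x h']

theorem q2_emb_s (H₁ H₂ : Shp) : (triv H₁ H₂).emb H₂.s = Sum.inl H₁.t := by
  unfold SPat.emb
  split
  · rename_i x' h'
    rw [q2_triv_s] at h'
    rw [Option.some.inj h']
  · rename_i h'
    rw [q2_triv_s] at h'
    exact absurd h' (by simp)

theorem q2_emb_ne (H₁ H₂ : Shp) (y : H₂.X) (h : y ≠ H₂.s) :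
    (triv H₁ H₂).emb y = Sum.inr ⟨y, q2_triv_ne H₁ H₂ y h⟩ := by
  unfold SPat.emb
  split
  · rename_i x' h'
    rw [q2_triv_ne H₁ H₂ y h] at h'
    exact absurd h' (by simp)
  · rfl

theorem q2_emb_inj (H₁ H₂ : Shp) : Function.Injective (triv H₁ H₂).emb := by
  intro y y' h
  by_cases h1 : y = H₂.s
  · by_cases h2 : y' = H₂.s
    · rw [h1, h2]
    · rw [h1, q2_emb_s, q2_emb_ne _ _ _ h2] at h
      exact absurd h (by simp)
  · by_cases h2 : y' = H₂.s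
    · rw [h2, q2_emb_s, q2_emb_ne _ _ _ h1] at h
      exact absurd h (by simp)
    · rw [q2_emb_ne _ _ _ h1, q2_emb_ne _ _ _ h2] at h
      exact congrArg Subtype.val (Sum.inr.inj h)

theorem q2_disj (H₁ H₂ : Shp) : Disjoint (triv H₁ H₂).E₁ (triv H₁ H₂).E₂ := by
  rw [Finset.disjoint_left]
  intro e he1 he2
  obtain ⟨e1, h1, rfl⟩ := Finset.mem_image.1 he1
  obtain ⟨e2, h2, h⟩ := Finset.mem_image.1 he2
  have hl := H₂.loopless e2 h2
  induction e2 using Sym2.ind with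
  | _ y y' =>
    rw [Sym2.mk_isDiag_iff] at hl
    have key : ∀ z ∈ s(y, y'), z = H₂.s := by
      intro z hz
      by_contra hne
      have : (triv H₁ H₂).emb z ∈ Sym2.map Sum.inl e1 := by
        rw [← h]; exact Sym2.mem_map.2 ⟨z, hz, rfl⟩
      obtain ⟨x, _, hx⟩ := Sym2.mem_map.1 this
      rw [q2_emb_ne _ _ _ hne] at hx
      exact absurd hx (by simp)
    apply hl
    rw [key y (Sym2.mem_mk_left _ _), key y' (Sym2.mem_mk_right _ _)]

theorem q2_E (H₁ H₂ : Shp) : (prodShp H₁ H₂ (triv H₁ H₂) ∅).E =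
    (triv H₁ H₂).E₁ ∪ (triv H₁ H₂).E₂ := by
  show Finset.filter _ _ = _
  ext e
  rw [Finset.mem_filter, Finset.union_empty, Finset.mem_symmDiff, Finset.mem_union]
  constructor
  · rintro ⟨h | h, -⟩
    · exact Or.inl h.1
    · exact Or.inr h.1
  · rintro (h | h)
    · refine ⟨Or.inl ⟨h, fun h' => (Finset.disjoint_left.1 (q2_disj H₁ H₂)) h h'⟩, ?_⟩
      obtain ⟨e1, h1, rfl⟩ := Finset.mem_image.1 h
      rw [Sym2.isDiag_map Sum.inl_injective]
      exact H₁.loopless e1 h1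
    · refine ⟨Or.inr ⟨h, fun h' => (Finset.disjoint_left.1 (q2_disj H₁ H₂)) h' h⟩, ?_⟩
      obtain ⟨e2, h2, rfl⟩ := Finset.mem_image.1 h
      rw [Sym2.isDiag_map (q2_emb_inj H₁ H₂)]
      exact H₂.loopless e2 h2

/-- the numbering of the vertices -/
def q2_f (B₁ B₂ : Chn) : (triv B₁.shp B₂.shp).V → Fin (B₁.L + B₂.L + 1)
  | Sum.inl a => ⟨(show Fin (B₁.L + 1) from a).val, by
      have := (show Fin (B₁.L + 1) from a).isLt; omega⟩
  | Sum.inr y => ⟨B₁.L + (show Fin (B₂.L + 1) from y.1).val, by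
      have := (show Fin (B₂.L + 1) from y.1).isLt; omega⟩

theorem q2_f_emb (B₁ B₂ : Chn) (y : Fin (B₂.L + 1)) :
    (q2_f B₁ B₂ ((triv B₁.shp B₂.shp).emb y)).val = B₁.L + y.val := by
  by_cases h : y = (0 : Fin (B₂.L + 1))
  · have h' : y = B₂.shp.s := h
    have : (triv B₁.shp B₂.shp).emb y = Sum.inl B₁.shp.t := by rw [h']; exact q2_emb_s _ _
    rw [this, h]
    show (Fin.last B₁.L).val = B₁.L + 0
    simp
  · have : (triv B₁.shp B₂.shp).emb y = Sum.inr ⟨y, _⟩ := q2_emb_ne B₁.shp B₂.shp y h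
    rw [this]
    rfl

theorem q2_bij (B₁ B₂ : Chn) : Function.Bijective (q2_f B₁ B₂) := by
  have hpos : ∀ y : {y : B₂.shp.X // triv B₁.shp B₂.shp y = none},
      0 < (show Fin (B₂.L + 1) from y.1).val := by
    rintro ⟨y, hy⟩
    rcases Nat.eq_zero_or_pos (show Fin (B₂.L + 1) from y).val with h | h
    · exfalso
      have : y = B₂.shp.s := Fin.ext h
      rw [this, q2_triv_s] at hy
      exact absurd hy (by simp)
    · exact h
  constructor
  · intro z z' h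
    have h' := congrArg Fin.val h
    rcases z with a | y
    · rcases z' with a' | y'
      · have : (show Fin (B₁.L + 1) from a).val = (show Fin (B₁.L + 1) from a').val := h'
        rw [show a = a' from Fin.ext this]
      · exfalso
        have h1 : (show Fin (B₁.L + 1) from a).val =
          B₁.L + (show Fin (B₂.L + 1) from y'.1).val := h'
        have h2 := (show Fin (B₁.L + 1) from a).isLt
        have h3 := hpos y'
        omega
    · rcases z' with a' | y'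
      · exfalso
        have h1 : B₁.L + (show Fin (B₂.L + 1) from y.1).val =
          (show Fin (B₁.L + 1) from a').val := h'
        have h2 := (show Fin (B₁.L + 1) from a').isLt
        have h3 := hpos y
        omega
      · have h1 : B₁.L + (show Fin (B₂.L + 1) from y.1).val =
          B₁.L + (show Fin (B₂.L + 1) from y'.1).val := h'
        have : (show Fin (B₂.L + 1) from y.1).val = (show Fin (B₂.L + 1) from y'.1).val := by omega
        rw [show y = y' from Subtype.ext (Fin.ext this)]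
  · intro c
    by_cases hc : c.val ≤ B₁.L
    · refine ⟨Sum.inl (⟨c.val, by omega⟩ : Fin (B₁.L + 1)), ?_⟩
      apply Fin.ext
      rfl
    · have hc' := c.isLt
      have hne : (⟨c.val - B₁.L, by omega⟩ : Fin (B₂.L + 1)) ≠ (0 : Fin (B₂.L + 1)) := by
        intro h
        have := congrArg Fin.val h
        simp only [Fin.val_zero] at this
        omega
      refine ⟨Sum.inr ⟨(⟨c.val - B₁.L, by omega⟩ : Fin (B₂.L + 1)),
        q2_triv_ne B₁.shp B₂.shp _ hne⟩, ?_⟩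
      apply Fin.ext
      show B₁.L + (c.val - B₁.L) = c.val
      omega

theorem q2_img1 (B₁ B₂ : Chn) (e : ℕ × ℕ) (he : e ∈ B₁.E) :
    Sym2.map (q2_f B₁ B₂) (Sym2.map Sum.inl
      (s(Fin.ofNat (B₁.L + 1) e.1, Fin.ofNat (B₁.L + 1) e.2) : Sym2 B₁.shp.X)) =
    s(Fin.ofNat (B₁.L + B₂.L + 1) e.1, Fin.ofNat (B₁.L + B₂.L + 1) e.2) := by
  have hl := B₁.lt e he
  have e1 : q2_f B₁ B₂ (Sum.inl (Fin.ofNat (B₁.L + 1) e.1)) =
      Fin.ofNat (B₁.L + B₂.L + 1) e.1 := by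
    apply Fin.ext
    show e.1 % (B₁.L + 1) = e.1 % (B₁.L + B₂.L + 1)
    rw [Nat.mod_eq_of_lt (by omega), Nat.mod_eq_of_lt (by omega)]
  have e2 : q2_f B₁ B₂ (Sum.inl (Fin.ofNat (B₁.L + 1) e.2)) =
      Fin.ofNat (B₁.L + B₂.L + 1) e.2 := by
    apply Fin.ext
    show e.2 % (B₁.L + 1) = e.2 % (B₁.L + B₂.L + 1)
    rw [Nat.mod_eq_of_lt (by omega), Nat.mod_eq_of_lt (by omega)]
  show s(q2_f B₁ B₂ (Sum.inl (Fin.ofNat (B₁.L + 1) e.1)),
    q2_f B₁ B₂ (Sum.inl (Fin.ofNat (B₁.L + 1) e.2))) = _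
  rw [e1, e2]

theorem q2_img2 (B₁ B₂ : Chn) (e : ℕ × ℕ) (he : e ∈ B₂.E) :
    Sym2.map (q2_f B₁ B₂) (Sym2.map (triv B₁.shp B₂.shp).emb
      (s(Fin.ofNat (B₂.L + 1) e.1, Fin.ofNat (B₂.L + 1) e.2) : Sym2 B₂.shp.X)) =
    s(Fin.ofNat (B₁.L + B₂.L + 1) (e.1 + B₁.L), Fin.ofNat (B₁.L + B₂.L + 1) (e.2 + B₁.L)) := by
  have hl := B₂.lt e he
  have e1 : q2_f B₁ B₂ ((triv B₁.shp B₂.shp).emb (Fin.ofNat (B₂.L + 1) e.1)) =
      Fin.ofNat (B₁.L + B₂.L + 1) (e.1 + B₁.L) := by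
    apply Fin.ext
    rw [q2_f_emb]
    show B₁.L + e.1 % (B₂.L + 1) = (e.1 + B₁.L) % (B₁.L + B₂.L + 1)
    rw [Nat.mod_eq_of_lt (by omega), Nat.mod_eq_of_lt (by omega)]
    omega
  have e2 : q2_f B₁ B₂ ((triv B₁.shp B₂.shp).emb (Fin.ofNat (B₂.L + 1) e.2)) =
      Fin.ofNat (B₁.L + B₂.L + 1) (e.2 + B₁.L) := by
    apply Fin.ext
    rw [q2_f_emb]
    show B₁.L + e.2 % (B₂.L + 1) = (e.2 + B₁.L) % (B₁.L + B₂.L + 1)
    rw [Nat.mod_eq_of_lt (by omega), Nat.mod_eq_of_lt (by omega)]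
    omega
  show s(q2_f B₁ B₂ ((triv B₁.shp B₂.shp).emb (Fin.ofNat (B₂.L + 1) e.1)),
    q2_f B₁ B₂ ((triv B₁.shp B₂.shp).emb (Fin.ofNat (B₂.L + 1) e.2))) = _
  rw [e1, e2]

theorem q2_img (B₁ B₂ : Chn) :
    ((triv B₁.shp B₂.shp).E₁ ∪ (triv B₁.shp B₂.shp).E₂).image (Sym2.map (q2_f B₁ B₂)) =
      (B₁.E ∪ B₂.E.image (fun e => (e.1 + B₁.L, e.2 + B₁.L))).image
        (fun e => s(Fin.ofNat (B₁.L + B₂.L + 1) e.1, Fin.ofNat (B₁.L + B₂.L + 1) e.2)) := by
  ext z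
  constructor
  · intro hz
    obtain ⟨e, he, rfl⟩ := Finset.mem_image.1 hz
    rcases Finset.mem_union.1 he with he | he
    · obtain ⟨e1, he1, rfl⟩ := Finset.mem_image.1 he
      obtain ⟨e0, he0, rfl⟩ := Finset.mem_image.1 he1
      rw [Finset.mem_image]
      exact ⟨e0, Finset.mem_union_left _ he0, (q2_img1 B₁ B₂ e0 he0).symm⟩
    · obtain ⟨e1, he1, rfl⟩ := Finset.mem_image.1 he
      obtain ⟨e0, he0, rfl⟩ := Finset.mem_image.1 he1
      rw [Finset.mem_image]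
      exact ⟨(e0.1 + B₁.L, e0.2 + B₁.L),
        Finset.mem_union_right _ (Finset.mem_image_of_mem _ he0), (q2_img2 B₁ B₂ e0 he0).symm⟩
  · intro hz
    obtain ⟨e, he, rfl⟩ := Finset.mem_image.1 hz
    rcases Finset.mem_union.1 he with he | he
    · refine Finset.mem_image.2 ⟨_, Finset.mem_union_left _ (Finset.mem_image_of_mem _
        (Finset.mem_image_of_mem (fun e => (s(Fin.ofNat (B₁.L + 1) e.1,
          Fin.ofNat (B₁.L + 1) e.2) : Sym2 (Fin (B₁.L + 1)))) he)), q2_img1 B₁ B₂ e he⟩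
    · obtain ⟨e0, he0, rfl⟩ := Finset.mem_image.1 he
      refine Finset.mem_image.2 ⟨_, Finset.mem_union_right _ (Finset.mem_image_of_mem _
        (Finset.mem_image_of_mem (fun e => (s(Fin.ofNat (B₂.L + 1) e.1,
          Fin.ofNat (B₂.L + 1) e.2) : Sym2 (Fin (B₂.L + 1)))) he0)), q2_img2 B₁ B₂ e0 he0⟩

theorem t_Q2 : S_Q2 := by
  intro p B₁ B₂ n σ
  refine ⟨q2_OK _ _, Finset.disjoint_iff_inter_eq_empty.1 (q2_disj _ _), ?_⟩
  rw [Fc_eq_Sh]
  refine Sh_iso p _ _ _ (Equiv.ofBijective (q2_f B₁ B₂) (q2_bij B₁ B₂)) ?_ ?_ ?_ n σ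
  · apply Fin.ext
    show (0 : Fin (B₁.L + 1)).val = (0 : Fin (B₁.L + B₂.L + 1)).val
    simp
  · apply Fin.ext
    show (q2_f B₁ B₂ ((triv B₁.shp B₂.shp).emb (Fin.last B₂.L))).val =
      (Fin.last (B₁.L + B₂.L)).val
    rw [q2_f_emb]
    simp
  · rw [q2_E]
    exact q2_img B₁ B₂

end Pool.Agent.H276R2.Gn
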