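import Pool.Agent.H276R2.Gn.Spec

set_option autoImplicit false

namespace Pool.Agent.H276R2.Gn

open Finset Real

theorem s_bern (r : ℝ) (h0 : 0 ≤ r) (d : ℕ) : 1 - r ^ d ≤ d * (1 - r) := by
  have h := one_add_mul_le_pow (a := r - 1) (by linarith) d
  rw [show 1 + (r - 1) = r by ring] at h
  linarith

theorem t_S : S_S := by
  intro D c hc
  set Q : ℝ := 4 + ∑ d ∈ range (D + 1), c d ^ 2 with hQ
  have hsum0 : 0 ≤ ∑ d ∈ range (D + 1), c d ^ 2 := Finset.sum_nonneg (fun d _ => sq_nonneg _)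
  have hQ4 : 4 ≤ Q := by rw [hQ]; linarith
  have hQ0 : 0 < Q := by linarith
  have hsq : sP D c ^ 2 = Q := by
    unfold sP
    rw [Real.sq_sqrt (by linarith)]
  have hsP : sP D c = √Q := rfl
  have hsP2 : 2 ≤ sP D c := by
    rw [hsP]
    apply Real.le_sqrt_of_sq_le
    linarith
  have h01 : ∀ m, 0 ≤ rho D c m ∧ rho D c m ≤ 1 := by
    intro m
    induction m with
    | zero =>
      unfold rho
      exact ⟨by positivity, by rw [div_le_one (by linarith)]; exact hsP2⟩
    | succ m ih =>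
      unfold rho
      rw [hsq]
      obtain ⟨h1, h2⟩ := ih
      constructor
      · refine div_nonneg (add_nonneg (by norm_num) (Finset.sum_nonneg (fun d _ => ?_))) hQ0.le
        exact mul_nonneg (sq_nonneg _) (pow_nonneg h1 _)
      · rw [div_le_one hQ0, hQ]
        gcongr with d _
        exact mul_le_of_le_one_right (sq_nonneg _) (pow_le_one₀ h1 h2)
  refine ⟨h01, ?_⟩
  have hstep : ∀ m, 1 - rho D c (m + 1) ≤ 9 / 10 * (1 - rho D c m) := by
    intro m
    obtain ⟨h1, h2⟩ := h01 m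
    have h3 : 1 - rho D c (m + 1) = (∑ d ∈ range (D + 1), c d ^ 2 * (1 - rho D c m ^ d)) / Q := by
      conv_lhs => unfold rho
      rw [hsq, eq_div_iff hQ0.ne', sub_mul, div_mul_cancel₀ _ hQ0.ne', hQ]
      simp only [mul_sub, mul_one, Finset.sum_sub_distrib]
      ring
    rw [h3, div_le_iff₀ hQ0]
    calc ∑ d ∈ range (D + 1), c d ^ 2 * (1 - rho D c m ^ d) ≤
        ∑ d ∈ range (D + 1), ((d : ℝ) * c d ^ 2) * (1 - rho D c m) := by
          refine Finset.sum_le_sum (fun d _ => ?_)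
          have := mul_le_mul_of_nonneg_left (s_bern (rho D c m) h1 d) (sq_nonneg (c d))
          linarith
      _ = (∑ d ∈ range (D + 1), (d : ℝ) * c d ^ 2) * (1 - rho D c m) := by
          rw [Finset.sum_mul]
      _ ≤ (9 / 10 * Q) * (1 - rho D c m) :=
          mul_le_mul_of_nonneg_right hc (by linarith)
      _ = 9 / 10 * (1 - rho D c m) * Q := by ring
  have hpow : ∀ m, 1 - rho D c m ≤ (9 / 10 : ℝ) ^ m := by
    intro m
    induction m with
    | zero =>
      have := (h01 0).1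
      simp only [pow_zero]
      linarith
    | succ m ih =>
      calc 1 - rho D c (m + 1) ≤ 9 / 10 * (1 - rho D c m) := hstep m
        _ ≤ 9 / 10 * (9 / 10 : ℝ) ^ m := by gcongr
        _ = (9 / 10 : ℝ) ^ (m + 1) := by rw [pow_succ]; ring
  intro ε hε
  obtain ⟨m, hm⟩ := exists_pow_lt_of_lt_one hε (by norm_num : (9 / 10 : ℝ) < 1)
  exact ⟨m, (hpow m).trans hm.le⟩

end Pool.Agent.H276R2.Gn
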