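import Pool.Agent.H276R2.Gn.Spec

set_option autoImplicit false

namespace Pool.Agent.H276R2.Gn

open Finset Real

open Classical in
theorem sm_fibre (H : Shp) (n : ℕ) (v1 v2 : H.X → Fin n) (hs : v1 H.s = v2 H.s)
    (ht : v1 H.t = v2 H.t) (hE : H.E.image (Sym2.map v1) = H.E.image (Sym2.map v2)) :
    v2 ∈ Fintype.piFinset (fun x : H.X => if (x ≠ H.s ∧ x ≠ H.t ∧ ∀ e ∈ H.E, x ∉ e) then
      (univ : Finset (Fin n)) else univ.image v1) := by
  rw [Fintype.mem_piFinset]
  intro x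
  by_cases h : x ≠ H.s ∧ x ≠ H.t ∧ ∀ e ∈ H.E, x ∉ e
  · rw [if_pos h]; exact mem_univ _
  · rw [if_neg h]
    rw [mem_image]
    by_cases h1 : x = H.s
    · exact ⟨H.s, mem_univ _, by rw [hs, h1]⟩
    by_cases h2 : x = H.t
    · exact ⟨H.t, mem_univ _, by rw [ht, h2]⟩
    have h3 : ∃ e ∈ H.E, x ∈ e := by
      by_contra hcon
      push Not at hcon
      exact h ⟨h1, h2, hcon⟩
    obtain ⟨e, he, hx⟩ := h3
    have h4 : Sym2.map v2 e ∈ H.E.image (Sym2.map v1) := by
      rw [hE]; exact mem_image_of_mem _ he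
    obtain ⟨e', he', h5⟩ := mem_image.1 h4
    have h6 : v2 x ∈ Sym2.map v1 e' := by
      rw [h5]; exact Sym2.mem_map.2 ⟨x, hx, rfl⟩
    obtain ⟨y, _, hy⟩ := Sym2.mem_map.1 h6
    exact ⟨y, mem_univ _, hy⟩

open Classical in
theorem sm_count (H : Shp) (n : ℕ) :
    #{v : (H.X → Fin n) × (H.X → Fin n) | Function.Injective v.1 ∧ Function.Injective v.2 ∧
      v.1 H.s = v.2 H.s ∧ v.1 H.t = v.2 H.t ∧
      H.E.image (Sym2.map v.1) = H.E.image (Sym2.map v.2)} ≤
    n ^ Fintype.card H.X * (n ^ H.iso * Fintype.card H.X ^ Fintype.card H.X) := by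
  set T : (H.X → Fin n) → H.X → Finset (Fin n) := fun v1 x =>
    if (x ≠ H.s ∧ x ≠ H.t ∧ ∀ e ∈ H.E, x ∉ e) then (univ : Finset (Fin n)) else univ.image v1
    with hT
  have hX : 1 ≤ Fintype.card H.X := Fintype.card_pos_iff.2 ⟨H.s⟩
  have hcardT : ∀ v1, (Fintype.piFinset (T v1)).card ≤
      n ^ H.iso * Fintype.card H.X ^ Fintype.card H.X := by
    intro v1
    rw [Fintype.card_piFinset]
    have h1 : ∏ x, (T v1 x).card ≤ ∏ x : H.X, (if (x ≠ H.s ∧ x ≠ H.t ∧ ∀ e ∈ H.E, x ∉ e) then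
        n else Fintype.card H.X) := by
      apply Finset.prod_le_prod'
      intro x _
      simp only [hT]
      split_ifs with h
      · simp
      · exact Finset.card_image_le.trans (by simp)
    refine h1.trans ?_
    rw [Finset.prod_ite, Finset.prod_const, Finset.prod_const]
    apply Nat.mul_le_mul
    · apply le_of_eq
      congr 1
    · exact Nat.pow_le_pow_right hX (Finset.card_le_univ _)
  calc #{v : (H.X → Fin n) × (H.X → Fin n) | Function.Injective v.1 ∧ Function.Injective v.2 ∧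
      v.1 H.s = v.2 H.s ∧ v.1 H.t = v.2 H.t ∧
      H.E.image (Sym2.map v.1) = H.E.image (Sym2.map v.2)}
      ≤ ((univ : Finset (H.X → Fin n)).sigma (fun v1 => Fintype.piFinset (T v1))).card := by
        apply Finset.card_le_card_of_injOn (fun v => (⟨v.1, v.2⟩ : Σ _ : H.X → Fin n, H.X → Fin n))
        · rintro ⟨v1, v2⟩ hv
          obtain ⟨-, -, -, hs, ht, hE⟩ := Finset.mem_filter.1 (Finset.mem_coe.1 hv)
          rw [Finset.mem_coe, Finset.mem_sigma]
          exact ⟨mem_univ _, sm_fibre H n v1 v2 hs ht hE⟩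
        · rintro ⟨v1, v2⟩ _ ⟨v1', v2'⟩ _ h
          simp only [Sigma.mk.injEq, heq_eq_eq] at h
          rw [h.1, h.2]
    _ = ∑ v1 : H.X → Fin n, (Fintype.piFinset (T v1)).card := Finset.card_sigma _ _
    _ ≤ ∑ _v1 : H.X → Fin n, (n ^ H.iso * Fintype.card H.X ^ Fintype.card H.X) :=
        Finset.sum_le_sum fun v1 _ => hcardT v1
    _ = n ^ Fintype.card H.X * (n ^ H.iso * Fintype.card H.X ^ Fintype.card H.X) := by
        rw [Finset.sum_const, Finset.card_univ, Fintype.card_fun, Fintype.card_fin, smul_eq_mul]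

theorem t_SM (bm : S_BM) : S_SM := by
  intro p H q hp hp1
  refine ⟨(Fintype.card H.X : ℝ) ^ Fintype.card H.X, ?_⟩
  intro n hn
  have h := bm p H H q q n hp hp1 hn
  have hfro : (fun σ => fro (Sh p H q n σ)) =
      (fun σ => ∑ i, ∑ j, Sh p H q n σ i j * Sh p H q n σ i j) := by
    funext σ
    unfold fro
    refine Finset.sum_congr rfl fun i _ => Finset.sum_congr rfl fun j _ => ?_
    ring
  rw [hfro, h]
  have hs : √(n : ℝ) ^ (q + q) = (n : ℝ) ^ q := by
    rw [← two_mul, pow_mul, Real.sq_sqrt (by positivity)]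
  have hn0 : (0 : ℝ) < (n : ℝ) ^ q := by
    have : (0 : ℝ) < n := by exact_mod_cast hn
    positivity
  rw [hs, div_mul_cancel₀ _ hn0.ne']
  have hc := sm_count H n
  rw [pow_add]
  calc _ ≤ ((n ^ Fintype.card H.X * (n ^ H.iso * Fintype.card H.X ^ Fintype.card H.X) : ℕ) : ℝ) := by
        exact_mod_cast hc
    _ = _ := by push_cast; ring

end Pool.Agent.H276R2.Gn
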