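import Pool.Agent.H276R2.Gn.Spec

set_option autoImplicit false

namespace Pool.Agent.H276R2.Gn

open Finset Real

open scoped MatrixOrder in
theorem td_factor {n : ℕ} {X : Mat n} (hX : X.PosSemidef) :
    ∃ C : Mat n, ∀ i j, X i j = ∑ k, C k i * C k j := by
  have h : 0 ≤ X := Matrix.nonneg_iff_posSemidef.2 hX
  have h1 := CFC.sqrt_mul_sqrt_self X h
  have h2 : 0 ≤ CFC.sqrt X := CFC.sqrt_nonneg X
  have h3 := (Matrix.nonneg_iff_posSemidef.1 h2).1
  have h4 : (CFC.sqrt X).transpose = CFC.sqrt X := by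
    have := h3.eq
    rwa [Matrix.conjTranspose_eq_transpose_of_trivial] at this
  refine ⟨CFC.sqrt X, fun i j => ?_⟩
  have h5 : X i j = (CFC.sqrt X * CFC.sqrt X) i j := by rw [h1]
  rw [h5, Matrix.mul_apply]
  refine Finset.sum_congr rfl fun k _ => ?_
  congr 1
  exact congrFun (congrFun h4 k) i

theorem t_TD : S_TD := by
  intro n σ U B β γ hβ hγ hB hS hP _
  unfold Th
  refine Real.sSup_le ?_ (by positivity)
  rintro s ⟨X, hX, htr, h1, h2, rfl⟩
  have hn : 0 < n := by
    rcases Nat.eq_zero_or_pos n with h | h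
    · subst h
      simp [Matrix.trace] at htr
    · exact h
  have hs : 0 < √(n : ℝ) := Real.sqrt_pos.mpr (by exact_mod_cast hn)
  obtain ⟨C, hC⟩ := td_factor hX
  have hC0 : ∀ k i, i ∉ U → C k i = 0 := by
    intro k i hi
    have h3 := h2 i i hi
    rw [hC] at h3
    have h4 := (Finset.sum_eq_zero_iff_of_nonneg (fun k _ => mul_self_nonneg (C k i))).1 h3 k
      (mem_univ k)
    exact mul_self_eq_zero.1 h4
  have hdiag : ∀ i, 0 ≤ X i i := fun i => hX.diag_nonneg
  -- the pairing with the dual matrix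
  have key : 0 ≤ ∑ i, ∑ j, X i j * (B - γ • Jn n) i j := by
    have e : ∑ i, ∑ j, X i j * (B - γ • Jn n) i j =
        ∑ k, ∑ i, ∑ j, C k i * (B - γ • Jn n) i j * C k j := by
      have e1 : ∀ i j, X i j * (B - γ • Jn n) i j =
          ∑ k, C k i * (B - γ • Jn n) i j * C k j := by
        intro i j
        rw [hC, Finset.sum_mul]
        exact Finset.sum_congr rfl fun k _ => by ring
      simp only [e1]
      rw [Finset.sum_comm' (s := univ) (t := fun _ => univ) (t' := univ) (s' := fun _ => univ)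
        (by simp)]
      rw [Finset.sum_comm]
      have e2 : ∀ i : Fin n, ∑ j, ∑ k, C k i * (B - γ • Jn n) i j * C k j =
          ∑ k, ∑ j, C k i * (B - γ • Jn n) i j * C k j := fun i => Finset.sum_comm
      simp only [e2]
      rw [Finset.sum_comm]
    rw [e]
    exact Finset.sum_nonneg fun k _ => hP (fun i => C k i) (hC0 k)
  have eB : ∑ i, ∑ j, X i j * B i j = ∑ i, X i i * B i i := by
    refine Finset.sum_congr rfl fun i _ => ?_
    refine Finset.sum_eq_single_of_mem i (mem_univ i) fun j _ hj => ?_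
    cases h : σ s(i, j)
    · rw [hS i j hj.symm h, mul_zero]
    · rw [h1 i j hj.symm h, zero_mul]
  have leB : ∑ i, X i i * B i i ≤ β := by
    calc ∑ i, X i i * B i i ≤ ∑ i, X i i * β := by
          refine Finset.sum_le_sum fun i _ => ?_
          by_cases hi : i ∈ U
          · exact mul_le_mul_of_nonneg_left (hB i hi) (hdiag i)
          · rw [h2 i i hi, zero_mul, zero_mul]
      _ = β := by
          rw [← Finset.sum_mul]
          have : ∑ i, X i i = 1 := htr
          rw [this, one_mul]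
  have eJ : ∑ i, ∑ j, X i j * (B - γ • Jn n) i j =
      ∑ i, ∑ j, X i j * B i j - γ / √n * ∑ i, ∑ j, X i j := by
    rw [Finset.mul_sum, ← Finset.sum_sub_distrib]
    refine Finset.sum_congr rfl fun i _ => ?_
    rw [Finset.mul_sum, ← Finset.sum_sub_distrib]
    refine Finset.sum_congr rfl fun j _ => ?_
    simp only [Matrix.sub_apply, Matrix.smul_apply, Jn, Matrix.of_apply, smul_eq_mul]
    ring
  rw [eJ, eB] at key
  have h5 : γ / √n * ∑ i, ∑ j, X i j ≤ β := by linarith
  rw [div_mul_eq_mul_div, le_div_iff₀ hγ]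
  rw [div_mul_eq_mul_div, div_le_iff₀ hs] at h5
  linarith

end Pool.Agent.H276R2.Gn
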