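import Pool.Agent.H276R2.Gn.Spec

/-!
# Task TI: `Tm` is isometric on chaoses (helper8)
-/

set_option autoImplicit false

namespace Pool.Agent.H276R2.Gn

open Finset Real

lemma ti_trace {n : ℕ} (X Y : Mat n) : (X * Y.transpose).trace = ∑ i, ∑ j, X i j * Y i j := by
  simp only [Matrix.trace, Matrix.diag_apply, Matrix.mul_apply, Matrix.transpose_apply]

lemma ti_ofNat {L a : ℕ} (h : a ≤ L) : ((Fin.ofNat (L + 1) a : Fin (L + 1)) : ℕ) = a := by
  simp only [Fin.ofNat]
  exact Nat.mod_eq_of_lt (by omega)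

lemma ti_last (L : ℕ) : (Fin.ofNat (L + 1) L : Fin (L + 1)) = Fin.last L := by
  apply Fin.ext
  rw [ti_ofNat le_rfl]
  rfl

lemma ti_zero (L : ℕ) : (Fin.ofNat (L + 1) 0 : Fin (L + 1)) = 0 := by
  apply Fin.ext
  rw [ti_ofNat (Nat.zero_le _)]
  rfl

/-- the labelled edge set of a chain -/
lemma ti_mem (B : Chn) {n : ℕ} (v : B.shp.X → Fin n) (e : Sym2 (Fin n)) :
    e ∈ B.shp.E.image (Sym2.map v) ↔
      ∃ x ∈ B.E, s(v (Fin.ofNat (B.L + 1) x.1), v (Fin.ofNat (B.L + 1) x.2)) = e := by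
  rw [Finset.mem_image]
  constructor
  · rintro ⟨e', he', rfl⟩
    obtain ⟨x, hx, rfl⟩ := Finset.mem_image.mp he'
    exact ⟨x, hx, rfl⟩
  · rintro ⟨x, hx, rfl⟩
    exact ⟨_, Finset.mem_image.mpr ⟨x, hx, rfl⟩, rfl⟩

lemma ti_cap (B : Chn) (hB : 0 < B.L) {n : ℕ} (v : B.shp.X → Fin n)
    (w : (B.cap hB).shp.X → Fin n) (hw : w = v) :
    (B.cap hB).shp.E.image (Sym2.map w) =
      insert s(v B.shp.s, v B.shp.t) (B.shp.E.image (Sym2.map v)) := by
  subst hw
  ext e
  rw [Finset.mem_insert, ti_mem B w e]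
  refine (ti_mem (B.cap hB) w e).trans ?_
  constructor
  · rintro ⟨x, hx, rfl⟩
    rcases Finset.mem_insert.mp hx with rfl | hx
    · left
      change s(w (Fin.ofNat (B.L + 1) 0), w (Fin.ofNat (B.L + 1) B.L)) = _
      rw [ti_last, ti_zero]
      rfl
    · right
      exact ⟨x, hx, rfl⟩
  · rintro (rfl | ⟨x, hx, rfl⟩)
    · refine ⟨(0, B.L), Finset.mem_insert_self _ _, ?_⟩
      change s(w (Fin.ofNat (B.L + 1) 0), w (Fin.ofNat (B.L + 1) B.L)) = _
      rw [ti_last, ti_zero]
      rfl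
    · exact ⟨x, Finset.mem_insert_of_mem hx, rfl⟩

lemma ti_notMem (B : Chn) (h : (0, B.L) ∉ B.E) {n : ℕ} (v : B.shp.X → Fin n)
    (hv : Function.Injective v) : s(v B.shp.s, v B.shp.t) ∉ B.shp.E.image (Sym2.map v) := by
  intro hm
  obtain ⟨x, hx, hx'⟩ := (ti_mem B v _).mp hm
  have hlt := B.lt x hx
  rw [Sym2.eq_iff] at hx'
  have a1 := ti_ofNat (L := B.L) (a := x.1) (by omega)
  have a2 := ti_ofNat (L := B.L) (a := x.2) (by omega)
  rcases hx' with ⟨h1, h2⟩ | ⟨h1, h2⟩
  · have e1 : x.1 = 0 := a1.symm.trans (congrArg Fin.val (hv h1 : Fin.ofNat (B.L + 1) x.1 = 0))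
    have e2 : x.2 = B.L :=
      a2.symm.trans (congrArg Fin.val (hv h2 : Fin.ofNat (B.L + 1) x.2 = Fin.last B.L))
    apply h
    rw [← e1, ← e2]
    exact hx
  · have e1 : x.1 = B.L :=
      a1.symm.trans (congrArg Fin.val (hv h1 : Fin.ofNat (B.L + 1) x.1 = Fin.last B.L))
    omega

lemma ti_insert {α : Type*} [DecidableEq α] {x : α} {S T : Finset α} (hS : x ∉ S) (hT : x ∉ T) :
    insert x S = insert x T ↔ S = T := by
  constructor
  · intro h
    rw [← Finset.erase_insert hS, h, Finset.erase_insert hT]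
  · rintro rfl
    rfl

theorem t_TI (h1 : S_BM) : S_TI := by
  intro p B B' n hp hp1 hn hB hB' h h'
  have hcap := fun (B : Chn) (hB : 0 < B.L) (h : (0, B.L) ∉ B.E) (σ : Cfg n) =>
    (Tm_Fc p B hB h n σ).trans (Fc_eq_Sh p (B.cap hB) n σ)
  have hfc := fun (B : Chn) (σ : Cfg n) => Fc_eq_Sh p B n σ
  refine ⟨?_, ?_, ?_⟩
  · have a1 : (fun σ : Cfg n => (Tm p σ (Fc p B n σ) * (Tm p σ (Fc p B' n σ)).transpose).trace) =
        fun σ => ∑ i, ∑ j, Sh p (B.cap hB).shp (B.cap hB).L n σ i j *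
          Sh p (B'.cap hB').shp (B'.cap hB').L n σ i j := by
      funext σ
      rw [ti_trace, hcap B hB h, hcap B' hB' h']
    have a2 : (fun σ : Cfg n => (Fc p B n σ * (Fc p B' n σ).transpose).trace) =
        fun σ => ∑ i, ∑ j, Sh p B.shp B.L n σ i j * Sh p B'.shp B'.L n σ i j := by
      funext σ
      rw [ti_trace, hfc B, hfc B']
    rw [a1, a2, h1 p _ _ _ _ n hp hp1 hn, h1 p _ _ _ _ n hp hp1 hn]
    congr 2
    refine Finset.card_bij (fun v _ => v) ?_ (fun _ _ _ _ h => h) ?_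
    · intro v hv
      obtain ⟨i1, i2, j1, j2, j3⟩ := (Finset.mem_filter.mp hv).2
      refine Finset.mem_filter.mpr ⟨Finset.mem_univ _, i1, i2, j1, j2, ?_⟩
      have q3 := (ti_cap B hB v.1 v.1 rfl).symm.trans (j3.trans (ti_cap B' hB' v.2 v.2 rfl))
      have e : s(v.1 B.shp.s, v.1 B.shp.t) = s(v.2 B'.shp.s, v.2 B'.shp.t) := by
        have j1' : v.1 B.shp.s = v.2 B'.shp.s := j1
        have j2' : v.1 B.shp.t = v.2 B'.shp.t := j2
        rw [j1', j2']
      rw [e] at q3
      refine (ti_insert ?_ (ti_notMem B' h' v.2 i2)).mp q3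
      rw [← e]
      exact ti_notMem B h v.1 i1
    · intro v hv
      refine ⟨v, ?_, rfl⟩
      obtain ⟨i1, i2, j1, j2, j3⟩ := (Finset.mem_filter.mp hv).2
      refine Finset.mem_filter.mpr ⟨Finset.mem_univ _, i1, i2, j1, j2, ?_⟩
      refine (ti_cap B hB v.1 v.1 rfl).trans (Eq.trans ?_ (ti_cap B' hB' v.2 v.2 rfl).symm)
      rw [j3, j1, j2]
  · have hleaf := fun (σ : Cfg n) => (Fc_leaf p n σ).symm.trans (hfc Chn.leaf σ)
    have a1 : (fun σ : Cfg n => (Wn p σ * (Tm p σ (Fc p B n σ)).transpose).trace) =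
        fun σ => ∑ i, ∑ j, Sh p Chn.leaf.shp Chn.leaf.L n σ i j *
          Sh p (B.cap hB).shp (B.cap hB).L n σ i j := by
      funext σ
      rw [ti_trace, hcap B hB h, hleaf]
    rw [a1, h1 p _ _ _ _ n hp hp1 hn]
    rw [Finset.filter_eq_empty_iff.mpr, Finset.card_empty, Nat.cast_zero, zero_div]
    rintro v - ⟨i1, i2, j1, j2, j3⟩
    have hL : 2 ≤ B.L := by
      by_contra hL
      have hL' : B.L = 1 := by omega
      have := B.unit 0 hB
      rw [hL'] at h
      exact h this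
    have key : ∀ x ∈ (B.cap hB).E, s(v.2 (Fin.ofNat (B.L + 1) x.1), v.2 (Fin.ofNat (B.L + 1) x.2)) =
        s(v.1 (0 : Fin 2), v.1 (1 : Fin 2)) := by
      intro x hx
      have hm := (ti_mem (B.cap hB) v.2 _).mpr ⟨x, hx, rfl⟩
      have hm' := j3.symm ▸ hm
      obtain ⟨y, hy, hy'⟩ := (ti_mem Chn.leaf v.1 _).mp hm'
      have : y = (0, 1) := by simpa [Chn.leaf] using hy
      subst this
      exact hy'.symm
    have k1 := key (0, 1) ((B.cap hB).unit 0 hB)
    have k2 := key (0, B.L) (Finset.mem_insert_self _ _)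
    have k3 := k1.trans k2.symm
    simp only at k3
    rw [Sym2.congr_right] at k3
    have k4 := congrArg Fin.val (i2 k3)
    have t1 := ti_ofNat (L := B.L) (a := 1) (by omega)
    have t2 := ti_ofNat (L := B.L) (a := B.L) le_rfl
    have k5 : (1 : ℕ) = B.L := t1.symm.trans (k4.trans t2)
    omega
  · have hn' : (0 : ℝ) < n := by exact_mod_cast hn
    have e1 : ∀ σ : Cfg n, (Wn p σ * (Wn p σ).transpose).trace =
        ∑ i, ∑ j, (om p σ s(i, j) * om p σ s(i, j)) / n := by
      intro σ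
      rw [ti_trace]
      refine Finset.sum_congr rfl fun i _ => Finset.sum_congr rfl fun j _ => ?_
      simp only [Wn, Matrix.of_apply]
      rw [div_mul_div_comm, Real.mul_self_sqrt hn'.le]
    simp only [e1]
    rw [Ep_sum]
    have e2 : ∀ i ∈ (univ : Finset (Fin n)),
        Ep n p (fun σ => ∑ j, (om p σ s(i, j) * om p σ s(i, j)) / n) = ((n : ℝ) - 1) / n := by
      intro i _
      rw [Ep_sum]
      have e3 : ∀ j ∈ (univ : Finset (Fin n)),
          Ep n p (fun σ => (om p σ s(i, j) * om p σ s(i, j)) / n) = (if j = i then 0 else 1) / n := by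
        intro j _
        rw [Ep_div]
        congr 1
        split_ifs with hij
        · subst hij
          simp only [om_diag, mul_zero]
          exact Ep_const n p 0
        · have := Ep_om n p hp hp1 {s(i, j)} {s(i, j)} (by
            intro e he
            rw [Finset.mem_singleton] at he
            rw [he, Sym2.mk_isDiag_iff]
            exact fun h => hij h.symm) (by
            intro e he
            rw [Finset.mem_singleton] at he
            rw [he, Sym2.mk_isDiag_iff]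
            exact fun h => hij h.symm)
          simpa only [Finset.prod_singleton, if_true] using this
      rw [Finset.sum_congr rfl e3, ← Finset.sum_div]
      congr 1
      rw [Finset.sum_ite, Finset.sum_const_zero, zero_add, Finset.sum_const, nsmul_eq_mul, mul_one]
      have : (univ.filter (fun j : Fin n => ¬ j = i)) = univ.erase i := by
        ext j; simp
      rw [this, Finset.card_erase_of_mem (Finset.mem_univ _), Finset.card_univ, Fintype.card_fin,
        Nat.cast_sub hn, Nat.cast_one]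
    rw [Finset.sum_congr rfl e2, Finset.sum_const, Finset.card_univ, Fintype.card_fin, nsmul_eq_mul]
    field_simp

end Pool.Agent.H276R2.Gn
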