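import Pool.Agent.H276R2.Gn.Spec

set_option autoImplicit false

namespace Pool.Agent.H276R2.Gn

open Finset Real

/-! ### Task TL: lower bound for theta (helper231) -/

theorem tl_sym {n : ℕ} {X : Mat n} (h : X.PosSemidef) : X.transpose = X := by
  have h1 := h.isHermitian
  unfold Matrix.IsHermitian at h1
  rwa [Matrix.conjTranspose_eq_transpose_of_trivial] at h1

theorem tl_psd {n : ℕ} {X : Mat n} (h : X.PosSemidef) : Psd univ X :=
  (Psd_univ_iff X (tl_sym h)).2 h

theorem tl_aux {n : ℕ} (f : Fin n → Fin n → ℝ) (i j : Fin n) :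
    ∑ a, ∑ b, ((if a = i then (1 : ℝ) else 0) - (if a = j then (1 : ℝ) else 0)) * f a b *
      ((if b = i then (1 : ℝ) else 0) - (if b = j then (1 : ℝ) else 0)) =
      f i i - f i j - (f j i - f j j) := by
  have h1 : ∀ a, ∑ b, ((if a = i then (1 : ℝ) else 0) - (if a = j then (1 : ℝ) else 0)) * f a b *
      ((if b = i then (1 : ℝ) else 0) - (if b = j then (1 : ℝ) else 0)) =
      ((if a = i then (1 : ℝ) else 0) - (if a = j then (1 : ℝ) else 0)) * (f a i - f a j) := by
    intro a
    simp only [mul_sub, Finset.sum_sub_distrib, mul_ite, mul_one, mul_zero, Finset.sum_ite_eq',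
      Finset.mem_univ, if_true]
  simp only [h1]
  simp only [sub_mul, Finset.sum_sub_distrib, ite_mul, one_mul, zero_mul, Finset.sum_ite_eq',
    Finset.mem_univ, if_true]

theorem tl_pair {n : ℕ} {X : Mat n} (h : X.PosSemidef) (i j : Fin n) :
    2 * X i j ≤ X i i + X j j := by
  have h1 := tl_psd h (fun a => (if a = i then (1 : ℝ) else 0) - (if a = j then (1 : ℝ) else 0))
    (fun a ha => absurd (Finset.mem_univ a) ha)
  have hs : X j i = X i j := by
    have := congrFun (congrFun (tl_sym h) i) j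
    rwa [Matrix.transpose_apply] at this
  have h2 := tl_aux X i j
  have h3 : (0 : ℝ) ≤ X i i - X i j - (X j i - X j j) := h1.trans_eq h2
  rw [hs] at h3
  linarith

theorem tl_nonneg {n : ℕ} {X : Mat n} (h : X.PosSemidef) : 0 ≤ ∑ i, ∑ j, X i j := by
  have h1 := tl_psd h (fun _ => 1) (fun a ha => absurd (Finset.mem_univ a) ha)
  simpa using h1

theorem tl_bdd {n : ℕ} {X : Mat n} (h : X.PosSemidef) (ht : X.trace = 1) :
    ∑ i, ∑ j, X i j ≤ n := by
  have h1 : ∑ i, ∑ j, X i j ≤ ∑ i : Fin n, ∑ j : Fin n, (X i i + X j j) / 2 := by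
    refine Finset.sum_le_sum fun i _ => Finset.sum_le_sum fun j _ => ?_
    have := tl_pair h i j
    linarith
  have h2 : ∑ i : Fin n, ∑ j : Fin n, (X i i + X j j) / 2 = n := by
    have h3 : ∑ i : Fin n, X i i = 1 := ht
    simp only [add_div, Finset.sum_add_distrib, Finset.sum_const, Finset.card_univ,
      Fintype.card_fin, nsmul_eq_mul, ← Finset.mul_sum, ← Finset.sum_div, h3]
    ring
  rw [h2] at h1
  exact h1

theorem t_TL : S_TL := by
  classical
  intro n σ U B β γ hn hβ hγ hB hS hP hT
  have hbdd : BddAbove {s : ℝ | ∃ X : Mat n, X.PosSemidef ∧ X.trace = 1 ∧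
      (∀ i j, i ≠ j → σ s(i, j) = true → X i j = 0) ∧
      (∀ i j, i ∉ (univ : Finset (Fin n)) → X i j = 0) ∧ s = ∑ i, ∑ j, X i j} := by
    refine ⟨n, ?_⟩
    rintro s ⟨X, h1, h2, _, _, rfl⟩
    exact tl_bdd h1 h2
  rcases U.eq_empty_or_nonempty with hU | hU
  · rw [hU, Finset.card_empty]
    have : 0 ≤ Th σ univ := by
      apply Real.sSup_nonneg
      rintro s ⟨X, h1, _, _, _, rfl⟩
      exact tl_nonneg h1
    simpa using this
  have hk : (0 : ℝ) < #U := by exact_mod_cast hU.card_pos
  have hkn : (#U : ℝ) ≤ n := by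
    have := Finset.card_le_univ U
    rw [Fintype.card_fin] at this
    exact_mod_cast this
  have hn' : (0 : ℝ) < n := by exact_mod_cast hn
  have hsn : 0 < √(n : ℝ) := Real.sqrt_pos.2 hn'
  -- the quadratic form of `B` on vectors supported in `U`
  have hform : ∀ y : Fin n → ℝ, (∀ i, i ∉ U → y i = 0) →
      γ / √n * (∑ i, y i) ^ 2 ≤ ∑ i, ∑ j, y i * B i j * y j := by
    intro y hy
    have h1 := hP y hy
    have h2 : ∑ i, ∑ j, y i * (B - γ • Jn n) i j * y j =
        (∑ i, ∑ j, y i * B i j * y j) - γ / √n * (∑ i, y i) ^ 2 := by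
      have h3 : ∀ i j, y i * (B - γ • Jn n) i j * y j =
          y i * B i j * y j - γ / √n * (y i * y j) := by
        intro i j
        simp only [Matrix.sub_apply, Matrix.smul_apply, Jn, Matrix.of_apply, smul_eq_mul]
        ring
      simp only [h3, Finset.sum_sub_distrib]
      congr 1
      rw [pow_two, Finset.sum_mul_sum, Finset.mul_sum]
      refine Finset.sum_congr rfl fun i _ => ?_
      rw [Finset.mul_sum]
    rw [h2] at h1
    linarith
  set X : Mat n := Matrix.of fun i j => if i ∈ U ∧ j ∈ U then B i j / (β * #U) else 0 with hX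
  have hXa : ∀ i j, X i j = if i ∈ U ∧ j ∈ U then B i j / (β * #U) else 0 := fun i j => rfl
  have hBs : ∀ i j, B i j = B j i := by
    intro i j
    have := congrFun (congrFun hT i) j
    rw [Matrix.transpose_apply] at this
    exact this.symm
  have hXs : X.transpose = X := by
    ext i j
    rw [Matrix.transpose_apply, hXa, hXa, hBs j i]
    by_cases h1 : i ∈ U <;> by_cases h2 : j ∈ U <;> simp [h1, h2]
  -- quadratic form of `X`
  have hXform : ∀ x : Fin n → ℝ, ∑ i, ∑ j, x i * X i j * x j =
      1 / (β * #U) * ∑ i, ∑ j, (if i ∈ U then x i else 0) * B i j * (if j ∈ U then x j else 0) := by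
    intro x
    rw [Finset.mul_sum]
    refine Finset.sum_congr rfl fun i _ => ?_
    rw [Finset.mul_sum]
    refine Finset.sum_congr rfl fun j _ => ?_
    rw [hXa]
    by_cases h1 : i ∈ U <;> by_cases h2 : j ∈ U
    · simp only [h1, h2, and_self, if_true]; ring
    · simp [h1, h2]
    · simp [h1, h2]
    · simp [h1, h2]
  have hXpsd : X.PosSemidef := by
    rw [← Psd_univ_iff X hXs]
    intro x _
    rw [hXform]
    have h1 := hform (fun i => if i ∈ U then x i else 0) (fun i hi => if_neg hi)
    have h2 : 0 ≤ γ / √n * (∑ i, (fun i => if i ∈ U then x i else 0) i) ^ 2 := by positivity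
    have h3 := h2.trans h1
    have h4 : 0 ≤ 1 / (β * (#U : ℝ)) := by positivity
    exact mul_nonneg h4 h3
  have htr : X.trace = 1 := by
    show ∑ i, X i i = 1
    have h1 : ∀ i, X i i = if i ∈ U then 1 / (#U : ℝ) else 0 := by
      intro i
      rw [hXa, hB]
      by_cases hi : i ∈ U
      · simp only [hi, and_self, if_true]
        field_simp
      · simp [hi]
    simp only [h1]
    rw [Finset.sum_ite_mem, Finset.univ_inter, Finset.sum_const, nsmul_eq_mul]
    field_simp
  have hval : γ * (#U : ℝ) ^ 2 / (√n * (β * n)) ≤ ∑ i, ∑ j, X i j := by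
    have h1 := hXform (fun _ => 1)
    simp only [one_mul, mul_one] at h1
    rw [h1]
    have h2 := hform (fun i => if i ∈ U then 1 else 0) (fun i hi => if_neg hi)
    beta_reduce at h2
    have h3 : (∑ i : Fin n, if i ∈ U then (1 : ℝ) else 0) = #U := by
      rw [Finset.sum_ite_mem, Finset.univ_inter, Finset.sum_const, nsmul_eq_mul, mul_one]
    rw [h3] at h2
    calc γ * (#U : ℝ) ^ 2 / (√n * (β * n)) ≤ γ * (#U : ℝ) ^ 2 / (√n * (β * #U)) := by
          gcongr
      _ = 1 / (β * #U) * (γ / √n * (#U : ℝ) ^ 2) := by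
          field_simp
      _ ≤ _ := by
          refine mul_le_mul_of_nonneg_left h2 ?_
          positivity
  refine hval.trans (le_csSup hbdd ⟨X, hXpsd, htr, ?_, ?_, rfl⟩)
  · intro i j hij hσ
    rw [hXa]
    have : B i j = 0 := hS i j hij (by simp [hσ])
    rw [this]
    simp
  · intro i j hi
    exact absurd (Finset.mem_univ i) hi

end Pool.Agent.H276R2.Gn
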