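import Pool.Agent.H276R2.Gn.Spec

set_option autoImplicit false

namespace Pool.Agent.H276R2.Gn

open Finset Real

theorem tw_good {n : ℕ} (η κ : ℝ) (σ τ : Cfg n) (B Y : Mat n) (hB : B.transpose = B)
    (hB1 : ∀ i, B i i = 1) (hBs : SuppE σ B)
    (hP : Psd univ (B + (3 * η) • (1 : Mat n) - (1 - η) • Jn n - Y))
    (U' : Finset (Fin n)) (V : Mat n) (hU : (#U' : ℝ) ≤ κ * #(univ : Finset (Fin n)))
    (hV : V.transpose = V) (hV0 : ∀ i, V i i = 0) (hVs : SuppE τ V)
    (hP2 : Psd (univ \ U') (V + κ • (1 : Mat n) + Y)) :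
    GoodU κ (1 + 3 * η + κ) (1 - η) n (cup σ τ) := by
  refine ⟨univ \ U', B + V + (3 * η + κ) • (1 : Mat n), ?_, ?_, ?_, ?_, ?_⟩
  · have h1 : (univ \ U')ᶜ = U' := by
      ext i; simp
    rw [h1]
    simpa using hU
  · rw [Matrix.transpose_add, Matrix.transpose_add, hB, hV, Matrix.transpose_smul,
      Matrix.transpose_one]
  · intro i
    simp only [Matrix.add_apply, Matrix.smul_apply, Matrix.one_apply_eq, hB1, hV0, smul_eq_mul]
    ring
  · intro i j hij h
    have h' : σ s(i, j) = false ∧ τ s(i, j) = false := by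
      unfold cup at h
      simpa [Bool.or_eq_false_iff] using h
    simp only [Matrix.add_apply, Matrix.smul_apply, Matrix.one_apply_ne hij, hBs i j hij h'.1,
      hVs i j hij h'.2, smul_eq_mul]
    ring
  · intro x hx
    have h1 := hP x (fun i hi => absurd (mem_univ i) hi)
    have h2 := hP2 x hx
    have h3 : ∑ i, ∑ j, x i * (B + V + (3 * η + κ) • (1 : Mat n) - (1 - η) • Jn n) i j * x j =
        (∑ i, ∑ j, x i * (B + (3 * η) • (1 : Mat n) - (1 - η) • Jn n - Y) i j * x j) +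
        ∑ i, ∑ j, x i * (V + κ • (1 : Mat n) + Y) i j * x j := by
      rw [← Finset.sum_add_distrib]
      refine Finset.sum_congr rfl fun i _ => ?_
      rw [← Finset.sum_add_distrib]
      refine Finset.sum_congr rfl fun j _ => ?_
      simp only [Matrix.add_apply, Matrix.sub_apply, Matrix.smul_apply, smul_eq_mul]
      ring
    rw [h3]
    linarith

theorem tw_mono {n : ℕ} (κ β γ : ℝ) (σ τ : Cfg n) (h : ∀ e, σ e = true → τ e = true)
    (hg : GoodU κ β γ n σ) : GoodU κ β γ n τ := by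
  obtain ⟨U, B, h1, h2, h3, h4, h5⟩ := hg
  refine ⟨U, B, h1, h2, h3, fun i j hij ht => h4 i j hij ?_, h5⟩
  by_contra hc
  have hc' : σ s(i, j) = true := by simpa using hc
  rw [h _ hc'] at ht
  exact absurd ht (by decide)

/-- Task TW. -/
theorem t_TW (amf : S_AMF) (dom : S_DOM) : S_TW := by
  classical
  intro η κ p hη hη1 hκ hκ1 hp hp1
  have hq : 0 < (κ * (η / 4) * (p / 2)) ^ 9 / 10 ^ 18 := by positivity
  set δ : ℝ := min (p / 2) ((κ * (η / 4) * (p / 2)) ^ 9 / 10 ^ 18) with hδ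
  have hδ0 : 0 < δ := lt_min (by linarith) hq
  have hδ1 : δ ≤ p / 2 := min_le_left _ _
  have hδ2 : δ ≤ (κ * (η / 4) * (p / 2)) ^ 9 / 10 ^ 18 := min_le_right _ _
  obtain ⟨n₀, hn₀⟩ := amf η δ hη hη1 hδ0
  refine ⟨n₀, fun n hn => ?_⟩
  have h1 := hn₀ n hn
  set G : Cfg n → Prop := GoodU κ (1 + 3 * η + κ) (1 - η) n with hG
  have h2 : ∀ σ : Cfg n, ApproxM η δ n σ → 1 - p / 2 ≤ Pp n (η / 4) (fun τ => G (cup σ τ)) := by
    intro σ hσ
    obtain ⟨B, Y, hB, hY, hB1, hBs, hfro, hP⟩ := hσ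
    have hd := dom n univ Y κ (η / 4) (p / 2) hκ hκ1 (by linarith) (by linarith) (by linarith)
      (by linarith) hY (fun i j hi => absurd (mem_univ i) hi) (by
        refine hfro.trans ?_
        rw [Finset.card_univ, Fintype.card_fin]
        exact mul_le_mul_of_nonneg_right hδ2 (Nat.cast_nonneg n))
    refine hd.trans (Pp_mono n (η / 4) (by linarith) (by linarith) _ _ ?_)
    rintro τ ⟨U', V, -, hU, hV, hV0, hVs, hP2⟩
    exact tw_good η κ σ τ B Y hB hB1 hBs hP U' V hU hV hV0 hVs hP2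
  have h3 : (1 - p / 2) * Pp n ((1 - η) / 2) (ApproxM η δ n) ≤
      Pp n ((1 - η) / 2 + η / 4 - (1 - η) / 2 * (η / 4)) G := by
    have e1 : Pp n ((1 - η) / 2 + η / 4 - (1 - η) / 2 * (η / 4)) G =
        Ep n ((1 - η) / 2) (fun σ => Pp n (η / 4) (fun τ => G (cup σ τ))) := by
      unfold Pp
      rw [← Ep_cup]
    rw [e1]
    unfold Pp
    rw [← Ep_mul]
    refine Ep_mono n _ (by linarith) (by linarith) _ _ fun σ => ?_
    by_cases hs : ApproxM η δ n σ
    · rw [if_pos hs, mul_one]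
      exact h2 σ hs
    · rw [if_neg hs, mul_zero]
      exact Pp_nonneg n _ (by linarith) (by linarith) _
  have h4 : Pp n ((1 - η) / 2 + η / 4 - (1 - η) / 2 * (η / 4)) G ≤ Pp n (1 / 2 - η / 4) G := by
    refine Pp_mono_density n _ _ ?_ ?_ (by linarith) G
      (fun σ τ h hg => tw_mono _ _ _ σ τ h hg)
    · nlinarith
    · nlinarith
  have h5 : (1 - p / 2) * (1 - δ) ≤ (1 - p / 2) * Pp n ((1 - η) / 2) (ApproxM η δ n) :=
    mul_le_mul_of_nonneg_left h1 (by linarith)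
  have h6 : 1 - p ≤ (1 - p / 2) * (1 - δ) := by nlinarith
  linarith

end Pool.Agent.H276R2.Gn
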