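import Pool.Agent.H276R2.Gn.Spec

set_option autoImplicit false

namespace Pool.Agent.H276R2.Gn

open Finset Real

theorem up_choice {ε : ℝ} (hε : 0 < ε) {K' : ℝ → ℝ} (hK' : ∀ η, 0 < η → 0 ≤ K' η) :
    ∃ η κ p : ℝ, 0 < η ∧ η ≤ 1 / 4 ∧ 0 < κ ∧ κ ≤ 1 ∧ 0 < p ∧ p ≤ 1 ∧
      (1 + 3 * η + κ) / (1 - η) + K' η * √κ + K' η * p ≤ 1 + ε := by
  set η : ℝ := min (1 / 4) (ε / (10 + ε)) with hη
  have hη0 : 0 < η := lt_min (by norm_num) (by positivity)
  have hη1 : η ≤ 1 / 4 := min_le_left _ _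
  have hη2 : η ≤ ε / (10 + ε) := min_le_right _ _
  have hη3 : η * (10 + ε) ≤ ε := by rwa [le_div_iff₀ (by positivity)] at hη2
  have hK := hK' η hη0
  set d : ℝ := ε / (4 * (K' η + 1)) with hd
  have hd0 : 0 < d := by positivity
  have hKd : K' η * d ≤ ε / 4 := by
    rw [hd, mul_div_assoc', div_le_div_iff₀ (by positivity) (by norm_num)]
    nlinarith
  refine ⟨η, min η (d ^ 2), min 1 d, hη0, hη1, lt_min hη0 (by positivity),
    (min_le_left _ _).trans (by linarith), lt_min one_pos hd0, min_le_left _ _, ?_⟩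
  have h1 : (1 + 3 * η + min η (d ^ 2)) / (1 - η) ≤ 1 + ε / 2 := by
    rw [div_le_iff₀ (by linarith)]
    have := min_le_left η (d ^ 2)
    nlinarith
  have h2 : √(min η (d ^ 2)) ≤ d := by
    calc √(min η (d ^ 2)) ≤ √(d ^ 2) := Real.sqrt_le_sqrt (min_le_right _ _)
      _ = d := Real.sqrt_sq hd0.le
  have h3 : K' η * √(min η (d ^ 2)) ≤ ε / 4 :=
    (mul_le_mul_of_nonneg_left h2 hK).trans hKd
  have h4 : K' η * min 1 d ≤ ε / 4 :=
    (mul_le_mul_of_nonneg_left (min_le_right _ _) hK).trans hKd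
  linarith

open Classical in
theorem t_UP (th : S_TH) (td : S_TD) (gb : S_GB) (tw : S_TW) : S_UP := by
  obtain ⟨K, hK, gb⟩ := gb
  obtain ⟨-, th2, th3, th4⟩ := th
  intro ε hε
  obtain ⟨η, κ, p, hη0, hη1, hκ0, hκ1, hp0, hp1, hch⟩ :=
    up_choice hε (K' := fun η => K / (η / 4) ^ 5) (fun η hη => by positivity)
  obtain ⟨n₀, htw⟩ := tw η κ p hη0 hη1 hκ0 hκ1 hp0 hp1
  refine ⟨n₀, fun n hn => ?_⟩
  have hgood := htw n hn
  set q : ℝ := η / 4 with hq
  have hq0 : 0 < q := by positivity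
  have hq1 : q ≤ 1 := by linarith
  set p₁ : ℝ := 1 / 2 - η / 4 with hp₁
  have hp₁0 : 0 ≤ p₁ := by linarith
  have hp₁1 : p₁ ≤ 1 := by linarith
  set K' : ℝ := K / q ^ 5 with hK'
  have hK'0 : 0 ≤ K' := by positivity
  -- density
  have hden : p₁ + q - p₁ * q ≤ 1 / 2 := by
    have : 0 ≤ p₁ * q := mul_nonneg hp₁0 hq0.le
    linarith
  have hden0 : 0 ≤ p₁ + q - p₁ * q := by nlinarith
  have s1 : Ep n (1 / 2) (fun σ => Th σ univ) ≤
      Ep n (p₁ + q - p₁ * q) (fun σ => Th σ univ) := by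
    have h1 := Ep_mono_density n (p₁ + q - p₁ * q) (1 / 2) hden0 hden (by norm_num)
      (fun σ => (-1) * Th σ univ) (fun σ τ h => by
        have := th2 n σ τ univ h
        linarith)
    rw [Ep_mul, Ep_mul] at h1
    linarith
  rw [← Ep_cup] at s1
  -- inner bound
  have s2 : ∀ σ : Cfg n, Ep n q (fun τ => Th (cup σ τ) univ) ≤
      ((1 + 3 * η + κ) / (1 - η) * √n + K' * √κ * √n) +
        (K' * √n) * (if ¬ GoodU κ (1 + 3 * η + κ) (1 - η) n σ then 1 else 0) := by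
    intro σ
    have hA : 0 ≤ (1 + 3 * η + κ) / (1 - η) * √n := by
      apply mul_nonneg (div_nonneg (by linarith) (by linarith)) (Real.sqrt_nonneg _)
    by_cases hG : GoodU κ (1 + 3 * η + κ) (1 - η) n σ
    · rw [if_neg (by simpa using hG), mul_zero, add_zero]
      obtain ⟨U, B, h1, h2, h3, h4, h5⟩ := hG
      have hU : Th σ U ≤ (1 + 3 * η + κ) / (1 - η) * √n :=
        td n σ U B _ _ (by linarith) (by linarith) (fun i _ => (h3 i).le) h4 h5 h2
      have hpt : ∀ τ : Cfg n, Th (cup σ τ) univ ≤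
          (1 + 3 * η + κ) / (1 - η) * √n + Th τ Uᶜ := by
        intro τ
        have e1 := th4 n (cup σ τ) U Uᶜ disjoint_compl_right
        rw [union_compl] at e1
        have e2 := th2 n σ (cup σ τ) U (fun e he => by simp [cup, he])
        have e3 := th2 n τ (cup σ τ) Uᶜ (fun e he => by simp [cup, he])
        linarith
      have e4 := Ep_mono n q hq0.le hq1 _ _ hpt
      rw [Ep_add, Ep_const] at e4
      have e5 := gb n Uᶜ q hq0 hq1
      have e6 : √(#Uᶜ : ℝ) ≤ √κ * √n := by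
        rw [← Real.sqrt_mul hκ0.le]
        exact Real.sqrt_le_sqrt h1
      have e7 : K * √(#Uᶜ : ℝ) / q ^ 5 ≤ K' * √κ * √n := by
        have : K * √(#Uᶜ : ℝ) / q ^ 5 = K' * √(#Uᶜ : ℝ) := by rw [hK']; ring
        rw [this, mul_assoc]
        exact mul_le_mul_of_nonneg_left e6 hK'0
      linarith
    · rw [if_pos hG, mul_one]
      have hpt : ∀ τ : Cfg n, Th (cup σ τ) univ ≤ Th τ univ := fun τ =>
        th2 n τ (cup σ τ) univ (fun e he => by simp [cup, he])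
      have e4 := Ep_mono n q hq0.le hq1 _ _ hpt
      have e5 := gb n univ q hq0 hq1
      rw [card_univ, Fintype.card_fin] at e5
      have e7 : K * √(n : ℝ) / q ^ 5 = K' * √n := by rw [hK']; ring
      rw [e7] at e5
      have e8 : 0 ≤ K' * √κ * √n := by positivity
      linarith
  have s3 := Ep_mono n p₁ hp₁0 hp₁1 _ _ s2
  rw [Ep_add, Ep_const, Ep_mul] at s3
  have s4 : Ep n p₁ (fun σ => if ¬ GoodU κ (1 + 3 * η + κ) (1 - η) n σ then (1 : ℝ) else 0) =
      1 - Pp n p₁ (GoodU κ (1 + 3 * η + κ) (1 - η) n) := by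
    rw [← Pp_not]
    unfold Pp
    congr 1
    funext σ
    congr
  rw [s4] at s3
  have hsn : 0 ≤ √(n : ℝ) := Real.sqrt_nonneg _
  have s5 : K' * √n * (1 - Pp n p₁ (GoodU κ (1 + 3 * η + κ) (1 - η) n)) ≤ K' * √n * p :=
    mul_le_mul_of_nonneg_left (by linarith) (by positivity)
  have s6 := mul_le_mul_of_nonneg_right hch hsn
  calc Ep n (1 / 2) (fun σ => Th σ univ) ≤ _ := s1
    _ ≤ _ := s3
    _ ≤ _ := by linarith
    _ ≤ _ := s6

end Pool.Agent.H276R2.Gn
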