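import Pool.Agent.H276R2.Gn.Spec

/-! Task W1: the Wick product rule. -/

set_option autoImplicit false

namespace Pool.Agent.H276R2.Gn
open Finset Real

theorem w1_sum_cons {J : Type} [Fintype J] {r : ℕ} {M : Type*} [AddCommMonoid M]
    (F : (Fin (r + 1) → J) → M) :
    ∑ j : Fin (r + 1) → J, F j = ∑ a : J, ∑ j : Fin r → J, F (Fin.cons a j) := by
  rw [← (Fin.consEquiv (fun _ : Fin (r + 1) => J)).sum_comp, Fintype.sum_prod_type]
  rfl

theorem w1_mul {J J' : Type} [Fintype J] [Fintype J'] {n : ℕ} (a : J → ℝ) (b : J' → ℝ)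
    (X : J → Mat n) (Y : J' → Mat n) :
    (∑ i, a i • X i) * (∑ j, b j • Y j) = ∑ i, ∑ j, (a i * b j) • (X i * Y j) := by
  rw [Finset.sum_mul]
  refine Finset.sum_congr rfl fun i _ => ?_
  rw [Finset.mul_sum]
  refine Finset.sum_congr rfl fun j _ => ?_
  rw [Matrix.smul_mul, Matrix.mul_smul, smul_smul]

theorem w1_Wf_cons (p : ℝ) {J : Type} [Fintype J] (tr : J → Chn) {r : ℕ} (γ : Fin (r + 1) → J → ℝ)
    (n : ℕ) (σ : Cfg n) :
    Wf p tr γ n σ = ∑ b : J, ∑ j : Fin r → J, (γ 0 b * ∏ i, γ i.succ (j i)) •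
      Fc p ((tr b).cat (catF r (fun i => tr (j i)))) n σ := by
  unfold Wf
  rw [w1_sum_cons]
  refine Finset.sum_congr rfl fun b _ => ?_
  refine Finset.sum_congr rfl fun j _ => ?_
  rw [Fin.prod_univ_succ]
  rfl

theorem t_W1 (pr : S_PR) : S_W1 := by
  intro p J _ tr r α γ hp hp1 htr
  have hbad : BadF p (fun n σ => ∑ a ∈ (univ : Finset J), ∑ b ∈ (univ : Finset J),
      ∑ j ∈ (univ : Finset (Fin r → J)), (α a * (γ 0 b * ∏ i, γ i.succ (j i))) •
      (Fc p (tr a) n σ * Fc p ((tr b).cat (catF r (fun i => tr (j i)))) n σ -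
        Fc p ((tr a).cat ((tr b).cat (catF r (fun i => tr (j i))))) n σ -
        cc (tr a) (tr b) • Fc p (catF r (fun i => tr (j i))) n σ)) := by
    apply BadF_sum
    intro a _
    apply BadF_sum
    intro b _
    apply BadF_sum
    intro j _
    exact BadF_smul _ (pr p (tr a) (tr b) (catF r (fun i => tr (j i))) hp hp1 (htr a) (htr b))
  refine BadF_congr hbad fun n hn σ => ?_
  have e1 : Gf p tr α n σ * Wf p tr γ n σ = ∑ a : J, ∑ b : J, ∑ j : Fin r → J,
      (α a * (γ 0 b * ∏ i, γ i.succ (j i))) •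
        (Fc p (tr a) n σ * Fc p ((tr b).cat (catF r (fun i => tr (j i)))) n σ) := by
    unfold Gf
    unfold Wf
    rw [w1_mul]
    refine Finset.sum_congr rfl fun a _ => ?_
    rw [w1_sum_cons]
    refine Finset.sum_congr rfl fun b _ => ?_
    refine Finset.sum_congr rfl fun j _ => ?_
    rw [Fin.prod_univ_succ]
    rfl
  have e2 : Wf p tr (Fin.cons α γ : Fin (r + 2) → J → ℝ) n σ = ∑ a : J, ∑ b : J, ∑ j : Fin r → J,
      (α a * (γ 0 b * ∏ i, γ i.succ (j i))) •
        Fc p ((tr a).cat ((tr b).cat (catF r (fun i => tr (j i))))) n σ := by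
    rw [w1_Wf_cons]
    refine Finset.sum_congr rfl fun a _ => ?_
    rw [w1_sum_cons]
    refine Finset.sum_congr rfl fun b _ => ?_
    refine Finset.sum_congr rfl fun j _ => ?_
    rw [Fin.prod_univ_succ]
    rfl
  have e3 : CC tr α (γ 0) • Wf p tr (fun i : Fin r => γ i.succ) n σ = ∑ a : J, ∑ b : J,
      ∑ j : Fin r → J, (α a * (γ 0 b * ∏ i, γ i.succ (j i))) •
        (cc (tr a) (tr b) • Fc p (catF r (fun i => tr (j i))) n σ) := by
    unfold CC Wf
    rw [Finset.sum_smul]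
    refine Finset.sum_congr rfl fun a _ => ?_
    rw [Finset.sum_smul]
    refine Finset.sum_congr rfl fun b _ => ?_
    rw [Finset.smul_sum]
    refine Finset.sum_congr rfl fun j _ => ?_
    rw [smul_smul, smul_smul]
    congr 1
    ring
  rw [e1, e2, e3]
  simp only [smul_sub, Finset.sum_sub_distrib]

end Pool.Agent.H276R2.Gn
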