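import Pool.Agent.H276R2.Gn.Spec

/-! Task W2: Chebyshev polynomials of a normalised symmetric family. -/

set_option autoImplicit false

namespace Pool.Agent.H276R2.Gn
open Finset Real

theorem w2_mul_Wf (cl : S_CL) {p : ℝ} (hp : 0 < p) (hp1 : p < 1) {J : Type} [Fintype J]
    (tr : J → Chn) {r : ℕ} (γ : Fin r → J → ℝ) {f : MF} (hf : BadF p f) :
    BadF p (fun n σ => f n σ * Wf p tr γ n σ) := by
  have h : BadF p (fun n σ => ∑ j ∈ (univ : Finset (Fin r → J)), (∏ i, γ i (j i)) •
      (f n σ * Fc p (catF r (fun i => tr (j i))) n σ)) := by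
    apply BadF_sum
    intro j _
    exact BadF_smul _ ((cl p hp hp1 f f hf hf).2 _).1
  refine BadF_congr h fun n _ σ => ?_
  unfold Wf
  rw [Finset.mul_sum]
  refine Finset.sum_congr rfl fun j _ => ?_
  rw [Matrix.mul_smul]

theorem w2_Gf_mul (cl : S_CL) {p : ℝ} (hp : 0 < p) (hp1 : p < 1) {J : Type} [Fintype J]
    (tr : J → Chn) (α : J → ℝ) {f : MF} (hf : BadF p f) :
    BadF p (fun n σ => Gf p tr α n σ * f n σ) := by
  have h : BadF p (fun n σ => ∑ j ∈ (univ : Finset J), α j • (Fc p (tr j) n σ * f n σ)) := by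
    apply BadF_sum
    intro j _
    exact BadF_smul _ ((cl p hp hp1 f f hf hf).2 _).2
  refine BadF_congr h fun n _ σ => ?_
  unfold Gf
  rw [Finset.sum_mul]
  refine Finset.sum_congr rfl fun j _ => ?_
  rw [Matrix.smul_mul]

theorem w2_Uc_succ (d : ℕ) : Uc (d + 2) = Polynomial.X * Uc (d + 1) - Uc d := rfl

theorem t_W2 (cl : S_CL) (w1 : S_W1) : S_W2 := by
  intro p J _ tr α G hp hp1 hG hα
  obtain ⟨htr, hsym, hbad⟩ := hG
  have key : ∀ d : ℕ,
      BadF p (fun n σ => Polynomial.aeval (G n σ) (Uc d) - Wf p tr (fun _ : Fin d => α) n σ) ∧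
      BadF p (fun n σ => Polynomial.aeval (G n σ) (Uc (d + 1)) -
        Wf p tr (fun _ : Fin (d + 1) => α) n σ) := by
    intro d
    induction d with
    | zero =>
      constructor
      · refine BadF_congr BadF_zero fun n _ σ => ?_
        rw [Wf_zero]
        show Polynomial.aeval (G n σ) (1 : Polynomial ℝ) - 1 = 0
        rw [map_one, sub_self]
      · refine BadF_congr hbad fun n _ σ => ?_
        rw [Wf_one]
        show Polynomial.aeval (G n σ) (Polynomial.X : Polynomial ℝ) - _ = _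
        rw [Polynomial.aeval_X]
    | succ d ih =>
      refine ⟨ih.2, ?_⟩
      have hw1 := w1 p J tr d α (fun _ : Fin (d + 1) => α) hp hp1 htr
      have h1 := w2_mul_Wf cl hp hp1 tr (fun _ : Fin (d + 1) => α) hbad
      have h2 := w2_Gf_mul cl hp hp1 tr α ih.2
      have h3 := (cl p hp hp1 _ _ hbad ih.2).1
      have h4 := BadF_sub (BadF_add (BadF_add (BadF_add hw1 h1) h2) h3) ih.1
      refine BadF_congr h4 fun n _ σ => ?_
      have hc : (Fin.cons α (fun _ : Fin (d + 1) => α) : Fin (d + 2) → J → ℝ)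
          = fun _ => α := by
        funext i
        refine Fin.cases ?_ (fun i => ?_) i
        · rfl
        · rfl
      rw [hc, hα, one_smul]
      show Polynomial.aeval (G n σ) (Uc (d + 2)) - Wf p tr (fun _ : Fin (d + 2) => α) n σ = _
      rw [w2_Uc_succ, map_sub, map_mul, Polynomial.aeval_X]
      noncomm_ring
  exact fun d => (key d).1

end Pool.Agent.H276R2.Gn
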