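import Pool.Agent.H276R2.Gn.Spec

/-! Task W3: traces of products. -/

set_option autoImplicit false

namespace Pool.Agent.H276R2.Gn
open Finset Real

/-- a sequence of order `1/√n` -/
def w3_Ng (x : ℕ → ℝ) : Prop := ∃ K : ℝ, ∀ n : ℕ, 0 < n → |x n| ≤ K / √n

theorem w3_Ng_congr {x y : ℕ → ℝ} (hx : w3_Ng x) (h : ∀ n, 0 < n → y n = x n) : w3_Ng y := by
  obtain ⟨K, hK⟩ := hx
  exact ⟨K, fun n hn => by rw [h n hn]; exact hK n hn⟩

theorem w3_Ng_zero : w3_Ng (fun _ => 0) := ⟨0, fun n _ => by simp⟩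

theorem w3_Ng_add {x y : ℕ → ℝ} (hx : w3_Ng x) (hy : w3_Ng y) : w3_Ng (fun n => x n + y n) := by
  obtain ⟨K, hK⟩ := hx
  obtain ⟨L, hL⟩ := hy
  refine ⟨K + L, fun n hn => ?_⟩
  have h1 := abs_add_le (x n) (y n)
  have h2 := hK n hn
  have h3 := hL n hn
  rw [add_div]
  linarith

theorem w3_Ng_mul {x : ℕ → ℝ} (c : ℝ) (hx : w3_Ng x) : w3_Ng (fun n => c * x n) := by
  obtain ⟨K, hK⟩ := hx
  refine ⟨|c| * K, fun n hn => ?_⟩
  rw [abs_mul, mul_div_assoc]
  exact mul_le_mul_of_nonneg_left (hK n hn) (abs_nonneg c)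

theorem w3_Ng_sub {x y : ℕ → ℝ} (hx : w3_Ng x) (hy : w3_Ng y) : w3_Ng (fun n => x n - y n) := by
  refine w3_Ng_congr (w3_Ng_add hx (w3_Ng_mul (-1) hy)) fun n _ => ?_
  ring

/-- families of order `n` -/
def w3_Ord (p : ℝ) (X : MF) : Prop :=
  ∃ C : ℝ, ∀ n : ℕ, 0 < n → Ep n p (fun σ => fro (X n σ)) ≤ C * n

theorem w3_Ord_congr {p : ℝ} {X Y : MF} (hX : w3_Ord p X)
    (h : ∀ n, 0 < n → ∀ σ : Cfg n, Y n σ = X n σ) : w3_Ord p Y := by
  obtain ⟨C, hC⟩ := hX
  refine ⟨C, fun n hn => ?_⟩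
  have : (fun σ : Cfg n => fro (Y n σ)) = fun σ => fro (X n σ) := by
    funext σ; rw [h n hn σ]
  rw [this]
  exact hC n hn

theorem w3_Ord_add {p : ℝ} (hp : 0 < p) (hp1 : p < 1) {X Y : MF} (hX : w3_Ord p X)
    (hY : w3_Ord p Y) : w3_Ord p (fun n σ => X n σ + Y n σ) := by
  obtain ⟨C, hC⟩ := hX
  obtain ⟨D, hD⟩ := hY
  refine ⟨2 * C + 2 * D, fun n hn => ?_⟩
  have h1 : Ep n p (fun σ => fro (X n σ + Y n σ))
      ≤ Ep n p (fun σ => 2 * fro (X n σ) + 2 * fro (Y n σ)) :=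
    Ep_mono n p hp.le hp1.le _ _ fun σ => fro_add_le _ _
  rw [Ep_add, Ep_mul, Ep_mul] at h1
  have h2 := hC n hn
  have h3 := hD n hn
  nlinarith

theorem w3_Ord_smul {p : ℝ} {X : MF} (c : ℝ) (hX : w3_Ord p X) :
    w3_Ord p (fun n σ => c • X n σ) := by
  obtain ⟨C, hC⟩ := hX
  refine ⟨c ^ 2 * C, fun n hn => ?_⟩
  have : (fun σ : Cfg n => fro (c • X n σ)) = fun σ => c ^ 2 * fro (X n σ) := by
    funext σ; rw [fro_smul]
  rw [this, Ep_mul, mul_assoc]
  exact mul_le_mul_of_nonneg_left (hC n hn) (sq_nonneg c)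

theorem w3_Ord_zero {p : ℝ} : w3_Ord p (fun _ _ => 0) := by
  refine ⟨0, fun n _ => ?_⟩
  have : (fun _ : Cfg n => fro (0 : Mat n)) = fun _ => 0 := by
    funext σ; simp [fro]
  rw [this, Ep_const, zero_mul]

theorem w3_Ord_sum {p : ℝ} (hp : 0 < p) (hp1 : p < 1) {ι : Type} (s : Finset ι) (X : ι → MF)
    (h : ∀ i ∈ s, w3_Ord p (X i)) : w3_Ord p (fun n σ => ∑ i ∈ s, X i n σ) := by
  classical
  induction s using Finset.induction_on with
  | empty => simpa using w3_Ord_zero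
  | insert a s ha ih =>
    have h1 := w3_Ord_add hp hp1 (h a (Finset.mem_insert_self _ _))
      (ih fun i hi => h i (Finset.mem_insert_of_mem hi))
    refine w3_Ord_congr h1 fun n _ σ => ?_
    rw [Finset.sum_insert ha]

theorem w3_Ord_bad (bn : S_BN) {p : ℝ} (hp : 0 < p) (hp1 : p < 1) {f : MF} (hf : BadF p f) :
    w3_Ord p f := by
  obtain ⟨C, hC⟩ := (bn p hp hp1).1 f hf
  refine ⟨|C|, fun n hn => ?_⟩
  have h1 := hC n hn
  have h2 : (1 : ℝ) ≤ n := by exact_mod_cast hn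
  have h3 := le_abs_self C
  have h4 := abs_nonneg C
  nlinarith

theorem w3_Ord_Wf (bn : S_BN) {p : ℝ} (hp : 0 < p) (hp1 : p < 1) {J : Type} [Fintype J]
    (tr : J → Chn) {r : ℕ} (γ : Fin r → J → ℝ) : w3_Ord p (Wf p tr γ) := by
  have h : w3_Ord p (fun n σ => ∑ j ∈ (univ : Finset (Fin r → J)), (∏ i, γ i (j i)) •
      Fc p (catF r (fun i => tr (j i))) n σ) := by
    apply w3_Ord_sum hp hp1
    intro j _
    exact w3_Ord_smul _ ((bn p hp hp1).2 _)
  exact h

/-- the error terms -/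
theorem w3_err (bn : S_BN) {p : ℝ} (hp : 0 < p) (hp1 : p < 1) {X f : MF} (hX : w3_Ord p X)
    (hf : BadF p f) : w3_Ng (fun n => Ep n p (fun σ => (X n σ * f n σ).trace / n)) := by
  obtain ⟨C, hC⟩ := hX
  obtain ⟨D, hD⟩ := (bn p hp hp1).1 f hf
  refine ⟨√(|C| * |D|), fun n hn => ?_⟩
  have hnr : (0 : ℝ) < n := by exact_mod_cast hn
  show |Ep n p (fun σ => (X n σ * f n σ).trace / n)| ≤ _
  rw [Ep_div]
  have h1 := Ep_trace_mul_le n p hp.le hp1.le (X n) (f n)
  have h2 : Ep n p (fun σ => fro (X n σ)) ≤ |C| * n :=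
    (hC n hn).trans (mul_le_mul_of_nonneg_right (le_abs_self C) hnr.le)
  have h3 : Ep n p (fun σ => fro (f n σ)) ≤ |D| := (hD n hn).trans (le_abs_self D)
  have h4 : 0 ≤ Ep n p (fun σ => fro (f n σ)) :=
    Ep_nonneg n p hp.le hp1.le _ fun σ => fro_nonneg _
  have h5 : (Ep n p (fun σ => (X n σ * f n σ).trace)) ^ 2 ≤ |C| * |D| * n := by
    refine h1.trans ?_
    have := mul_le_mul h2 h3 h4 (by positivity : (0 : ℝ) ≤ |C| * n)
    linarith
  have h6 := Real.abs_le_sqrt h5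
  rw [abs_div, abs_of_pos hnr, div_le_div_iff₀ hnr (Real.sqrt_pos.2 hnr)]
  rw [Real.sqrt_mul (by positivity)] at h6
  have h7 : √(n : ℝ) * √(n : ℝ) = n := Real.mul_self_sqrt hnr.le
  calc |Ep n p (fun σ => (X n σ * f n σ).trace)| * √(n : ℝ)
      ≤ (√(|C| * |D|) * √(n : ℝ)) * √(n : ℝ) :=
        mul_le_mul_of_nonneg_right h6 (Real.sqrt_nonneg _)
    _ = √(|C| * |D|) * n := by rw [mul_assoc, h7]

theorem w3_mul_Wf (cl : S_CL) {p : ℝ} (hp : 0 < p) (hp1 : p < 1) {J : Type} [Fintype J]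
    (tr : J → Chn) {r : ℕ} (γ : Fin r → J → ℝ) {f : MF} (hf : BadF p f) :
    BadF p (fun n σ => f n σ * Wf p tr γ n σ) := by
  have h : BadF p (fun n σ => ∑ j ∈ (univ : Finset (Fin r → J)), (∏ i, γ i (j i)) •
      (f n σ * Fc p (catF r (fun i => tr (j i))) n σ)) := by
    apply BadF_sum
    intro j _
    exact BadF_smul _ ((cl p hp hp1 f f hf hf).2 _).1
  refine BadF_congr h fun n _ σ => ?_
  unfold Wf
  rw [Finset.mul_sum]
  refine Finset.sum_congr rfl fun j _ => ?_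
  rw [Matrix.mul_smul]

section main

variable {p : ℝ} {J : Type} [Fintype J] (tr : J → Chn) (α : J → ℝ) (G : MF)

/-- the trace -/
noncomputable def w3_T (p : ℝ) (G : MF) (P : Polynomial ℝ) {r : ℕ} (γ : Fin r → J → ℝ) (n : ℕ) : ℝ :=
  Ep n p (fun σ => (Polynomial.aeval (G n σ) P * Wf p tr γ n σ).trace / n)

/-- the value of the trace -/
noncomputable def w3_V (d : ℕ) {r : ℕ} (γ : Fin r → J → ℝ) : ℝ :=
  if d = r then ∏ i, CC tr α (γ i) else 0

theorem w3_T_sub (P Q : Polynomial ℝ) {r : ℕ} (γ : Fin r → J → ℝ) (n : ℕ) :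
    w3_T tr p G (P - Q) γ n = w3_T tr p G P γ n - w3_T tr p G Q γ n := by
  unfold w3_T
  rw [← Ep_sub]
  congr 1
  funext σ
  rw [map_sub, sub_mul, Matrix.trace_sub, sub_div]

theorem w3_step (bn : S_BN) (cl : S_CL) (w1 : S_W1) (hp : 0 < p) (hp1 : p < 1)
    (hG : App p tr α G) (P : Polynomial ℝ)
    (hP : w3_Ord p (fun n σ => Polynomial.aeval (G n σ) P)) {r : ℕ} (γ : Fin (r + 1) → J → ℝ) :
    w3_Ng (fun n => w3_T tr p G (Polynomial.X * P) γ n -
      w3_T tr p G P (Fin.cons α γ : Fin (r + 2) → J → ℝ) n -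
      CC tr α (γ 0) * w3_T tr p G P (fun i : Fin r => γ i.succ) n) := by
  obtain ⟨htr, hsym, hbad⟩ := hG
  have h1 := w1 p J tr r α γ hp hp1 htr
  have h2 := w3_mul_Wf cl hp hp1 tr γ hbad
  have h3 := w3_err bn hp hp1 hP (BadF_add h1 h2)
  refine w3_Ng_congr h3 fun n hn => ?_
  unfold w3_T
  rw [← Ep_mul, ← Ep_sub, ← Ep_sub]
  congr 1
  funext σ
  rw [mul_comm Polynomial.X P, map_mul, Polynomial.aeval_X]
  have e : ∀ A B C D : Mat n, ∀ c : ℝ, A.trace / n - B.trace / n - c * (C.trace / n) = D.trace / n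
      ↔ A.trace - B.trace - c * C.trace = D.trace := by
    intro A B C D c
    have hnr : (n : ℝ) ≠ 0 := by exact_mod_cast hn.ne'
    constructor
    · intro h
      field_simp at h
      linarith
    · intro h
      rw [← h]
      ring
  rw [e, ← Matrix.trace_sub, ← smul_eq_mul (a := CC tr α (γ 0)), ← Matrix.trace_smul,
    ← Matrix.trace_sub]
  congr 1
  rw [← Matrix.mul_smul]
  noncomm_ring

theorem w3_step0 (bn : S_BN) (hp : 0 < p) (hp1 : p < 1)
    (hG : App p tr α G) (P : Polynomial ℝ)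
    (hP : w3_Ord p (fun n σ => Polynomial.aeval (G n σ) P)) (γ : Fin 0 → J → ℝ) :
    w3_Ng (fun n => w3_T tr p G (Polynomial.X * P) γ n -
      w3_T tr p G P (fun _ : Fin 1 => α) n) := by
  obtain ⟨htr, hsym, hbad⟩ := hG
  have h3 := w3_err bn hp hp1 hP hbad
  refine w3_Ng_congr h3 fun n hn => ?_
  unfold w3_T
  rw [← Ep_sub]
  congr 1
  funext σ
  rw [mul_comm Polynomial.X P, map_mul, Polynomial.aeval_X, Wf_zero, Wf_one, ← sub_div,
    ← Matrix.trace_sub]
  congr 2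
  noncomm_ring

end main

theorem w3_Uc_succ (d : ℕ) : Uc (d + 2) = Polynomial.X * Uc (d + 1) - Uc d := rfl

theorem t_W3 (bn : S_BN) (cl : S_CL) (w1 : S_W1) (w2 : S_W2) : S_W3 := by
  intro p J _ tr α G hp hp1 hG hα
  have hU : ∀ d, w3_Ord p (fun n σ => Polynomial.aeval (G n σ) (Uc d)) := by
    intro d
    have h1 := w3_Ord_add hp hp1 (w3_Ord_bad bn hp hp1 (w2 p J tr α G hp hp1 hG hα d))
      (w3_Ord_Wf bn hp hp1 tr (fun _ : Fin d => α))
    refine w3_Ord_congr h1 fun n _ σ => ?_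
    rw [sub_add_cancel]
  have h0 : ∀ (r : ℕ) (γ : Fin r → J → ℝ),
      w3_Ng (fun n => w3_T tr p G (Uc 0) γ n - w3_V tr α 0 γ) := by
    intro r γ
    refine w3_Ng_congr w3_Ng_zero fun n hn => ?_
    have hnr : (n : ℝ) ≠ 0 := by exact_mod_cast hn.ne'
    unfold w3_T w3_V
    cases r with
    | zero =>
      have : (fun σ : Cfg n => (Polynomial.aeval (G n σ) (Uc 0) * Wf p tr γ n σ).trace / n)
          = fun _ => 1 := by
        funext σ
        rw [Wf_zero]
        show ((Polynomial.aeval (G n σ)) (1 : Polynomial ℝ) * 1).trace / n = 1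
        rw [map_one, mul_one, Matrix.trace_one, Fintype.card_fin, div_self hnr]
      rw [this, Ep_const]
      simp
    | succ r =>
      have : (fun σ : Cfg n => (Polynomial.aeval (G n σ) (Uc 0) * Wf p tr γ n σ).trace / n)
          = fun _ => 0 := by
        funext σ
        show ((Polynomial.aeval (G n σ)) (1 : Polynomial ℝ) * _).trace / n = 0
        rw [map_one, one_mul, trace_Wf p tr hG.1, zero_div]
      rw [this, Ep_const, if_neg (by omega)]
      simp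
  -- values
  have hV : ∀ (d r : ℕ) (γ : Fin (r + 1) → J → ℝ),
      w3_V tr α (d + 1) γ = CC tr α (γ 0) * w3_V tr α d (fun i : Fin r => γ i.succ) := by
    intro d r γ
    unfold w3_V
    by_cases h : d = r
    · rw [if_pos (by omega), if_pos h, Fin.prod_univ_succ]
    · rw [if_neg (by omega), if_neg h, mul_zero]
  have hVc : ∀ (d r : ℕ) (γ : Fin (r + 1) → J → ℝ),
      w3_V tr α (d + 1) (Fin.cons α γ : Fin (r + 2) → J → ℝ) = w3_V tr α d γ := by
    intro d r γ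
    rw [hV]
    show CC tr α α * w3_V tr α d γ = _
    rw [hα, one_mul]
  have key : ∀ d : ℕ,
      (∀ (r : ℕ) (γ : Fin r → J → ℝ),
        w3_Ng (fun n => w3_T tr p G (Uc d) γ n - w3_V tr α d γ)) ∧
      (∀ (r : ℕ) (γ : Fin r → J → ℝ),
        w3_Ng (fun n => w3_T tr p G (Uc (d + 1)) γ n - w3_V tr α (d + 1) γ)) := by
    intro d
    induction d with
    | zero =>
      refine ⟨h0, ?_⟩
      intro r γ
      have hU1 : Uc (0 + 1) = Polynomial.X * Uc 0 := by
        show Polynomial.X = Polynomial.X * (1 : Polynomial ℝ)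
        rw [mul_one]
      rw [hU1]
      cases r with
      | zero =>
        have s1 := w3_step0 tr α G bn hp hp1 hG (Uc 0) (hU 0) γ
        have s2 := h0 1 (fun _ : Fin 1 => α)
        refine w3_Ng_congr (w3_Ng_add s1 s2) fun n _ => ?_
        have e1 : w3_V tr α (0 + 1) γ = 0 := by unfold w3_V; rw [if_neg (by omega)]
        have e2 : w3_V tr α 0 (fun _ : Fin 1 => α) = 0 := by unfold w3_V; rw [if_neg (by omega)]
        rw [e1, e2]
        ring
      | succ r =>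
        have s1 := w3_step tr α G bn cl w1 hp hp1 hG (Uc 0) (hU 0) γ
        have s2 := h0 (r + 2) (Fin.cons α γ : Fin (r + 2) → J → ℝ)
        have s3 := w3_Ng_mul (CC tr α (γ 0)) (h0 r (fun i : Fin r => γ i.succ))
        refine w3_Ng_congr (w3_Ng_add (w3_Ng_add s1 s2) s3) fun n _ => ?_
        have e2 : w3_V tr α 0 (Fin.cons α γ : Fin (r + 2) → J → ℝ) = 0 := by
          unfold w3_V; rw [if_neg (by omega)]
        rw [hV, e2]
        ring
    | succ d ih =>
      refine ⟨ih.2, ?_⟩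
      intro r γ
      have hU1 : Uc (d + 1 + 1) = Polynomial.X * Uc (d + 1) - Uc d := w3_Uc_succ d
      rw [hU1]
      cases r with
      | zero =>
        have s1 := w3_step0 tr α G bn hp hp1 hG (Uc (d + 1)) (hU (d + 1)) γ
        have s2 := ih.2 1 (fun _ : Fin 1 => α)
        have s3 := ih.1 0 γ
        refine w3_Ng_congr (w3_Ng_sub (w3_Ng_add s1 s2) s3) fun n _ => ?_
        rw [w3_T_sub]
        have e1 : w3_V tr α (d + 1 + 1) γ = 0 := by unfold w3_V; rw [if_neg (by omega)]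
        have e2 : w3_V tr α (d + 1) (fun _ : Fin 1 => α) = w3_V tr α d γ := by
          unfold w3_V
          by_cases hd : d = 0
          · rw [if_pos (by omega), if_pos hd]
            simp [hα]
          · rw [if_neg (by omega), if_neg hd]
        rw [e1, e2]
        ring
      | succ r =>
        have s1 := w3_step tr α G bn cl w1 hp hp1 hG (Uc (d + 1)) (hU (d + 1)) γ
        have s2 := ih.2 (r + 2) (Fin.cons α γ : Fin (r + 2) → J → ℝ)
        have s3 := w3_Ng_mul (CC tr α (γ 0)) (ih.2 r (fun i : Fin r => γ i.succ))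
        have s4 := ih.1 (r + 1) γ
        refine w3_Ng_congr (w3_Ng_sub (w3_Ng_add (w3_Ng_add s1 s2) s3) s4) fun n _ => ?_
        rw [w3_T_sub, hV, hVc]
        ring
  intro d r γ
  obtain ⟨K, hK⟩ := (key d).1 r γ
  exact ⟨K, hK⟩

end Pool.Agent.H276R2.Gn
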