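import Pool.Agent.H276R2.Gn.Spec

/-!
# W4: covariances after one step of the iteration
-/

set_option autoImplicit false

namespace Pool.Agent.H276R2.Gn

open Finset Real

/-! ### Errors of order `√n` -/

def w4AO (x : ℕ → ℝ) : Prop := ∃ K : ℝ, ∀ n : ℕ, 0 < n → |x n| ≤ K * √n

theorem w4AO_congr {x y : ℕ → ℝ} (h : w4AO x) (hxy : ∀ n, 0 < n → y n = x n) : w4AO y := by
  obtain ⟨K, hK⟩ := h
  exact ⟨K, fun n hn => by rw [hxy n hn]; exact hK n hn⟩

theorem w4AO_zero : w4AO (fun _ => 0) := ⟨0, fun n _ => by simp⟩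

theorem w4AO_add {x y : ℕ → ℝ} (hx : w4AO x) (hy : w4AO y) : w4AO (fun n => x n + y n) := by
  obtain ⟨K, hK⟩ := hx
  obtain ⟨L, hL⟩ := hy
  refine ⟨K + L, fun n hn => (abs_add_le _ _).trans ?_⟩
  have := hK n hn
  have := hL n hn
  rw [add_mul]
  linarith

theorem w4AO_mul {x : ℕ → ℝ} (c : ℝ) (hx : w4AO x) : w4AO (fun n => c * x n) := by
  obtain ⟨K, hK⟩ := hx
  refine ⟨|c| * K, fun n hn => ?_⟩
  rw [abs_mul, mul_assoc]
  exact mul_le_mul_of_nonneg_left (hK n hn) (abs_nonneg _)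

theorem w4AO_sub {x y : ℕ → ℝ} (hx : w4AO x) (hy : w4AO y) : w4AO (fun n => x n - y n) :=
  w4AO_congr (w4AO_add hx (w4AO_mul (-1) hy)) fun n _ => by ring

theorem w4AO_sum {ι : Type} (s : Finset ι) (x : ι → ℕ → ℝ) (h : ∀ i ∈ s, w4AO (x i)) :
    w4AO (fun n => ∑ i ∈ s, x i n) := by
  classical
  induction s using Finset.induction_on with
  | empty => simpa using w4AO_zero
  | insert i s hi ih =>
    refine w4AO_congr (w4AO_add (h i (mem_insert_self i s))
      (ih fun j hj => h j (mem_insert_of_mem hj))) fun n _ => ?_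
    rw [sum_insert hi]

theorem w4AO_const (c : ℝ) : w4AO (fun _ => c) := by
  refine ⟨|c|, fun n hn => ?_⟩
  have h1 : 1 ≤ √(n : ℝ) := by
    rw [Real.one_le_sqrt]
    exact_mod_cast hn
  exact le_mul_of_one_le_right (abs_nonneg c) h1

theorem w4AO_eq_zero {Z : ℝ} (h : w4AO (fun n => n * Z)) : Z = 0 := by
  obtain ⟨K, hK⟩ := h
  by_contra hZ
  have hZ' : 0 < |Z| := abs_pos.mpr hZ
  obtain ⟨m, hm⟩ := exists_nat_gt (((|K| + 1) / |Z|) ^ 2)
  have hm0 : (0 : ℝ) < m := lt_of_le_of_lt (by positivity) hm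
  have hm1 : 0 < m := by exact_mod_cast hm0
  have h1 := hK m hm1
  rw [abs_mul, abs_of_pos hm0] at h1
  have h2 : √(m : ℝ) * √(m : ℝ) = m := Real.mul_self_sqrt hm0.le
  have h3 : 0 < √(m : ℝ) := Real.sqrt_pos.mpr hm0
  have h4 : √(m : ℝ) * |Z| ≤ K := by
    have : √(m : ℝ) * (√(m : ℝ) * |Z|) ≤ √(m : ℝ) * K := by
      rw [← mul_assoc, h2]
      linarith
    exact le_of_mul_le_mul_left this h3
  have h5 : (|K| + 1) / |Z| < √(m : ℝ) := by
    rw [Real.lt_sqrt (by positivity)]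
    exact hm
  rw [div_lt_iff₀ hZ'] at h5
  have := le_abs_self K
  linarith

/-! ### Sizes of families -/

def w4Bd (p : ℝ) (f : MF) : Prop := ∃ C : ℝ, ∀ n : ℕ, 0 < n → Ep n p (fun σ => fro (f n σ)) ≤ C

def w4On (p : ℝ) (f : MF) : Prop :=
  ∃ C : ℝ, ∀ n : ℕ, 0 < n → Ep n p (fun σ => fro (f n σ)) ≤ C * n

theorem w4_fro_transpose {n : ℕ} (X : Mat n) : fro X.transpose = fro X := by
  unfold fro
  rw [sum_comm]
  rfl

section

variable {p : ℝ} (hp : 0 ≤ p) (hp1 : p ≤ 1)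
include hp hp1

theorem w4Bd_on {f : MF} (h : w4Bd p f) : w4On p f := by
  obtain ⟨C, hC⟩ := h
  refine ⟨C, fun n hn => (hC n hn).trans ?_⟩
  have h0 : 0 ≤ C := le_trans (Ep_nonneg n p hp hp1 _ fun σ => fro_nonneg _) (hC n hn)
  have h1 : (1 : ℝ) ≤ n := by exact_mod_cast hn
  nlinarith

theorem w4Bd_add {f g : MF} (hf : w4Bd p f) (hg : w4Bd p g) :
    w4Bd p (fun n σ => f n σ + g n σ) := by
  obtain ⟨C, hC⟩ := hf
  obtain ⟨C', hC'⟩ := hg
  refine ⟨2 * C + 2 * C', fun n hn => ?_⟩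
  calc Ep n p (fun σ => fro (f n σ + g n σ))
      ≤ Ep n p (fun σ => 2 * fro (f n σ) + 2 * fro (g n σ)) :=
        Ep_mono n p hp hp1 _ _ fun σ => fro_add_le _ _
    _ = 2 * Ep n p (fun σ => fro (f n σ)) + 2 * Ep n p (fun σ => fro (g n σ)) := by
        rw [Ep_add, Ep_mul, Ep_mul]
    _ ≤ _ := by
        have := hC n hn
        have := hC' n hn
        linarith

theorem w4On_add {f g : MF} (hf : w4On p f) (hg : w4On p g) :
    w4On p (fun n σ => f n σ + g n σ) := by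
  obtain ⟨C, hC⟩ := hf
  obtain ⟨C', hC'⟩ := hg
  refine ⟨2 * C + 2 * C', fun n hn => ?_⟩
  calc Ep n p (fun σ => fro (f n σ + g n σ))
      ≤ Ep n p (fun σ => 2 * fro (f n σ) + 2 * fro (g n σ)) :=
        Ep_mono n p hp hp1 _ _ fun σ => fro_add_le _ _
    _ = 2 * Ep n p (fun σ => fro (f n σ)) + 2 * Ep n p (fun σ => fro (g n σ)) := by
        rw [Ep_add, Ep_mul, Ep_mul]
    _ ≤ _ := by
        have := hC n hn
        have := hC' n hn
        nlinarith

theorem w4On_smul {f : MF} (c : ℝ) (hf : w4On p f) : w4On p (fun n σ => c • f n σ) := by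
  obtain ⟨C, hC⟩ := hf
  refine ⟨c ^ 2 * C, fun n hn => ?_⟩
  have : Ep n p (fun σ => fro (c • f n σ)) = c ^ 2 * Ep n p (fun σ => fro (f n σ)) := by
    rw [← Ep_mul]
    simp only [fro_smul]
  rw [this, mul_assoc]
  exact mul_le_mul_of_nonneg_left (hC n hn) (sq_nonneg c)

theorem w4On_zero : w4On p (fun _ _ => 0) := by
  refine ⟨0, fun n _ => ?_⟩
  have : Ep n p (fun σ : Cfg n => fro (0 : Mat n)) = 0 := by
    rw [Ep_const]
    simp [fro]
  rw [this]
  simp

theorem w4On_sum {ι : Type} (s : Finset ι) (f : ι → MF) (h : ∀ i ∈ s, w4On p (f i)) :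
    w4On p (fun n σ => ∑ i ∈ s, f i n σ) := by
  classical
  induction s using Finset.induction_on with
  | empty => simpa using w4On_zero hp hp1
  | insert i s hi ih =>
    have h1 := w4On_add hp hp1 (h i (mem_insert_self i s))
      (ih fun j hj => h j (mem_insert_of_mem hj))
    simpa only [sum_insert hi] using h1

theorem w4Bd_transpose {f : MF} (h : w4Bd p f) : w4Bd p (fun n σ => (f n σ).transpose) := by
  obtain ⟨C, hC⟩ := h
  refine ⟨C, fun n hn => ?_⟩
  simp only [w4_fro_transpose]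
  exact hC n hn

theorem w4Bd_neg {f : MF} (h : w4Bd p f) : w4Bd p (fun n σ => - f n σ) := by
  obtain ⟨C, hC⟩ := h
  refine ⟨C, fun n hn => ?_⟩
  have : ∀ X : Mat n, fro (-X) = fro X := fun X => by simp [fro]
  simp only [this]
  exact hC n hn

/-- the bilinear form -/
noncomputable def w4T (p : ℝ) (f g : MF) (n : ℕ) : ℝ :=
  Ep n p (fun σ => (f n σ * (g n σ).transpose).trace)

omit hp hp1 in
theorem w4T_comm (f g : MF) (n : ℕ) : w4T p f g n = w4T p g f n := by
  unfold w4T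
  congr 1
  funext σ
  rw [← Matrix.trace_transpose, Matrix.transpose_mul, Matrix.transpose_transpose]

omit hp hp1 in
theorem w4T_add_left (f f' g : MF) (n : ℕ) :
    w4T p (fun n σ => f n σ + f' n σ) g n = w4T p f g n + w4T p f' g n := by
  unfold w4T
  rw [← Ep_add]
  simp only [Matrix.add_mul, Matrix.trace_add]

omit hp hp1 in
theorem w4T_smul_left (c : ℝ) (f g : MF) (n : ℕ) :
    w4T p (fun n σ => c • f n σ) g n = c * w4T p f g n := by
  unfold w4T
  rw [← Ep_mul]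
  simp only [Matrix.smul_mul, Matrix.trace_smul, smul_eq_mul]

omit hp hp1 in
theorem w4T_sum_left {ι : Type} (s : Finset ι) (f : ι → MF) (g : MF) (n : ℕ) :
    w4T p (fun n σ => ∑ i ∈ s, f i n σ) g n = ∑ i ∈ s, w4T p (f i) g n := by
  unfold w4T
  rw [← Ep_sum]
  simp only [Matrix.sum_mul, Matrix.trace_sum]

omit hp hp1 in
theorem w4T_add_right (f g g' : MF) (n : ℕ) :
    w4T p f (fun n σ => g n σ + g' n σ) n = w4T p f g n + w4T p f g' n := by
  rw [w4T_comm, w4T_add_left, w4T_comm g, w4T_comm g']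

omit hp hp1 in
theorem w4T_smul_right (c : ℝ) (f g : MF) (n : ℕ) :
    w4T p f (fun n σ => c • g n σ) n = c * w4T p f g n := by
  rw [w4T_comm, w4T_smul_left, w4T_comm g]

omit hp hp1 in
theorem w4T_sum_right {ι : Type} (s : Finset ι) (f : MF) (g : ι → MF) (n : ℕ) :
    w4T p f (fun n σ => ∑ i ∈ s, g i n σ) n = ∑ i ∈ s, w4T p f (g i) n := by
  rw [w4T_comm, w4T_sum_left]
  exact sum_congr rfl fun i _ => w4T_comm _ _ _

theorem w4AO_T {f g : MF} (hf : w4Bd p f) (hg : w4On p g) : w4AO (w4T p f g) := by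
  obtain ⟨C, hC⟩ := hf
  obtain ⟨C', hC'⟩ := hg
  refine ⟨√(C * C'), fun n hn => ?_⟩
  have h1 := Ep_trace_mul_le n p hp hp1 (fun σ => f n σ) (fun σ => (g n σ).transpose)
  simp only [w4_fro_transpose] at h1
  have h2 := hC n hn
  have h3 := hC' n hn
  have h4 : 0 ≤ Ep n p (fun σ => fro (f n σ)) := Ep_nonneg n p hp hp1 _ fun σ => fro_nonneg _
  have h5 : 0 ≤ Ep n p (fun σ => fro (g n σ)) := Ep_nonneg n p hp hp1 _ fun σ => fro_nonneg _
  have h6 : (w4T p f g n) ^ 2 ≤ C * C' * n := by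
    refine h1.trans ?_
    calc _ ≤ C * (C' * n) := mul_le_mul h2 h3 h5 (h4.trans h2)
      _ = C * C' * n := by ring
  have h7 : |w4T p f g n| ≤ √(C * C' * n) := Real.abs_le_sqrt h6
  have h8 : 0 ≤ C * C' := by
    have hn' : (0 : ℝ) < n := by exact_mod_cast hn
    have h9 : 0 ≤ C' := by
      have : 0 ≤ C' * n := h5.trans h3
      by_contra hcon
      push Not at hcon
      nlinarith
    exact mul_nonneg (h4.trans h2) h9
  rw [Real.sqrt_mul h8] at h7
  exact h7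

theorem w4AO_T' {f g : MF} (hf : w4On p f) (hg : w4Bd p g) : w4AO (w4T p f g) :=
  w4AO_congr (w4AO_T hp hp1 hg hf) fun n _ => w4T_comm _ _ _

end

/-! ### Combinations of chains without the edge between the ends -/

def w4NR (p : ℝ) (X : MF) : Prop := ∃ (K : Type) (_ : Fintype K) (B : K → Chn) (c : K → ℝ),
  (∀ k, 0 < (B k).L ∧ (0, (B k).L) ∉ (B k).E) ∧
  ∀ n (σ : Cfg n), X n σ = ∑ k, c k • Fc p (B k) n σ

theorem w4NR_zero (p : ℝ) : w4NR p (fun _ _ => 0) :=
  ⟨Empty, inferInstance, fun k => k.elim, fun k => k.elim, fun k => k.elim, fun n σ => by simp⟩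

theorem w4NR_add {p : ℝ} {X Y : MF} (hX : w4NR p X) (hY : w4NR p Y) :
    w4NR p (fun n σ => X n σ + Y n σ) := by
  obtain ⟨K, _, B, c, h1, h2⟩ := hX
  obtain ⟨K', _, B', c', h1', h2'⟩ := hY
  refine ⟨K ⊕ K', inferInstance, Sum.elim B B', Sum.elim c c', ?_, fun n σ => ?_⟩
  · rintro (k | k)
    · exact h1 k
    · exact h1' k
  · show X n σ + Y n σ = _
    rw [Fintype.sum_sum_type, h2, h2']
    simp

theorem w4NR_smul {p : ℝ} {X : MF} (r : ℝ) (hX : w4NR p X) :
    w4NR p (fun n σ => r • X n σ) := by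
  obtain ⟨K, _, B, c, h1, h2⟩ := hX
  refine ⟨K, inferInstance, B, fun k => r * c k, h1, fun n σ => ?_⟩
  show r • X n σ = _
  rw [h2, smul_sum]
  simp only [mul_smul]

theorem w4NR_sum {p : ℝ} {ι : Type} (s : Finset ι) (f : ι → MF) (h : ∀ i ∈ s, w4NR p (f i)) :
    w4NR p (fun n σ => ∑ i ∈ s, f i n σ) := by
  classical
  induction s using Finset.induction_on with
  | empty => simpa using w4NR_zero p
  | insert i s hi ih =>
    have h1 := w4NR_add (h i (mem_insert_self i s))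
      (ih fun j hj => h j (mem_insert_of_mem hj))
    simpa only [sum_insert hi] using h1

theorem w4NR_on (bn : S_BN) {p : ℝ} (hp : 0 < p) (hp1 : p < 1) {X : MF} (hX : w4NR p X) :
    w4On p X := by
  obtain ⟨K, _, B, c, -, h2⟩ := hX
  have h1 : w4On p (fun n σ => ∑ k, c k • Fc p (B k) n σ) :=
    w4On_sum hp.le hp1.le univ (fun k n σ => c k • Fc p (B k) n σ)
      fun k _ => w4On_smul hp.le hp1.le (c k) ((bn p hp hp1).2 (B k))
  obtain ⟨C, hC⟩ := h1
  refine ⟨C, fun n hn => ?_⟩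
  have h3 := hC n hn
  simp only [← h2] at h3
  exact h3

theorem w4NR_T (ti : S_TI) {p : ℝ} (hp : 0 < p) (hp1 : p < 1) {X Y : MF} (hX : w4NR p X)
    (hY : w4NR p Y) (n : ℕ) (hn : 0 < n) :
    w4T p (fun n σ => Tm p σ (X n σ)) (fun n σ => Tm p σ (Y n σ)) n = w4T p X Y n := by
  obtain ⟨K, _, B, c, h1, h2⟩ := hX
  obtain ⟨K', _, B', c', h1', h2'⟩ := hY
  have eX : X = fun n σ => ∑ k, c k • Fc p (B k) n σ := by
    funext n σ; exact h2 n σ
  have eY : Y = fun n σ => ∑ k, c' k • Fc p (B' k) n σ := by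
    funext n σ; exact h2' n σ
  rw [eX, eY]
  simp only [Tm_sum, Tm_smul]
  rw [w4T_sum_left, w4T_sum_left]
  refine sum_congr rfl fun k _ => ?_
  rw [w4T_smul_left, w4T_smul_left, w4T_sum_right, w4T_sum_right]
  congr 1
  refine sum_congr rfl fun l _ => ?_
  rw [w4T_smul_right, w4T_smul_right]
  congr 1
  exact (ti p (B k) (B' l) n hp hp1 hn (h1 k).1 (h1' l).1 (h1 k).2 (h1' l).2).1

theorem w4NR_W (ti : S_TI) {p : ℝ} (hp : 0 < p) (hp1 : p < 1) {X : MF} (hX : w4NR p X)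
    (n : ℕ) (hn : 0 < n) :
    w4T p (fun n σ => Wn p σ) (fun n σ => Tm p σ (X n σ)) n = 0 := by
  obtain ⟨K, _, B, c, h1, h2⟩ := hX
  have eX : X = fun n σ => ∑ k, c k • Fc p (B k) n σ := by
    funext n σ; exact h2 n σ
  rw [eX]
  simp only [Tm_sum, Tm_smul]
  rw [w4T_sum_right]
  refine sum_eq_zero fun k _ => ?_
  rw [w4T_smul_right]
  have := (ti p (B k) (B k) n hp hp1 hn (h1 k).1 (h1 k).1 (h1 k).2 (h1 k).2).2.1
  have h3 : w4T p (fun n σ => Wn p σ) (fun n σ => Tm p σ (Fc p (B k) n σ)) n = 0 := this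
  rw [h3, mul_zero]

theorem w4_leaf_W (ti : S_TI) {p : ℝ} (hp : 0 < p) (hp1 : p < 1) (n : ℕ) (hn : 0 < n) :
    w4T p (fun n σ => Wn p σ) (fun n σ => Wn p σ) n = n - 1 := by
  -- any admissible chain does; take two leaves
  have hB : (0, (Chn.leaf.cat Chn.leaf).L) ∉ (Chn.leaf.cat Chn.leaf).E := by
    simp [Chn.leaf, Chn.cat]
  have hL : 0 < (Chn.leaf.cat Chn.leaf).L := by simp [Chn.leaf, Chn.cat]
  exact (ti p (Chn.leaf.cat Chn.leaf) (Chn.leaf.cat Chn.leaf) n hp hp1 hn hL hL hB hB).2.2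

/-! ### The polynomials of the iteration -/

section

variable (p : ℝ) {J : Type} [Fintype J] (tr : J → Chn)

/-- the chaos part of the polynomial -/
noncomputable def w4X (D : ℕ) (c : ℕ → ℝ) (α : J → ℝ) : MF := fun n σ =>
  ∑ d ∈ range (D + 1), c d • Wf p tr (fun _ : Fin d => α) n σ

theorem w4X_NR (htr : ∀ j, (tr j).IsTr) (D : ℕ) (c : ℕ → ℝ) (h0 : c 0 = 0) (h1 : c 1 = 0)
    (α : J → ℝ) : w4NR p (w4X p tr D c α) := by
  classical
  refine w4NR_sum (range (D + 1)) (fun d n σ => c d • Wf p tr (fun _ : Fin d => α) n σ) ?_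
  intro d _
  match d with
  | 0 => simpa only [h0, zero_smul] using w4NR_zero p
  | 1 => simpa only [h1, zero_smul] using w4NR_zero p
  | d + 2 =>
    refine w4NR_smul (c (d + 2)) (X := fun n σ => Wf p tr (fun _ : Fin (d + 2) => α) n σ) ?_
    refine ⟨Fin (d + 2) → J, inferInstance, fun j => catF (d + 2) (fun i => tr (j i)),
      fun j => ∏ i : Fin (d + 2), α (j i), fun j => ⟨?_, ?_⟩, fun n σ => rfl⟩
    · exact catF_pos (d + 1) (fun i => tr (j i)) fun i => htr _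
    · exact catF_no_root d (fun i => tr (j i)) fun i => htr _

theorem w4_aeval (D : ℕ) (c : ℕ → ℝ) {n : ℕ} (G : Mat n) :
    Polynomial.aeval G (PP D c) = ∑ d ∈ range (D + 1), c d • Polynomial.aeval G (Uc d) := by
  unfold PP
  rw [map_sum]
  refine sum_congr rfl fun d _ => ?_
  rw [map_mul, Polynomial.aeval_C, Algebra.algebraMap_eq_smul_one, smul_mul_assoc, one_mul]

theorem w4_err (w2 : S_W2) (hp : 0 < p) (hp1 : p < 1) (α : J → ℝ) (G : MF)
    (hG : App p tr α G) (hα : CC tr α α = 1) (D : ℕ) (c : ℕ → ℝ) :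
    BadF p (fun n σ => Polynomial.aeval (G n σ) (PP D c) - w4X p tr D c α n σ) := by
  have h1 : BadF p (fun n σ => ∑ d ∈ range (D + 1), c d •
      (Polynomial.aeval (G n σ) (Uc d) - Wf p tr (fun _ : Fin d => α) n σ)) :=
    BadF_sum (range (D + 1)) (fun d n σ => c d •
      (Polynomial.aeval (G n σ) (Uc d) - Wf p tr (fun _ : Fin d => α) n σ))
      fun d _ => BadF_smul (c d) (w2 p J tr α G hp hp1 hG hα d)
  refine BadF_congr h1 fun n _ σ => ?_
  rw [w4_aeval]
  unfold w4X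
  rw [← sum_sub_distrib]
  exact sum_congr rfl fun d _ => (smul_sub _ _ _).symm

end

theorem t_W4 (bn : S_BN) (w2 : S_W2) (w3 : S_W3) (w5 : S_W5) (ti : S_TI) : S_W4 := by
  intro p J J' _ _ tr tr' α β α' β' G H D c₁ c₂ a b s₁ s₂ hp hp1 hG hH hα hβ h10 h11 h20 h21
    hs1 hs2 hG' hH'
  have hp0 := hp.le
  have hp1' := hp1.le
  have hbd : ∀ f : MF, BadF p f → w4Bd p f := (bn p hp hp1).1
  -- the families
  obtain ⟨X, hX⟩ : ∃ X : MF, X = fun n σ => Polynomial.aeval (G n σ) (PP D c₁) := ⟨_, rfl⟩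
  obtain ⟨Y, hY⟩ : ∃ Y : MF, Y = fun n σ => Polynomial.aeval (H n σ) (PP D c₂) := ⟨_, rfl⟩
  obtain ⟨X0, hX0⟩ : ∃ X0 : MF, X0 = w4X p tr D c₁ α := ⟨_, rfl⟩
  obtain ⟨Y0, hY0⟩ : ∃ Y0 : MF, Y0 = w4X p tr D c₂ β := ⟨_, rfl⟩
  obtain ⟨f, hf⟩ : ∃ f : MF, f = fun n σ => X n σ - X0 n σ := ⟨_, rfl⟩
  obtain ⟨g, hg⟩ : ∃ g : MF, g = fun n σ => Y n σ - Y0 n σ := ⟨_, rfl⟩
  have hfB : BadF p f := by
    rw [hf, hX, hX0]; exact w4_err p tr w2 hp hp1 α G hG hα D c₁
  have hgB : BadF p g := by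
    rw [hg, hY, hY0]; exact w4_err p tr w2 hp hp1 β H hH hβ D c₂
  have hX0N : w4NR p X0 := by rw [hX0]; exact w4X_NR p tr hG.1 D c₁ h10 h11 α
  have hY0N : w4NR p Y0 := by rw [hY0]; exact w4X_NR p tr hG.1 D c₂ h20 h21 β
  have hX0On := w4NR_on bn hp hp1 hX0N
  have hY0On := w4NR_on bn hp hp1 hY0N
  have hfbd := hbd f hfB
  have hgbd := hbd g hgB
  have eX : ∀ n (σ : Cfg n), X n σ = X0 n σ + f n σ := fun n σ => by rw [hf]; simp
  have eY : ∀ n (σ : Cfg n), Y n σ = Y0 n σ + g n σ := fun n σ => by rw [hg]; simp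
  have hXOn : w4On p X := by
    have : X = fun n σ => X0 n σ + f n σ := by funext n σ; exact eX n σ
    rw [this]
    exact w4On_add hp0 hp1' hX0On (w4Bd_on hp0 hp1' hfbd)
  -- Tm
  have hTf : w4Bd p (fun n σ => Tm p σ (f n σ)) := hbd _ (BadF_Tm hp hp1 hfB)
  have hTg : w4Bd p (fun n σ => Tm p σ (g n σ)) := hbd _ (BadF_Tm hp hp1 hgB)
  have hTOn : ∀ Z : MF, w4NR p Z → w4On p (fun n σ => Tm p σ (Z n σ)) := by
    rintro Z ⟨K, _, B, c, h1, h2⟩
    have h3 : w4On p (fun n σ => ∑ k, c k • Fc p ((B k).cap (h1 k).1) n σ) :=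
      w4On_sum hp0 hp1' univ (fun k n σ => c k • Fc p ((B k).cap (h1 k).1) n σ)
        fun k _ => w4On_smul hp0 hp1' (c k) ((bn p hp hp1).2 ((B k).cap (h1 k).1))
    have h4 : (fun (n : ℕ) (σ : Cfg n) => Tm p σ (Z n σ)) =
        fun n σ => ∑ k, c k • Fc p ((B k).cap (h1 k).1) n σ := by
      funext n σ
      rw [h2, Tm_sum]
      refine sum_congr rfl fun k _ => ?_
      rw [Tm_smul, Tm_Fc p (B k) (h1 k).1 (h1 k).2]
    rw [h4]
    exact h3
  have hWOn : w4On p (fun n σ => Wn p σ) := by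
    have h1 := (bn p hp hp1).2 Chn.leaf
    simp only [Fc_leaf] at h1
    exact h1
  -- the two steps
  obtain ⟨P0, hP0⟩ : ∃ P0 : MF, P0 = fun n σ => a • Wn p σ + Tm p σ (X0 n σ) := ⟨_, rfl⟩
  obtain ⟨R0, hR0⟩ : ∃ R0 : MF, R0 = fun n σ => b • Wn p σ + Tm p σ (Y0 n σ) := ⟨_, rfl⟩
  have hP0On : w4On p P0 := by
    rw [hP0]
    exact w4On_add hp0 hp1' (w4On_smul hp0 hp1' a hWOn) (hTOn X0 hX0N)
  have hR0On : w4On p R0 := by
    rw [hR0]
    exact w4On_add hp0 hp1' (w4On_smul hp0 hp1' b hWOn) (hTOn Y0 hY0N)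
  have eG' : ∀ n (σ : Cfg n), s₁ • Stp p D c₁ a s₁ G n σ = P0 n σ + Tm p σ (f n σ) := by
    intro n σ
    have h1 : Polynomial.aeval (G n σ) (PP D c₁) = X0 n σ + f n σ := by
      rw [← eX, hX]
    unfold Stp
    rw [h1, smul_smul, mul_one_div_cancel hs1, one_smul, Tm_add, hP0, add_assoc]
  have eH' : ∀ n (σ : Cfg n), s₂ • Stp p D c₂ b s₂ H n σ = R0 n σ + Tm p σ (g n σ) := by
    intro n σ
    have h1 : Polynomial.aeval (H n σ) (PP D c₂) = Y0 n σ + g n σ := by
      rw [← eY, hY]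
    unfold Stp
    rw [h1, smul_smul, mul_one_div_cancel hs2, one_smul, Tm_add, hR0, add_assoc]
  -- (i) the covariance of the new families
  have A1 : w4AO (fun n => w4T p (fun n σ => Stp p D c₁ a s₁ G n σ)
      (fun n σ => Stp p D c₂ b s₂ H n σ) n - n * CC tr' α' β') := by
    obtain ⟨K, hK⟩ := w5 p J' tr' α' β' _ _ hp hp1 hG' hH'
    refine ⟨K, fun n hn => ?_⟩
    have h1 := hK n hn
    have hn' : (0 : ℝ) < n := by exact_mod_cast hn
    have h2 : w4T p (fun n σ => Stp p D c₁ a s₁ G n σ) (fun n σ => Stp p D c₂ b s₂ H n σ) n =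
        n * Ep n p (fun σ => (Stp p D c₁ a s₁ G n σ * Stp p D c₂ b s₂ H n σ).trace / n) := by
      rw [Ep_div, mul_div_cancel₀ _ hn'.ne']
      unfold w4T
      simp only [hH'.2.1]
    show |w4T p (fun n σ => Stp p D c₁ a s₁ G n σ) (fun n σ => Stp p D c₂ b s₂ H n σ) n -
      n * CC tr' α' β'| ≤ K * √n
    rw [h2, ← mul_sub, abs_mul, abs_of_pos hn']
    have h3 : √(n : ℝ) * √(n : ℝ) = n := Real.mul_self_sqrt hn'.le
    have h4 : 0 < √(n : ℝ) := Real.sqrt_pos.mpr hn'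
    calc (n : ℝ) * _ ≤ n * (K / √n) := mul_le_mul_of_nonneg_left h1 hn'.le
      _ = K * √n := by
        rw [mul_div_assoc', div_eq_iff h4.ne', mul_assoc, h3]
        ring
  have A2 : w4AO (fun n => w4T p (fun n σ => P0 n σ + Tm p σ (f n σ))
      (fun n σ => R0 n σ + Tm p σ (g n σ)) n - n * (s₁ * s₂ * CC tr' α' β')) := by
    refine w4AO_congr (w4AO_mul (s₁ * s₂) A1) fun n _ => ?_
    simp only [← eG', ← eH']
    rw [w4T_smul_left (f := fun n σ => Stp p D c₁ a s₁ G n σ),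
      w4T_smul_right (g := fun n σ => Stp p D c₂ b s₂ H n σ)]
    ring
  have A3 : w4AO (fun n => w4T p P0 R0 n - n * (s₁ * s₂ * CC tr' α' β')) := by
    have h1 := w4AO_T' hp0 hp1' hP0On hTg
    have h2 := w4AO_T hp0 hp1' hTf hR0On
    have h3 := w4AO_T hp0 hp1' hTf (w4Bd_on hp0 hp1' hTg)
    refine w4AO_congr (w4AO_sub (w4AO_sub (w4AO_sub A2 h1) h2) h3) fun n _ => ?_
    rw [w4T_add_left (f := P0) (f' := fun n σ => Tm p σ (f n σ)),
      w4T_add_right (g := R0) (g' := fun n σ => Tm p σ (g n σ)),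
      w4T_add_right (g := R0) (g' := fun n σ => Tm p σ (g n σ))]
    ring
  -- (ii)
  have e2 : ∀ n : ℕ, 0 < n → w4T p P0 R0 n = a * b * (n - 1) + w4T p X0 Y0 n := by
    intro n hn
    rw [hP0, hR0]
    rw [w4T_add_left (f := fun n σ => a • Wn p σ) (f' := fun n σ => Tm p σ (X0 n σ)),
      w4T_add_right (g := fun n σ => b • Wn p σ) (g' := fun n σ => Tm p σ (Y0 n σ)),
      w4T_add_right (g := fun n σ => b • Wn p σ) (g' := fun n σ => Tm p σ (Y0 n σ)),
      w4T_smul_left (f := fun n σ => Wn p σ), w4T_smul_left (f := fun n σ => Wn p σ),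
      w4T_smul_right (g := fun n σ => Wn p σ), w4T_smul_right (g := fun n σ => Wn p σ),
      w4_leaf_W ti hp hp1 n hn, w4NR_W ti hp hp1 hY0N n hn,
      w4T_comm (fun n σ => Tm p σ (X0 n σ)) (fun n σ => Wn p σ), w4NR_W ti hp hp1 hX0N n hn,
      w4NR_T ti hp hp1 hX0N hY0N n hn]
    ring
  have A4 : w4AO (fun n => w4T p X0 Y0 n - n * (s₁ * s₂ * CC tr' α' β' - a * b)) := by
    refine w4AO_congr (w4AO_add A3 (w4AO_const (a * b))) fun n hn => ?_
    rw [e2 n hn]
    ring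
  -- (iii)
  have hYs : ∀ n (σ : Cfg n), (Y n σ).transpose = Y n σ := by
    intro n σ
    rw [hY]
    exact aeval_transpose _ (hH.2.1 n σ) _
  have hYt : ∀ n (σ : Cfg n), Y0 n σ = (Y0 n σ).transpose + ((g n σ).transpose + - g n σ) := by
    intro n σ
    have h1 := hYs n σ
    rw [eY, Matrix.transpose_add] at h1
    have h2 : (Y0 n σ).transpose + (g n σ).transpose - g n σ = Y0 n σ := by
      rw [h1]; abel
    rw [← add_assoc, ← sub_eq_add_neg]
    exact h2.symm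
  have hgt : w4Bd p (fun n σ => (g n σ).transpose + - g n σ) :=
    w4Bd_add hp0 hp1' (w4Bd_transpose hp0 hp1' hgbd) (w4Bd_neg hp0 hp1' hgbd)
  have A5 : w4AO (fun n => w4T p X (fun n σ => (Y0 n σ).transpose) n - w4T p X0 Y0 n) := by
    have h1 := w4AO_T hp0 hp1' hfbd hY0On
    have h2 := w4AO_T' hp0 hp1' hXOn hgt
    refine w4AO_congr (w4AO_sub h1 h2) fun n _ => ?_
    have e1 : w4T p X Y0 n = w4T p X0 Y0 n + w4T p f Y0 n := by
      have : X = fun n σ => X0 n σ + f n σ := by funext n σ; exact eX n σ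
      rw [this, w4T_add_left]
    have e3 : w4T p X Y0 n = w4T p X (fun n σ => (Y0 n σ).transpose) n +
        w4T p X (fun n σ => (g n σ).transpose + - g n σ) n := by
      rw [← w4T_add_right]
      congr 1
      funext n σ
      exact hYt n σ
    linarith
  have e4 : ∀ n, w4T p X (fun n σ => (Y0 n σ).transpose) n =
      ∑ d ∈ range (D + 1), ∑ e ∈ range (D + 1), c₁ d * (c₂ e *
        Ep n p (fun σ => (Polynomial.aeval (G n σ) (Uc d) *
          Wf p tr (fun _ : Fin e => β) n σ).trace)) := by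
    intro n
    have h1 : X = fun n σ => ∑ d ∈ range (D + 1), c₁ d • Polynomial.aeval (G n σ) (Uc d) := by
      rw [hX]; funext n σ; exact w4_aeval D c₁ _
    have h2 : (fun (n : ℕ) (σ : Cfg n) => (Y0 n σ).transpose) = fun n σ =>
        ∑ e ∈ range (D + 1), c₂ e • (Wf p tr (fun _ : Fin e => β) n σ).transpose := by
      rw [hY0]
      funext n σ
      unfold w4X
      rw [Matrix.transpose_sum]
      exact sum_congr rfl fun e _ => Matrix.transpose_smul _ _
    rw [h1, h2, w4T_sum_left (f := fun d n σ => c₁ d • Polynomial.aeval (G n σ) (Uc d))]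
    refine sum_congr rfl fun d _ => ?_
    rw [w4T_smul_left (f := fun n σ => Polynomial.aeval (G n σ) (Uc d)),
      w4T_sum_right (g := fun e n σ => c₂ e • (Wf p tr (fun _ : Fin e => β) n σ).transpose),
      mul_sum]
    refine sum_congr rfl fun e _ => ?_
    rw [w4T_smul_right (g := fun n σ => (Wf p tr (fun _ : Fin e => β) n σ).transpose)]
    unfold w4T
    simp only [Matrix.transpose_transpose]
  have A6 : w4AO (fun n => w4T p X (fun n σ => (Y0 n σ).transpose) n -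
      n * ∑ d ∈ range (D + 1), c₁ d * c₂ d * CC tr α β ^ d) := by
    have h1 : ∀ d ∈ range (D + 1), ∀ e ∈ range (D + 1), w4AO (fun n => c₁ d * (c₂ e *
        (Ep n p (fun σ => (Polynomial.aeval (G n σ) (Uc d) *
          Wf p tr (fun _ : Fin e => β) n σ).trace) -
          n * if d = e then CC tr α β ^ e else 0))) := by
      intro d _ e _
      refine w4AO_mul _ (w4AO_mul _ ?_)
      obtain ⟨K, hK⟩ := w3 p J tr α G hp hp1 hG hα d e (fun _ : Fin e => β)
      refine ⟨K, fun n hn => ?_⟩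
      have h1 := hK n hn
      have hn' : (0 : ℝ) < n := by exact_mod_cast hn
      rw [Ep_div] at h1
      simp only [prod_const, card_univ, Fintype.card_fin] at h1
      have h3 : √(n : ℝ) * √(n : ℝ) = n := Real.mul_self_sqrt hn'.le
      have h4 : 0 < √(n : ℝ) := Real.sqrt_pos.mpr hn'
      have h5 : Ep n p (fun σ => (Polynomial.aeval (G n σ) (Uc d) *
          Wf p tr (fun _ : Fin e => β) n σ).trace) - n * (if d = e then CC tr α β ^ e else 0) =
          n * (Ep n p (fun σ => (Polynomial.aeval (G n σ) (Uc d) *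
          Wf p tr (fun _ : Fin e => β) n σ).trace) / n - if d = e then CC tr α β ^ e else 0) := by
        rw [mul_sub, mul_div_cancel₀ _ hn'.ne']
      show |Ep n p (fun σ => (Polynomial.aeval (G n σ) (Uc d) *
          Wf p tr (fun _ : Fin e => β) n σ).trace) - n * (if d = e then CC tr α β ^ e else 0)| ≤
          K * √n
      rw [h5, abs_mul, abs_of_pos hn']
      calc (n : ℝ) * _ ≤ n * (K / √n) := mul_le_mul_of_nonneg_left h1 hn'.le
        _ = K * √n := by
          rw [mul_div_assoc', div_eq_iff h4.ne', mul_assoc, h3]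
          ring
    refine w4AO_congr (w4AO_sum (range (D + 1)) (fun d n => ∑ e ∈ range (D + 1), c₁ d * (c₂ e *
        (Ep n p (fun σ => (Polynomial.aeval (G n σ) (Uc d) *
          Wf p tr (fun _ : Fin e => β) n σ).trace) -
          n * if d = e then CC tr α β ^ e else 0))) fun d hd =>
        w4AO_sum (range (D + 1)) _ fun e he => h1 d hd e he) fun n _ => ?_
    rw [e4 n]
    simp only [mul_sub, sum_sub_distrib]
    congr 1
    rw [mul_sum]
    refine sum_congr rfl fun d hd => ?_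
    rw [sum_eq_single d]
    · rw [if_pos rfl]
      ring
    · intro e _ hed
      rw [if_neg (Ne.symm hed)]
      ring
    · intro h
      exact absurd hd h
  have A7 : w4AO (fun n => n * (s₁ * s₂ * CC tr' α' β' -
      (a * b + ∑ d ∈ range (D + 1), c₁ d * c₂ d * CC tr α β ^ d))) := by
    refine w4AO_congr (w4AO_sub (w4AO_sub A6 A5) A4) fun n _ => ?_
    ring
  have := w4AO_eq_zero A7
  linarith

end Pool.Agent.H276R2.Gn
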