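import Pool.Agent.H276R2.Gn.Spec

/-! # W5: covariances of two symmetric families -/

set_option autoImplicit false

namespace Pool.Agent.H276R2.Gn

open Finset Real

theorem w5_fro_Gf (bn : S_BN) (p : ℝ) (hp : 0 < p) (hp1 : p < 1) {J : Type} [Fintype J]
    (tr : J → Chn) (α : J → ℝ) :
    ∃ C : ℝ, 0 ≤ C ∧ ∀ n : ℕ, 0 < n → Ep n p (fun σ => fro (Gf p tr α n σ)) ≤ C * n := by
  choose c hc using (bn p hp hp1).2
  refine ⟨Fintype.card J * ∑ j, α j ^ 2 * |c (tr j)|, by positivity, fun n hn => ?_⟩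
  have hn0 : (0 : ℝ) < n := by exact_mod_cast hn
  calc Ep n p (fun σ => fro (Gf p tr α n σ))
      ≤ Ep n p (fun σ => (Fintype.card J : ℝ) * ∑ j, α j ^ 2 * fro (Fc p (tr j) n σ)) := by
        apply Ep_mono n p hp.le hp1.le
        intro σ
        unfold Gf
        refine (fro_sum_le univ _).trans ?_
        simp only [fro_smul, card_univ]
        exact le_rfl
    _ = (Fintype.card J : ℝ) * ∑ j, α j ^ 2 * Ep n p (fun σ => fro (Fc p (tr j) n σ)) := by
        rw [Ep_mul, Ep_sum]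
        congr 1
        apply sum_congr rfl
        intro j _
        rw [Ep_mul]
    _ ≤ (Fintype.card J : ℝ) * ∑ j, α j ^ 2 * (|c (tr j)| * n) := by
        apply mul_le_mul_of_nonneg_left _ (by positivity)
        apply sum_le_sum
        intro j _
        apply mul_le_mul_of_nonneg_left _ (by positivity)
        refine (hc (tr j) n hn).trans ?_
        exact mul_le_mul_of_nonneg_right (le_abs_self _) hn0.le
    _ = _ := by
        rw [mul_assoc, sum_mul]
        congr 1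
        apply sum_congr rfl
        intro j _
        ring

theorem w5_fro_bad (bn : S_BN) (p : ℝ) (hp : 0 < p) (hp1 : p < 1) (f : MF) (hf : BadF p f) :
    ∃ C : ℝ, 0 ≤ C ∧ ∀ n : ℕ, 0 < n → Ep n p (fun σ => fro (f n σ)) ≤ C := by
  obtain ⟨C, hC⟩ := (bn p hp hp1).1 f hf
  exact ⟨|C|, abs_nonneg _, fun n hn => (hC n hn).trans (le_abs_self _)⟩

theorem w5_abs (x K : ℝ) (n : ℕ) (hK : 0 ≤ K) (h : x ^ 2 ≤ K * n) : |x| ≤ √K * √n := by
  have := Real.abs_le_sqrt h
  rwa [Real.sqrt_mul hK] at this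

theorem w5_tr (p : ℝ) (hp : 0 < p) (hp1 : p < 1) (X Y : MF) (A B : ℝ) (hA : 0 ≤ A) (hB : 0 ≤ B)
    (n : ℕ) (a b : ℝ) (ha : 0 ≤ a) (hab : a * b ≤ n)
    (hX : Ep n p (fun σ => fro (X n σ)) ≤ A * a) (hY : Ep n p (fun σ => fro (Y n σ)) ≤ B * b) :
    |Ep n p (fun σ => (X n σ * Y n σ).trace)| ≤ √(A * B) * √n := by
  apply w5_abs _ _ _ (by positivity)
  refine (Ep_trace_mul_le n p hp.le hp1.le (fun σ => X n σ) (fun σ => Y n σ)).trans ?_
  have h0 : 0 ≤ Ep n p (fun σ => fro (Y n σ)) :=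
    Ep_nonneg n p hp.le hp1.le _ (fun σ => fro_nonneg _)
  calc Ep n p (fun σ => fro (X n σ)) * Ep n p (fun σ => fro (Y n σ))
      ≤ (A * a) * (B * b) := mul_le_mul hX hY h0 (by positivity)
    _ = (A * B) * (a * b) := by ring
    _ ≤ (A * B) * n := mul_le_mul_of_nonneg_left hab (by positivity)

theorem t_W5 (bn : S_BN) (w1 : S_W1) : S_W5 := by
  intro p J _ tr α β G H hp hp1 hG hH
  obtain ⟨htr, -, hf⟩ := hG
  obtain ⟨-, -, hg⟩ := hH
  set f : MF := fun n σ => G n σ - Gf p tr α n σ with hfd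
  set g : MF := fun n σ => H n σ - Gf p tr β n σ with hgd
  have hw := w1 p J tr 0 α (fun _ => β) hp hp1 htr
  set b : MF := fun n σ => Gf p tr α n σ * Wf p tr (fun _ : Fin (0 + 1) => β) n σ -
    Wf p tr (Fin.cons α (fun _ => β) : Fin (0 + 2) → J → ℝ) n σ -
    CC tr α ((fun _ : Fin (0 + 1) => β) 0) •
      Wf p tr (fun i : Fin 0 => (fun _ : Fin (0 + 1) => β) i.succ) n σ with hbd
  obtain ⟨Cf, hCf, hCf'⟩ := w5_fro_bad bn p hp hp1 f hf
  obtain ⟨Cg, hCg, hCg'⟩ := w5_fro_bad bn p hp hp1 g hg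
  obtain ⟨Cb, hCb, hCb'⟩ := w5_fro_bad bn p hp hp1 b hw
  obtain ⟨Ca, hCa, hCa'⟩ := w5_fro_Gf bn p hp hp1 tr α
  obtain ⟨Ce, hCe, hCe'⟩ := w5_fro_Gf bn p hp hp1 tr β
  refine ⟨√Cb + √(Cf * Ce) + √(Ca * Cg) + √(Cf * Cg), fun n hn => ?_⟩
  have hn0 : (0 : ℝ) < n := by exact_mod_cast hn
  have hn1 : (1 : ℝ) ≤ n := by exact_mod_cast hn
  -- the trace identity
  have key : ∀ σ : Cfg n, (G n σ * H n σ).trace / n = CC tr α β +
      ((b n σ).trace + (f n σ * Gf p tr β n σ).trace + (Gf p tr α n σ * g n σ).trace +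
        (f n σ * g n σ).trace) / n := by
    intro σ
    have e1 : G n σ = Gf p tr α n σ + f n σ := by simp only [hfd]; abel
    have e2 : H n σ = Gf p tr β n σ + g n σ := by simp only [hgd]; abel
    have e3 : Gf p tr α n σ * Gf p tr β n σ = b n σ +
        Wf p tr (Fin.cons α (fun _ => β) : Fin (0 + 2) → J → ℝ) n σ +
        CC tr α β • (1 : Mat n) := by
      simp only [hbd]
      rw [Wf_zero, Wf_one]
      abel
    have e4 : (Wf p tr (Fin.cons α (fun _ => β) : Fin (0 + 2) → J → ℝ) n σ).trace = 0 :=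
      trace_Wf p tr htr 1 _ n σ
    have e5 : (G n σ * H n σ).trace = (Gf p tr α n σ * Gf p tr β n σ).trace +
        (f n σ * Gf p tr β n σ).trace + (Gf p tr α n σ * g n σ).trace +
        (f n σ * g n σ).trace := by
      rw [e1, e2, add_mul, mul_add, mul_add, Matrix.trace_add, Matrix.trace_add, Matrix.trace_add]
      ring
    rw [e5, e3, Matrix.trace_add, Matrix.trace_add, e4, Matrix.trace_smul, Matrix.trace_one,
      Fintype.card_fin, smul_eq_mul]
    field_simp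
    ring
  have key2 : Ep n p (fun σ => (G n σ * H n σ).trace / n) - CC tr α β =
      (Ep n p (fun σ => (b n σ).trace) + Ep n p (fun σ => (f n σ * Gf p tr β n σ).trace) +
        Ep n p (fun σ => (Gf p tr α n σ * g n σ).trace) +
        Ep n p (fun σ => (f n σ * g n σ).trace)) / n := by
    rw [show (fun σ => (G n σ * H n σ).trace / (n : ℝ)) = fun σ => CC tr α β +
      ((b n σ).trace + (f n σ * Gf p tr β n σ).trace + (Gf p tr α n σ * g n σ).trace +
        (f n σ * g n σ).trace) / n from funext key]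
    rw [Ep_add, Ep_const, Ep_div, Ep_add, Ep_add, Ep_add]
    ring
  rw [key2, abs_div, abs_of_pos hn0]
  have t1 : |Ep n p (fun σ => (b n σ).trace)| ≤ √Cb * √n := by
    apply w5_abs _ _ _ hCb
    refine (sq_Ep_le n p hp.le hp1.le _).trans ?_
    calc Ep n p (fun σ => (b n σ).trace ^ 2) ≤ Ep n p (fun σ => (n : ℝ) * fro (b n σ)) :=
          Ep_mono n p hp.le hp1.le _ _ (fun σ => sq_trace_le _)
      _ = n * Ep n p (fun σ => fro (b n σ)) := Ep_mul n p _ _
      _ ≤ n * Cb := mul_le_mul_of_nonneg_left (hCb' n hn) hn0.le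
      _ = Cb * n := mul_comm _ _
  have t2 : |Ep n p (fun σ => (f n σ * Gf p tr β n σ).trace)| ≤ √(Cf * Ce) * √n :=
    w5_tr p hp hp1 f (Gf p tr β) Cf Ce hCf hCe n 1 n (by norm_num) (by rw [one_mul])
      (by rw [mul_one]; exact hCf' n hn) (hCe' n hn)
  have t3 : |Ep n p (fun σ => (Gf p tr α n σ * g n σ).trace)| ≤ √(Ca * Cg) * √n :=
    w5_tr p hp hp1 (Gf p tr α) g Ca Cg hCa hCg n n 1 hn0.le (by rw [mul_one])
      (hCa' n hn) (by rw [mul_one]; exact hCg' n hn)
  have t4 : |Ep n p (fun σ => (f n σ * g n σ).trace)| ≤ √(Cf * Cg) * √n :=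
    w5_tr p hp hp1 f g Cf Cg hCf hCg n 1 1 (by norm_num) (by rw [mul_one]; exact hn1)
      (by rw [mul_one]; exact hCf' n hn) (by rw [mul_one]; exact hCg' n hn)
  have hsn : 0 < √(n : ℝ) := Real.sqrt_pos.mpr hn0
  have hss : √(n : ℝ) * √(n : ℝ) = n := Real.mul_self_sqrt hn0.le
  have tot : |Ep n p (fun σ => (b n σ).trace) + Ep n p (fun σ => (f n σ * Gf p tr β n σ).trace) +
        Ep n p (fun σ => (Gf p tr α n σ * g n σ).trace) +
        Ep n p (fun σ => (f n σ * g n σ).trace)| ≤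
      (√Cb + √(Cf * Ce) + √(Ca * Cg) + √(Cf * Cg)) * √n := by
    refine (abs_add_le _ _).trans ?_
    have a1 := abs_add_le (Ep n p (fun σ => (b n σ).trace) +
      Ep n p (fun σ => (f n σ * Gf p tr β n σ).trace)) (Ep n p (fun σ => (Gf p tr α n σ * g n σ).trace))
    have a2 := abs_add_le (Ep n p (fun σ => (b n σ).trace))
      (Ep n p (fun σ => (f n σ * Gf p tr β n σ).trace))
    linarith
  rw [div_le_div_iff₀ hn0 hsn]
  calc _ ≤ ((√Cb + √(Cf * Ce) + √(Ca * Cg) + √(Cf * Cg)) * √n) * √n :=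
        mul_le_mul_of_nonneg_right tot hsn.le
    _ = _ := by rw [mul_assoc, hss]

end Pool.Agent.H276R2.Gn
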