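import Pool.Agent.H276R2.Gn.Spec

set_option autoImplicit false

namespace Pool.Agent.H276R2.Gn

open Finset Real

theorem xl_emb_some {H₁ H₂ : Shp} {ξ : SPat H₁ H₂} {y : H₂.X} {x : H₁.X} (h : ξ y = some x) :
    ξ.emb y = Sum.inl x := by
  unfold SPat.emb
  split
  · rename_i x' h'
    rw [h] at h'
    rw [Option.some.inj h']
  · rename_i h'
    rw [h] at h'
    exact absurd h' (by simp)

theorem xl_emb_none {H₁ H₂ : Shp} {ξ : SPat H₁ H₂} {y : H₂.X} (h : ξ y = none) :
    ξ.emb y = Sum.inr ⟨y, h⟩ := by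
  unfold SPat.emb
  split
  · rename_i x' h'
    rw [h] at h'
    exact absurd h' (by simp)
  · rfl

theorem xl_emb_inj {H₁ H₂ : Shp} {ξ : SPat H₁ H₂} (hξ : ξ.OK) : Function.Injective ξ.emb := by
  intro y y' h
  cases h1 : ξ y with
  | none =>
    cases h2 : ξ y' with
    | none =>
      rw [xl_emb_none h1, xl_emb_none h2] at h
      have := Sum.inr.inj h
      exact congrArg Subtype.val this
    | some x' =>
      rw [xl_emb_none h1, xl_emb_some h2] at h
      exact absurd h (by simp)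
  | some x =>
    cases h2 : ξ y' with
    | none =>
      rw [xl_emb_some h1, xl_emb_none h2] at h
      exact absurd h (by simp)
    | some x' =>
      rw [xl_emb_some h1, xl_emb_some h2] at h
      have := Sum.inl.inj h
      subst this
      exact hξ.2 y y' x h1 h2

theorem xl_mem1 {H₁ H₂ : Shp} {ξ : SPat H₁ H₂} (R : Finset (Sym2 ξ.V)) {e : Sym2 H₁.X}
    (he : e ∈ H₁.E) {x : H₁.X} (hx : x ∈ e) (hu : ∀ y, ξ y ≠ some x) :
    Sym2.map Sum.inl e ∈ (prodShp H₁ H₂ ξ R).E := by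
  show Sym2.map Sum.inl e ∈ Finset.filter _ _
  rw [Finset.mem_filter]
  constructor
  · apply Finset.mem_union_left
    rw [Finset.mem_symmDiff]
    left
    constructor
    · exact Finset.mem_image_of_mem _ he
    · intro h
      obtain ⟨e', he', h1⟩ := Finset.mem_image.1 h
      have h2 : (Sum.inl x : ξ.V) ∈ Sym2.map ξ.emb e' := by
        rw [h1]; exact Sym2.mem_map.2 ⟨x, hx, rfl⟩
      obtain ⟨y, _, hy⟩ := Sym2.mem_map.1 h2
      cases h3 : ξ y with
      | none =>
        rw [xl_emb_none h3] at hy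
        exact absurd hy (by simp)
      | some x' =>
        rw [xl_emb_some h3] at hy
        have := Sum.inl.inj hy
        subst this
        exact hu y h3
  · rw [Sym2.isDiag_map Sum.inl_injective]
    exact H₁.loopless e he

theorem xl_mem2 {H₁ H₂ : Shp} {ξ : SPat H₁ H₂} (hξ : ξ.OK) (R : Finset (Sym2 ξ.V))
    {e : Sym2 H₂.X} (he : e ∈ H₂.E) {y : H₂.X} (hy : y ∈ e) (hu : ξ y = none) :
    Sym2.map ξ.emb e ∈ (prodShp H₁ H₂ ξ R).E := by
  show Sym2.map ξ.emb e ∈ Finset.filter _ _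
  rw [Finset.mem_filter]
  constructor
  · apply Finset.mem_union_left
    rw [Finset.mem_symmDiff]
    right
    constructor
    · exact Finset.mem_image_of_mem _ he
    · intro h
      obtain ⟨e', he', h1⟩ := Finset.mem_image.1 h
      have h2 : ξ.emb y ∈ Sym2.map Sum.inl e' := by
        rw [h1]; exact Sym2.mem_map.2 ⟨y, hy, rfl⟩
      obtain ⟨x, _, hx⟩ := Sym2.mem_map.1 h2
      rw [xl_emb_none hu] at hx
      exact absurd hx (by simp)
  · rw [Sym2.isDiag_map (xl_emb_inj hξ)]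
    exact H₂.loopless e he

/-- isolated and unmarked -/
def xl_P (H : Shp) (z : H.X) : Prop := z ≠ H.s ∧ z ≠ H.t ∧ ∀ e ∈ H.E, z ∉ e

open Classical in
theorem xl_iso (H : Shp) : H.iso = (univ.filter (fun z : H.X => xl_P H z)).card := by
  unfold Shp.iso
  congr 1
  ext z
  rw [Finset.mem_filter, Finset.mem_filter]
  rfl

theorem xl_inr {H₁ H₂ : Shp} {ξ : SPat H₁ H₂} (hξ : ξ.OK) (R : Finset (Sym2 ξ.V)) (y : H₂.X)
    (h : ξ y = none) (hP : xl_P (prodShp H₁ H₂ ξ R) (Sum.inr ⟨y, h⟩)) : xl_P H₂ y := by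
  obtain ⟨h1, h2, h3⟩ := hP
  refine ⟨?_, ?_, ?_⟩
  · rintro rfl
    rw [hξ.1] at h
    exact absurd h (by simp)
  · rintro rfl
    exact h2 (xl_emb_none h).symm
  · intro e he hy
    apply h3 _ (xl_mem2 hξ R he hy h)
    exact Sym2.mem_map.2 ⟨y, hy, xl_emb_none h⟩

theorem xl_inl {H₁ H₂ : Shp} {ξ : SPat H₁ H₂} (hξ : ξ.OK) (R : Finset (Sym2 ξ.V)) (x : H₁.X)
    (h : ∀ y, ξ y ≠ some x) (hP : xl_P (prodShp H₁ H₂ ξ R) (Sum.inl x)) : xl_P H₁ x := by
  obtain ⟨h1, h2, h3⟩ := hP
  refine ⟨?_, ?_, ?_⟩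
  · rintro rfl
    exact h1 rfl
  · rintro rfl
    exact h _ hξ.1
  · intro e he hx
    apply h3 _ (xl_mem1 R he hx h)
    exact Sym2.mem_map.2 ⟨x, hx, rfl⟩

open Classical in
theorem xl_bound {H₁ H₂ : Shp} {ξ : SPat H₁ H₂} (hξ : ξ.OK) (R : Finset (Sym2 ξ.V)) :
    (prodShp H₁ H₂ ξ R).iso ≤ H₂.iso + (H₁.iso +
      (univ.filter (fun y : H₂.X => ξ y ≠ none ∧ xl_P (prodShp H₁ H₂ ξ R) (ξ.emb y))).card) := by
  rw [xl_iso, xl_iso H₁, xl_iso H₂, ← Finset.card_disjSum, ← Finset.card_disjSum]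
  apply Finset.card_le_card_of_forall_subsingleton
    (fun (z : (prodShp H₁ H₂ ξ R).X) (w : H₂.X ⊕ (H₁.X ⊕ H₂.X)) =>
      (∃ y, ∃ h : ξ y = none, w = Sum.inl y ∧ z = Sum.inr ⟨y, h⟩) ∨
      (∃ x, w = Sum.inr (Sum.inl x) ∧ z = Sum.inl x) ∨
      (∃ y, w = Sum.inr (Sum.inr y) ∧ z = ξ.emb y))
  · intro z hz
    have hP := (Finset.mem_filter.1 hz).2
    rcases z with x | ⟨y, h⟩
    · by_cases hx : ∀ y, ξ y ≠ some x
      · refine ⟨Sum.inr (Sum.inl x), ?_, Or.inr (Or.inl ⟨x, rfl, rfl⟩)⟩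
        simp only [Finset.inr_mem_disjSum, Finset.inl_mem_disjSum, Finset.mem_filter,
          Finset.mem_univ, true_and]
        exact xl_inl hξ R x hx hP
      · push Not at hx
        obtain ⟨y, hy⟩ := hx
        refine ⟨Sum.inr (Sum.inr y), ?_, Or.inr (Or.inr ⟨y, rfl, (xl_emb_some hy).symm⟩)⟩
        simp only [Finset.inr_mem_disjSum, Finset.mem_filter,
          Finset.mem_univ, true_and]
        refine ⟨by rw [hy]; simp, ?_⟩
        rw [xl_emb_some hy]
        exact hP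
    · refine ⟨Sum.inl y, ?_, Or.inl ⟨y, h, rfl, rfl⟩⟩
      simp only [Finset.inl_mem_disjSum, Finset.mem_filter, Finset.mem_univ, true_and]
      exact xl_inr hξ R y h hP
  · rintro w _ z ⟨_, hz⟩ z' ⟨_, hz'⟩
    rcases hz with ⟨y, h, rfl, rfl⟩ | ⟨x, rfl, rfl⟩ | ⟨y, rfl, rfl⟩
    · rcases hz' with ⟨y', h', h1, rfl⟩ | ⟨x', h1, rfl⟩ | ⟨y', h1, rfl⟩
      · have := Sum.inl.inj h1
        subst this
        rfl
      · exact absurd h1 (by simp)
      · exact absurd h1 (by simp)
    · rcases hz' with ⟨y', h', h1, rfl⟩ | ⟨x', h1, rfl⟩ | ⟨y', h1, rfl⟩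
      · exact absurd h1 (by simp)
      · have := Sum.inl.inj (Sum.inr.inj h1)
        subst this
        rfl
      · exact absurd h1 (by simp)
    · rcases hz' with ⟨y', h', h1, rfl⟩ | ⟨x', h1, rfl⟩ | ⟨y', h1, rfl⟩
      · exact absurd h1 (by simp)
      · exact absurd h1 (by simp)
      · have := Sum.inr.inj (Sum.inr.inj h1)
        subst this
        rfl

open Classical in
theorem xl_card {H₁ H₂ : Shp} (ξ : SPat H₁ H₂) (R : Finset (Sym2 ξ.V)) :
    Fintype.card (prodShp H₁ H₂ ξ R).X + (univ.filter (fun y : H₂.X => ξ y ≠ none)).card =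
      Fintype.card H₁.X + Fintype.card H₂.X := by
  have h1 : Fintype.card (prodShp H₁ H₂ ξ R).X =
      Fintype.card H₁.X + Fintype.card {y : H₂.X // ξ y = none} := by
    have : Fintype.card (H₁.X ⊕ {y : H₂.X // ξ y = none}) =
      Fintype.card H₁.X + Fintype.card {y : H₂.X // ξ y = none} := Fintype.card_sum
    rw [← this]
    exact Fintype.card_congr (Equiv.refl _)
  have h2 : Fintype.card {y : H₂.X // ξ y = none} =
      (univ.filter (fun y : H₂.X => ξ y = none)).card := by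
    rw [Fintype.card_subtype]
  have h3 := Finset.card_filter_add_card_filter_not (s := (univ : Finset H₂.X))
    (fun y : H₂.X => ξ y = none)
  rw [Finset.card_univ] at h3
  simp only [ne_eq]
  omega

theorem t_XL : S_XL := by
  classical
  intro H₁ H₂ ξ R hξ
  have hb := xl_bound hξ R
  have hc := xl_card ξ R
  have hsub : univ.filter (fun y : H₂.X => ξ y ≠ none ∧ xl_P (prodShp H₁ H₂ ξ R) (ξ.emb y)) ⊆
      univ.filter (fun y : H₂.X => ξ y ≠ none) := by
    intro y hy
    rw [Finset.mem_filter] at hy ⊢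
    exact ⟨hy.1, hy.2.1⟩
  constructor
  · have := Finset.card_le_card hsub
    omega
  · intro hL
    have hne : ∃ y : H₂.X, ξ y ≠ none ∧ ¬ xl_P (prodShp H₁ H₂ ξ R) (ξ.emb y) := by
      by_contra hcon
      push Not at hcon
      rcases hL with hL | hL
      · obtain ⟨x, hx, y', hy', he⟩ := hL (univ.filter (fun x => ∀ y, ξ y ≠ some x)) (by
          rw [Finset.mem_filter]
          refine ⟨mem_univ _, ?_⟩
          intro y hy
          have := (hcon y (by rw [hy]; simp)).1
          exact this (xl_emb_some hy)) (by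
          rw [Finset.mem_filter]
          rintro ⟨-, h⟩
          exact h _ hξ.1)
        have hx' := (Finset.mem_filter.1 hx).2
        have hy'' : ∃ y, ξ y = some y' := by
          by_contra hc'
          push Not at hc'
          exact hy' (Finset.mem_filter.2 ⟨mem_univ _, hc'⟩)
        obtain ⟨y, hy⟩ := hy''
        have hP := hcon y (by rw [hy]; simp)
        apply hP.2.2 _ (xl_mem1 R he (Sym2.mem_mk_left x y') hx')
        exact Sym2.mem_map.2 ⟨y', Sym2.mem_mk_right x y', (xl_emb_some hy).symm⟩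
      · obtain ⟨x, hx, y, hy, he⟩ := hL (univ.filter (fun y => ξ y ≠ none)) (by
          rw [Finset.mem_filter]
          refine ⟨mem_univ _, ?_⟩
          rw [hξ.1]
          simp) (by
          rw [Finset.mem_filter]
          rintro ⟨-, h⟩
          exact (hcon _ h).2.1 rfl)
        have hx' := (Finset.mem_filter.1 hx).2
        have hy' : ξ y = none := by
          by_contra hc'
          exact hy (Finset.mem_filter.2 ⟨mem_univ _, hc'⟩)
        have hP := hcon x hx'
        apply hP.2.2 _ (xl_mem2 hξ R he (Sym2.mem_mk_right x y) hy')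
        exact Sym2.mem_map.2 ⟨x, Sym2.mem_mk_left x y, rfl⟩
    obtain ⟨y, hy1, hy2⟩ := hne
    have hlt : (univ.filter (fun y : H₂.X => ξ y ≠ none ∧
        xl_P (prodShp H₁ H₂ ξ R) (ξ.emb y))).card <
        (univ.filter (fun y : H₂.X => ξ y ≠ none)).card := by
      apply Finset.card_lt_card
      rw [Finset.ssubset_iff_of_subset hsub]
      refine ⟨y, Finset.mem_filter.2 ⟨mem_univ _, hy1⟩, ?_⟩
      intro h
      exact hy2 (Finset.mem_filter.1 h).2.2
    omega

end Pool.Agent.H276R2.Gn
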