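import Pool.Agent.H276R2.Gn.TH
import Pool.Agent.H276R2.Gn.TD
import Pool.Agent.H276R2.Gn.TL
import Pool.Agent.H276R2.Gn.FR
import Pool.Agent.H276R2.Gn.K1
import Pool.Agent.H276R2.Gn.K2
import Pool.Agent.H276R2.Gn.DOM
import Pool.Agent.H276R2.Gn.GB
import Pool.Agent.H276R2.Gn.TW
import Pool.Agent.H276R2.Gn.UP
import Pool.Agent.H276R2.Gn.LO
import Pool.Agent.H276R2.Gn.D1
import Pool.Agent.H276R2.Gn.D2
import Pool.Agent.H276R2.Gn.S
import Pool.Agent.H276R2.Gn.BM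
import Pool.Agent.H276R2.Gn.SM
import Pool.Agent.H276R2.Gn.BN
import Pool.Agent.H276R2.Gn.PL
import Pool.Agent.H276R2.Gn.XL
import Pool.Agent.H276R2.Gn.CL
import Pool.Agent.H276R2.Gn.Q1
import Pool.Agent.H276R2.Gn.Q2
import Pool.Agent.H276R2.Gn.PR
import Pool.Agent.H276R2.Gn.W1
import Pool.Agent.H276R2.Gn.W2
import Pool.Agent.H276R2.Gn.W3
import Pool.Agent.H276R2.Gn.W4
import Pool.Agent.H276R2.Gn.W5
import Pool.Agent.H276R2.Gn.TI
import Pool.Agent.H276R2.Gn.NX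
import Pool.Agent.H276R2.Gn.IT0
import Pool.Agent.H276R2.Gn.IT1
import Pool.Agent.H276R2.Gn.GL
import Pool.Agent.H276R2.Gn.AM

/-!
# Lovasz number of `G(n, 1/2)`: assembly except for the parts `D` and `Q3`
-/

set_option autoImplicit false

namespace Pool.Agent.H276R2.Gn

theorem pre_main (d : S_D1 → S_D2 → S_D) (q3 : S_Q3) : Filter.Tendsto
      (fun n : ℕ =>
        ((∑ᶠ G : SimpleGraph (Fin n),
            sSup {s : ℝ | ∃ X : Matrix (Fin n) (Fin n) ℝ,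
              X.PosSemidef ∧ X.trace = 1 ∧
              (∀ i j, G.Adj i j → X i j = 0) ∧
              s = ∑ i, ∑ j, X i j}) /
          (Nat.card (SimpleGraph (Fin n)) : ℝ)) / Real.sqrt n)
      Filter.atTop (nhds 1) := by
  have hd : S_D := d t_D1 t_D2
  have sm : S_SM := t_SM t_BM
  have bn : S_BN := t_BN sm
  have cl : S_CL := t_CL t_PL t_XL
  have pr : S_PR := t_PR t_PL t_Q1 t_Q2 q3
  have w1 : S_W1 := t_W1 pr
  have w2 : S_W2 := t_W2 cl w1
  have w3 : S_W3 := t_W3 bn cl w1 w2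
  have w5 : S_W5 := t_W5 bn w1
  have ti : S_TI := t_TI t_BM
  have w4 : S_W4 := t_W4 bn w2 w3 w5 ti
  have nx : S_NX := t_NX w2
  have it0 : S_IT0 := t_IT0 nx w4
  have it1 : S_IT1 := t_IT1 nx w4
  have gl : S_GL := t_GL t_D1 bn w2
  have am : S_AM := t_AM gl w5
  have amf : S_AMF := amf_of hd t_S it0 it1 am
  have dom : S_DOM := t_DOM (t_K2 t_K1)
  have tw : S_TW := t_TW amf dom
  have gb : S_GB := t_GB t_TH t_TD dom
  exact main_of t_FR (t_UP t_TH t_TD gb tw) (t_LO t_TL tw)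

end Pool.Agent.H276R2.Gn
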