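import Pool.Agent.H276R2.Gn.LibD

/-!
# Statements of the parts of the proof for `G(n, 1/2)`

Every part `X` is a proposition `S_X`; the task `X` proves `theorem t_X (h : S_Y) ... : S_X` in the
file `Pool/Agent/H276R2/Gn/X.lean`.
-/

set_option autoImplicit false

namespace Pool.Agent.H276R2.Gn

open Finset Real

/-! ## Part T: the theta function -/

/-- TH: elementary facts on the theta function. -/
def S_TH : Prop :=
  (∀ (n : ℕ) (σ : Cfg n) (U : Finset (Fin n)), 0 ≤ Th σ U ∧ Th σ U ≤ #U) ∧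
  (∀ (n : ℕ) (σ τ : Cfg n) (U : Finset (Fin n)), (∀ e, σ e = true → τ e = true) →
    Th τ U ≤ Th σ U) ∧
  (∀ (n : ℕ) (σ : Cfg n) (U V : Finset (Fin n)), U ⊆ V → Th σ U ≤ Th σ V) ∧
  (∀ (n : ℕ) (σ : Cfg n) (U V : Finset (Fin n)), Disjoint U V → Th σ (U ∪ V) ≤ Th σ U + Th σ V)

/-- TD: weak duality (upper bound). -/
def S_TD : Prop := ∀ (n : ℕ) (σ : Cfg n) (U : Finset (Fin n)) (B : Mat n) (β γ : ℝ), 0 ≤ β → 0 < γ →
  (∀ i ∈ U, B i i ≤ β) → SuppE σ B → Psd U (B - γ • Jn n) → B.transpose = B →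
  Th σ U ≤ β / γ * √n

/-- TL: lower bound. -/
def S_TL : Prop := ∀ (n : ℕ) (σ : Cfg n) (U : Finset (Fin n)) (B : Mat n) (β γ : ℝ), 0 < n → 0 < β →
  0 ≤ γ → (∀ i, B i i = β) → SuppE (fun e => !σ e) B → Psd U (B - γ • Jn n) → B.transpose = B →
  γ * (#U : ℝ) ^ 2 / (√n * (β * n)) ≤ Th σ univ

/-- FR: the average over all graphs. -/
def S_FR : Prop := ∀ n : ℕ, ((∑ᶠ G : SimpleGraph (Fin n),
    sSup {s : ℝ | ∃ X : Matrix (Fin n) (Fin n) ℝ,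
      X.PosSemidef ∧ X.trace = 1 ∧ (∀ i j, G.Adj i j → X i j = 0) ∧
      s = ∑ i, ∑ j, X i j}) / (Nat.card (SimpleGraph (Fin n)) : ℝ)) =
  Ep n (1 / 2) (fun σ => Th σ univ)

/-! ## Part K: moments of random matrices, domination -/

/-- K1: a trace inequality. -/
def S_K1 : Prop := ∀ (n : ℕ) (N M A : Mat n), N.transpose = N → M.transpose = M →
  A.transpose = A → ∀ m : ℕ, ∑ r ∈ range (2 * m + 1), (A * N ^ r * A * M ^ (2 * m - r)).trace ≤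
    (2 * m + 1) / 2 * ((A * A * N ^ (2 * m)).trace + (A * A * M ^ (2 * m)).trace)

/-- The noise matrix. -/
noncomputable def noise {n : ℕ} (q : ℝ) (Y : Mat n) (τ : Cfg n) : Mat n :=
  Matrix.of fun i j => Y i j * ((if τ s(i, j) = true then 1 / q else 0) - 1)

/-- K2: eighth moment of a random matrix with independent entries. -/
def S_K2 : Prop := ∀ (n : ℕ) (U : Finset (Fin n)) (Y : Mat n) (q v : ℝ), 0 < q → q ≤ 1 →
  Y.transpose = Y → (∀ i, Y i i = 0) → (∀ i j, i ∉ U → Y i j = 0) → (∀ i, ∑ j, Y i j ^ 2 ≤ v) →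
  Ep n q (fun τ => ((noise q Y τ) ^ 8).trace) ≤ 7 * (v / q ^ 2) ^ 4 * #U

/-- DOM: domination of a matrix of small Frobenius norm by a matrix supported on a random graph. -/
def S_DOM : Prop := ∀ (n : ℕ) (U : Finset (Fin n)) (Y : Mat n) (κ η p : ℝ), 0 < κ → κ ≤ 1 →
  0 < η → η ≤ 1 → 0 < p → p ≤ 1 → Y.transpose = Y → (∀ i j, i ∉ U → Y i j = 0) →
  fro Y ≤ (κ * η * p) ^ 9 / 10 ^ 18 * #U →
  1 - p ≤ Pp n η (fun τ => ∃ (U' : Finset (Fin n)) (V : Mat n), U' ⊆ U ∧ (#U' : ℝ) ≤ κ * #U ∧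
    V.transpose = V ∧ (∀ i, V i i = 0) ∧ SuppE τ V ∧ Psd (U \ U') (V + κ • (1 : Mat n) + Y))

/-- GB: bound of the right order for every density. -/
def S_GB : Prop := ∃ K : ℝ, 0 ≤ K ∧ ∀ (n : ℕ) (U : Finset (Fin n)) (q : ℝ), 0 < q → q ≤ 1 →
  Ep n q (fun τ => Th τ U) ≤ K * √(#U) / q ^ 5

/-! ## Part F: final deduction -/

/-- AMF: approximate solutions exist with high probability. -/
def S_AMF : Prop := ∀ η δ : ℝ, 0 < η → η ≤ 1 / 4 → 0 < δ → ∃ n₀ : ℕ, ∀ n : ℕ, n₀ ≤ n →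
  1 - δ ≤ Pp n ((1 - η) / 2) (ApproxM η δ n)

/-- TW: solutions on most vertices. -/
def S_TW : Prop := ∀ η κ p : ℝ, 0 < η → η ≤ 1 / 4 → 0 < κ → κ ≤ 1 → 0 < p → p ≤ 1 →
  ∃ n₀ : ℕ, ∀ n : ℕ, n₀ ≤ n →
    1 - p ≤ Pp n (1 / 2 - η / 4) (GoodU κ (1 + 3 * η + κ) (1 - η) n)

/-- UP: upper bound. -/
def S_UP : Prop := ∀ ε : ℝ, 0 < ε → ∃ n₀ : ℕ, ∀ n : ℕ, n₀ ≤ n →
  Ep n (1 / 2) (fun σ => Th σ univ) ≤ (1 + ε) * √n

/-- LO: lower bound. -/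
def S_LO : Prop := ∀ ε : ℝ, 0 < ε → ∃ n₀ : ℕ, ∀ n : ℕ, n₀ ≤ n →
  (1 - ε) * √n ≤ Ep n (1 / 2) (fun σ => Th σ univ)

/-! ## Part D: the profile -/

/-- D1: Chebyshev expansions. -/
def S_D1 : Prop :=
  (∀ d e : ℕ, scI (fun x => (Uc d).eval x * (Uc e).eval x) = if d = e then 1 else 0) ∧
  (∀ P : Polynomial ℝ, ∃ (D : ℕ) (c : ℕ → ℝ), P = PP D c) ∧
  (∀ (D : ℕ) (c : ℕ → ℝ), scI (fun x => (PP D c).eval x) = c 0) ∧
  (∀ (D : ℕ) (c : ℕ → ℝ), scI (fun x => ((PP D c).eval x) ^ 2) = ∑ d ∈ range (D + 1), c d ^ 2)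

/-- D2: Fourier expansion of `|cos|`. -/
def S_D2 : Prop := ∀ (K : ℕ) (θ : ℝ),
  |(|cos θ| - (2 / π + 4 / π * ∑ k ∈ Icc 1 K, (-1 : ℝ) ^ (k + 1) * cos (2 * k * θ) /
    (4 * (k : ℝ) ^ 2 - 1)))| ≤ 2 / (π * (2 * K + 1))

/-- D: the profile. -/
def S_D : Prop := ∀ η δ : ℝ, 0 < η → η ≤ 1 / 4 → 0 < δ →
  ∃ (D : ℕ) (c : ℕ → ℝ) (R : Polynomial ℝ), c 0 = 0 ∧ c 1 = 0 ∧
  ∑ d ∈ range (D + 1), (d : ℝ) * c d ^ 2 ≤ 9 / 10 * (4 + ∑ d ∈ range (D + 1), c d ^ 2) ∧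
  (∀ x : ℝ, 0 ≤ 1 + 1 / 2 * ((1 - η) * (PP D c).eval x + √(1 - η ^ 2) * sP D c * x) + 3 * η +
    R.eval x) ∧
  scI (fun x => (R.eval x) ^ 2) ≤ δ

/-- S: convergence of the correlations. -/
def S_S : Prop := ∀ (D : ℕ) (c : ℕ → ℝ),
  ∑ d ∈ range (D + 1), (d : ℝ) * c d ^ 2 ≤ 9 / 10 * (4 + ∑ d ∈ range (D + 1), c d ^ 2) →
  (∀ m, 0 ≤ rho D c m ∧ rho D c m ≤ 1) ∧ ∀ ε : ℝ, 0 < ε → ∃ m, 1 - rho D c m ≤ ε

/-! ## Part C: the chaoses -/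

open Classical in
/-- BM: second moments. -/
def S_BM : Prop := ∀ (p : ℝ) (H H' : Shp) (q q' n : ℕ), 0 < p → p < 1 → 0 < n →
  Ep n p (fun σ => ∑ i, ∑ j, Sh p H q n σ i j * Sh p H' q' n σ i j) =
    (#{v : (H.X → Fin n) × (H'.X → Fin n) | Function.Injective v.1 ∧ Function.Injective v.2 ∧
      v.1 H.s = v.2 H'.s ∧ v.1 H.t = v.2 H'.t ∧
      H.E.image (Sym2.map v.1) = H'.E.image (Sym2.map v.2)} : ℝ) / √n ^ (q + q')

/-- SM: order of the second moment. -/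
def S_SM : Prop := ∀ (p : ℝ) (H : Shp) (q : ℕ), 0 < p → p < 1 → ∃ C : ℝ, ∀ n : ℕ, 0 < n →
  Ep n p (fun σ => fro (Sh p H q n σ)) * n ^ q ≤ C * n ^ (Fintype.card H.X + H.iso)

/-- BN: negligible families are bounded, chaoses of chains are of order `n`. -/
def S_BN : Prop := ∀ (p : ℝ), 0 < p → p < 1 →
  (∀ f : MF, BadF p f → ∃ C : ℝ, ∀ n : ℕ, 0 < n → Ep n p (fun σ => fro (f n σ)) ≤ C) ∧
  (∀ B : Chn, ∃ C : ℝ, ∀ n : ℕ, 0 < n → Ep n p (fun σ => fro (Fc p B n σ)) ≤ C * n)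

open Classical in
/-- PL: product of two shape sums. -/
def S_PL : Prop := ∀ (p : ℝ) (H₁ H₂ : Shp) (q₁ q₂ n : ℕ) (σ : Cfg n), 0 < p → p < 1 →
  Sh p H₁ q₁ n σ * Sh p H₂ q₂ n σ = ∑ ξ : SPat H₁ H₂, if ξ.OK then
    ∑ R ∈ (ξ.E₁ ∩ ξ.E₂).powerset, (bb p) ^ R.card • Sh p (prodShp H₁ H₂ ξ R) (q₁ + q₂) n σ else 0

/-- XL: the exponents of the product shapes. -/
def S_XL : Prop := ∀ (H₁ H₂ : Shp) (ξ : SPat H₁ H₂) (R : Finset (Sym2 ξ.V)), ξ.OK →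
  Fintype.card (prodShp H₁ H₂ ξ R).X + (prodShp H₁ H₂ ξ R).iso ≤
    Fintype.card H₁.X + H₁.iso + (Fintype.card H₂.X + H₂.iso) ∧
  (H₁.Linked ∨ H₂.Linked → Fintype.card (prodShp H₁ H₂ ξ R).X + (prodShp H₁ H₂ ξ R).iso + 1 ≤
    Fintype.card H₁.X + H₁.iso + (Fintype.card H₂.X + H₂.iso))

/-- CL: closure of the negligible families under products. -/
def S_CL : Prop := ∀ (p : ℝ), 0 < p → p < 1 → ∀ f g : MF, BadF p f → BadF p g →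
  BadF p (fun n σ => f n σ * g n σ) ∧
  ∀ B : Chn, BadF p (fun n σ => f n σ * Fc p B n σ) ∧ BadF p (fun n σ => Fc p B n σ * f n σ)

/-- The trivial pattern. -/
def triv (H₁ H₂ : Shp) : SPat H₁ H₂ := fun y => if y = H₂.s then some H₁.t else none

/-- The pattern which identifies the first tree of the second chain with the first chain. -/
def perf (t t' B : Chn) (φ : CIso t t') : SPat t.shp (t'.cat B).shp := fun y =>
  if h : (show Fin (t'.L + B.L + 1) from y).val < t'.L + 1 then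
    some (φ.1 ⟨(show Fin (t'.L + B.L + 1) from y).val, h⟩) else none

/-- Q1: classification of the patterns of the product of a tree and a chain. -/
def S_Q1 : Prop := ∀ (t t' B : Chn), t.IsTr → t'.IsTr →
  ∀ (ξ : SPat t.shp (t'.cat B).shp) (R : Finset (Sym2 ξ.V)), ξ.OK → R ⊆ ξ.E₁ ∩ ξ.E₂ →
  (ξ = triv _ _ ∧ R = ∅) ∨ (t.L = t'.L ∧ R = ∅ ∧ ∃ φ : CIso t t', ξ = perf t t' B φ) ∨
  Fintype.card (prodShp _ _ ξ R).X + (prodShp _ _ ξ R).iso ≤ t.L + (t'.cat B).L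

/-- Q2: the trivial pattern gives the concatenation. -/
def S_Q2 : Prop := ∀ (p : ℝ) (B₁ B₂ : Chn) (n : ℕ) (σ : Cfg n),
  (triv B₁.shp B₂.shp).OK ∧ (triv B₁.shp B₂.shp).E₁ ∩ (triv B₁.shp B₂.shp).E₂ = ∅ ∧
  Sh p (prodShp B₁.shp B₂.shp (triv _ _) ∅) (B₁.L + B₂.L) n σ = Fc p (B₁.cat B₂) n σ

/-- Q3: the perfect patterns give the remaining chain. -/
def S_Q3 : Prop := ∀ (p : ℝ) (t t' B : Chn) (φ : CIso t t') (n : ℕ) (σ : Cfg n), t.IsTr → t'.IsTr →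
  t.L = t'.L → 0 < n → (perf t t' B φ).OK ∧
  Sh p (prodShp t.shp (t'.cat B).shp (perf t t' B φ) ∅) (t.L + (t'.cat B).L) n σ =
    (((n - (B.L + 1)).descFactorial t.L : ℝ) / (n : ℝ) ^ t.L) • Fc p B n σ

/-- PR: the product rule. -/
def S_PR : Prop := ∀ (p : ℝ) (t t' B : Chn), 0 < p → p < 1 → t.IsTr → t'.IsTr →
  BadF p (fun n σ => Fc p t n σ * Fc p (t'.cat B) n σ - Fc p (t.cat (t'.cat B)) n σ -
    cc t t' • Fc p B n σ)

/-- W1: the Wick product rule. -/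
def S_W1 : Prop := ∀ (p : ℝ) (J : Type) [Fintype J] (tr : J → Chn) (r : ℕ) (α : J → ℝ)
  (γ : Fin (r + 1) → J → ℝ), 0 < p → p < 1 → (∀ j, (tr j).IsTr) →
  BadF p (fun n σ => Gf p tr α n σ * Wf p tr γ n σ -
    Wf p tr (Fin.cons α γ : Fin (r + 2) → J → ℝ) n σ -
    CC tr α (γ 0) • Wf p tr (fun i : Fin r => γ i.succ) n σ)

/-- W2: Chebyshev polynomials of a normalised symmetric family. -/
def S_W2 : Prop := ∀ (p : ℝ) (J : Type) [Fintype J] (tr : J → Chn) (α : J → ℝ) (G : MF),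
  0 < p → p < 1 → App p tr α G → CC tr α α = 1 → ∀ d : ℕ,
  BadF p (fun n σ => Polynomial.aeval (G n σ) (Uc d) - Wf p tr (fun _ : Fin d => α) n σ)

/-- W3: traces of products. -/
def S_W3 : Prop := ∀ (p : ℝ) (J : Type) [Fintype J] (tr : J → Chn) (α : J → ℝ) (G : MF),
  0 < p → p < 1 → App p tr α G → CC tr α α = 1 → ∀ (d r : ℕ) (γ : Fin r → J → ℝ),
  ∃ K : ℝ, ∀ n : ℕ, 0 < n →
  |Ep n p (fun σ => (Polynomial.aeval (G n σ) (Uc d) * Wf p tr γ n σ).trace / n) -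
    (if d = r then ∏ i, CC tr α (γ i) else 0)| ≤ K / √n

/-- W5: covariances of two symmetric families. -/
def S_W5 : Prop := ∀ (p : ℝ) (J : Type) [Fintype J] (tr : J → Chn) (α β : J → ℝ) (G H : MF),
  0 < p → p < 1 → App p tr α G → App p tr β H → ∃ K : ℝ, ∀ n : ℕ, 0 < n →
  |Ep n p (fun σ => (G n σ * H n σ).trace / n) - CC tr α β| ≤ K / √n

/-- TI: `Tm` is isometric on chaoses of chains without the edge between the ends. -/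
def S_TI : Prop := ∀ (p : ℝ) (B B' : Chn) (n : ℕ), 0 < p → p < 1 → 0 < n → 0 < B.L → 0 < B'.L →
  (0, B.L) ∉ B.E → (0, B'.L) ∉ B'.E →
  Ep n p (fun σ => (Tm p σ (Fc p B n σ) * (Tm p σ (Fc p B' n σ)).transpose).trace) =
    Ep n p (fun σ => (Fc p B n σ * (Fc p B' n σ).transpose).trace) ∧
  Ep n p (fun σ => (Wn p σ * (Tm p σ (Fc p B n σ)).transpose).trace) = 0 ∧
  Ep n p (fun σ => (Wn p σ * (Wn p σ).transpose).trace) = n - 1

/-- W4: covariances after one step. -/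
def S_W4 : Prop := ∀ (p : ℝ) (J J' : Type) [Fintype J] [Fintype J'] (tr : J → Chn) (tr' : J' → Chn)
  (α β : J → ℝ) (α' β' : J' → ℝ) (G H : MF) (D : ℕ) (c₁ c₂ : ℕ → ℝ) (a b s₁ s₂ : ℝ),
  0 < p → p < 1 → App p tr α G → App p tr β H → CC tr α α = 1 → CC tr β β = 1 →
  c₁ 0 = 0 → c₁ 1 = 0 → c₂ 0 = 0 → c₂ 1 = 0 → s₁ ≠ 0 → s₂ ≠ 0 →
  App p tr' α' (Stp p D c₁ a s₁ G) → App p tr' β' (Stp p D c₂ b s₂ H) →
  s₁ * s₂ * CC tr' α' β' = a * b + ∑ d ∈ range (D + 1), c₁ d * c₂ d * CC tr α β ^ d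

/-- NX: one step of the iteration. -/
def S_NX : Prop := ∀ (p : ℝ) (J : Type) [Fintype J] (tr : J → Chn) (D : ℕ) (c : ℕ → ℝ) (a s : ℝ),
  0 < p → p < 1 → s ≠ 0 → c 0 = 0 → c 1 = 0 → (∀ j, (tr j).IsTr) →
  ∃ (K : Type) (_ : Fintype K) (tr'' : K → Chn), ∀ (G : MF) (α : J → ℝ), App p tr α G →
  CC tr α α = 1 → ∃ α' : Option K → ℝ,
    App p (fun o : Option K => o.elim Chn.leaf tr'') α' (Stp p D c a s G)

/-- IT0: start of the iteration. -/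
def S_IT0 : Prop := ∀ (p : ℝ) (D : ℕ) (c : ℕ → ℝ), 0 < p → p < 1 → c 0 = 0 → c 1 = 0 →
  ∃ (J : Type) (_ : Fintype J) (tr : J → Chn) (α β : J → ℝ), St p D c 0 tr α β

/-- IT1: step of the iteration. -/
def S_IT1 : Prop := ∀ (p : ℝ) (D : ℕ) (c : ℕ → ℝ) (m : ℕ), 0 < p → p < 1 → c 0 = 0 → c 1 = 0 →
  (∃ (J : Type) (_ : Fintype J) (tr : J → Chn) (α β : J → ℝ), St p D c m tr α β) →
  ∃ (J : Type) (_ : Fintype J) (tr : J → Chn) (α β : J → ℝ), St p D c (m + 1) tr α β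

/-- GL: the spectral distribution is the semicircle law. -/
def S_GL : Prop := ∀ (p : ℝ) (J : Type) [Fintype J] (tr : J → Chn) (α : J → ℝ) (G : MF),
  0 < p → p < 1 → App p tr α G → CC tr α α = 1 →
  (∀ R : Polynomial ℝ, ∃ K : ℝ, ∀ n : ℕ, 0 < n → Ep n p (fun σ =>
    ((Polynomial.aeval (G n σ) R).trace / n - scI (fun x => R.eval x)) ^ 2) ≤ K / n) ∧
  (∀ (D : ℕ) (c : ℕ → ℝ), c 0 = 0 → ∃ K : ℝ, ∀ n : ℕ, 0 < n → Ep n p (fun σ =>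
    ∑ i, (Polynomial.aeval (G n σ) (PP D c) i i) ^ 2) ≤ K)

/-- AM: approximate solutions from the iterates. -/
def S_AM : Prop := ∀ (D : ℕ) (c : ℕ → ℝ) (R : Polynomial ℝ) (η δ : ℝ) (m : ℕ)
  (J : Type) [Fintype J] (tr : J → Chn) (α β : J → ℝ),
  0 < η → η ≤ 1 / 4 → 0 < δ → c 0 = 0 → c 1 = 0 → St ((1 - η) / 2) D c m tr α β →
  (∀ x : ℝ, 0 ≤ 1 + 1 / 2 * ((1 - η) * (PP D c).eval x + √(1 - η ^ 2) * sP D c * x) + 3 * η +
    R.eval x) →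
  3 * scI (fun x => (R.eval x) ^ 2) + 3 / 2 * sP D c ^ 2 * (1 - rho D c m) ≤ δ ^ 2 / 2 →
  ∃ n₀ : ℕ, ∀ n : ℕ, n₀ ≤ n → 1 - δ ≤ Pp n ((1 - η) / 2) (ApproxM η δ n)

/-! ## Assembly -/

theorem amf_of (d : S_D) (s : S_S) (it0 : S_IT0) (it1 : S_IT1) (am : S_AM) : S_AMF := by
  intro η δ hη hη1 hδ
  obtain ⟨D, c, R, h0, h1, hs, hx, hR⟩ := d η (δ ^ 2 / 12) hη hη1 (by positivity)
  have key : ∀ m, ∃ (J : Type) (_ : Fintype J) (tr : J → Chn) (α β : J → ℝ),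
      St ((1 - η) / 2) D c m tr α β := by
    intro m
    induction m with
    | zero => exact it0 _ D c (by linarith) (by linarith) h0 h1
    | succ m ih => exact it1 _ D c m (by linarith) (by linarith) h0 h1 ih
  have hsP : 0 < sP D c ^ 2 := by
    unfold sP
    rw [Real.sq_sqrt (by positivity)]
    positivity
  obtain ⟨m, hm⟩ := (s D c hs).2 (δ ^ 2 / (6 * sP D c ^ 2)) (by positivity)
  obtain ⟨J, hJ, tr, α, β, h⟩ := key m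
  refine am D c R η δ m J tr α β hη hη1 hδ h0 h1 h hx ?_
  have h2 : 3 / 2 * sP D c ^ 2 * (1 - rho D c m) ≤ 3 / 2 * sP D c ^ 2 * (δ ^ 2 / (6 * sP D c ^ 2)) := by
    apply mul_le_mul_of_nonneg_left hm (by positivity)
  have h3 : 3 / 2 * sP D c ^ 2 * (δ ^ 2 / (6 * sP D c ^ 2)) = δ ^ 2 / 4 := by
    generalize sP D c ^ 2 = S at hsP
    field_simp
    ring
  linarith

theorem main_of (fr : S_FR) (up : S_UP) (lo : S_LO) : Filter.Tendsto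
      (fun n : ℕ =>
        ((∑ᶠ G : SimpleGraph (Fin n),
            sSup {s : ℝ | ∃ X : Matrix (Fin n) (Fin n) ℝ,
              X.PosSemidef ∧ X.trace = 1 ∧
              (∀ i j, G.Adj i j → X i j = 0) ∧
              s = ∑ i, ∑ j, X i j}) /
          (Nat.card (SimpleGraph (Fin n)) : ℝ)) / Real.sqrt n)
      Filter.atTop (nhds 1) := by
  rw [Metric.tendsto_atTop]
  intro ε hε
  obtain ⟨n₁, h₁⟩ := up (ε / 2) (by positivity)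
  obtain ⟨n₂, h₂⟩ := lo (ε / 2) (by positivity)
  refine ⟨n₁ + n₂ + 1, fun n hn => ?_⟩
  have a₁ := h₁ n (by omega)
  have a₂ := h₂ n (by omega)
  have hn0 : (0 : ℝ) < n := by exact_mod_cast (by omega : 0 < n)
  have hs : 0 < √(n : ℝ) := Real.sqrt_pos.mpr hn0
  rw [Real.dist_eq, fr n, abs_lt]
  constructor
  · have : (1 - ε / 2) ≤ Ep n (1 / 2) (fun σ => Th σ univ) / √n := by
      rw [le_div_iff₀ hs]; exact a₂
    linarith
  · have : Ep n (1 / 2) (fun σ => Th σ univ) / √n ≤ (1 + ε / 2) := by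
      rw [div_le_iff₀ hs]; exact a₁
    linarith

end Pool.Agent.H276R2.Gn
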