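import Pool.Agent.H276R2.Gn.Spec

/-!
Task TH (helper793): elementary facts on the theta function.
-/

set_option autoImplicit false

namespace Pool.Agent.H276R2.Gn

open Finset Real

/-- indicator vector -/
noncomputable def th_ind {n : ℕ} (U : Finset (Fin n)) : Fin n → ℝ := fun i => if i ∈ U then 1 else 0

/-- the bilinear form -/
noncomputable def th_b {n : ℕ} (X : Mat n) (x y : Fin n → ℝ) : ℝ := ∑ i, ∑ j, x i * X i j * y j

theorem th_b_ind {n : ℕ} (X : Mat n) (U V : Finset (Fin n)) :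
    th_b X (th_ind U) (th_ind V) = ∑ i ∈ U, ∑ j ∈ V, X i j := by
  unfold th_b th_ind
  rw [← Finset.sum_subset (Finset.subset_univ U) (f := fun i => ∑ j, (if i ∈ U then (1 : ℝ) else 0)
    * X i j * (if j ∈ V then 1 else 0))]
  · refine Finset.sum_congr rfl fun i hi => ?_
    rw [← Finset.sum_subset (Finset.subset_univ V) (f := fun j => (if i ∈ U then (1 : ℝ) else 0)
      * X i j * (if j ∈ V then 1 else 0))]
    · refine Finset.sum_congr rfl fun j hj => ?_
      rw [if_pos hi, if_pos hj, one_mul, mul_one]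
    · intro j _ hj
      rw [if_neg hj, mul_zero]
  · intro i _ hi
    refine Finset.sum_eq_zero fun j _ => ?_
    rw [if_neg hi, zero_mul, zero_mul]

theorem th_b_add_left {n : ℕ} (X : Mat n) (x y z : Fin n → ℝ) (c d : ℝ) :
    th_b X (fun i => c * x i + d * y i) z = c * th_b X x z + d * th_b X y z := by
  unfold th_b
  simp only [Finset.mul_sum, ← Finset.sum_add_distrib]
  refine Finset.sum_congr rfl fun i _ => Finset.sum_congr rfl fun j _ => ?_
  ring

theorem th_b_add_right {n : ℕ} (X : Mat n) (x y z : Fin n → ℝ) (c d : ℝ) :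
    th_b X z (fun i => c * x i + d * y i) = c * th_b X z x + d * th_b X z y := by
  unfold th_b
  simp only [Finset.mul_sum, ← Finset.sum_add_distrib]
  refine Finset.sum_congr rfl fun i _ => Finset.sum_congr rfl fun j _ => ?_
  ring

theorem th_sym {n : ℕ} {X : Mat n} (h : X.PosSemidef) (i j : Fin n) : X i j = X j i := by
  have := h.1.apply j i
  simpa using this

theorem th_b_comm {n : ℕ} {X : Mat n} (h : X.PosSemidef) (x y : Fin n → ℝ) :
    th_b X x y = th_b X y x := by
  unfold th_b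
  rw [Finset.sum_comm]
  refine Finset.sum_congr rfl fun i _ => Finset.sum_congr rfl fun j _ => ?_
  rw [th_sym h i j]
  ring

theorem th_b_nonneg {n : ℕ} {X : Mat n} (h : X.PosSemidef) (x : Fin n → ℝ) : 0 ≤ th_b X x x := by
  have h1 := h.dotProduct_mulVec_nonneg x
  have h2 : th_b X x x = star x ⬝ᵥ X.mulVec x := by
    unfold th_b
    simp only [dotProduct, Matrix.mulVec, Pi.star_apply, star_trivial, Finset.mul_sum]
    refine Finset.sum_congr rfl fun i _ => Finset.sum_congr rfl fun j _ => ?_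
    ring
  rw [h2]
  exact h1

theorem th_two {n : ℕ} {X : Mat n} (h : X.PosSemidef) (i j : Fin n) :
    2 * X i j ≤ X i i + X j j := by
  have h1 := th_b_nonneg h (fun k => 1 * th_ind {i} k + (-1) * th_ind {j} k)
  rw [th_b_add_left, th_b_add_right, th_b_add_right, th_b_ind, th_b_ind, th_b_ind, th_b_ind] at h1
  simp only [Finset.sum_singleton] at h1
  have := th_sym h i j
  linarith

theorem th_block_le {n : ℕ} {X : Mat n} (h : X.PosSemidef) (U : Finset (Fin n)) :
    ∑ i ∈ U, ∑ j ∈ U, X i j ≤ #U * ∑ i ∈ U, X i i := by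
  have h1 : 2 * ∑ i ∈ U, ∑ j ∈ U, X i j ≤ ∑ i ∈ U, ∑ j ∈ U, (X i i + X j j) := by
    rw [Finset.mul_sum]
    refine Finset.sum_le_sum fun i _ => ?_
    rw [Finset.mul_sum]
    exact Finset.sum_le_sum fun j _ => th_two h i j
  have h2 : ∑ i ∈ U, ∑ j ∈ U, (X i i + X j j) = 2 * (#U * ∑ i ∈ U, X i i) := by
    simp only [Finset.sum_add_distrib, Finset.sum_const, nsmul_eq_mul]
    rw [← Finset.mul_sum]
    ring
  linarith

theorem th_total {n : ℕ} {X : Mat n} (h : X.PosSemidef) (U : Finset (Fin n))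
    (hU : ∀ i j, i ∉ U → X i j = 0) : ∑ i, ∑ j, X i j = ∑ i ∈ U, ∑ j ∈ U, X i j := by
  rw [← Finset.sum_subset (Finset.subset_univ U) (f := fun i => ∑ j, X i j)]
  · refine Finset.sum_congr rfl fun i hi => ?_
    rw [← Finset.sum_subset (Finset.subset_univ U) (f := fun j => X i j)]
    intro j _ hj
    rw [th_sym h, hU j i hj]
  · intro i _ hi
    exact Finset.sum_eq_zero fun j _ => hU i j hi

theorem th_trace {n : ℕ} {X : Mat n} (U : Finset (Fin n))
    (hU : ∀ i j, i ∉ U → X i j = 0) : X.trace = ∑ i ∈ U, X i i := by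
  unfold Matrix.trace
  simp only [Matrix.diag_apply]
  rw [← Finset.sum_subset (Finset.subset_univ U) (f := fun i => X i i)]
  intro i _ hi
  exact hU i i hi

/-- the feasible matrices -/
def th_F {n : ℕ} (σ : Cfg n) (U : Finset (Fin n)) (X : Mat n) : Prop :=
  X.PosSemidef ∧ X.trace = 1 ∧
    (∀ i j, i ≠ j → σ s(i, j) = true → X i j = 0) ∧ (∀ i j, i ∉ U → X i j = 0)

theorem th_F_le {n : ℕ} {σ : Cfg n} {U : Finset (Fin n)} {X : Mat n} (h : th_F σ U X) :
    ∑ i, ∑ j, X i j ≤ #U := by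
  obtain ⟨h1, h2, h3, h4⟩ := h
  rw [th_total h1 U h4]
  have h5 := th_block_le h1 U
  rw [← th_trace U h4, h2, mul_one] at h5
  exact h5

theorem th_F_nonneg {n : ℕ} {σ : Cfg n} {U : Finset (Fin n)} {X : Mat n} (h : th_F σ U X) :
    0 ≤ ∑ i, ∑ j, X i j := by
  rw [th_total h.1 U h.2.2.2, ← th_b_ind]
  exact th_b_nonneg h.1 _

theorem th_nonneg {n : ℕ} (σ : Cfg n) (U : Finset (Fin n)) : 0 ≤ Th σ U := by
  unfold Th
  apply Real.sSup_nonneg
  rintro s ⟨X, h1, h2, h3, h4, rfl⟩
  exact th_F_nonneg ⟨h1, h2, h3, h4⟩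

theorem th_le_of {n : ℕ} (σ : Cfg n) (U : Finset (Fin n)) (a : ℝ) (ha : 0 ≤ a)
    (h : ∀ X : Mat n, th_F σ U X → ∑ i, ∑ j, X i j ≤ a) : Th σ U ≤ a := by
  unfold Th
  refine Real.sSup_le ?_ ha
  rintro s ⟨X, h1, h2, h3, h4, rfl⟩
  exact h X ⟨h1, h2, h3, h4⟩

theorem th_le_Th {n : ℕ} {σ : Cfg n} {U : Finset (Fin n)} {X : Mat n} (h : th_F σ U X) :
    ∑ i, ∑ j, X i j ≤ Th σ U := by
  unfold Th
  refine le_csSup ⟨(#U : ℝ), ?_⟩ ⟨X, h.1, h.2.1, h.2.2.1, h.2.2.2, rfl⟩
  rintro s ⟨Y, h1, h2, h3, h4, rfl⟩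
  exact th_F_le ⟨h1, h2, h3, h4⟩

/-- the block of a feasible matrix -/
theorem th_block {n : ℕ} {σ : Cfg n} {X : Mat n} (h : X.PosSemidef)
    (hσ : ∀ i j, i ≠ j → σ s(i, j) = true → X i j = 0) (U : Finset (Fin n)) :
    ∑ i ∈ U, ∑ j ∈ U, X i j ≤ (∑ i ∈ U, X i i) * Th σ U := by
  have hnn : 0 ≤ ∑ i ∈ U, X i i := Finset.sum_nonneg fun i _ => h.diag_nonneg
  rcases hnn.eq_or_lt with h0 | hpos
  · have h1 := th_block_le h U
    rw [← h0, mul_zero] at h1
    rw [← h0, zero_mul]
    exact h1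
  · set a := ∑ i ∈ U, X i i with ha
    set D : Mat n := Matrix.diagonal (th_ind U) with hD
    set Y : Mat n := a⁻¹ • (D * X * D.conjTranspose) with hY
    have hDD : D.conjTranspose = D := by
      rw [hD, Matrix.diagonal_conjTranspose]
      congr 1
    have hYe : ∀ i j, Y i j = a⁻¹ * (th_ind U i * X i j * th_ind U j) := by
      intro i j
      rw [hY, hDD, Matrix.smul_apply, hD, Matrix.mul_diagonal, Matrix.diagonal_mul, smul_eq_mul]
    have hYp : Y.PosSemidef := (h.mul_mul_conjTranspose_same D).smul (inv_nonneg.2 hnn)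
    have hF : th_F σ U Y := by
      have hz : ∀ i j, i ∉ U → Y i j = 0 := by
        intro i j hi
        rw [hYe]
        unfold th_ind
        rw [if_neg hi]
        ring
      refine ⟨hYp, ?_, ?_, hz⟩
      · rw [th_trace U hz]
        have : ∀ i ∈ U, Y i i = a⁻¹ * X i i := by
          intro i hi
          rw [hYe]
          unfold th_ind
          rw [if_pos hi]
          ring
        rw [Finset.sum_congr rfl this, ← Finset.mul_sum, ← ha]
        exact inv_mul_cancel₀ hpos.ne'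
      · intro i j hij hs
        rw [hYe, hσ i j hij hs]
        ring
    have h2 := th_le_Th hF
    have h3 : ∑ i, ∑ j, Y i j = a⁻¹ * ∑ i ∈ U, ∑ j ∈ U, X i j := by
      rw [(th_b_ind X U U).symm]
      unfold th_b
      rw [Finset.mul_sum]
      refine Finset.sum_congr rfl fun i _ => ?_
      rw [Finset.mul_sum]
      exact Finset.sum_congr rfl fun j _ => hYe i j
    rw [h3] at h2
    rw [inv_mul_le_iff₀ hpos] at h2
    exact h2

theorem th_cs {n : ℕ} {X : Mat n} (h : X.PosSemidef) (x y : Fin n → ℝ) :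
    th_b X x y ^ 2 ≤ th_b X x x * th_b X y y := by
  have h1 : ∀ t : ℝ, 0 ≤ th_b X x x * (t * t) + (2 * th_b X x y) * t + th_b X y y := by
    intro t
    have h2 := th_b_nonneg h (fun k => t * x k + 1 * y k)
    rw [th_b_add_left, th_b_add_right, th_b_add_right, th_b_comm h y x] at h2
    linarith
  have h3 := discrim_le_zero h1
  unfold discrim at h3
  linarith

theorem th_union {n : ℕ} (σ : Cfg n) (U V : Finset (Fin n)) (hd : Disjoint U V) :
    Th σ (U ∪ V) ≤ Th σ U + Th σ V := by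
  refine th_le_of σ _ _ (add_nonneg (th_nonneg σ U) (th_nonneg σ V)) ?_
  rintro X ⟨h1, h2, h3, h4⟩
  have hA := th_nonneg σ U
  have hB := th_nonneg σ V
  have ha : 0 ≤ ∑ i ∈ U, X i i := Finset.sum_nonneg fun i _ => h1.diag_nonneg
  have hb : 0 ≤ ∑ i ∈ V, X i i := Finset.sum_nonneg fun i _ => h1.diag_nonneg
  have hab : ∑ i ∈ U, X i i + ∑ i ∈ V, X i i = 1 := by
    rw [← h2, th_trace _ h4, Finset.sum_union hd]
  have e1 := th_block h1 h3 U
  have e2 := th_block h1 h3 V
  rw [← th_b_ind] at e1 e2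
  have e3 := th_cs h1 (th_ind U) (th_ind V)
  have e0 := th_b_nonneg h1 (th_ind U)
  have e0' := th_b_nonneg h1 (th_ind V)
  have e4 : ∑ i, ∑ j, X i j = th_b X (th_ind U) (th_ind U) + 2 * th_b X (th_ind U) (th_ind V) +
      th_b X (th_ind V) (th_ind V) := by
    have h5 : ∑ i, ∑ j, X i j = th_b X (fun k => 1 * th_ind U k + 1 * th_ind V k)
        (fun k => 1 * th_ind U k + 1 * th_ind V k) := by
      rw [th_total h1 _ h4, ← th_b_ind]
      have : th_ind (U ∪ V) = fun k => 1 * th_ind U k + 1 * th_ind V k := by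
        funext k
        unfold th_ind
        by_cases hU : k ∈ U
        · have hV : k ∉ V := Finset.disjoint_left.1 hd hU
          simp [hU, hV]
        · by_cases hV : k ∈ V <;> simp [hU, hV]
      rw [this]
    rw [h5, th_b_add_left, th_b_add_right, th_b_add_right, th_b_comm h1 (th_ind V) (th_ind U)]
    ring
  rw [e4]
  generalize ∑ i ∈ U, X i i = a at *
  generalize ∑ i ∈ V, X i i = b at *
  generalize th_b X (th_ind U) (th_ind U) = p at *
  generalize th_b X (th_ind V) (th_ind V) = q at *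
  generalize th_b X (th_ind U) (th_ind V) = r at *
  generalize Th σ U = A at *
  generalize Th σ V = B at *
  have hpq : p * q ≤ (a * A) * (b * B) := mul_le_mul e1 e2 e0' (mul_nonneg ha hA)
  have h6 : (2 * r) ^ 2 ≤ (b * A + a * B) ^ 2 := by nlinarith [sq_nonneg (b * A - a * B)]
  have h7 : 0 ≤ b * A + a * B := add_nonneg (mul_nonneg hb hA) (mul_nonneg ha hB)
  have h8 : 2 * r ≤ b * A + a * B := (le_abs_self _).trans (abs_le_of_sq_le_sq h6 h7)
  have h9 : A + B = (a + b) * A + (a + b) * B := by rw [hab]; ring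
  rw [h9]
  linarith

theorem t_TH : S_TH := by
  refine ⟨fun n σ U => ⟨th_nonneg σ U, th_le_of σ U _ (Nat.cast_nonneg _) fun X h => th_F_le h⟩,
    ?_, ?_, fun n σ U V hd => th_union σ U V hd⟩
  · intro n σ τ U h
    refine th_le_of τ U _ (th_nonneg σ U) ?_
    rintro X ⟨h1, h2, h3, h4⟩
    exact th_le_Th ⟨h1, h2, fun i j hij hs => h3 i j hij (h _ hs), h4⟩
  · intro n σ U V h
    refine th_le_of σ U _ (th_nonneg σ V) ?_
    rintro X ⟨h1, h2, h3, h4⟩
    exact th_le_Th ⟨h1, h2, h3, fun i j hi => h4 i j fun h' => hi (h h')⟩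

end Pool.Agent.H276R2.Gn
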